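import Mathlib

set_option autoImplicit false
open Set Filter Topology

namespace Pool.Agent.R188.Bes

/-- The Bessel integral `∫₀^{2π} cos (r t + a sin t) dt`. -/
noncomputable def J (r : ℤ) (a : ℝ) : ℝ := ∫ t in (0:ℝ)..(2 * Real.pi), Real.cos (r * t + a * Real.sin t)
noncomputable def K (r : ℤ) (a : ℝ) : ℝ :=
  ∫ t in (0:ℝ)..(2 * Real.pi), -(Real.sin t * Real.sin (r * t + a * Real.sin t))
noncomputable def M (r : ℤ) (a : ℝ) : ℝ :=
  ∫ t in (0:ℝ)..(2 * Real.pi), -(Real.sin t ^ 2 * Real.cos (r * t + a * Real.sin t))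

lemma hd {F F' : ℝ → ℝ → ℝ} (hF : ∀ a, Continuous (F a)) (hF' : ∀ a, Continuous (F' a))
    (hd : ∀ a t, HasDerivAt (fun a => F a t) (F' a t) a) (hb : ∀ a t, |F' a t| ≤ 1) (a : ℝ) :
    HasDerivAt (fun a => ∫ t in (0:ℝ)..(2 * Real.pi), F a t) (∫ t in (0:ℝ)..(2 * Real.pi), F' a t) a := by
  refine (intervalIntegral.hasDerivAt_integral_of_dominated_loc_of_deriv_le (s := univ)
    (bound := fun _ => 1) Filter.univ_mem ?_ ?_ ?_ ?_ ?_ ?_).2
  · exact Eventually.of_forall fun x => (hF x).aestronglyMeasurable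
  · exact (hF a).intervalIntegrable _ _
  · exact (hF' a).aestronglyMeasurable
  · exact Eventually.of_forall fun t _ x _ => by rw [Real.norm_eq_abs]; exact hb x t
  · exact intervalIntegrable_const
  · exact Eventually.of_forall fun t _ x _ => hd x t

lemma hdJ (r : ℤ) (a : ℝ) : HasDerivAt (J r) (K r a) a := by
  refine hd (F := fun a t => Real.cos (r * t + a * Real.sin t))
    (F' := fun a t => -(Real.sin t * Real.sin (r * t + a * Real.sin t))) ?_ ?_ ?_ ?_ a
  · intro a; fun_prop
  · intro a; fun_prop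
  · intro a t
    have h1 : HasDerivAt (fun a => (r : ℝ) * t + a * Real.sin t) (Real.sin t) a := by
      have := ((hasDerivAt_id a).mul_const (Real.sin t)).const_add ((r : ℝ) * t)
      simpa using this
    have h2 := h1.cos
    refine h2.congr_deriv ?_
    ring
  · intro a t
    rw [abs_neg, abs_mul]
    have h1 := Real.abs_sin_le_one t
    have h2 := Real.abs_sin_le_one (r * t + a * Real.sin t)
    have h3 := abs_nonneg (Real.sin t)
    have h4 := abs_nonneg (Real.sin (r * t + a * Real.sin t))
    nlinarith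

lemma hdK (r : ℤ) (a : ℝ) : HasDerivAt (K r) (M r a) a := by
  refine hd (F := fun a t => -(Real.sin t * Real.sin (r * t + a * Real.sin t)))
    (F' := fun a t => -(Real.sin t ^ 2 * Real.cos (r * t + a * Real.sin t))) ?_ ?_ ?_ ?_ a
  · intro a; fun_prop
  · intro a; fun_prop
  · intro a t
    have h1 : HasDerivAt (fun a => (r : ℝ) * t + a * Real.sin t) (Real.sin t) a := by
      have := ((hasDerivAt_id a).mul_const (Real.sin t)).const_add ((r : ℝ) * t)
      simpa using this
    have h2 := (h1.sin.const_mul (Real.sin t)).neg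
    refine h2.congr_deriv ?_
    ring
  · intro a t
    rw [abs_neg, abs_mul]
    have h1 : |Real.sin t ^ 2| ≤ 1 := by
      rw [abs_pow]
      exact pow_le_one₀ (abs_nonneg _) (Real.abs_sin_le_one t)
    have h2 := Real.abs_cos_le_one (r * t + a * Real.sin t)
    have h3 := abs_nonneg (Real.sin t ^ 2)
    have h4 := abs_nonneg (Real.cos (r * t + a * Real.sin t))
    nlinarith

/-- Bessel's equation. -/
lemma bessel (r : ℤ) (a : ℝ) : a ^ 2 * M r a + a * K r a + (a ^ 2 - r ^ 2) * J r a = 0 := by
  have h1 : ∀ t : ℝ, HasDerivAt (fun t => (a * Real.cos t - r) * Real.sin (r * t + a * Real.sin t))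
      (-(a ^ 2 * (Real.sin t ^ 2 * Real.cos (r * t + a * Real.sin t))) +
        -(a * (Real.sin t * Real.sin (r * t + a * Real.sin t))) +
        (a ^ 2 - r ^ 2) * Real.cos (r * t + a * Real.sin t)) t := by
    intro t
    have h1 : HasDerivAt (fun t : ℝ => (r : ℝ) * t + a * Real.sin t) (r + a * Real.cos t) t := by
      exact (((hasDerivAt_id t).const_mul (r : ℝ)).add ((Real.hasDerivAt_sin t).const_mul a)).congr_deriv
        (by simp)
    have h2 : HasDerivAt (fun t : ℝ => a * Real.cos t - r) (-(a * Real.sin t)) t := by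
      have := ((Real.hasDerivAt_cos t).const_mul a).sub_const (r : ℝ)
      simpa using this
    refine (h2.mul h1.sin).congr_deriv ?_
    have h3 := Real.sin_sq_add_cos_sq t
    have h4 : Real.sin t ^ 2 = 1 - Real.cos t ^ 2 := by linarith
    rw [h4]; ring
  have h2 := intervalIntegral.integral_eq_sub_of_hasDerivAt (a := 0) (b := 2 * Real.pi)
    (fun t _ => h1 t) (by
      apply Continuous.intervalIntegrable
      fun_prop)
  have e1 : Real.sin (r * (2 * Real.pi) + a * Real.sin (2 * Real.pi)) = 0 := by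
    rw [Real.sin_two_pi, mul_zero, add_zero, show (r : ℝ) * (2 * Real.pi) = ((2 * r : ℤ) : ℝ) * Real.pi by
      push_cast; ring]
    exact Real.sin_int_mul_pi _
  simp only [e1, mul_zero, Real.sin_zero, add_zero, sub_zero] at h2
  rw [intervalIntegral.integral_add, intervalIntegral.integral_add,
    intervalIntegral.integral_const_mul] at h2
  · rw [J, K, M]
    rw [intervalIntegral.integral_neg, intervalIntegral.integral_const_mul] at h2
    rw [intervalIntegral.integral_neg, intervalIntegral.integral_const_mul] at h2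
    rw [intervalIntegral.integral_neg, intervalIntegral.integral_neg]
    linarith
  all_goals
    apply Continuous.intervalIntegrable
    fun_prop

lemma cont_J (r : ℤ) : Continuous (J r) :=
  continuous_iff_continuousAt.2 fun a => (hdJ r a).continuousAt

/-- Recurrences. -/
lemma rec1 (r : ℤ) (a : ℝ) : 2 * K r a = J (r + 1) a - J (r - 1) a := by
  rw [J, J, K, ← intervalIntegral.integral_sub, ← intervalIntegral.integral_const_mul]
  · apply intervalIntegral.integral_congr
    intro t _
    simp only
    push_cast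
    rw [show ((r:ℝ) + 1) * t + a * Real.sin t = (r * t + a * Real.sin t) + t by ring,
      show ((r:ℝ) - 1) * t + a * Real.sin t = (r * t + a * Real.sin t) - t by ring,
      Real.cos_add, Real.cos_sub]
    ring
  all_goals
    apply Continuous.intervalIntegrable
    fun_prop

lemma rec2 (r : ℤ) (a : ℝ) : 2 * r * J r a + a * (J (r + 1) a + J (r - 1) a) = 0 := by
  have h1 : ∀ t : ℝ, HasDerivAt (fun t => 2 * Real.sin (r * t + a * Real.sin t))
      (2 * r * Real.cos (r * t + a * Real.sin t) +
        a * (2 * Real.cos t * Real.cos (r * t + a * Real.sin t))) t := by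
    intro t
    have h1 : HasDerivAt (fun t : ℝ => (r : ℝ) * t + a * Real.sin t) (r + a * Real.cos t) t := by
      exact (((hasDerivAt_id t).const_mul (r : ℝ)).add ((Real.hasDerivAt_sin t).const_mul a)).congr_deriv
        (by simp)
    refine (h1.sin.const_mul 2).congr_deriv ?_
    ring
  have h2 := intervalIntegral.integral_eq_sub_of_hasDerivAt (a := 0) (b := 2 * Real.pi)
    (fun t _ => h1 t) (by
      apply Continuous.intervalIntegrable
      fun_prop)
  have e1 : Real.sin (r * (2 * Real.pi) + a * Real.sin (2 * Real.pi)) = 0 := by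
    rw [Real.sin_two_pi, mul_zero, add_zero, show (r : ℝ) * (2 * Real.pi) = ((2 * r : ℤ) : ℝ) * Real.pi by
      push_cast; ring]
    exact Real.sin_int_mul_pi _
  simp only [e1, mul_zero, Real.sin_zero, add_zero, sub_zero] at h2
  rw [intervalIntegral.integral_add, intervalIntegral.integral_const_mul,
    intervalIntegral.integral_const_mul] at h2
  · have h3 : J (r + 1) a + J (r - 1) a =
        ∫ t in (0:ℝ)..(2 * Real.pi), 2 * Real.cos t * Real.cos (r * t + a * Real.sin t) := by
      rw [J, J, ← intervalIntegral.integral_add]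
      · apply intervalIntegral.integral_congr
        intro t _
        simp only
        push_cast
        rw [show ((r:ℝ) + 1) * t + a * Real.sin t = (r * t + a * Real.sin t) + t by ring,
          show ((r:ℝ) - 1) * t + a * Real.sin t = (r * t + a * Real.sin t) - t by ring,
          Real.cos_add, Real.cos_sub]
        ring
      all_goals
        apply Continuous.intervalIntegrable
        fun_prop
    rw [h3]
    exact h2
  all_goals
    apply Continuous.intervalIntegrable
    fun_prop

lemma J_zero_zero : J 0 0 = 2 * Real.pi := by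
  rw [J]; simp

lemma all_zero {r : ℤ} {a : ℝ} (ha : 0 < a) (h1 : J r a = 0) (h2 : J (r + 1) a = 0) (k : ℤ) :
    J k a = 0 := by
  have up : ∀ m : ℕ, J (r + m) a = 0 ∧ J (r + m + 1) a = 0 := by
    intro m
    induction m with
    | zero => simpa using ⟨h1, h2⟩
    | succ m ih =>
      have h3 := rec2 (r + m + 1) a
      rw [show r + (m:ℤ) + 1 - 1 = r + m by ring, ih.1, ih.2] at h3
      have h4 : J (r + m + 1 + 1) a = 0 := by
        have : a * J (r + m + 1 + 1) a = 0 := by linarith
        exact (mul_eq_zero.1 this).resolve_left ha.ne'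
      push_cast
      exact ⟨by rw [← add_assoc]; exact ih.2, by rw [← add_assoc]; exact h4⟩
  have down : ∀ m : ℕ, J (r - m) a = 0 ∧ J (r - m + 1) a = 0 := by
    intro m
    induction m with
    | zero => simpa using ⟨h1, h2⟩
    | succ m ih =>
      have h3 := rec2 (r - m) a
      rw [ih.1, ih.2] at h3
      have h4 : J (r - m - 1) a = 0 := by
        have : a * J (r - m - 1) a = 0 := by linarith
        exact (mul_eq_zero.1 this).resolve_left ha.ne'
      push_cast
      exact ⟨by rw [show r - ((m:ℤ) + 1) = r - m - 1 by ring]; exact h4,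
        by rw [show r - ((m:ℤ) + 1) + 1 = r - m by ring]; exact ih.1⟩
  rcases le_total r k with h | h
  · have := (up (k - r).toNat).1
    rwa [Int.toNat_of_nonneg (by omega), add_sub_cancel] at this
  · have := (down (r - k).toNat).1
    rwa [Int.toNat_of_nonneg (by omega), sub_sub_cancel] at this

lemma zero_case {a₀ : ℝ} (ha₀ : 0 < a₀) (h1 : J 0 a₀ = 0) (h2 : K 0 a₀ = 0) : False := by
  have hG : ∀ a : ℝ, HasDerivAt (fun a => a ^ 2 * (J 0 a ^ 2 + K 0 a ^ 2)) (2 * a * J 0 a ^ 2) a := by
    intro a
    have h3 := ((hasDerivAt_id a).pow 2).mul (((hdJ 0 a).pow 2).add ((hdK 0 a).pow 2))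
    refine h3.congr_deriv ?_
    have h4 := bessel 0 a
    simp only [Pi.pow_apply, Pi.add_apply, id]
    push_cast at h4 ⊢
    linear_combination (2 * K 0 a) * h4
  have hc : Continuous (J 0) := cont_J 0
  have h3 : ∀ᶠ a in 𝓝[>] (0:ℝ), 0 < J 0 a := by
    have : Tendsto (J 0) (𝓝[>] 0) (𝓝 (2 * Real.pi)) := by
      have h5 := hc.tendsto 0
      rw [J_zero_zero] at h5
      exact h5.mono_left nhdsWithin_le_nhds
    exact this.eventually_const_lt (by positivity)
  obtain ⟨a, ha, ha1, ha2⟩ := (h3.and (Ioo_mem_nhdsGT ha₀)).exists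
  have h4 : MonotoneOn (fun a => a ^ 2 * (J 0 a ^ 2 + K 0 a ^ 2)) (Ici 0) := by
    apply monotoneOn_of_deriv_nonneg (convex_Ici 0)
    · exact (continuous_iff_continuousAt.2 fun a => (hG a).continuousAt).continuousOn
    · exact fun a _ => (hG a).differentiableAt.differentiableWithinAt
    · intro x hx
      rw [(hG x).deriv]
      rw [interior_Ici] at hx
      have : (0:ℝ) < x := hx
      positivity
  have h5 := h4 (mem_Ici.2 ha1.le) (mem_Ici.2 ha₀.le) ha2.le
  simp only [h1, h2] at h5
  have : 0 < a ^ 2 * (J 0 a ^ 2 + K 0 a ^ 2) := by positivity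
  linarith

/-- `J r` does not vanish identically on any ray. -/
lemma not_zero (r : ℤ) {a₀ : ℝ} (ha₀ : 0 < a₀) (h1 : J r a₀ = 0) (h2 : K r a₀ = 0) : False := by
  have h3 := rec1 r a₀
  have h4 := rec2 r a₀
  rw [h2] at h3
  rw [h1] at h4
  have h5 : J (r + 1) a₀ = 0 := by
    have : a₀ * J (r + 1) a₀ = 0 := by linear_combination h4 / 2 - a₀ / 2 * h3
    exact (mul_eq_zero.1 this).resolve_left ha₀.ne'
  have h6 := all_zero ha₀ h1 h5
  refine zero_case ha₀ (h6 0) ?_
  have := rec1 0 a₀
  rw [h6, h6] at this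
  linarith

noncomputable def U (r : ℤ) (a : ℝ) : ℝ := Real.sqrt a * J r a
noncomputable def V (r : ℤ) (a : ℝ) : ℝ := J r a / (2 * Real.sqrt a) + Real.sqrt a * K r a

lemma hdU (r : ℤ) {a : ℝ} (ha : 0 < a) : HasDerivAt (U r) (V r a) a := by
  refine ((Real.hasDerivAt_sqrt ha.ne').mul (hdJ r a)).congr_deriv ?_
  rw [V]; ring

lemma hdV (r : ℤ) {a : ℝ} (ha : 0 < a) :
    HasDerivAt (V r) (-U r a + (r ^ 2 - 1 / 4) / a ^ 2 * U r a) a := by
  have hs : 0 < Real.sqrt a := Real.sqrt_pos.2 ha
  have h0 : HasDerivAt (fun a => 2 * Real.sqrt a) (1 / Real.sqrt a) a := by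
    refine ((Real.hasDerivAt_sqrt ha.ne').const_mul 2).congr_deriv ?_
    field_simp
  have h1 := ((hdJ r a).div h0 (by positivity)).add ((Real.hasDerivAt_sqrt ha.ne').mul (hdK r a))
  refine h1.congr_deriv ?_
  have h2 := bessel r a
  have h3 : a = Real.sqrt a ^ 2 := (Real.sq_sqrt ha.le).symm
  rw [U]
  generalize Real.sqrt a = s at hs h3 ⊢
  subst h3
  generalize J r (s ^ 2) = j at h2 ⊢
  generalize K r (s ^ 2) = k at h2 ⊢
  generalize M r (s ^ 2) = m at h2 ⊢
  field_simp
  linear_combination (16:ℝ) * h2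

end Pool.Agent.R188.Bes
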