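import Pool.Agent.R188.Bes

set_option autoImplicit false
open Set Filter Topology

namespace Pool.Agent.R188.Bes

/-- Rotated coordinates. -/
noncomputable def p (r : ℤ) (a : ℝ) : ℝ := U r a * Real.cos a - V r a * Real.sin a
noncomputable def q (r : ℤ) (a : ℝ) : ℝ := U r a * Real.sin a + V r a * Real.cos a

lemma U_eq (r : ℤ) (a : ℝ) : U r a = p r a * Real.cos a + q r a * Real.sin a := by
  have := Real.sin_sq_add_cos_sq a
  rw [p, q]; linear_combination (-U r a) * this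

lemma norm_eq (r : ℤ) (a : ℝ) : p r a ^ 2 + q r a ^ 2 = U r a ^ 2 + V r a ^ 2 := by
  have := Real.sin_sq_add_cos_sq a
  rw [p, q]; linear_combination (U r a ^ 2 + V r a ^ 2) * this

lemma hdp (r : ℤ) {a : ℝ} (ha : 0 < a) :
    HasDerivAt (p r) (-((r ^ 2 - 1 / 4) / a ^ 2 * U r a * Real.sin a)) a := by
  refine (((hdU r ha).mul (Real.hasDerivAt_cos a)).sub ((hdV r ha).mul (Real.hasDerivAt_sin a))).congr_deriv ?_
  ring

lemma hdq (r : ℤ) {a : ℝ} (ha : 0 < a) :
    HasDerivAt (q r) ((r ^ 2 - 1 / 4) / a ^ 2 * U r a * Real.cos a) a := by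
  refine (((hdU r ha).mul (Real.hasDerivAt_sin a)).add ((hdV r ha).mul (Real.hasDerivAt_cos a))).congr_deriv ?_
  ring

noncomputable def N (r : ℤ) (a : ℝ) : ℝ := U r a ^ 2 + V r a ^ 2

lemma hdN (r : ℤ) {a : ℝ} (ha : 0 < a) :
    HasDerivAt (N r) (2 * ((r ^ 2 - 1 / 4) / a ^ 2) * (U r a * V r a)) a := by
  refine (((hdU r ha).pow 2).add ((hdV r ha).pow 2)).congr_deriv ?_
  simp only [Nat.cast_ofNat, Nat.add_one_sub_one, pow_one]
  ring

lemma N_one_pos (r : ℤ) : 0 < N r 1 := by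
  by_contra h
  have h1 : U r 1 ^ 2 + V r 1 ^ 2 ≤ 0 := by simpa [N] using h
  have hU : U r 1 = 0 := by nlinarith [sq_nonneg (U r 1), sq_nonneg (V r 1)]
  have hV : V r 1 = 0 := by nlinarith [sq_nonneg (U r 1), sq_nonneg (V r 1)]
  rw [U, Real.sqrt_one, one_mul] at hU
  rw [V, Real.sqrt_one, hU] at hV
  exact not_zero r one_pos hU (by linarith)

lemma coef_le (r : ℤ) : |(r:ℝ) ^ 2 - 1 / 4| ≤ (r:ℝ) ^ 2 + 1 := by
  rw [abs_le]
  constructor <;> nlinarith [sq_nonneg (r:ℝ)]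

lemma dN_le (r : ℤ) {a : ℝ} (ha : 0 < a) :
    |2 * ((r ^ 2 - 1 / 4) / a ^ 2) * (U r a * V r a)| ≤ (r ^ 2 + 1) / a ^ 2 * N r a := by
  have h1 : |2 * ((r ^ 2 - 1 / 4) / a ^ 2) * (U r a * V r a)| =
      |(r:ℝ) ^ 2 - 1 / 4| / a ^ 2 * (2 * |U r a| * |V r a|) := by
    rw [abs_mul, abs_mul, abs_div, abs_mul, abs_of_pos (show (0:ℝ) < a ^ 2 by positivity)]
    rw [abs_of_pos (show (0:ℝ) < 2 by norm_num)]
    ring
  rw [h1, N]
  apply mul_le_mul
  · exact div_le_div_of_nonneg_right (coef_le r) (by positivity)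
  · nlinarith [sq_abs (U r a), sq_abs (V r a), sq_nonneg (|U r a| - |V r a|)]
  · positivity
  · positivity

lemma N_lower (r : ℤ) {a : ℝ} (ha : 1 ≤ a) : N r 1 * Real.exp (-((r:ℝ) ^ 2 + 1)) ≤ N r a := by
  set C : ℝ := (r:ℝ) ^ 2 + 1 with hC
  have hC0 : 0 < C := by positivity
  have hd : ∀ x : ℝ, 0 < x → HasDerivAt (fun x => N r x * Real.exp (-(C / x)))
      ((2 * ((r ^ 2 - 1 / 4) / x ^ 2) * (U r x * V r x) + C / x ^ 2 * N r x) * Real.exp (-(C / x))) x := by
    intro x hx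
    have h1 : HasDerivAt (fun x : ℝ => -(C / x)) (C / x ^ 2) x := by
      have := ((hasDerivAt_inv hx.ne').const_mul C).neg
      refine HasDerivAt.congr_deriv (f := fun x => -(C / x)) ?_ (f' := -(C * -(x ^ 2)⁻¹)) (by field_simp)
      exact this
    refine ((hdN r hx).mul h1.exp).congr_deriv ?_
    ring
  have h4 : MonotoneOn (fun x => N r x * Real.exp (-(C / x))) (Ici 1) := by
    apply monotoneOn_of_deriv_nonneg (convex_Ici 1)
    · exact fun x hx => (hd x (lt_of_lt_of_le one_pos hx)).continuousAt.continuousWithinAt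
    · intro x hx
      rw [interior_Ici] at hx
      exact (hd x (one_pos.trans hx)).differentiableAt.differentiableWithinAt
    · intro x hx
      rw [interior_Ici] at hx
      have hx0 : 0 < x := one_pos.trans hx
      rw [(hd x hx0).deriv]
      have h5 := dN_le r hx0
      rw [abs_le] at h5
      apply mul_nonneg _ (Real.exp_pos _).le
      linarith [h5.1]
  have h5 := h4 (mem_Ici.2 le_rfl) (mem_Ici.2 ha) ha
  simp only [div_one] at h5
  refine h5.trans ?_
  have h6 : Real.exp (-(C / a)) ≤ 1 := by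
    rw [Real.exp_le_one_iff]
    have : 0 < C / a := by positivity
    linarith
  have h7 : 0 ≤ N r a := by rw [N]; positivity
  nlinarith

lemma N_upper (r : ℤ) {a : ℝ} (ha : 1 ≤ a) : N r a ≤ N r 1 * Real.exp ((r:ℝ) ^ 2 + 1) := by
  set C : ℝ := (r:ℝ) ^ 2 + 1 with hC
  have hC0 : 0 < C := by positivity
  have hd : ∀ x : ℝ, 0 < x → HasDerivAt (fun x => N r x * Real.exp (C / x))
      ((2 * ((r ^ 2 - 1 / 4) / x ^ 2) * (U r x * V r x) - C / x ^ 2 * N r x) * Real.exp (C / x)) x := by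
    intro x hx
    have h1 : HasDerivAt (fun x : ℝ => (C / x)) (-(C / x ^ 2)) x := by
      have := ((hasDerivAt_inv hx.ne').const_mul C)
      refine HasDerivAt.congr_deriv (f := fun x => (C / x)) ?_ (f' := (C * -(x ^ 2)⁻¹)) (by field_simp)
      exact this
    refine ((hdN r hx).mul h1.exp).congr_deriv ?_
    ring
  have h4 : AntitoneOn (fun x => N r x * Real.exp (C / x)) (Ici 1) := by
    apply antitoneOn_of_deriv_nonpos (convex_Ici 1)
    · exact fun x hx => (hd x (lt_of_lt_of_le one_pos hx)).continuousAt.continuousWithinAt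
    · intro x hx
      rw [interior_Ici] at hx
      exact (hd x (one_pos.trans hx)).differentiableAt.differentiableWithinAt
    · intro x hx
      rw [interior_Ici] at hx
      have hx0 : 0 < x := one_pos.trans hx
      rw [(hd x hx0).deriv]
      have h5 := dN_le r hx0
      rw [abs_le] at h5
      apply mul_nonpos_of_nonpos_of_nonneg _ (Real.exp_pos _).le
      linarith [h5.2]
  have h5 := h4 (mem_Ici.2 le_rfl) (mem_Ici.2 ha) ha
  simp only [div_one] at h5
  refine le_trans ?_ h5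
  have h6 : 1 ≤ Real.exp (C / a) := by
    rw [Real.one_le_exp_iff]
    positivity
  have h7 : 0 ≤ N r a := by rw [N]; positivity
  nlinarith

lemma U_le (r : ℤ) {a : ℝ} (ha : 1 ≤ a) : |U r a| ≤ Real.sqrt (N r 1 * Real.exp ((r:ℝ) ^ 2 + 1)) := by
  apply Real.le_sqrt_of_sq_le
  rw [sq_abs]
  refine le_trans ?_ (N_upper r ha)
  rw [N]; nlinarith [sq_nonneg (V r a)]

/-- The rotated coordinates are nearly constant. -/
lemma pq_close (r : ℤ) : ∃ D, 0 < D ∧ ∀ A a : ℝ, 1 ≤ A → A ≤ a → a ≤ A + 2 * Real.pi →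
    |p r a - p r A| ≤ D / A ∧ |q r a - q r A| ≤ D / A := by
  set W := Real.sqrt (N r 1 * Real.exp ((r:ℝ) ^ 2 + 1)) with hW
  have hW0 : 0 ≤ W := Real.sqrt_nonneg _
  refine ⟨((r:ℝ) ^ 2 + 1) * (W + 1) * (2 * Real.pi), by positivity, ?_⟩
  intro A a hA ha1 ha2
  have key : ∀ x ∈ Icc A a, |(r ^ 2 - 1 / 4) / x ^ 2 * U r x| ≤ ((r:ℝ) ^ 2 + 1) * (W + 1) / A := by
    intro x hx
    have hx1 : 1 ≤ x := hA.trans hx.1
    rw [abs_mul, abs_div, abs_of_pos (show (0:ℝ) < x ^ 2 by positivity)]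
    have h1 : |(r:ℝ) ^ 2 - 1 / 4| / x ^ 2 ≤ ((r:ℝ) ^ 2 + 1) / A := by
      apply div_le_div₀ (by positivity) (coef_le r) (by positivity)
      nlinarith [hx.1]
    have h2 : |U r x| ≤ W + 1 := (U_le r hx1).trans (by linarith)
    calc _ ≤ ((r:ℝ) ^ 2 + 1) / A * (W + 1) := mul_le_mul h1 h2 (abs_nonneg _) (by positivity)
      _ = _ := by ring
  have hlen : |a - A| ≤ 2 * Real.pi := by rw [abs_of_nonneg (by linarith)]; linarith
  constructor
  · have h1 := Convex.norm_image_sub_le_of_norm_hasDerivWithin_le (f := p r) (s := Icc A a) (x := A) (y := a)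
      (C := ((r:ℝ) ^ 2 + 1) * (W + 1) / A)
      (fun x hx => (hdp r (by linarith [hx.1])).hasDerivWithinAt) (fun x hx => by
        rw [Real.norm_eq_abs, abs_neg, abs_mul]
        have := key x hx
        have h3 := Real.abs_sin_le_one x
        have h4 := abs_nonneg ((r ^ 2 - 1 / 4) / x ^ 2 * U r x)
        nlinarith [abs_nonneg (Real.sin x)]) (convex_Icc _ _) (left_mem_Icc.2 ha1) (right_mem_Icc.2 ha1)
    rw [Real.norm_eq_abs, Real.norm_eq_abs] at h1
    refine h1.trans ?_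
    rw [show ((r:ℝ) ^ 2 + 1) * (W + 1) * (2 * Real.pi) / A = ((r:ℝ) ^ 2 + 1) * (W + 1) / A * (2 * Real.pi) by ring]
    exact mul_le_mul_of_nonneg_left hlen (by positivity)
  · have h1 := Convex.norm_image_sub_le_of_norm_hasDerivWithin_le (f := q r) (s := Icc A a) (x := A) (y := a)
      (C := ((r:ℝ) ^ 2 + 1) * (W + 1) / A)
      (fun x hx => (hdq r (by linarith [hx.1])).hasDerivWithinAt) (fun x hx => by
        rw [Real.norm_eq_abs, abs_mul]
        have := key x hx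
        have h3 := Real.abs_cos_le_one x
        have h4 := abs_nonneg ((r ^ 2 - 1 / 4) / x ^ 2 * U r x)
        nlinarith [abs_nonneg (Real.cos x)]) (convex_Icc _ _) (left_mem_Icc.2 ha1) (right_mem_Icc.2 ha1)
    rw [Real.norm_eq_abs, Real.norm_eq_abs] at h1
    refine h1.trans ?_
    rw [show ((r:ℝ) ^ 2 + 1) * (W + 1) * (2 * Real.pi) / A = ((r:ℝ) ^ 2 + 1) * (W + 1) / A * (2 * Real.pi) by ring]
    exact mul_le_mul_of_nonneg_left hlen (by positivity)

/-- An angle with prescribed cosine and sine in a prescribed period. -/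
lemma angle {x y : ℝ} (A : ℝ) : ∃ a, A ≤ a ∧ a ≤ A + 2 * Real.pi ∧
    x * Real.cos a + y * Real.sin a = Real.sqrt (x ^ 2 + y ^ 2) := by
  obtain ⟨θ, hθ⟩ : ∃ θ : ℝ, x * Real.cos θ + y * Real.sin θ = Real.sqrt (x ^ 2 + y ^ 2) := by
    by_cases h : (⟨x, y⟩ : ℂ) = 0
    · have hx : x = 0 := congrArg Complex.re h
      have hy : y = 0 := congrArg Complex.im h
      exact ⟨0, by simp [hx, hy]⟩
    · refine ⟨Complex.arg ⟨x, y⟩, ?_⟩
      rw [Complex.cos_arg h, Complex.sin_arg]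
      have h1 : ‖(⟨x, y⟩ : ℂ)‖ = Real.sqrt (x ^ 2 + y ^ 2) := by
        rw [Complex.norm_eq_sqrt_sq_add_sq]
      rw [← h1]
      have h2 : ‖(⟨x, y⟩ : ℂ)‖ ≠ 0 := by simpa using h
      have h3 : ‖(⟨x, y⟩ : ℂ)‖ ^ 2 = x ^ 2 + y ^ 2 := by
        rw [h1, Real.sq_sqrt (by positivity)]
      simp only
      field_simp
      linarith
  have hp := Real.two_pi_pos
  refine ⟨toIcoMod hp A θ, (toIcoMod_mem_Ico hp A θ).1, (toIcoMod_mem_Ico hp A θ).2.le, ?_⟩
  rw [toIcoMod, zsmul_eq_mul, Real.cos_sub_int_mul_two_pi, Real.sin_sub_int_mul_two_pi]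
  exact hθ

theorem osc (r : ℤ) : ∃ c, 0 < c ∧ ∀ A₀ : ℝ, (∃ a, A₀ ≤ a ∧ 1 ≤ a ∧ c ≤ Real.sqrt a * J r a) ∧
    (∃ a, A₀ ≤ a ∧ 1 ≤ a ∧ Real.sqrt a * J r a ≤ -c) := by
  obtain ⟨D, hD0, hD⟩ := pq_close r
  set n0 := N r 1 * Real.exp (-((r:ℝ) ^ 2 + 1)) with hn0
  have hn0p : 0 < n0 := mul_pos (N_one_pos r) (Real.exp_pos _)
  have hs : 0 < Real.sqrt n0 := Real.sqrt_pos.2 hn0p
  refine ⟨Real.sqrt n0 / 2, by positivity, fun A₀ => ?_⟩
  set A := max (max 1 A₀) (4 * D / Real.sqrt n0) with hA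
  have hA1 : 1 ≤ A := (le_max_left _ _).trans (le_max_left _ _)
  have hA2 : A₀ ≤ A := (le_max_right _ _).trans (le_max_left _ _)
  have hA3 : 4 * D / Real.sqrt n0 ≤ A := le_max_right _ _
  have hDA : D / A ≤ Real.sqrt n0 / 4 := by
    rw [div_le_iff₀ hs] at hA3
    rw [div_le_iff₀ (by linarith)]
    linarith
  have hN : Real.sqrt n0 ≤ Real.sqrt (p r A ^ 2 + q r A ^ 2) := by
    apply Real.sqrt_le_sqrt
    rw [norm_eq]
    exact N_lower r hA1
  have est : ∀ a, A ≤ a → a ≤ A + 2 * Real.pi →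
      |U r a - (p r A * Real.cos a + q r A * Real.sin a)| ≤ Real.sqrt n0 / 2 := by
    intro a h1 h2
    obtain ⟨h3, h4⟩ := hD A a hA1 h1 h2
    rw [U_eq, show p r a * Real.cos a + q r a * Real.sin a - (p r A * Real.cos a + q r A * Real.sin a) =
      (p r a - p r A) * Real.cos a + (q r a - q r A) * Real.sin a by ring]
    refine (abs_add_le _ _).trans ?_
    rw [abs_mul, abs_mul]
    have h5 := Real.abs_sin_le_one a
    have h6 := Real.abs_cos_le_one a
    have h7 := abs_nonneg (p r a - p r A)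
    have h8 := abs_nonneg (q r a - q r A)
    nlinarith
  constructor
  · obtain ⟨a, ha1, ha2, ha3⟩ := angle (x := p r A) (y := q r A) A
    have h1 := est a ha1 ha2
    rw [ha3, abs_le] at h1
    refine ⟨a, hA2.trans ha1, hA1.trans ha1, ?_⟩
    change Real.sqrt n0 / 2 ≤ U r a
    linarith [h1.1]
  · obtain ⟨a, ha1, ha2, ha3⟩ := angle (x := -p r A) (y := -q r A) A
    have h1 := est a ha1 ha2
    rw [neg_sq, neg_sq] at ha3
    rw [abs_le] at h1
    refine ⟨a, hA2.trans ha1, hA1.trans ha1, ?_⟩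
    change U r a ≤ -(Real.sqrt n0 / 2)
    linarith [h1.2]

end Pool.Agent.R188.Bes
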