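import Pool.Agent.R188.Bes

set_option autoImplicit false
open Set Filter Topology

namespace Pool.Agent.R188.Bes

/-! ### Taylor bounds -/

lemma exp_sum_parts (y : ℝ) (M : ℕ) :
    (∑ m ∈ Finset.range (2 * M), ((y : ℂ) * Complex.I) ^ m / (m.factorial : ℂ)) =
      ((∑ k ∈ Finset.range M, (-1) ^ k * y ^ (2 * k) / ((2 * k).factorial : ℝ) : ℝ) : ℂ) +
      ((∑ k ∈ Finset.range M, (-1) ^ k * y ^ (2 * k + 1) / ((2 * k + 1).factorial : ℝ) : ℝ) : ℂ) * Complex.I := by
  induction M with
  | zero => simp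
  | succ M ih =>
    rw [show 2 * (M + 1) = 2 * M + 1 + 1 by ring, Finset.sum_range_succ, Finset.sum_range_succ, ih,
      Finset.sum_range_succ, Finset.sum_range_succ]
    have h1 : ((y : ℂ) * Complex.I) ^ (2 * M) = (-1) ^ M * (y : ℂ) ^ (2 * M) := by
      rw [mul_pow, pow_mul Complex.I, Complex.I_sq]; ring
    have h2 : ((y : ℂ) * Complex.I) ^ (2 * M + 1) = (-1) ^ M * (y : ℂ) ^ (2 * M + 1) * Complex.I := by
      rw [pow_succ, h1]; ring
    rw [h1, h2]
    push_cast
    ring

lemma trig_taylor (y : ℝ) (M : ℕ) (h : |y| / (2 * M + 1) ≤ 1 / 2) :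
    |Real.cos y - ∑ k ∈ Finset.range M, (-1) ^ k * y ^ (2 * k) / ((2 * k).factorial : ℝ)| ≤
      |y| ^ (2 * M) / ((2 * M).factorial : ℝ) * 2 ∧
    |Real.sin y - ∑ k ∈ Finset.range M, (-1) ^ k * y ^ (2 * k + 1) / ((2 * k + 1).factorial : ℝ)| ≤
      |y| ^ (2 * M) / ((2 * M).factorial : ℝ) * 2 := by
  have hn : ‖(y : ℂ) * Complex.I‖ = |y| := by simp
  have h1 := Complex.exp_bound' (x := (y : ℂ) * Complex.I) (n := 2 * M) (by
    rw [hn]; push_cast; exact h)
  rw [hn, exp_sum_parts] at h1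
  generalize (∑ k ∈ Finset.range M, (-1) ^ k * y ^ (2 * k) / ((2 * k).factorial : ℝ)) = A at h1 ⊢
  generalize (∑ k ∈ Finset.range M, (-1) ^ k * y ^ (2 * k + 1) / ((2 * k + 1).factorial : ℝ)) = B at h1 ⊢
  constructor
  · refine le_trans ?_ ((Complex.abs_re_le_norm _).trans h1)
    apply le_of_eq
    congr 1
    simp [Complex.exp_ofReal_mul_I_re]
  · refine le_trans ?_ ((Complex.abs_im_le_norm _).trans h1)
    apply le_of_eq
    congr 1
    simp [Complex.exp_ofReal_mul_I_im]

/-! ### Moments of the sine -/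

noncomputable def w (k : ℕ) : ℝ := ∏ i ∈ Finset.range k, (2 * (i : ℝ) + 1) / (2 * i + 2)

lemma moment (k : ℕ) : ∫ t in (0:ℝ)..(2 * Real.pi), Real.sin t ^ (2 * k) = 2 * Real.pi * w k := by
  have hc : ∀ a b : ℝ, IntervalIntegrable (fun t => Real.sin t ^ (2 * k)) MeasureTheory.volume a b := fun a b =>
    Continuous.intervalIntegrable (by fun_prop) _ _
  rw [← intervalIntegral.integral_add_adjacent_intervals (b := Real.pi) (hc _ _) (hc _ _)]
  have h2 : ∫ t in Real.pi..(2 * Real.pi), Real.sin t ^ (2 * k) =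
      ∫ t in (0:ℝ)..Real.pi, Real.sin t ^ (2 * k) := by
    have h3 := intervalIntegral.integral_comp_add_right (a := 0) (b := Real.pi)
      (fun t => Real.sin t ^ (2 * k)) Real.pi
    rw [show (0:ℝ) + Real.pi = Real.pi by ring, show Real.pi + Real.pi = 2 * Real.pi by ring] at h3
    rw [← h3]
    apply intervalIntegral.integral_congr
    intro t _
    simp only
    rw [Real.sin_add_pi, pow_mul, neg_sq, ← pow_mul]
  rw [h2, integral_sin_pow_even, w]
  ring

lemma abs_int_le {f : ℝ → ℝ} {C : ℝ} (h : ∀ t, |f t| ≤ C) :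
    |∫ t in (0:ℝ)..(2 * Real.pi), f t| ≤ 2 * Real.pi * C := by
  have h1 := intervalIntegral.norm_integral_le_of_norm_le_const (a := 0) (b := 2 * Real.pi) (f := f) (C := C)
    (fun t _ => h t)
  rw [Real.norm_eq_abs, sub_zero, abs_of_pos Real.two_pi_pos] at h1
  linarith

lemma sym (a : ℝ) : J (-1) a = -J 1 a := by
  have h := rec2 0 a
  rcases eq_or_ne a 0 with h0 | h0
  · subst h0
    have e : ∀ r : ℤ, r ≠ 0 → J r 0 = 0 := by
      intro r hr
      have hr' : (r:ℝ) ≠ 0 := by exact_mod_cast hr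
      rw [J]
      simp only [zero_mul, add_zero]
      have h1 : ∀ t : ℝ, HasDerivAt (fun t => Real.sin (r * t) / r) (Real.cos (r * t)) t := by
        intro t
        have h2 : HasDerivAt (fun t : ℝ => (r:ℝ) * t) r t := by
          simpa using (hasDerivAt_id t).const_mul (r:ℝ)
        refine (h2.sin.div_const (r:ℝ)).congr_deriv ?_
        field_simp
      rw [intervalIntegral.integral_eq_sub_of_hasDerivAt (fun t _ => h1 t)
        (Continuous.intervalIntegrable (by fun_prop) _ _)]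
      rw [mul_zero, Real.sin_zero, show (r : ℝ) * (2 * Real.pi) = ((2 * r : ℤ) : ℝ) * Real.pi by
        push_cast; ring, Real.sin_int_mul_pi]
      simp
    rw [e 1 (by norm_num), e (-1) (by norm_num)]; simp
  · simp only [Int.cast_zero, mul_zero, zero_mul, zero_add, zero_sub] at h
    have := (mul_eq_zero.1 h).resolve_left h0
    linarith

lemma J0_approx {a : ℝ} (ha : 0 ≤ a) (M : ℕ) (h : a / (2 * M + 1) ≤ 1 / 2) :
    |J 0 a / (2 * Real.pi) - ∑ k ∈ Finset.range M, (-1) ^ k * a ^ (2 * k) / ((2 * k).factorial : ℝ) * w k| ≤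
      a ^ (2 * M) / ((2 * M).factorial : ℝ) * 2 := by
  have hs : ∀ t : ℝ, |a * Real.sin t| ≤ a := fun t => by
    rw [abs_mul, abs_of_nonneg ha]
    have := Real.abs_sin_le_one t
    nlinarith
  have h1 : ∀ t, |Real.cos (a * Real.sin t) - ∑ k ∈ Finset.range M,
      (-1) ^ k * (a * Real.sin t) ^ (2 * k) / ((2 * k).factorial : ℝ)| ≤ a ^ (2 * M) / ((2 * M).factorial : ℝ) * 2 := by
    intro t
    refine (trig_taylor _ M ((div_le_div_of_nonneg_right (hs t) (by positivity)).trans h)).1.trans ?_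
    apply mul_le_mul_of_nonneg_right _ (by norm_num)
    apply div_le_div_of_nonneg_right _ (by positivity)
    exact pow_le_pow_left₀ (abs_nonneg _) (hs t) _
  have h2 := abs_int_le h1
  rw [intervalIntegral.integral_sub (Continuous.intervalIntegrable (by fun_prop) _ _)
    (Continuous.intervalIntegrable (by fun_prop) _ _), intervalIntegral.integral_finsetSum
    (fun k _ => Continuous.intervalIntegrable (by fun_prop) _ _)] at h2
  have h3 : ∀ k, ∫ t in (0:ℝ)..(2 * Real.pi), (-1) ^ k * (a * Real.sin t) ^ (2 * k) / ((2 * k).factorial : ℝ) =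
      2 * Real.pi * ((-1) ^ k * a ^ (2 * k) / ((2 * k).factorial : ℝ) * w k) := by
    intro k
    have : ∀ t, (-1) ^ k * (a * Real.sin t) ^ (2 * k) / ((2 * k).factorial : ℝ) =
        ((-1) ^ k * a ^ (2 * k) / ((2 * k).factorial : ℝ)) * Real.sin t ^ (2 * k) := by
      intro t; rw [mul_pow]; ring
    simp only [this]
    rw [intervalIntegral.integral_const_mul, moment]; ring
  simp only [h3] at h2
  rw [← Finset.mul_sum] at h2
  have h4 : J 0 a = ∫ t in (0:ℝ)..(2 * Real.pi), Real.cos (a * Real.sin t) := by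
    rw [J]; simp
  rw [← h4] at h2
  have hp := Real.two_pi_pos
  have h5 : J 0 a / (2 * Real.pi) - ∑ k ∈ Finset.range M, (-1) ^ k * a ^ (2 * k) / ((2 * k).factorial : ℝ) * w k =
    (J 0 a - 2 * Real.pi * ∑ k ∈ Finset.range M, (-1) ^ k * a ^ (2 * k) / ((2 * k).factorial : ℝ) * w k) /
      (2 * Real.pi) := by
    field_simp
  rw [h5, abs_div, abs_of_pos hp, div_le_iff₀ hp]
  linarith

lemma J1_approx {a : ℝ} (ha : 0 ≤ a) (M : ℕ) (h : a / (2 * M + 1) ≤ 1 / 2) :
    |J 1 a / (2 * Real.pi) + ∑ k ∈ Finset.range M,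
      (-1) ^ k * a ^ (2 * k + 1) / ((2 * k + 1).factorial : ℝ) * w (k + 1)| ≤
      a ^ (2 * M) / ((2 * M).factorial : ℝ) * 2 := by
  have hs : ∀ t : ℝ, |a * Real.sin t| ≤ a := fun t => by
    rw [abs_mul, abs_of_nonneg ha]
    have := Real.abs_sin_le_one t
    nlinarith
  have h1 : ∀ t, |Real.sin t * Real.sin (a * Real.sin t) - Real.sin t * ∑ k ∈ Finset.range M,
      (-1) ^ k * (a * Real.sin t) ^ (2 * k + 1) / ((2 * k + 1).factorial : ℝ)| ≤
      a ^ (2 * M) / ((2 * M).factorial : ℝ) * 2 := by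
    intro t
    rw [← mul_sub, abs_mul]
    have h2 : |Real.sin (a * Real.sin t) - ∑ k ∈ Finset.range M,
        (-1) ^ k * (a * Real.sin t) ^ (2 * k + 1) / ((2 * k + 1).factorial : ℝ)| ≤
        a ^ (2 * M) / ((2 * M).factorial : ℝ) * 2 := by
      refine (trig_taylor _ M ((div_le_div_of_nonneg_right (hs t) (by positivity)).trans h)).2.trans ?_
      apply mul_le_mul_of_nonneg_right _ (by norm_num)
      apply div_le_div_of_nonneg_right _ (by positivity)
      exact pow_le_pow_left₀ (abs_nonneg _) (hs t) _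
    calc _ ≤ 1 * (a ^ (2 * M) / ((2 * M).factorial : ℝ) * 2) :=
          mul_le_mul (Real.abs_sin_le_one t) h2 (abs_nonneg _) (by norm_num)
      _ = _ := one_mul _
  have h2 := abs_int_le h1
  rw [intervalIntegral.integral_sub (Continuous.intervalIntegrable (by fun_prop) _ _)
    (Continuous.intervalIntegrable (by fun_prop) _ _)] at h2
  simp only [Finset.mul_sum] at h2
  rw [intervalIntegral.integral_finsetSum
    (fun k _ => Continuous.intervalIntegrable (by fun_prop) _ _)] at h2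
  have h3 : ∀ k, ∫ t in (0:ℝ)..(2 * Real.pi), Real.sin t *
      ((-1) ^ k * (a * Real.sin t) ^ (2 * k + 1) / ((2 * k + 1).factorial : ℝ)) =
      2 * Real.pi * ((-1) ^ k * a ^ (2 * k + 1) / ((2 * k + 1).factorial : ℝ) * w (k + 1)) := by
    intro k
    have : ∀ t, Real.sin t * ((-1) ^ k * (a * Real.sin t) ^ (2 * k + 1) / ((2 * k + 1).factorial : ℝ)) =
        ((-1) ^ k * a ^ (2 * k + 1) / ((2 * k + 1).factorial : ℝ)) * Real.sin t ^ (2 * (k + 1)) := by
      intro t; rw [mul_pow, show 2 * (k + 1) = (2 * k + 1) + 1 by ring, pow_succ (Real.sin t) (2 * k + 1)]; ring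
    simp only [this]
    rw [intervalIntegral.integral_const_mul, moment]; ring
  simp only [h3] at h2
  rw [← Finset.mul_sum] at h2
  have h4 : J 1 a = -∫ t in (0:ℝ)..(2 * Real.pi), Real.sin t * Real.sin (a * Real.sin t) := by
    have h5 := rec1 0 a
    rw [zero_add, zero_sub, sym] at h5
    have h6 : K 0 a = -∫ t in (0:ℝ)..(2 * Real.pi), Real.sin t * Real.sin (a * Real.sin t) := by
      rw [K, ← intervalIntegral.integral_neg]
      simp
    linarith
  have h4' : ∫ t in (0:ℝ)..(2 * Real.pi), Real.sin t * Real.sin (a * Real.sin t) = -J 1 a := by rw [h4, neg_neg]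
  rw [h4'] at h2
  have hp := Real.two_pi_pos
  have h5 : J 1 a / (2 * Real.pi) + ∑ k ∈ Finset.range M, (-1) ^ k * a ^ (2 * k + 1) / ((2 * k + 1).factorial : ℝ) * w (k + 1) =
    -(-J 1 a - 2 * Real.pi * ∑ k ∈ Finset.range M, (-1) ^ k * a ^ (2 * k + 1) / ((2 * k + 1).factorial : ℝ) * w (k + 1)) /
      (2 * Real.pi) := by
    field_simp
    ring
  rw [h5, abs_div, abs_neg, abs_of_pos hp, div_le_iff₀ hp]
  linarith

/-! ### Numerical values -/

lemma j_rec (r : ℤ) {a : ℝ} (ha : a ≠ 0) : J (r + 1) a / (2 * Real.pi) =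
    -(2 * r / a) * (J r a / (2 * Real.pi)) - J (r - 1) a / (2 * Real.pi) := by
  have h := rec2 r a
  have hp := Real.two_pi_pos.ne'
  field_simp
  linear_combination h

lemma neg_of {x : ℝ} (h : x / (2 * Real.pi) < 0) : x < 0 := by
  have := mul_neg_of_neg_of_pos h Real.two_pi_pos
  rwa [div_mul_cancel₀ _ Real.two_pi_pos.ne'] at this

lemma pos_of {x : ℝ} (h : 0 < x / (2 * Real.pi)) : 0 < x := by
  have := mul_pos h Real.two_pi_pos
  rwa [div_mul_cancel₀ _ Real.two_pi_pos.ne'] at this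

lemma num2 : J 1 2 < 0 := by
  have h := J1_approx (a := 2) (by norm_num) 4 (by norm_num)
  norm_num [Finset.sum_range_succ, w, Finset.prod_range_succ, Nat.factorial] at h
  rw [abs_le] at h
  exact neg_of (by linarith [h.2])

lemma num384 : 0 < J 1 (96 / 25) := by
  have h := J1_approx (a := 96 / 25) (by norm_num) 8 (by norm_num)
  norm_num [Finset.sum_range_succ, w, Finset.prod_range_succ, Nat.factorial] at h
  rw [abs_le] at h
  exact pos_of (by linarith [h.1])

lemma num64 : 0 < J 3 (32 / 5) := by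
  have h := J1_approx (a := 32 / 5) (by norm_num) 12 (by norm_num)
  have h0 := J0_approx (a := 32 / 5) (by norm_num) 12 (by norm_num)
  norm_num [Finset.sum_range_succ, w, Finset.prod_range_succ, Nat.factorial] at h h0
  rw [abs_le] at h h0
  have h2 := j_rec 1 (a := 32 / 5) (by norm_num)
  have h3 := j_rec 2 (a := 32 / 5) (by norm_num)
  norm_num at h2 h3
  apply pos_of
  rw [h3, h2]
  linarith [h.1, h.2, h0.1, h0.2]

lemma numc : 0 < J 2 (41 / 8) ∧ J 3 (41 / 8) < 0 ∧ 0 < J 4 (41 / 8) ∧ J 5 (41 / 8) < 0 ∧ 0 < J 6 (41 / 8) := by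
  have h := J1_approx (a := 41 / 8) (by norm_num) 10 (by norm_num)
  have h0 := J0_approx (a := 41 / 8) (by norm_num) 10 (by norm_num)
  norm_num [Finset.sum_range_succ, w, Finset.prod_range_succ, Nat.factorial] at h h0
  rw [abs_le] at h h0
  have h2 := j_rec 1 (a := 41 / 8) (by norm_num)
  have h3 := j_rec 2 (a := 41 / 8) (by norm_num)
  have h4 := j_rec 3 (a := 41 / 8) (by norm_num)
  have h5 := j_rec 4 (a := 41 / 8) (by norm_num)
  have h6 := j_rec 5 (a := 41 / 8) (by norm_num)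
  norm_num at h2 h3 h4 h5 h6
  refine ⟨pos_of ?_, neg_of ?_, pos_of ?_, neg_of ?_, pos_of ?_⟩
  · rw [h2]; linarith [h.1, h.2, h0.1, h0.2]
  · rw [h3, h2]; linarith [h.1, h.2, h0.1, h0.2]
  · rw [h4, h3, h2]; linarith [h.1, h.2, h0.1, h0.2]
  · rw [h5, h4, h3, h2]; linarith [h.1, h.2, h0.1, h0.2]
  · rw [h6, h5, h4, h3, h2]; linarith [h.1, h.2, h0.1, h0.2]

/-! ### Positivity -/

lemma nozero (n : ℤ) {z : ℝ} (hz : 0 < z) (hzn : z ≤ n) : J n z ≠ 0 := by
  intro h
  have hd : ∀ a : ℝ, a ≠ 0 → HasDerivAt (fun a => a * (J n a * K n a))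
      (a * K n a ^ 2 + (n ^ 2 - a ^ 2) / a * J n a ^ 2) a := by
    intro a ha
    refine ((hasDerivAt_id a).mul ((hdJ n a).mul (hdK n a))).congr_deriv ?_
    have hb := bessel n a
    simp only [Pi.mul_apply, id]
    field_simp
    linear_combination (J n a) * hb
  have hc : Continuous fun a => a * (J n a * K n a) :=
    continuous_id.mul ((cont_J n).mul (continuous_iff_continuousAt.2 fun a => (hdK n a).continuousAt))
  have hmono : StrictMonoOn (fun a => a * (J n a * K n a)) (Icc 0 z) := by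
    apply strictMonoOn_of_deriv_pos (convex_Icc 0 z) hc.continuousOn
    intro a ha
    rw [interior_Icc] at ha
    rw [(hd a ha.1.ne').deriv]
    have h1 : a < n := lt_of_lt_of_le ha.2 hzn
    have h2 : 0 < ((n:ℝ) ^ 2 - a ^ 2) / a := div_pos (by nlinarith [ha.1]) ha.1
    by_contra hcon
    have e1 : 0 ≤ a * K n a ^ 2 := mul_nonneg ha.1.le (sq_nonneg _)
    have e2 : 0 ≤ (n ^ 2 - a ^ 2) / a * J n a ^ 2 := mul_nonneg h2.le (sq_nonneg _)
    have e3 : a * K n a ^ 2 = 0 := by linarith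
    have e4 : (n ^ 2 - a ^ 2) / a * J n a ^ 2 = 0 := by linarith
    have e5 : K n a = 0 := by
      have := (mul_eq_zero.1 e3).resolve_left ha.1.ne'
      exact pow_eq_zero_iff (two_ne_zero) |>.1 this
    have e6 : J n a = 0 := by
      have := (mul_eq_zero.1 e4).resolve_left h2.ne'
      exact pow_eq_zero_iff (two_ne_zero) |>.1 this
    exact not_zero n ha.1 e6 e5
  have h1 := hmono (left_mem_Icc.2 hz.le) (right_mem_Icc.2 hz.le) hz
  simp only [h, zero_mul, mul_zero, lt_self_iff_false] at h1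

/-- Passing positivity from order `n+1` to order `n`. -/
lemma chain (n : ℕ) (σ : ℝ) {c : ℝ} (hc : 0 < c) (h : 0 < σ * J n c)
    (hpos : ∀ a, 0 < a → a ≤ c → 0 < -σ * J (n + 1) a) : ∀ a, 0 < a → a ≤ c → 0 < σ * J n a := by
  have hd : ∀ a : ℝ, 0 < a → HasDerivAt (fun a => σ * J n a / a ^ n) (-(-σ * J (n + 1) a / a ^ n)) a := by
    intro a ha
    have hp : a ^ n ≠ 0 := by positivity
    refine (((hdJ n a).const_mul σ).div (hasDerivAt_pow n a) hp).congr_deriv ?_
    have h1 := rec1 (n:ℤ) a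
    have h2 := rec2 (n:ℤ) a
    have h3 : a * K n a - n * J n a = a * J (n + 1) a := by
      push_cast at h2
      linear_combination (a / 2) * h1 - h2 / 2
    rcases n with _ | n
    · simp only [pow_zero, Nat.cast_zero, zero_mul, mul_zero] at *
      have : K 0 a = J (0 + 1) a := by
        have h4 : a * K 0 a = a * J (0 + 1) a := by simpa using h3
        exact mul_left_cancel₀ ha.ne' h4
      simp [this]
    · rw [div_eq_iff (by positivity)]
      field_simp
      push_cast at h3 ⊢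
      linear_combination (σ * a ^ n) * h3
  have hanti : AntitoneOn (fun a => σ * J n a / a ^ n) (Ioc 0 c) := by
    apply antitoneOn_of_deriv_nonpos (convex_Ioc 0 c)
    · exact fun a ha => (hd a ha.1).continuousAt.continuousWithinAt
    · intro a ha
      rw [interior_Ioc] at ha
      exact (hd a ha.1).differentiableAt.differentiableWithinAt
    · intro a ha
      rw [interior_Ioc] at ha
      rw [(hd a ha.1).deriv]
      have h1 := hpos a ha.1 ha.2.le
      have h2 : 0 < a ^ n := pow_pos ha.1 n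
      have : 0 < -σ * J (n + 1) a / a ^ n := div_pos h1 h2
      linarith
  intro a ha hac
  have h1 := hanti (⟨ha, hac⟩ : a ∈ Ioc 0 c) (⟨hc, le_rfl⟩ : c ∈ Ioc 0 c) hac
  simp only at h1
  have h2 : 0 < σ * J n c / c ^ n := div_pos h (pow_pos hc n)
  have h3 : 0 < σ * J n a / a ^ n := lt_of_lt_of_le h2 h1
  have h4 : 0 < a ^ n := pow_pos ha n
  have h5 := mul_pos h3 h4
  rwa [div_mul_cancel₀ _ h4.ne'] at h5

theorem J2_pos : ∀ a : ℝ, 0 < a → a ≤ 41 / 8 → 0 < J 2 a := by
  obtain ⟨n2, n3, n4, n5, n6⟩ := numc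
  have h6 : ∀ a : ℝ, 0 < a → a ≤ 41 / 8 → 0 < 1 * J 6 a := by
    intro a ha hac
    rw [one_mul]
    by_contra hcon
    push Not at hcon
    obtain ⟨z, hz, hz2⟩ := intermediate_value_Icc hac (f := J 6) (cont_J 6).continuousOn
      (show (0:ℝ) ∈ Icc _ _ from ⟨hcon, n6.le⟩)
    exact nozero 6 (lt_of_lt_of_le ha hz.1) (by push_cast; linarith [hz.2]) hz2
  have hc : (0:ℝ) < 41 / 8 := by norm_num
  have h5 := chain 5 (-1) hc (by push_cast; linarith) (fun a h1 h2 => by have := h6 a h1 h2; norm_num at this ⊢; exact this)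
  have h4 := chain 4 1 hc (by push_cast; linarith) (fun a h1 h2 => by have := h5 a h1 h2; norm_num at this ⊢; exact this)
  have h3 := chain 3 (-1) hc (by push_cast; linarith) (fun a h1 h2 => by have := h4 a h1 h2; norm_num at this ⊢; exact this)
  have h2 := chain 2 1 hc (by push_cast; linarith) (fun a h1 h2 => by have := h3 a h1 h2; norm_num at this ⊢; exact this)
  intro a h1 h2'
  have := h2 a h1 h2'
  norm_num at this
  exact this

theorem J3_neg : ∀ a : ℝ, 0 < a → a ≤ 41 / 8 → J 3 a < 0 := by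
  obtain ⟨n2, n3, n4, n5, n6⟩ := numc
  have h6 : ∀ a : ℝ, 0 < a → a ≤ 41 / 8 → 0 < 1 * J 6 a := by
    intro a ha hac
    rw [one_mul]
    by_contra hcon
    push Not at hcon
    obtain ⟨z, hz, hz2⟩ := intermediate_value_Icc hac (f := J 6) (cont_J 6).continuousOn
      (show (0:ℝ) ∈ Icc _ _ from ⟨hcon, n6.le⟩)
    exact nozero 6 (lt_of_lt_of_le ha hz.1) (by push_cast; linarith [hz.2]) hz2
  have hc : (0:ℝ) < 41 / 8 := by norm_num
  have h5 := chain 5 (-1) hc (by push_cast; linarith) (fun a h1 h2 => by have := h6 a h1 h2; norm_num at this ⊢; exact this)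
  have h4 := chain 4 1 hc (by push_cast; linarith) (fun a h1 h2 => by have := h5 a h1 h2; norm_num at this ⊢; exact this)
  have h3 := chain 3 (-1) hc (by push_cast; linarith) (fun a h1 h2 => by have := h4 a h1 h2; norm_num at this ⊢; exact this)
  intro a h1 h2'
  have := h3 a h1 h2'
  norm_num at this
  exact this

end Pool.Agent.R188.Bes
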