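import Mathlib

open Filter Topology Set

namespace Pool.Agent.R188.Cen

variable {E G : Type*} [NormedAddCommGroup E] [NormedSpace ℝ E]
  [NormedAddCommGroup G] [NormedSpace ℝ G]

theorem tendsto_line (x u : E) : Tendsto (fun t : ℝ => x + t • u) (𝓝[>] (0:ℝ)) (𝓝 x) := by
  have h : ContinuousAt (fun t : ℝ => x + t • u) 0 := by fun_prop
  have h2 := h.tendsto
  simp only [zero_smul, add_zero] at h2
  exact h2.mono_left nhdsWithin_le_nhds

omit [NormedSpace ℝ G] in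
theorem limit_eq {Φ Ψ : E → G} {x u w : E} (hΦ : ContinuousAt Φ x) (hΨ : ContinuousAt Ψ x)
    (h : ∀ᶠ t in 𝓝[>] (0:ℝ), Φ (x + t • u) = Ψ (x + t • w)) : Φ x = Ψ x := by
  have h1 : Tendsto (fun t : ℝ => Φ (x + t • u)) (𝓝[>] (0:ℝ)) (𝓝 (Φ x)) :=
    hΦ.tendsto.comp (tendsto_line x u)
  have h2 : Tendsto (fun t : ℝ => Ψ (x + t • w)) (𝓝[>] (0:ℝ)) (𝓝 (Ψ x)) :=
    hΨ.tendsto.comp (tendsto_line x w)
  exact tendsto_nhds_unique_of_eventuallyEq h1 h2 h

theorem step {Φ Ψ : E → G} {x u w : E} (hΦ : ContDiffAt ℝ 1 Φ x) (hΨ : ContDiffAt ℝ 1 Ψ x)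
    (h : ∀ᶠ t in 𝓝[>] (0:ℝ), Φ (x + t • u) = Ψ (x + t • w)) :
    ∀ᶠ t in 𝓝[>] (0:ℝ), fderiv ℝ Φ (x + t • u) u = fderiv ℝ Ψ (x + t • w) w := by
  have e1 : ∀ᶠ z in 𝓝 x, DifferentiableAt ℝ Φ z :=
    (hΦ.eventually (by simp)).mono fun z hz => hz.differentiableAt (by simp)
  have e2 : ∀ᶠ z in 𝓝 x, DifferentiableAt ℝ Ψ z :=
    (hΨ.eventually (by simp)).mono fun z hz => hz.differentiableAt (by simp)
  have e3 := (tendsto_line x u).eventually e1
  have e4 := (tendsto_line x w).eventually e2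
  have e5 : ∀ᶠ t in 𝓝[>] (0:ℝ), ∀ᶠ s in 𝓝[>] t, True := by simp
  have e6 := eventually_eventually_nhdsWithin.mpr h
  filter_upwards [e3, e4, e6, self_mem_nhdsWithin] with t h3 h4 h6 h7
  have h7' : (0:ℝ) < t := h7
  have h8 : 𝓝[Ioi (0:ℝ)] t = 𝓝 t := isOpen_Ioi.nhdsWithin_eq h7'
  rw [h8] at h6
  have d1 : HasDerivAt (fun s : ℝ => x + s • u) u t := by
    simpa using ((hasDerivAt_id t).smul_const u).const_add x
  have d2 : HasDerivAt (fun s : ℝ => x + s • w) w t := by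
    simpa using ((hasDerivAt_id t).smul_const w).const_add x
  have d3 : HasDerivAt (fun s : ℝ => Φ (x + s • u)) (fderiv ℝ Φ (x + t • u) u) t :=
    h3.hasFDerivAt.comp_hasDerivAt t d1
  have d4 : HasDerivAt (fun s : ℝ => Ψ (x + s • w)) (fderiv ℝ Ψ (x + t • w) w) t :=
    h4.hasFDerivAt.comp_hasDerivAt t d2
  exact d3.unique (d4.congr_of_eventuallyEq h6)

theorem taylor3 {F : E → G} {x u w : E} (hF : ContDiffAt ℝ 3 F x)
    (h : ∀ᶠ t in 𝓝[>] (0:ℝ), F (x + t • u) = F (x + t • w)) :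
    fderiv ℝ F x u = fderiv ℝ F x w ∧
    fderiv ℝ (fderiv ℝ F) x u u = fderiv ℝ (fderiv ℝ F) x w w ∧
    fderiv ℝ (fderiv ℝ (fderiv ℝ F)) x u u u = fderiv ℝ (fderiv ℝ (fderiv ℝ F)) x w w w := by
  have c1 : ContDiffAt ℝ 2 (fderiv ℝ F) x := hF.fderiv_right (by norm_num)
  have c2 : ContDiffAt ℝ 1 (fderiv ℝ (fderiv ℝ F)) x := c1.fderiv_right (by norm_num)
  have s1 := step (hF.of_le (by norm_num)) (hF.of_le (by norm_num)) h
  have k1 : ∀ v : E, ContDiffAt ℝ 2 (fun z => fderiv ℝ F z v) x := fun v =>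
    c1.clm_apply contDiffAt_const
  have k2 : ∀ v : E, ContDiffAt ℝ 1 (fun z => fderiv ℝ (fderiv ℝ F) z v v) x := fun v =>
    (c2.clm_apply contDiffAt_const).clm_apply contDiffAt_const
  have D1 : ∀ v : E, ∀ᶠ z in 𝓝 x, fderiv ℝ (fun z => fderiv ℝ F z v) z v
      = fderiv ℝ (fderiv ℝ F) z v v := by
    intro v
    have e1 : ∀ᶠ z in 𝓝 x, DifferentiableAt ℝ (fderiv ℝ F) z :=
      ((c1.of_le (by norm_num : (1 : WithTop ℕ∞) ≤ 2)).eventually (by simp)).mono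
        fun z hz => hz.differentiableAt (by simp)
    filter_upwards [e1] with z hz
    rw [fderiv_clm_apply hz (differentiableAt_const v)]
    simp
  have D2 : ∀ v : E, ∀ᶠ z in 𝓝 x, fderiv ℝ (fun z => fderiv ℝ (fderiv ℝ F) z v v) z v
      = fderiv ℝ (fderiv ℝ (fderiv ℝ F)) z v v v := by
    intro v
    have e1 : ∀ᶠ z in 𝓝 x, DifferentiableAt ℝ (fderiv ℝ (fderiv ℝ F)) z :=
      (c2.eventually (by simp)).mono fun z hz => hz.differentiableAt (by simp)
    filter_upwards [e1] with z hz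
    rw [fderiv_clm_apply (hz.clm_apply (differentiableAt_const v)) (differentiableAt_const v),
      fderiv_clm_apply hz (differentiableAt_const v)]
    simp
  have k3 : ∀ v : E, ContinuousAt (fun z => fderiv ℝ (fderiv ℝ (fderiv ℝ F)) z v v v) x := by
    intro v
    have h0 : ContDiffAt ℝ 0 (fderiv ℝ (fun z => fderiv ℝ (fderiv ℝ F) z v v)) x :=
      (k2 v).fderiv_right (by norm_num)
    exact ((h0.clm_apply contDiffAt_const).continuousAt).congr (D2 v)
  have s2 := step ((k1 u).of_le (by norm_num)) ((k1 w).of_le (by norm_num)) s1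
  have s2' : ∀ᶠ t in 𝓝[>] (0:ℝ), fderiv ℝ (fderiv ℝ F) (x + t • u) u u
      = fderiv ℝ (fderiv ℝ F) (x + t • w) w w := by
    filter_upwards [s2, (tendsto_line x u).eventually (D1 u), (tendsto_line x w).eventually (D1 w)]
      with t h1 h2 h3
    rw [← h2, ← h3]; exact h1
  have s3 := step (k2 u) (k2 w) s2'
  have s3' : ∀ᶠ t in 𝓝[>] (0:ℝ), fderiv ℝ (fderiv ℝ (fderiv ℝ F)) (x + t • u) u u u
      = fderiv ℝ (fderiv ℝ (fderiv ℝ F)) (x + t • w) w w w := by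
    filter_upwards [s3, (tendsto_line x u).eventually (D2 u), (tendsto_line x w).eventually (D2 w)]
      with t h1 h2 h3
    rw [← h2, ← h3]; exact h1
  exact ⟨limit_eq (k1 u).continuousAt (k1 w).continuousAt s1,
    limit_eq (k2 u).continuousAt (k2 w).continuousAt s2',
    limit_eq (k3 u) (k3 w) s3'⟩

section kills

/-- difference field -/
noncomputable def yy (u w : E → E) (x : E) : E := u x - w x
noncomputable def Y2 (u w : E → E) (x : E) : E := fderiv ℝ (yy u w) x (u x + w x)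
noncomputable def mm (u w : E → E) (x : E) : E :=
  fderiv ℝ u x (u x) + fderiv ℝ w x (u x) + (2:ℝ) • fderiv ℝ w x (w x)
noncomputable def Y3 (u w : E → E) (x : E) : E :=
  fderiv ℝ (fderiv ℝ (yy u w)) x (w x) (u x) + fderiv ℝ (yy u w) x (mm u w x)
    + fderiv ℝ (Y2 u w) x (u x)
noncomputable def B12 (u w : E → E) (x : E) : E :=
  fderiv ℝ (Y2 u w) x (yy u w x) - fderiv ℝ (yy u w) x (Y2 u w x)

variable {F : E → G} {U : Set E} {u w : E → E}

theorem kills (hU : IsOpen U) (hF : ContDiffOn ℝ 3 F U) (hu : ContDiffOn ℝ 3 u U)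
    (hw : ContDiffOn ℝ 3 w U)
    (h : ∀ x ∈ U, ∀ᶠ t in 𝓝[>] (0:ℝ), F (x + t • u x) = F (x + t • w x)) :
    ∀ x ∈ U, fderiv ℝ F x (yy u w x) = 0 ∧ fderiv ℝ F x (Y2 u w x) = 0 ∧
      fderiv ℝ F x (Y3 u w x) = 0 ∧ fderiv ℝ F x (B12 u w x) = 0 := by
  have cF : ∀ x ∈ U, ContDiffAt ℝ 3 F x := fun x hx => hF.contDiffAt (hU.mem_nhds hx)
  have cu : ∀ x ∈ U, ContDiffAt ℝ 3 u x := fun x hx => hu.contDiffAt (hU.mem_nhds hx)
  have cw : ∀ x ∈ U, ContDiffAt ℝ 3 w x := fun x hx => hw.contDiffAt (hU.mem_nhds hx)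
  have cF1 : ∀ x ∈ U, ContDiffAt ℝ 2 (fderiv ℝ F) x := fun x hx =>
    (cF x hx).fderiv_right (by norm_num)
  have cF2 : ∀ x ∈ U, ContDiffAt ℝ 1 (fderiv ℝ (fderiv ℝ F)) x := fun x hx =>
    (cF1 x hx).fderiv_right (by norm_num)
  have cy : ∀ x ∈ U, ContDiffAt ℝ 3 (yy u w) x := fun x hx => (cu x hx).sub (cw x hx)
  have cy1 : ∀ x ∈ U, ContDiffAt ℝ 2 (fderiv ℝ (yy u w)) x := fun x hx =>
    (cy x hx).fderiv_right (by norm_num)
  have cY2 : ∀ x ∈ U, ContDiffAt ℝ 2 (Y2 u w) x := fun x hx =>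
    (cy1 x hx).clm_apply (((cu x hx).add (cw x hx)).of_le (by norm_num))
  -- differentiability
  have dF : ∀ x ∈ U, DifferentiableAt ℝ F x := fun x hx => (cF x hx).differentiableAt (by simp)
  have dF1 : ∀ x ∈ U, DifferentiableAt ℝ (fderiv ℝ F) x := fun x hx =>
    (cF1 x hx).differentiableAt (by simp)
  have dF2 : ∀ x ∈ U, DifferentiableAt ℝ (fderiv ℝ (fderiv ℝ F)) x := fun x hx =>
    (cF2 x hx).differentiableAt (by simp)
  have du : ∀ x ∈ U, DifferentiableAt ℝ u x := fun x hx => (cu x hx).differentiableAt (by simp)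
  have dw : ∀ x ∈ U, DifferentiableAt ℝ w x := fun x hx => (cw x hx).differentiableAt (by simp)
  have dy : ∀ x ∈ U, DifferentiableAt ℝ (yy u w) x := fun x hx =>
    (cy x hx).differentiableAt (by simp)
  have dy1 : ∀ x ∈ U, DifferentiableAt ℝ (fderiv ℝ (yy u w)) x := fun x hx =>
    (cy1 x hx).differentiableAt (by simp)
  have dY2 : ∀ x ∈ U, DifferentiableAt ℝ (Y2 u w) x := fun x hx =>
    (cY2 x hx).differentiableAt (by simp)
  have Dy : ∀ x ∈ U, ∀ k, fderiv ℝ (yy u w) x k = fderiv ℝ u x k - fderiv ℝ w x k := by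
    intro x hx k
    have : fderiv ℝ (yy u w) x = fderiv ℝ u x - fderiv ℝ w x := fderiv_sub (du x hx) (dw x hx)
    rw [this]; rfl
  -- symmetry
  have sym2 : ∀ x ∈ U, ∀ a b, fderiv ℝ (fderiv ℝ F) x a b = fderiv ℝ (fderiv ℝ F) x b a := by
    intro x hx a b
    exact (((cF x hx).of_le (by norm_num : (2 : WithTop ℕ∞) ≤ 3)).isSymmSndFDerivAt
      (by simp)) a b
  have sym3a : ∀ x ∈ U, ∀ a b c, fderiv ℝ (fderiv ℝ (fderiv ℝ F)) x a b c
      = fderiv ℝ (fderiv ℝ (fderiv ℝ F)) x b a c := by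
    intro x hx a b c
    have := ((cF1 x hx).isSymmSndFDerivAt (by simp)) a b
    rw [this]
  have D2F : ∀ x ∈ U, ∀ a b c, fderiv ℝ (fun z => fderiv ℝ (fderiv ℝ F) z b c) x a
      = fderiv ℝ (fderiv ℝ (fderiv ℝ F)) x a b c := by
    intro x hx a b c
    rw [fderiv_clm_apply ((dF2 x hx).clm_apply (differentiableAt_const b))
      (differentiableAt_const c),
      fderiv_clm_apply (dF2 x hx) (differentiableAt_const b)]
    simp
  have sym3b : ∀ x ∈ U, ∀ a b c, fderiv ℝ (fderiv ℝ (fderiv ℝ F)) x a b c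
      = fderiv ℝ (fderiv ℝ (fderiv ℝ F)) x a c b := by
    intro x hx a b c
    rw [← D2F x hx, ← D2F x hx]
    have : (fun z => fderiv ℝ (fderiv ℝ F) z b c) =ᶠ[𝓝 x]
        (fun z => fderiv ℝ (fderiv ℝ F) z c b) := by
      filter_upwards [hU.mem_nhds hx] with z hz using sym2 z hz b c
    rw [this.fderiv_eq]
  have T : ∀ x ∈ U, _ := fun x hx => taylor3 (cF x hx) (h x hx)
  have zero_of : ∀ {H : E → G}, (∀ x ∈ U, H x = 0) → ∀ x ∈ U, ∀ k, fderiv ℝ H x k = 0 := by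
    intro H hH x hx k
    have : H =ᶠ[𝓝 x] (fun _ => 0) := by
      filter_upwards [hU.mem_nhds hx] with z hz using hH z hz
    rw [this.fderiv_eq]; simp
  -- T1
  have T1 : ∀ x ∈ U, fderiv ℝ F x (yy u w x) = 0 := by
    intro x hx
    rw [yy, map_sub, (T x hx).1, sub_self]
  -- derivative of F'(v)
  have DF1 : ∀ (v : E → E), ∀ x ∈ U, DifferentiableAt ℝ v x → ∀ k,
      fderiv ℝ (fun z => fderiv ℝ F z (v z)) x k
        = fderiv ℝ (fderiv ℝ F) x k (v x) + fderiv ℝ F x (fderiv ℝ v x k) := by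
    intro v x hx hv k
    rw [fderiv_clm_apply (dF1 x hx) hv]
    simp [add_comm]
  have T1' : ∀ x ∈ U, ∀ k, fderiv ℝ (fderiv ℝ F) x k (yy u w x)
      + fderiv ℝ F x (fderiv ℝ (yy u w) x k) = 0 := by
    intro x hx k
    rw [← DF1 (yy u w) x hx (dy x hx) k]
    exact zero_of T1 x hx k
  have K2 : ∀ x ∈ U, fderiv ℝ F x (Y2 u w x) = 0 := by
    intro x hx
    have h1 := T1' x hx (u x + w x)
    have h2 := (T x hx).2.1
    have h3 := sym2 x hx (u x) (w x)
    rw [Y2]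
    have h4 : fderiv ℝ (fderiv ℝ F) x (u x + w x) (yy u w x) = 0 := by
      rw [yy]
      simp only [map_add, map_sub, add_apply, h2, h3]
      abel
    rw [h4, zero_add] at h1
    exact h1
  have K2' : ∀ x ∈ U, ∀ k, fderiv ℝ (fderiv ℝ F) x k (Y2 u w x)
      + fderiv ℝ F x (fderiv ℝ (Y2 u w) x k) = 0 := by
    intro x hx k
    rw [← DF1 (Y2 u w) x hx (dY2 x hx) k]
    exact zero_of K2 x hx k
  have KB : ∀ x ∈ U, fderiv ℝ F x (B12 u w x) = 0 := by
    intro x hx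
    have h1 := K2' x hx (yy u w x)
    have h2 := T1' x hx (Y2 u w x)
    have h3 := sym2 x hx (yy u w x) (Y2 u w x)
    rw [B12, map_sub]
    rw [h3] at h1
    have h4 : fderiv ℝ F x (fderiv ℝ (Y2 u w) x (yy u w x))
        = - fderiv ℝ (fderiv ℝ F) x (Y2 u w x) (yy u w x) := eq_neg_of_add_eq_zero_right h1
    have h5 : fderiv ℝ F x (fderiv ℝ (yy u w) x (Y2 u w x))
        = - fderiv ℝ (fderiv ℝ F) x (Y2 u w x) (yy u w x) := eq_neg_of_add_eq_zero_right h2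
    rw [h4, h5, sub_self]
  -- T1''
  have T1'' : ∀ x ∈ U, ∀ k a, fderiv ℝ (fderiv ℝ (fderiv ℝ F)) x k a (yy u w x)
      + fderiv ℝ (fderiv ℝ F) x a (fderiv ℝ (yy u w) x k)
      + fderiv ℝ (fderiv ℝ F) x k (fderiv ℝ (yy u w) x a)
      + fderiv ℝ F x (fderiv ℝ (fderiv ℝ (yy u w)) x k a) = 0 := by
    intro x hx k a
    have h1 := zero_of (fun z hz => T1' z hz a) x hx k
    have h2 : fderiv ℝ (fun z => fderiv ℝ (fderiv ℝ F) z a (yy u w z)
        + fderiv ℝ F z (fderiv ℝ (yy u w) z a)) x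
        = fderiv ℝ (fun z => fderiv ℝ (fderiv ℝ F) z a (yy u w z)) x
        + fderiv ℝ (fun z => fderiv ℝ F z (fderiv ℝ (yy u w) z a)) x := by
      apply fderiv_fun_add
      · exact ((dF2 x hx).clm_apply (differentiableAt_const a)).clm_apply (dy x hx)
      · exact (dF1 x hx).clm_apply ((dy1 x hx).clm_apply (differentiableAt_const a))
    rw [h2, fderiv_clm_apply ((dF2 x hx).clm_apply (differentiableAt_const a)) (dy x hx),
      fderiv_clm_apply (dF2 x hx) (differentiableAt_const a),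
      fderiv_clm_apply (dF1 x hx) ((dy1 x hx).clm_apply (differentiableAt_const a)),
      fderiv_clm_apply (dy1 x hx) (differentiableAt_const a)] at h1
    simp only [add_apply, ContinuousLinearMap.comp_apply,
      ContinuousLinearMap.flip_apply, fderiv_fun_const, Pi.zero_apply,
      zero_add, ContinuousLinearMap.comp_zero] at h1
    rw [← h1]
    abel
  -- T2'
  have T2' : ∀ x ∈ U, ∀ k, fderiv ℝ (fderiv ℝ (fderiv ℝ F)) x k (u x) (u x)
      + (2:ℝ) • fderiv ℝ (fderiv ℝ F) x (fderiv ℝ u x k) (u x)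
      = fderiv ℝ (fderiv ℝ (fderiv ℝ F)) x k (w x) (w x)
      + (2:ℝ) • fderiv ℝ (fderiv ℝ F) x (fderiv ℝ w x k) (w x) := by
    intro x hx k
    have key : ∀ v : E → E, DifferentiableAt ℝ v x →
        fderiv ℝ (fun z => fderiv ℝ (fderiv ℝ F) z (v z) (v z)) x k
        = fderiv ℝ (fderiv ℝ (fderiv ℝ F)) x k (v x) (v x)
        + (2:ℝ) • fderiv ℝ (fderiv ℝ F) x (fderiv ℝ v x k) (v x) := by
      intro v hv
      rw [fderiv_clm_apply ((dF2 x hx).clm_apply hv) hv, fderiv_clm_apply (dF2 x hx) hv]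
      simp only [add_apply, ContinuousLinearMap.comp_apply,
        ContinuousLinearMap.flip_apply]
      rw [sym2 x hx (v x) (fderiv ℝ v x k), two_smul]
      abel
    rw [← key u (du x hx), ← key w (dw x hx)]
    have : (fun z => fderiv ℝ (fderiv ℝ F) z (u z) (u z)) =ᶠ[𝓝 x]
        (fun z => fderiv ℝ (fderiv ℝ F) z (w z) (w z)) := by
      filter_upwards [hU.mem_nhds hx] with z hz using (T z hz).2.1
    rw [this.fderiv_eq]
  intro x hx
  refine ⟨T1 x hx, K2 x hx, ?_, KB x hx⟩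
  have a1 := T1'' x hx (w x) (u x)
  have a2 := T2' x hx (u x)
  have a3 := T2' x hx (w x)
  have a4 := (T x hx).2.2
  have a5 := K2' x hx (u x)
  have a6 := T1' x hx (mm u w x)
  have hY2 : Y2 u w x = fderiv ℝ u x (u x) + fderiv ℝ u x (w x) - fderiv ℝ w x (u x)
      - fderiv ℝ w x (w x) := by
    rw [Y2, Dy x hx, map_add, map_add]; abel
  -- abbreviations
  set A := fderiv ℝ u x (u x) with hA
  set B := fderiv ℝ u x (w x) with hB
  set C := fderiv ℝ w x (u x) with hC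
  set D := fderiv ℝ w x (w x) with hD
  have hm : mm u w x = A + C + (2:ℝ) • D := rfl
  rw [Dy x hx (u x), Dy x hx (w x)] at a1
  rw [Y3, map_add, map_add]
  set P3 := fderiv ℝ (fderiv ℝ (fderiv ℝ F)) x with hP3
  set P2 := fderiv ℝ (fderiv ℝ F) x with hP2
  have s3a := sym3a x hx
  have s3b := sym3b x hx
  have s2 := sym2 x hx
  rw [← hP3] at s3a s3b
  rw [← hP2] at s2
  have b1 : fderiv ℝ F x (fderiv ℝ (fderiv ℝ (yy u w)) x (w x) (u x)) =
      -(P3 (w x) (u x) (yy u w x) + P2 (u x) (B - D) + P2 (w x) (A - C)) :=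
    eq_neg_of_add_eq_zero_right a1
  have b5 : fderiv ℝ F x (fderiv ℝ (Y2 u w) x (u x)) = -(P2 (u x) (Y2 u w x)) :=
    eq_neg_of_add_eq_zero_right a5
  have b6 : fderiv ℝ F x (fderiv ℝ (yy u w) x (mm u w x)) = -(P2 (mm u w x) (yy u w x)) :=
    eq_neg_of_add_eq_zero_right a6
  rw [b1, b5, b6, hY2, hm, yy]
  simp only [map_add, map_sub, map_smul, add_apply,
    smul_apply]
  have e1 : P3 (w x) (u x) (u x) = P3 (u x) (u x) (w x) := by
    rw [s3a (w x) (u x) (u x), s3b (u x) (w x) (u x)]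
  have e2 : P3 (w x) (u x) (w x) = P3 (u x) (w x) (w x) := s3a _ _ _
  rw [e1] at a3 ⊢
  rw [e2]
  rw [s2 (u x) A, s2 (u x) B, s2 (u x) C, s2 (u x) D, s2 (w x) A, s2 (w x) C] 
  have e3 : P3 (u x) (u x) (w x) = P3 (w x) (w x) (w x) + (2:ℝ) • P2 D (w x)
      - (2:ℝ) • P2 B (u x) := by
    rw [← a3]; abel
  have e4 : P3 (u x) (w x) (w x) = P3 (w x) (w x) (w x) + (2:ℝ) • P2 A (u x)
      - (2:ℝ) • P2 C (w x) := by
    rw [← a4, a2]; abel
  rw [e3, e4]
  module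

end kills

end Pool.Agent.R188.Cen
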