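import Mathlib
import Pool.Agent.R188.Cen1

open Filter Topology Set

namespace Pool.Agent.R188.Cen

/-- unit vector of a nonzero complex number -/
noncomputable def NN (z : ℂ) : ℂ := z / (‖z‖ : ℂ)

def BB (z h : ℂ) : ℝ := z.re * h.re + z.im * h.im

noncomputable def N1 (z h : ℂ) : ℂ := (‖z‖⁻¹ : ℝ) • h - (‖z‖⁻¹ ^ 3 * BB z h) • z

noncomputable def N2 (z h k : ℂ) : ℂ :=
  -(‖z‖⁻¹ ^ 3 * BB z k) • h - (‖z‖⁻¹ ^ 3 * BB z h) • k - (‖z‖⁻¹ ^ 3 * BB k h) • z
    + (3 * ‖z‖⁻¹ ^ 5 * BB z k * BB z h) • z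

theorem NN_eq (z : ℂ) : NN z = (‖z‖⁻¹ : ℝ) • z := by
  rw [NN, div_eq_inv_mul, Complex.real_smul]
  push_cast
  rfl

theorem norm_sq_eq (z : ℂ) : ‖z‖ ^ 2 = z.re ^ 2 + z.im ^ 2 := by
  rw [Complex.sq_norm, Complex.normSq_apply]; ring

theorem rho_line (z h : ℂ) (hz : z ≠ 0) :
    HasDerivAt (fun s : ℝ => ‖z + s • h‖⁻¹) (-(‖z‖⁻¹ ^ 3 * BB z h)) 0 := by
  have hpos : 0 < ‖z‖ := norm_pos_iff.mpr hz
  have e : (fun s : ℝ => ‖z + s • h‖⁻¹) = fun s : ℝ =>
      (Real.sqrt ((z.re + s * h.re) ^ 2 + (z.im + s * h.im) ^ 2))⁻¹ := by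
    funext s
    congr 1
    rw [← Real.sqrt_sq (norm_nonneg (z + s • h)), norm_sq_eq]
    simp
  rw [e]
  have d1 : HasDerivAt (fun s : ℝ => (z.re + s * h.re) ^ 2 + (z.im + s * h.im) ^ 2)
      (2 * BB z h) 0 := by
    have a1 : HasDerivAt (fun s : ℝ => z.re + s * h.re) h.re 0 := by
      simpa using ((hasDerivAt_id (0:ℝ)).mul_const h.re).const_add z.re
    have a2 : HasDerivAt (fun s : ℝ => z.im + s * h.im) h.im 0 := by
      simpa using ((hasDerivAt_id (0:ℝ)).mul_const h.im).const_add z.im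
    have := (a1.pow 2).add (a2.pow 2)
    refine this.congr_deriv ?_
    simp only [BB]; push_cast; ring
  have hv : ((z.re + 0 * h.re) ^ 2 + (z.im + 0 * h.im) ^ 2) = ‖z‖ ^ 2 := by
    rw [norm_sq_eq]; simp
  have hne : ((z.re + 0 * h.re) ^ 2 + (z.im + 0 * h.im) ^ 2) ≠ 0 := by rw [hv]; positivity
  have d2 := d1.sqrt hne
  have hs : Real.sqrt ((z.re + 0 * h.re) ^ 2 + (z.im + 0 * h.im) ^ 2) = ‖z‖ := by
    rw [hv, Real.sqrt_sq hpos.le]
  have d3 := d2.inv (by rw [hs]; exact hpos.ne')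
  refine d3.congr_deriv ?_
  rw [hs]
  field_simp

theorem BB_line (z h k : ℂ) : HasDerivAt (fun s : ℝ => BB (z + s • k) h) (BB k h) 0 := by
  have e : (fun s : ℝ => BB (z + s • k) h) = fun s : ℝ => BB z h + s * BB k h := by
    funext s; simp [BB]; ring
  rw [e]
  simpa using ((hasDerivAt_id (0:ℝ)).mul_const (BB k h)).const_add (BB z h)

theorem id_line (z h : ℂ) : HasDerivAt (fun s : ℝ => z + s • h) h 0 := by
  simpa using ((hasDerivAt_id (0:ℝ)).smul_const h).const_add z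

theorem NN_line (z h : ℂ) (hz : z ≠ 0) :
    HasDerivAt (fun s : ℝ => NN (z + s • h)) (N1 z h) 0 := by
  have e : (fun s : ℝ => NN (z + s • h)) = fun s : ℝ => ‖z + s • h‖⁻¹ • (z + s • h) := by
    funext s; rw [NN_eq]
  rw [e]
  have := (rho_line z h hz).smul (id_line z h)
  refine this.congr_deriv ?_
  simp only [zero_smul, add_zero, N1]
  module

theorem N1_line (z h k : ℂ) (hz : z ≠ 0) :
    HasDerivAt (fun s : ℝ => N1 (z + s • k) h) (N2 z h k) 0 := by
  have r := rho_line z k hz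
  have a := r.smul_const h
  have b := (((r.pow 3).mul (BB_line z h k)).smul (id_line z k))
  have := a.sub b
  refine this.congr_deriv ?_
  simp only [zero_smul, add_zero, N2, Pi.pow_apply, Pi.mul_apply]
  push_cast
  module

theorem NN_contDiffAt (z : ℂ) (hz : z ≠ 0) {n : WithTop ℕ∞} : ContDiffAt ℝ n NN z := by
  have e : NN = fun z : ℂ => ‖z‖⁻¹ • z := by funext z; exact NN_eq z
  rw [e]
  have h1 : ContDiffAt ℝ n (fun z : ℂ => ‖z‖) z := contDiffAt_norm ℝ hz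
  exact (h1.inv (norm_ne_zero_iff.mpr hz)).smul contDiffAt_id

/-- Fields -/
noncomputable def uu (P : ZMod 3 → ℂ) : ZMod 3 → ℂ := fun i => NN (P i - P (i - 1))
noncomputable def ww (P : ZMod 3 → ℂ) : ZMod 3 → ℂ := fun i => NN (P i - P (i + 1))

noncomputable def u1 (P h : ZMod 3 → ℂ) : ZMod 3 → ℂ :=
  fun i => N1 (P i - P (i - 1)) (h i - h (i - 1))
noncomputable def w1 (P h : ZMod 3 → ℂ) : ZMod 3 → ℂ :=
  fun i => N1 (P i - P (i + 1)) (h i - h (i + 1))
noncomputable def u2 (P h k : ZMod 3 → ℂ) : ZMod 3 → ℂ :=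
  fun i => N2 (P i - P (i - 1)) (h i - h (i - 1)) (k i - k (i - 1))
noncomputable def w2 (P h k : ZMod 3 → ℂ) : ZMod 3 → ℂ :=
  fun i => N2 (P i - P (i + 1)) (h i - h (i + 1)) (k i - k (i + 1))

/-- The set of triangles. -/
def Tri : Set (ZMod 3 → ℂ) := {P | ∀ i, P i ≠ P (i + 1)}

theorem Tri_open : IsOpen Tri := by
  have : Tri = ⋂ i : ZMod 3, {P : ZMod 3 → ℂ | P i ≠ P (i + 1)} := by
    ext P; simp [Tri]
  rw [this]
  refine isOpen_iInter_of_finite fun i => ?_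
  exact isOpen_ne_fun (continuous_apply i) (continuous_apply (i + 1))

theorem Tri_sub1 {P : ZMod 3 → ℂ} (hP : P ∈ Tri) (i : ZMod 3) : P i - P (i + 1) ≠ 0 :=
  sub_ne_zero.mpr (hP i)

theorem Tri_sub2 {P : ZMod 3 → ℂ} (hP : P ∈ Tri) (i : ZMod 3) : P i - P (i - 1) ≠ 0 := by
  have := hP (i - 1)
  rw [sub_add_cancel] at this
  exact sub_ne_zero.mpr this.symm

theorem uu_contDiffAt {P : ZMod 3 → ℂ} (hP : P ∈ Tri) {n : WithTop ℕ∞} :
    ContDiffAt ℝ n uu P := by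
  rw [contDiffAt_pi]
  intro i
  have h1 : ContDiffAt ℝ n (fun Q : ZMod 3 → ℂ => Q i - Q (i - 1)) P :=
    ((contDiff_apply ℝ ℂ i).sub (contDiff_apply ℝ ℂ (i - 1))).contDiffAt
  exact ContDiffAt.comp P (NN_contDiffAt _ (Tri_sub2 hP i)) h1

theorem ww_contDiffAt {P : ZMod 3 → ℂ} (hP : P ∈ Tri) {n : WithTop ℕ∞} :
    ContDiffAt ℝ n ww P := by
  rw [contDiffAt_pi]
  intro i
  have h1 : ContDiffAt ℝ n (fun Q : ZMod 3 → ℂ => Q i - Q (i + 1)) P :=
    ((contDiff_apply ℝ ℂ i).sub (contDiff_apply ℝ ℂ (i + 1))).contDiffAt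
  exact ContDiffAt.comp P (NN_contDiffAt _ (Tri_sub1 hP i)) h1

theorem fderiv_eq_of_line {E' F' : Type*} [NormedAddCommGroup E'] [NormedSpace ℝ E']
    [NormedAddCommGroup F'] [NormedSpace ℝ F'] {f : E' → F'} {x h : E'} {d : F'}
    (hf : DifferentiableAt ℝ f x) (hd : HasDerivAt (fun s : ℝ => f (x + s • h)) d 0) :
    fderiv ℝ f x h = d := by
  have l : HasDerivAt (fun s : ℝ => x + s • h) h 0 := by
    simpa using ((hasDerivAt_id (0:ℝ)).smul_const h).const_add x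
  have hf' : HasFDerivAt f (fderiv ℝ f x) (x + (0:ℝ) • h) := by simpa using hf.hasFDerivAt
  have := hf'.comp_hasDerivAt (0:ℝ) l
  exact this.unique hd

theorem fderiv_uu {P : ZMod 3 → ℂ} (hP : P ∈ Tri) (h : ZMod 3 → ℂ) :
    fderiv ℝ uu P h = u1 P h := by
  apply fderiv_eq_of_line ((uu_contDiffAt hP (n := 1)).differentiableAt (by simp))
  rw [hasDerivAt_pi]
  intro i
  have := NN_line (P i - P (i - 1)) (h i - h (i - 1)) (Tri_sub2 hP i)
  have e : (fun s : ℝ => uu (P + s • h) i)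
      = fun s : ℝ => NN (P i - P (i - 1) + s • (h i - h (i - 1))) := by
    funext s
    simp only [uu, Pi.add_apply, Pi.smul_apply]
    congr 1; module
  rw [e]
  exact this

theorem fderiv_ww {P : ZMod 3 → ℂ} (hP : P ∈ Tri) (h : ZMod 3 → ℂ) :
    fderiv ℝ ww P h = w1 P h := by
  apply fderiv_eq_of_line ((ww_contDiffAt hP (n := 1)).differentiableAt (by simp))
  rw [hasDerivAt_pi]
  intro i
  have := NN_line (P i - P (i + 1)) (h i - h (i + 1)) (Tri_sub1 hP i)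
  have e : (fun s : ℝ => ww (P + s • h) i)
      = fun s : ℝ => NN (P i - P (i + 1) + s • (h i - h (i + 1))) := by
    funext s
    simp only [ww, Pi.add_apply, Pi.smul_apply]
    congr 1; module
  rw [e]
  exact this

theorem fderiv_yy {P : ZMod 3 → ℂ} (hP : P ∈ Tri) (h : ZMod 3 → ℂ) :
    fderiv ℝ (yy uu ww) P h = u1 P h - w1 P h := by
  have : fderiv ℝ (yy uu ww) P = fderiv ℝ uu P - fderiv ℝ ww P :=
    fderiv_sub ((uu_contDiffAt hP (n := 1)).differentiableAt (by simp))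
      ((ww_contDiffAt hP (n := 1)).differentiableAt (by simp))
  rw [this, sub_apply, fderiv_uu hP, fderiv_ww hP]

theorem yy_contDiffAt {P : ZMod 3 → ℂ} (hP : P ∈ Tri) {n : WithTop ℕ∞} :
    ContDiffAt ℝ n (yy uu ww) P := (uu_contDiffAt hP).sub (ww_contDiffAt hP)

theorem fderiv2_yy {P : ZMod 3 → ℂ} (hP : P ∈ Tri) (h k : ZMod 3 → ℂ) :
    fderiv ℝ (fderiv ℝ (yy uu ww)) P k h = u2 P h k - w2 P h k := by
  have hd : DifferentiableAt ℝ (fderiv ℝ (yy uu ww)) P :=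
    ((yy_contDiffAt hP (n := 2)).fderiv_right (m := 1) (by norm_num)).differentiableAt (by simp)
  have e : fderiv ℝ (fderiv ℝ (yy uu ww)) P k h
      = fderiv ℝ (fun Q => fderiv ℝ (yy uu ww) Q h) P k := by
    rw [fderiv_clm_apply hd (differentiableAt_const h)]; simp
  rw [e]
  have e2 : (fun Q => fderiv ℝ (yy uu ww) Q h) =ᶠ[𝓝 P] (fun Q => u1 Q h - w1 Q h) := by
    filter_upwards [Tri_open.mem_nhds hP] with Q hQ using fderiv_yy hQ h
  have hd2 : DifferentiableAt ℝ (fun Q => u1 Q h - w1 Q h) P :=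
    (hd.clm_apply (differentiableAt_const h)).congr_of_eventuallyEq e2.symm
  rw [e2.fderiv_eq]
  apply fderiv_eq_of_line hd2
  apply HasDerivAt.sub
  · rw [hasDerivAt_pi]
    intro i
    have := N1_line (P i - P (i - 1)) (h i - h (i - 1)) (k i - k (i - 1)) (Tri_sub2 hP i)
    have e : (fun s : ℝ => u1 (P + s • k) h i)
        = fun s : ℝ => N1 (P i - P (i - 1) + s • (k i - k (i - 1))) (h i - h (i - 1)) := by
      funext s
      simp only [u1, Pi.add_apply, Pi.smul_apply]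
      congr 1; module
    rw [e]
    exact this
  · rw [hasDerivAt_pi]
    intro i
    have := N1_line (P i - P (i + 1)) (h i - h (i + 1)) (k i - k (i + 1)) (Tri_sub1 hP i)
    have e : (fun s : ℝ => w1 (P + s • k) h i)
        = fun s : ℝ => N1 (P i - P (i + 1) + s • (k i - k (i + 1))) (h i - h (i + 1)) := by
      funext s
      simp only [w1, Pi.add_apply, Pi.smul_apply]
      congr 1; module
    rw [e]
    exact this

theorem fderiv_Y2 {P : ZMod 3 → ℂ} (hP : P ∈ Tri) (k : ZMod 3 → ℂ) :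
    fderiv ℝ (Y2 uu ww) P k
      = (u2 P (uu P + ww P) k - w2 P (uu P + ww P) k)
        + (u1 P (u1 P k + w1 P k) - w1 P (u1 P k + w1 P k)) := by
  have hd : DifferentiableAt ℝ (fderiv ℝ (yy uu ww)) P :=
    ((yy_contDiffAt hP (n := 2)).fderiv_right (m := 1) (by norm_num)).differentiableAt (by simp)
  have du := (uu_contDiffAt hP (n := 1)).differentiableAt (by simp)
  have dw := (ww_contDiffAt hP (n := 1)).differentiableAt (by simp)
  have e : Y2 uu ww = fun x => fderiv ℝ (yy uu ww) x ((uu + ww) x) := rfl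
  rw [e, fderiv_clm_apply hd (du.add dw)]
  simp only [add_apply, ContinuousLinearMap.comp_apply, ContinuousLinearMap.flip_apply]
  rw [fderiv_add du dw, add_apply, fderiv_uu hP, fderiv_ww hP, fderiv_yy hP]
  rw [Pi.add_apply, fderiv2_yy hP]
  abel

end Pool.Agent.R188.Cen
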