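import Mathlib
import Pool.Agent.R188.Cen2

open Filter Topology Set

namespace Pool.Agent.R188.Cen

/-- explicit vector -/
def vec (a b c d e f : ℝ) : ZMod 3 → ℂ :=
  fun i => if i = 0 then ⟨a, b⟩ else if i = 1 then ⟨c, d⟩ else ⟨e, f⟩

theorem zcases (i : ZMod 3) : i = 0 ∨ i = 1 ∨ i = 2 := by revert i; decide

@[simp] theorem vec0 (a b c d e f : ℝ) : vec a b c d e f 0 = ⟨a, b⟩ := rfl
@[simp] theorem vec1 (a b c d e f : ℝ) : vec a b c d e f 1 = ⟨c, d⟩ := rfl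
@[simp] theorem vec2 (a b c d e f : ℝ) : vec a b c d e f 2 = ⟨e, f⟩ := rfl

theorem eq_vec {v : ZMod 3 → ℂ} {a b c d e f : ℝ} (h0 : v 0 = ⟨a, b⟩) (h1 : v 1 = ⟨c, d⟩)
    (h2 : v 2 = ⟨e, f⟩) : v = vec a b c d e f := by
  funext i
  rcases zcases i with rfl | rfl | rfl
  · exact h0
  · exact h1
  · exact h2

theorem m0 : (0 : ZMod 3) - 1 = 2 := by decide
theorem m1 : (1 : ZMod 3) - 1 = 0 := by decide
theorem m2 : (2 : ZMod 3) - 1 = 1 := by decide
theorem p0 : (0 : ZMod 3) + 1 = 1 := by decide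
theorem p1 : (1 : ZMod 3) + 1 = 2 := by decide
theorem p2 : (2 : ZMod 3) + 1 = 0 := by decide

def X0 : ZMod 3 → ℂ := vec 0 0 3 0 0 4

theorem sub_mk (a b c d : ℝ) : ((⟨a, b⟩ : ℂ) - ⟨c, d⟩) = ⟨a - c, b - d⟩ := rfl
theorem add_mk (a b c d : ℝ) : ((⟨a, b⟩ : ℂ) + ⟨c, d⟩) = ⟨a + c, b + d⟩ := rfl

theorem norm_mk {a b c : ℝ} (hc : 0 ≤ c) (h : a ^ 2 + b ^ 2 = c ^ 2) : ‖(⟨a, b⟩ : ℂ)‖ = c := by
  have : ‖(⟨a, b⟩ : ℂ)‖ ^ 2 = c ^ 2 := by rw [norm_sq_eq]; exact h
  exact (pow_left_inj₀ (norm_nonneg _) hc two_ne_zero).mp this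

theorem NN_mk {a b c : ℝ} (hc : 0 ≤ c) (h : a ^ 2 + b ^ 2 = c ^ 2) :
    NN ⟨a, b⟩ = ⟨a / c, b / c⟩ := by
  rw [NN_eq, norm_mk hc h]
  apply Complex.ext <;> simp only [Complex.smul_re, Complex.smul_im, smul_eq_mul, div_eq_inv_mul]

theorem N1_mk {a b c : ℝ} (hc : 0 ≤ c) (h : a ^ 2 + b ^ 2 = c ^ 2) (x y : ℝ) :
    N1 ⟨a, b⟩ ⟨x, y⟩ = ⟨c⁻¹ * x - (c⁻¹ ^ 3 * (a * x + b * y)) * a,
      c⁻¹ * y - (c⁻¹ ^ 3 * (a * x + b * y)) * b⟩ := by
  rw [N1, norm_mk hc h]
  apply Complex.ext <;> simp only [BB, Complex.smul_re, Complex.smul_im, smul_eq_mul,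
    Complex.sub_re, Complex.sub_im]

theorem N2_mk {a b c : ℝ} (hc : 0 ≤ c) (h : a ^ 2 + b ^ 2 = c ^ 2) (x y x' y' : ℝ) :
    N2 ⟨a, b⟩ ⟨x, y⟩ ⟨x', y'⟩ =
      ⟨-(c⁻¹ ^ 3 * (a * x' + b * y')) * x - (c⁻¹ ^ 3 * (a * x + b * y)) * x'
        - (c⁻¹ ^ 3 * (x' * x + y' * y)) * a + (3 * c⁻¹ ^ 5 * (a * x' + b * y')
          * (a * x + b * y)) * a,
       -(c⁻¹ ^ 3 * (a * x' + b * y')) * y - (c⁻¹ ^ 3 * (a * x + b * y)) * y'
        - (c⁻¹ ^ 3 * (x' * x + y' * y)) * b + (3 * c⁻¹ ^ 5 * (a * x' + b * y')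
          * (a * x + b * y)) * b⟩ := by
  rw [N2, norm_mk hc h]
  apply Complex.ext <;> simp only [BB, Complex.smul_re, Complex.smul_im, smul_eq_mul,
    Complex.sub_re, Complex.sub_im, Complex.add_re, Complex.add_im]

theorem X0_Tri : X0 ∈ Tri := by
  intro i
  rcases zcases i with rfl | rfl | rfl
  · rw [p0]; simp [X0, Complex.ext_iff]
  · rw [p1]; simp [X0, Complex.ext_iff]
  · rw [p2]; simp [X0, Complex.ext_iff]

theorem uu_X0 : uu X0 = vec 0 (-1) 1 0 (-3/5) (4/5) := by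
  apply eq_vec
  · simp only [uu, m0, X0, vec0, vec2, sub_mk]
    rw [NN_mk (c := 4) (by norm_num) (by norm_num)]; norm_num
  · simp only [uu, m1, X0, vec0, vec1, sub_mk]
    rw [NN_mk (c := 3) (by norm_num) (by norm_num)]; norm_num
  · simp only [uu, m2, X0, vec1, vec2, sub_mk]
    rw [NN_mk (c := 5) (by norm_num) (by norm_num)]; norm_num

theorem ww_X0 : ww X0 = vec (-1) 0 (3/5) (-4/5) 0 1 := by
  apply eq_vec
  · simp only [ww, p0, X0, vec0, vec1, sub_mk]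
    rw [NN_mk (c := 3) (by norm_num) (by norm_num)]; norm_num
  · simp only [ww, p1, X0, vec1, vec2, sub_mk]
    rw [NN_mk (c := 5) (by norm_num) (by norm_num)]; norm_num
  · simp only [ww, p2, X0, vec0, vec2, sub_mk]
    rw [NN_mk (c := 4) (by norm_num) (by norm_num)]; norm_num

theorem u1_X0 (a b c d e f : ℝ) : u1 X0 (vec a b c d e f) =
    vec ((a - e) / 4) 0 0 ((d - b) / 3) ((16 * (e - c) + 12 * (f - d)) / 125)
      ((12 * (e - c) + 9 * (f - d)) / 125) := by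
  apply eq_vec
  · simp only [u1, m0, X0, vec0, vec2, sub_mk]
    rw [N1_mk (c := 4) (by norm_num) (by norm_num)]
    apply Complex.ext <;> simp only <;> ring
  · simp only [u1, m1, X0, vec0, vec1, sub_mk]
    rw [N1_mk (c := 3) (by norm_num) (by norm_num)]
    apply Complex.ext <;> simp only <;> ring
  · simp only [u1, m2, X0, vec1, vec2, sub_mk]
    rw [N1_mk (c := 5) (by norm_num) (by norm_num)]
    apply Complex.ext <;> simp only <;> ring

theorem w1_X0 (a b c d e f : ℝ) : w1 X0 (vec a b c d e f) =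
    vec 0 (-(d - b) / 3) (-(16 * (e - c) + 12 * (f - d)) / 125)
      (-(12 * (e - c) + 9 * (f - d)) / 125) (-(a - e) / 4) 0 := by
  apply eq_vec
  · simp only [w1, p0, X0, vec0, vec1, sub_mk]
    rw [N1_mk (c := 3) (by norm_num) (by norm_num)]
    apply Complex.ext <;> simp only <;> ring
  · simp only [w1, p1, X0, vec1, vec2, sub_mk]
    rw [N1_mk (c := 5) (by norm_num) (by norm_num)]
    apply Complex.ext <;> simp only <;> ring
  · simp only [w1, p2, X0, vec0, vec2, sub_mk]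
    rw [N1_mk (c := 4) (by norm_num) (by norm_num)]
    apply Complex.ext <;> simp only <;> ring

theorem sub_vec (a b c d e f a' b' c' d' e' f' : ℝ) :
    vec a b c d e f - vec a' b' c' d' e' f'
      = vec (a - a') (b - b') (c - c') (d - d') (e - e') (f - f') := by
  apply eq_vec <;> simp [Pi.sub_apply, sub_mk]

theorem add_vec (a b c d e f a' b' c' d' e' f' : ℝ) :
    vec a b c d e f + vec a' b' c' d' e' f'
      = vec (a + a') (b + b') (c + c') (d + d') (e + e') (f + f') := by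
  apply eq_vec <;> simp [Pi.add_apply, add_mk]

theorem smul_vec (r a b c d e f : ℝ) :
    r • vec a b c d e f = vec (r * a) (r * b) (r * c) (r * d) (r * e) (r * f) := by
  apply eq_vec <;> apply Complex.ext <;> simp

theorem vec_congr {a b c d e f a' b' c' d' e' f' : ℝ} (h1 : a = a') (h2 : b = b') (h3 : c = c')
    (h4 : d = d') (h5 : e = e') (h6 : f = f') : vec a b c d e f = vec a' b' c' d' e' f' := by
  subst h1 h2 h3 h4 h5 h6; rfl

theorem u2_X0 (a b c d e f a' b' c' d' e' f' : ℝ) :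
    u2 X0 (vec a b c d e f) (vec a' b' c' d' e' f') =
    vec ((((a - e) * (b' - f') + (a' - e') * (b - f)) / 16))
      (((a - e) * (a' - e')) / 16)
      (-((c - a) * 0 + (d - b) * (d' - b')) / 9)
      (-((c - a) * (d' - b') + (c' - a') * (d - b)) / 9)
      ((N2 ⟨-3, 4⟩ ⟨e - c, f - d⟩ ⟨e' - c', f' - d'⟩).re)
      ((N2 ⟨-3, 4⟩ ⟨e - c, f - d⟩ ⟨e' - c', f' - d'⟩).im) := by
  apply eq_vec
  · simp only [u2, m0, X0, vec0, vec2, sub_mk]
    rw [N2_mk (c := 4) (by norm_num) (by norm_num)]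
    apply Complex.ext <;> simp only <;> ring
  · simp only [u2, m1, X0, vec0, vec1, sub_mk]
    rw [N2_mk (c := 3) (by norm_num) (by norm_num)]
    apply Complex.ext <;> simp only <;> ring
  · simp only [u2, m2, X0, vec1, vec2, sub_mk]
    norm_num

theorem w2_X0 (a b c d e f a' b' c' d' e' f' : ℝ) :
    w2 X0 (vec a b c d e f) (vec a' b' c' d' e' f') =
    vec (((c - a) * 0 + (d - b) * (d' - b')) / 9)
      (((c - a) * (d' - b') + (c' - a') * (d - b)) / 9)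
      (-(N2 ⟨-3, 4⟩ ⟨e - c, f - d⟩ ⟨e' - c', f' - d'⟩).re)
      (-(N2 ⟨-3, 4⟩ ⟨e - c, f - d⟩ ⟨e' - c', f' - d'⟩).im)
      (-(((a - e) * (b' - f') + (a' - e') * (b - f)) / 16))
      (-((a - e) * (a' - e')) / 16) := by
  apply eq_vec
  · simp only [w2, p0, X0, vec0, vec1, sub_mk]
    rw [N2_mk (c := 3) (by norm_num) (by norm_num)]
    apply Complex.ext <;> simp only <;> ring
  · simp only [w2, p1, X0, vec1, vec2, sub_mk]
    rw [N2_mk (c := 5) (by norm_num) (by norm_num)]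
    rw [N2_mk (c := 5) (by norm_num) (by norm_num)]
    apply Complex.ext <;> simp only <;> ring
  · simp only [w2, p2, X0, vec0, vec2, sub_mk]
    rw [N2_mk (c := 4) (by norm_num) (by norm_num)]
    apply Complex.ext <;> simp only <;> ring

theorem Y1_val : yy uu ww X0 = vec 1 (-1) (2/5) (4/5) (-3/5) (-1/5) := by
  rw [yy, uu_X0, ww_X0, sub_vec]
  apply vec_congr <;> norm_num

theorem s_val : uu X0 + ww X0 = vec (-1) (-1) (8/5) (-4/5) (-3/5) (9/5) := by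
  rw [uu_X0, ww_X0, add_vec]
  apply vec_congr <;> norm_num

theorem Y2_val : Y2 uu ww X0 = vec (-1/10) (1/15) (-4/125) (16/375) (-33/250) (-3/125) := by
  rw [Y2, fderiv_yy X0_Tri, s_val, u1_X0, w1_X0, sub_vec]
  apply vec_congr <;> norm_num

theorem mm_val : mm uu ww X0 = vec (3/20) (1/5) (-8/125) (107/375) (111/500) (-12/125) := by
  rw [mm, fderiv_uu X0_Tri, fderiv_ww X0_Tri, fderiv_ww X0_Tri, uu_X0, ww_X0, u1_X0, w1_X0,
    w1_X0, smul_vec, add_vec, add_vec]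
  apply vec_congr <;> norm_num

theorem D2_val : fderiv ℝ (fderiv ℝ (yy uu ww)) X0 (ww X0) (uu X0) =
    vec (59/360) (-91/720) (2608/28125) (-1744/28125) (1971/25000) (-531/50000) := by
  rw [fderiv2_yy X0_Tri, uu_X0, ww_X0, u2_X0, w2_X0, sub_vec]
  apply vec_congr <;> (try rw [N2_mk (c := 5) (by norm_num) (by norm_num)]) <;> norm_num

theorem DY2u_val : fderiv ℝ (Y2 uu ww) X0 (uu X0) =
    vec (223/9000) (-647/9000) (-661/28125) (-1852/28125) (1143/25000) (-599/25000) := by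
  rw [fderiv_Y2 X0_Tri, s_val, uu_X0, u2_X0, w2_X0, u1_X0, w1_X0, add_vec, u1_X0, w1_X0,
      sub_vec, sub_vec, add_vec]
  apply vec_congr <;> (try rw [N2_mk (c := 5) (by norm_num) (by norm_num)]) <;> norm_num

theorem DY2y_val : fderiv ℝ (Y2 uu ww) X0 (yy uu ww X0) =
    vec (-11/250) (-34/375) (-252/3125) (-892/9375) (-279/6250) (-264/3125) := by
  rw [fderiv_Y2 X0_Tri, s_val, Y1_val, u2_X0, w2_X0, u1_X0, w1_X0, add_vec, u1_X0, w1_X0,
      sub_vec, sub_vec, add_vec]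
  apply vec_congr <;> (try rw [N2_mk (c := 5) (by norm_num) (by norm_num)]) <;> norm_num

theorem Y3_val : Y3 uu ww X0 =
    vec (64/375) (-1019/6000) (649/9375) (-932/9375) (333/3125) (-1729/50000) := by
  rw [Y3, D2_val, DY2u_val, mm_val, fderiv_yy X0_Tri, u1_X0, w1_X0, sub_vec, add_vec, add_vec]
  apply vec_congr <;> norm_num

theorem B12_val : B12 uu ww X0 =
    vec (-13/250) (-31/375) (-192/3125) (-682/9375) (-209/6250) (-219/3125) := by
  rw [B12, DY2y_val, Y2_val, fderiv_yy X0_Tri, u1_X0, w1_X0, sub_vec, sub_vec]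
  apply vec_congr <;> norm_num

theorem vec_eq_zero {a b c d e f : ℝ} (h : vec a b c d e f = 0) :
    a = 0 ∧ b = 0 ∧ c = 0 ∧ d = 0 ∧ e = 0 ∧ f = 0 := by
  have h0 := congrFun h 0
  have h1 := congrFun h 1
  have h2 := congrFun h 2
  simp only [vec0, vec1, vec2, Pi.zero_apply, Complex.ext_iff, Complex.zero_re,
    Complex.zero_im] at h0 h1 h2
  exact ⟨h0.1, h0.2, h1.1, h1.2, h2.1, h2.2⟩

theorem LI_X0 : LinearIndependent ℝ
    ![yy uu ww X0, Y2 uu ww X0, Y3 uu ww X0, B12 uu ww X0] := by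
  rw [Fintype.linearIndependent_iff]
  intro g hg
  rw [Y1_val, Y2_val, Y3_val, B12_val] at hg
  simp only [Fin.sum_univ_four, Matrix.cons_val_zero, Matrix.cons_val_one, Matrix.cons_val,
    smul_vec, add_vec] at hg
  obtain ⟨h1, h2, h3, h4, h5, h6⟩ := vec_eq_zero hg
  have e0 : g 0 = 0 := by linarith
  have e1 : g 1 = 0 := by linarith
  have e2 : g 2 = 0 := by linarith
  have e3 : g 3 = 0 := by linarith
  intro i
  fin_cases i
  · exact e0
  · exact e1
  · exact e2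
  · exact e3

end Pool.Agent.R188.Cen
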