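import Mathlib
import Pool.Agent.R188.Cen3

open Filter Topology Set

namespace Pool.Agent.R188.Cen

theorem fields_smooth {P : ZMod 3 → ℂ} (hP : P ∈ Tri) :
    ContDiffAt ℝ 1 (Y2 uu ww) P ∧ ContinuousAt (Y3 uu ww) P ∧ ContinuousAt (B12 uu ww) P := by
  have cu : ContDiffAt ℝ 4 uu P := uu_contDiffAt hP
  have cw : ContDiffAt ℝ 4 ww P := ww_contDiffAt hP
  have cy : ContDiffAt ℝ 4 (yy uu ww) P := yy_contDiffAt hP
  have cy1 : ContDiffAt ℝ 3 (fderiv ℝ (yy uu ww)) P := cy.fderiv_right (by norm_num)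
  have cy2 : ContDiffAt ℝ 2 (fderiv ℝ (fderiv ℝ (yy uu ww))) P := cy1.fderiv_right (by norm_num)
  have cu1 : ContDiffAt ℝ 3 (fderiv ℝ uu) P := cu.fderiv_right (by norm_num)
  have cw1 : ContDiffAt ℝ 3 (fderiv ℝ ww) P := cw.fderiv_right (by norm_num)
  have hY2 : ContDiffAt ℝ 3 (Y2 uu ww) P :=
    cy1.clm_apply ((cu.add cw).of_le (by norm_num))
  have hY21 : ContDiffAt ℝ 2 (fderiv ℝ (Y2 uu ww)) P := hY2.fderiv_right (by norm_num)
  refine ⟨hY2.of_le (by norm_num), ?_, ?_⟩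
  · have hm : ContDiffAt ℝ 2 (mm uu ww) P := by
      have a1 : ContDiffAt ℝ 2 (fun x => fderiv ℝ uu x (uu x)) P :=
        (cu1.of_le (by norm_num)).clm_apply (cu.of_le (by norm_num))
      have a2 : ContDiffAt ℝ 2 (fun x => fderiv ℝ ww x (uu x)) P :=
        (cw1.of_le (by norm_num)).clm_apply (cu.of_le (by norm_num))
      have a3' : ContDiffAt ℝ 2 (fun x => fderiv ℝ ww x (ww x)) P :=
        (cw1.of_le (by norm_num)).clm_apply (cw.of_le (by norm_num))
      have a3 : ContDiffAt ℝ 2 (fun x => (2:ℝ) • fderiv ℝ ww x (ww x)) P :=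
        a3'.const_smul (2:ℝ)
      exact (a1.add a2).add a3
    have b1 : ContDiffAt ℝ 2 (fun x => fderiv ℝ (fderiv ℝ (yy uu ww)) x (ww x) (uu x)) P :=
      (cy2.clm_apply (cw.of_le (by norm_num))).clm_apply (cu.of_le (by norm_num))
    have b2 : ContDiffAt ℝ 2 (fun x => fderiv ℝ (yy uu ww) x (mm uu ww x)) P :=
      (cy1.of_le (by norm_num)).clm_apply hm
    have b3 : ContDiffAt ℝ 2 (fun x => fderiv ℝ (Y2 uu ww) x (uu x)) P :=
      hY21.clm_apply (cu.of_le (by norm_num))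
    exact ((b1.add b2).add b3).continuousAt
  · have b1 : ContDiffAt ℝ 2 (fun x => fderiv ℝ (Y2 uu ww) x (yy uu ww x)) P :=
      hY21.clm_apply (cy.of_le (by norm_num))
    have b2 : ContDiffAt ℝ 2 (fun x => fderiv ℝ (yy uu ww) x (Y2 uu ww x)) P :=
      (cy1.of_le (by norm_num)).clm_apply (hY2.of_le (by norm_num))
    exact (b1.sub b2).continuousAt

theorem LI_eventually : ∀ᶠ P in 𝓝 X0, LinearIndependent ℝ
    ![yy uu ww P, Y2 uu ww P, Y3 uu ww P, B12 uu ww P] := by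
  obtain ⟨h2, h3, h4⟩ := fields_smooth X0_Tri
  have h1 : ContinuousAt (yy uu ww) X0 := (yy_contDiffAt X0_Tri (n := 1)).continuousAt
  have hc : ContinuousAt (fun P => ![yy uu ww P, Y2 uu ww P, Y3 uu ww P, B12 uu ww P]) X0 := by
    rw [continuousAt_pi]
    intro i
    fin_cases i
    · exact h1
    · exact h2.continuousAt
    · exact h3
    · exact h4
  exact hc.eventually (isOpen_setOfPred_linearIndependent.mem_nhds LI_X0)

/-- algebraic area (twice) of a triangle -/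
def Ar (P : ZMod 3 → ℂ) : ℝ :=
  ((P 1 - P 0).re * (P 2 - P 0).im - (P 1 - P 0).im * (P 2 - P 0).re)

theorem Ar_smooth {n : WithTop ℕ∞} : ContDiff ℝ n Ar := by
  unfold Ar
  have h : ∀ i : ZMod 3, ContDiff ℝ n (fun P : ZMod 3 → ℂ => (P i).re) := fun i =>
    Complex.reCLM.contDiff.comp (contDiff_apply ℝ ℂ i)
  have h' : ∀ i : ZMod 3, ContDiff ℝ n (fun P : ZMod 3 → ℂ => (P i).im) := fun i =>
    Complex.imCLM.contDiff.comp (contDiff_apply ℝ ℂ i)
  simp only [Complex.sub_re, Complex.sub_im]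
  exact (((h 1).sub (h 0)).mul ((h' 2).sub (h' 0))).sub (((h' 1).sub (h' 0)).mul
    ((h 2).sub (h 0)))

theorem NN_neg (z : ℂ) : NN (-z) = - NN z := by
  rw [NN, NN, norm_neg, neg_div]

theorem NN_scale {z : ℂ} (hz : z ≠ 0) : z = (‖z‖ : ℝ) • NN z := by
  have : (‖z‖ : ℝ) ≠ 0 := norm_ne_zero_iff.mpr hz
  rw [NN_eq, smul_smul, mul_inv_cancel₀ this, one_smul]

theorem ww_eq (P : ZMod 3 → ℂ) (i : ZMod 3) : ww P i = - uu P (i + 1) := by
  rw [ww, uu, ← NN_neg]
  congr 1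
  rw [add_sub_cancel_right]; ring

theorem Ar_inv {P : ZMod 3 → ℂ} (hP : P ∈ Tri) (t : ℝ) :
    Ar (P + t • uu P) = Ar (P + t • ww P) := by
  have e0 := NN_scale (Tri_sub2 hP 0)
  have e1 := NN_scale (Tri_sub2 hP 1)
  have e2 := NN_scale (Tri_sub2 hP 2)
  have hu : ∀ i, NN (P i - P (i - 1)) = uu P i := fun i => rfl
  rw [hu] at e0 e1 e2
  rw [m0] at e0
  rw [m1] at e1
  rw [m2] at e2
  simp only [Ar, Pi.add_apply, Pi.smul_apply, ww_eq, p0, p1, p2]
  generalize uu P 0 = a at *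
  generalize uu P 1 = b at *
  generalize uu P 2 = c at *
  generalize ‖P 0 - P 2‖ = x at *
  generalize ‖P 1 - P 0‖ = y at *
  generalize ‖P 2 - P 1‖ = z at *
  have r0 := congrArg Complex.re e0
  have i0 := congrArg Complex.im e0
  have r1 := congrArg Complex.re e1
  have i1 := congrArg Complex.im e1
  have r2 := congrArg Complex.re e2
  have i2 := congrArg Complex.im e2
  simp only [Complex.sub_re, Complex.sub_im, Complex.smul_re, Complex.smul_im, smul_eq_mul,
    Complex.add_re, Complex.add_im, Complex.neg_re, Complex.neg_im] at *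
  generalize (P 0).re = A at *
  generalize (P 0).im = A' at *
  generalize (P 1).re = B at *
  generalize (P 1).im = B' at *
  generalize (P 2).re = C at *
  generalize (P 2).im = C' at *
  linear_combination (-t) * (a.im * r0 - a.re * i0 + b.im * r1 - b.re * i1 + c.im * r2 - c.re * i2)

theorem Ar_translate (P : ZMod 3 → ℂ) (v : ℂ) : Ar (P + fun _ => v) = Ar P := by
  simp only [Ar, Pi.add_apply, add_sub_add_right_eq_sub]

end Pool.Agent.R188.Cen
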