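import Mathlib
import Pool.Agent.R188.Cen4

open Filter Topology Set

namespace Pool.Agent.R188.Cen

theorem no_center {U : Set (ZMod 3 → ℂ)} (hUo : IsOpen U) (hU : U ⊆ Tri) (hX : X0 ∈ closure U)
    {C : (ZMod 3 → ℂ) → ℂ} (hC : ContDiffOn ℝ 3 C U)
    (htr : ∀ P ∈ U, ∀ v : ℂ, (P + fun _ => v) ∈ U → C (P + fun _ => v) = C P + v)
    (hf : ∀ P ∈ U, ∀ᶠ t in 𝓝[>] (0:ℝ), C (P + t • uu P) = C (P + t • ww P)) : False := by
  have hsm : ContDiffOn ℝ 3 (fun P => (C P, Ar P)) U := hC.prodMk Ar_smooth.contDiffOn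
  have huu : ContDiffOn ℝ 3 uu U := fun P hP => (uu_contDiffAt (hU hP)).contDiffWithinAt
  have hww : ContDiffOn ℝ 3 ww U := fun P hP => (ww_contDiffAt (hU hP)).contDiffWithinAt
  have hk := kills hUo hsm huu hww (by
    intro P hP
    filter_upwards [hf P hP] with t ht
    simp only [Prod.mk.injEq]
    exact ⟨ht, Ar_inv (hU hP) t⟩)
  obtain ⟨X, hLI, hXU⟩ : ∃ X, LinearIndependent ℝ
      ![yy uu ww X, Y2 uu ww X, Y3 uu ww X, B12 uu ww X] ∧ X ∈ U := by
    obtain ⟨X, h1, h2⟩ := mem_closure_iff_nhds.mp hX _ LI_eventually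
    exact ⟨X, h1, h2⟩
  obtain ⟨k1, k2, k3, k4⟩ := hk X hXU
  set F : (ZMod 3 → ℂ) → ℂ × ℝ := fun P => (C P, Ar P) with hF
  have hd : DifferentiableAt ℝ F X := (hsm.contDiffAt (hUo.mem_nhds hXU)).differentiableAt
    (by simp)
  have hdA : DifferentiableAt ℝ Ar X := (Ar_smooth (n := 1)).differentiable (by simp) X
  set L := fderiv ℝ F X with hL
  have hcon : ∀ h : ZMod 3 → ℂ, ∀ᶠ s in 𝓝 (0:ℝ), X + s • h ∈ U := by
    intro h
    have hc : ContinuousAt (fun s : ℝ => X + s • h) 0 := by fun_prop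
    apply hc.eventually
    simp only [zero_smul, add_zero]
    exact hUo.mem_nhds hXU
  -- translations
  have t1 : ∀ v : ℂ, L (fun _ => v) = (v, 0) := by
    intro v
    apply fderiv_eq_of_line hd
    have e : (fun s : ℝ => F (X + s • fun _ => v)) =ᶠ[𝓝 0] fun s : ℝ => (C X + s • v, Ar X) := by
      filter_upwards [hcon (fun _ => v)] with s hs
      have e1 : (s • fun _ : ZMod 3 => v) = fun _ => s • v := rfl
      rw [e1] at hs ⊢
      simp only [hF, Prod.mk.injEq]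
      exact ⟨htr X hXU _ hs, Ar_translate X _⟩
    refine HasDerivAt.congr_of_eventuallyEq ?_ e
    have d1 : HasDerivAt (fun s : ℝ => C X + s • v) v 0 := by
      simpa using ((hasDerivAt_id (0:ℝ)).smul_const v).const_add (C X)
    exact d1.prodMk (hasDerivAt_const (0:ℝ) (Ar X))
  have hne : X 1 - X 0 ≠ 0 := by
    have := hU hXU 0
    rw [p0] at this
    exact sub_ne_zero.mpr this.symm
  -- direction changing the area
  obtain ⟨z, a, ha, hz⟩ : ∃ z : ZMod 3 → ℂ, ∃ a : ℝ, a ≠ 0 ∧ (L z).2 = a := by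
    set z : ZMod 3 → ℂ := fun i => if i = 2 then Complex.I * (X 1 - X 0) else 0 with hzdef
    refine ⟨z, ‖X 1 - X 0‖ ^ 2, by positivity, ?_⟩
    have h1 : fderiv ℝ Ar X z = ‖X 1 - X 0‖ ^ 2 := by
      apply fderiv_eq_of_line hdA
      have e : (fun s : ℝ => Ar (X + s • z)) = fun s : ℝ => Ar X + s * ‖X 1 - X 0‖ ^ 2 := by
        funext s
        have z0 : z 0 = 0 := rfl
        have z1 : z 1 = 0 := rfl
        have z2 : z 2 = Complex.I * (X 1 - X 0) := rfl
        simp only [Ar, Pi.add_apply, Pi.smul_apply, z0, z1, z2, smul_zero, add_zero, norm_sq_eq,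
          Complex.sub_re, Complex.sub_im, Complex.add_re, Complex.add_im, Complex.smul_re,
          Complex.smul_im, Complex.mul_re, Complex.mul_im, Complex.I_re, Complex.I_im,
          smul_eq_mul]
        ring
      rw [e]
      simpa using ((hasDerivAt_id (0:ℝ)).mul_const (‖X 1 - X 0‖ ^ 2)).const_add (Ar X)
    have h2 : HasFDerivAt (fun P => (F P).2) ((ContinuousLinearMap.snd ℝ ℂ ℝ).comp L) X :=
      hd.hasFDerivAt.snd
    have h3 : HasFDerivAt Ar ((ContinuousLinearMap.snd ℝ ℂ ℝ).comp L) X := h2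
    rw [← h1, h3.fderiv]; rfl
  have hsurj : Function.Surjective (L : (ZMod 3 → ℂ) →ₗ[ℝ] ℂ × ℝ) := by
    rintro ⟨v, b⟩
    refine ⟨(fun _ => v - (b / a) • (L z).1) + (b / a) • z, ?_⟩
    show L _ = _
    rw [map_add, map_smul, t1]
    apply Prod.ext
    · simp
    · simp [hz]
      field_simp
  have hrk := (L : (ZMod 3 → ℂ) →ₗ[ℝ] ℂ × ℝ).finrank_range_add_finrank_ker
  rw [LinearMap.range_eq_top.mpr hsurj, finrank_top] at hrk
  have f1 : Module.finrank ℝ (ℂ × ℝ) = 3 := by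
    rw [Module.finrank_prod, Complex.finrank_real_complex, Module.finrank_self]
  have f2 : Module.finrank ℝ (ZMod 3 → ℂ) = 6 := by
    rw [Module.finrank_pi_fintype]
    simp [Complex.finrank_real_complex]
  rw [f1, f2] at hrk
  have hker : ∀ i : Fin 4, ![yy uu ww X, Y2 uu ww X, Y3 uu ww X, B12 uu ww X] i ∈
      LinearMap.ker (L : (ZMod 3 → ℂ) →ₗ[ℝ] ℂ × ℝ) := by
    intro i
    rw [LinearMap.mem_ker]
    fin_cases i
    · exact k1
    · exact k2
    · exact k3
    · exact k4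
  have hLI' : LinearIndependent ℝ (fun i : Fin 4 =>
      (⟨_, hker i⟩ : LinearMap.ker (L : (ZMod 3 → ℂ) →ₗ[ℝ] ℂ × ℝ))) := by
    apply LinearIndependent.of_comp (Submodule.subtype _)
    exact hLI
  have hcard := hLI'.fintype_card_le_finrank
  simp only [Fintype.card_fin] at hcard
  omega

end Pool.Agent.R188.Cen
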