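import Pool.Agent.W714.Coin.Leaf
import Pool.Agent.W714.Coin.Meas
import Pool.Agent.W714.Coin.Defs

set_option autoImplicit false

/-!
# Rigidity of the integrable capped cylinder
-/

namespace Pool.Agent.R188.Coin

open Pool.Agent.H738R2.Cyl Pool.Agent.W714.Coin Complex Set Topology Filter

/-- A third order zero test. -/
lemma third_zero {g g1 g2 g3 : ℝ → ℂ} (h1 : ∀ x, HasDerivAt g (g1 x) x)
    (h2 : ∀ x, HasDerivAt g1 (g2 x) x) (h3 : ∀ x, HasDerivAt g2 (g3 x) x) (hc : Continuous g3)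
    (z0 : g 0 = 0) (z1 : g1 0 = 0) (z2 : g2 0 = 0)
    (hx : ∀ δ > 0, ∃ x, 0 < x ∧ x < δ ∧ g x = 0) : g3 0 = 0 := by
  by_contra hA
  set A := g3 0 with hAd
  have hA0 : 0 < ‖A‖ := norm_pos_iff.2 hA
  set ε := ‖A‖ / 12 with hε
  have hε0 : 0 < ε := by positivity
  obtain ⟨δ, hδ, hδ'⟩ := Metric.continuousAt_iff.mp hc.continuousAt ε hε0
  obtain ⟨x, hx0, hxδ, hgx⟩ := hx δ hδ
  have b3 : ∀ y ∈ Icc 0 x, ‖g3 y - A‖ ≤ ε := by
    intro y hy
    have := hδ' (x := y) (by rw [Real.dist_eq, sub_zero, abs_of_nonneg hy.1]; linarith [hy.2])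
    rw [dist_eq_norm] at this
    exact this.le
  have b2 : ∀ y ∈ Icc 0 x, ‖g2 y - A * y‖ ≤ ε * x := by
    intro y hy
    have hd : ∀ t ∈ Icc 0 y, HasDerivWithinAt (fun t : ℝ => g2 t - A * t) (g3 t - A) (Icc 0 y) t := by
      intro t _
      have h4 : HasDerivAt (fun t : ℝ => A * (t : ℂ)) (A * 1) t :=
        (Complex.ofRealCLM.hasDerivAt (x := t)).const_mul A
      rw [mul_one] at h4
      exact ((h3 t).sub h4).hasDerivWithinAt
    have h5 := (convex_Icc 0 y).norm_image_sub_le_of_norm_hasDerivWithin_le (C := ε) hd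
      (fun t ht => b3 t ⟨ht.1, ht.2.trans hy.2⟩) (left_mem_Icc.2 hy.1) (right_mem_Icc.2 hy.1)
    simp only [z2, Complex.ofReal_zero, mul_zero, sub_zero, Real.norm_eq_abs, abs_of_nonneg hy.1] at h5
    nlinarith [hy.2]
  have b1 : ∀ y ∈ Icc 0 x, ‖g1 y - A * y ^ 2 / 2‖ ≤ ε * x * x := by
    intro y hy
    have hd : ∀ t ∈ Icc 0 y, HasDerivWithinAt (fun t : ℝ => g1 t - A * (t : ℂ) ^ 2 / 2)
        (g2 t - A * t) (Icc 0 y) t := by
      intro t _
      have h4 : HasDerivAt (fun t : ℝ => A * (t : ℂ) ^ 2 / 2) (A * (2 * (t : ℂ) ^ (2 - 1) * 1) / 2) t :=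
        (((Complex.ofRealCLM.hasDerivAt (x := t)).pow 2).const_mul A).div_const 2
      have h6 : A * (2 * (t : ℂ) ^ (2 - 1) * 1) / 2 = A * t := by norm_num; ring
      rw [h6] at h4
      exact ((h2 t).sub h4).hasDerivWithinAt
    have h5 := (convex_Icc 0 y).norm_image_sub_le_of_norm_hasDerivWithin_le (C := ε * x) hd
      (fun t ht => b2 t ⟨ht.1, ht.2.trans hy.2⟩) (left_mem_Icc.2 hy.1) (right_mem_Icc.2 hy.1)
    simp only [z1, Complex.ofReal_zero, mul_zero, sub_zero, zero_pow, ne_eq, OfNat.ofNat_ne_zero,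
      not_false_eq_true, zero_div, Real.norm_eq_abs, abs_of_nonneg hy.1] at h5
    have : ε * x * y ≤ ε * x * x := mul_le_mul_of_nonneg_left hy.2 (by positivity)
    linarith
  have b0 : ‖g x - A * x ^ 3 / 6‖ ≤ ε * x * x * x := by
    have hd : ∀ t ∈ Icc 0 x, HasDerivWithinAt (fun t : ℝ => g t - A * (t : ℂ) ^ 3 / 6)
        (g1 t - A * (t : ℂ) ^ 2 / 2) (Icc 0 x) t := by
      intro t _
      have h4 : HasDerivAt (fun t : ℝ => A * (t : ℂ) ^ 3 / 6) (A * (3 * (t : ℂ) ^ (3 - 1) * 1) / 6) t :=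
        (((Complex.ofRealCLM.hasDerivAt (x := t)).pow 3).const_mul A).div_const 6
      have h6 : A * (3 * (t : ℂ) ^ (3 - 1) * 1) / 6 = A * (t : ℂ) ^ 2 / 2 := by norm_num; ring
      rw [h6] at h4
      exact ((h1 t).sub h4).hasDerivWithinAt
    have h5 := (convex_Icc 0 x).norm_image_sub_le_of_norm_hasDerivWithin_le (C := ε * x * x) hd
      b1 (left_mem_Icc.2 hx0.le) (right_mem_Icc.2 hx0.le)
    simpa only [z0, Complex.ofReal_zero, mul_zero, sub_zero, zero_pow, ne_eq, OfNat.ofNat_ne_zero,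
      not_false_eq_true, zero_div, Real.norm_eq_abs, abs_of_pos hx0] using h5
  rw [hgx, zero_sub, norm_neg, norm_div, norm_mul, norm_pow, Complex.norm_real, Real.norm_eq_abs,
    abs_of_pos hx0] at b0
  have h6 : ‖(6 : ℂ)‖ = 6 := by norm_num
  rw [h6, hε] at b0
  have h7 : 0 < x ^ 3 := by positivity
  have h8 : ‖A‖ * x ^ 3 / 6 ≤ ‖A‖ * x ^ 3 / 12 := by
    calc ‖A‖ * x ^ 3 / 6 ≤ ‖A‖ / 12 * x * x * x := b0
      _ = ‖A‖ * x ^ 3 / 12 := by ring
  have h9 : 0 < ‖A‖ * x ^ 3 := by positivity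
  linarith

variable {γ : ℝ → ℂ} {L : ℝ}

/-- the higher derivatives -/
lemma hd_all (h : StrictlyConvexCurve γ L) (k : ℕ) (s : ℝ) :
    HasDerivAt (deriv^[k] γ) (deriv^[k + 1] γ s) s := by
  have h1 : ContDiff ℝ (⊤ : ℕ∞) (deriv^[k] γ) := h.smooth.iterate_deriv k
  have h2 := (h1.differentiable (by simp)).differentiableAt (x := s) |>.hasDerivAt
  rw [Function.iterate_succ_apply']
  exact h2

lemma cont_all (h : StrictlyConvexCurve γ L) (k : ℕ) : Continuous (deriv^[k] γ) :=
  (h.smooth.iterate_deriv k).continuous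

/-- If arbitrarily short chords from `γ s` make equal angles with the curve, then the derivative of
the curvature vanishes at `s`. -/
lemma curv_zero (h : StrictlyConvexCurve γ L) (s : ℝ)
    (hx : ∀ δ > 0, ∃ x, 0 < x ∧ x < δ ∧ x ∈ Ioo 0 L ∧
      angA h (s : AddCircle L) x = angB h (s : AddCircle L) x) :
    (starRingEnd ℂ) (deriv^[2] γ s) * deriv^[2] γ s +
      (starRingEnd ℂ) (deriv^[1] γ s) * deriv^[3] γ s = 0 := by
  set u := (starRingEnd ℂ) (deriv^[1] γ s) with hu
  have hsh : ∀ (k : ℕ) (x : ℝ), HasDerivAt (fun x => deriv^[k] γ (s + x)) (deriv^[k + 1] γ (s + x)) x :=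
    fun k x => (hd_all h k (s + x)).comp_const_add s x
  have hw : ∀ x : ℝ, HasDerivAt (fun x => γ (s + x) - γ s) (deriv^[1] γ (s + x)) x := by
    intro x
    exact (hsh 0 x).sub_const _
  have hstar : ∀ {f : ℝ → ℂ} {f' : ℂ} {x : ℝ}, HasDerivAt f f' x →
      HasDerivAt (fun y => (starRingEnd ℂ) (f y)) ((starRingEnd ℂ) f') x := by
    intro f f' x hf
    exact hf.star
  have hone : ∀ x, (starRingEnd ℂ) (deriv^[1] γ x) * deriv^[1] γ x = 1 := by
    intro x
    exact conj_deriv_mul h x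
  have key := third_zero
    (g := fun x => (starRingEnd ℂ) (γ (s + x) - γ s) * deriv^[1] γ (s + x) - u * (γ (s + x) - γ s))
    (g1 := fun x => 1 + (starRingEnd ℂ) (γ (s + x) - γ s) * deriv^[2] γ (s + x) -
      u * deriv^[1] γ (s + x))
    (g2 := fun x => (starRingEnd ℂ) (deriv^[1] γ (s + x)) * deriv^[2] γ (s + x) +
      (starRingEnd ℂ) (γ (s + x) - γ s) * deriv^[3] γ (s + x) - u * deriv^[2] γ (s + x))
    (g3 := fun x => (starRingEnd ℂ) (deriv^[2] γ (s + x)) * deriv^[2] γ (s + x) +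
      (starRingEnd ℂ) (deriv^[1] γ (s + x)) * deriv^[3] γ (s + x) +
      ((starRingEnd ℂ) (deriv^[1] γ (s + x)) * deriv^[3] γ (s + x) +
      (starRingEnd ℂ) (γ (s + x) - γ s) * deriv^[4] γ (s + x)) - u * deriv^[3] γ (s + x))
    (fun x => by
      have := ((hstar (hw x)).mul (hsh 1 x)).sub ((hw x).const_mul u)
      refine this.congr_deriv ?_
      rw [hone])
    (fun x => by
      have := (((hstar (hw x)).mul (hsh 2 x)).const_add 1).sub ((hsh 1 x).const_mul u)
      exact this)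
    (fun x => by
      have := (((hstar (hsh 1 x)).mul (hsh 2 x)).add ((hstar (hw x)).mul (hsh 3 x))).sub
        ((hsh 2 x).const_mul u)
      exact this)
    (by
      have c0 := h.smooth.continuous
      have c1 := cont_all h 1
      have c2 := cont_all h 2
      have c3 := cont_all h 3
      have c4 := cont_all h 4
      fun_prop)
    (by simp)
    (by
      simp only [add_zero, sub_self, map_zero, zero_mul]
      rw [hu, hone]; ring)
    (by
      simp only [add_zero, sub_self, map_zero, zero_mul]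
      rw [hu]; ring)
    (by
      intro δ hδ
      obtain ⟨x, hx0, hxδ, hxL, he⟩ := hx δ hδ
      refine ⟨x, hx0, hxδ, ?_⟩
      haveI : Fact (0 < L) := ⟨h.length_pos⟩
      have e1 : ZA h (s : AddCircle L) x = ZB h (s : AddCircle L) x := by
        apply Complex.ext_norm_arg
        · rw [norm_ZA, norm_ZB]
        · exact he
      rw [ZA_coe, ZB_coe] at e1
      have e2 : deriv^[1] γ = deriv γ := rfl
      simp only [hu, e2]
      rw [← e1]; ring)
  simp only [add_zero, sub_self, map_zero, zero_mul] at key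
  rw [hu] at key ⊢
  linear_combination key

/-- Constant curvature. -/
lemma circle_of (h : StrictlyConvexCurve γ L)
    (hk : ∀ s, (starRingEnd ℂ) (deriv^[2] γ s) * deriv^[2] γ s +
      (starRingEnd ℂ) (deriv^[1] γ s) * deriv^[3] γ s = 0) :
    ∃ (c : ℂ) (R : ℝ), 0 < R ∧ ∀ s, ‖γ s - c‖ = R := by
  have hone : ∀ x, (starRingEnd ℂ) (deriv^[1] γ x) * deriv^[1] γ x = 1 := fun x => conj_deriv_mul h x
  -- `a = conj γ' γ''` is constant
  have ha : ∀ s, HasDerivAt (fun s => (starRingEnd ℂ) (deriv^[1] γ s) * deriv^[2] γ s) 0 s := by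
    intro s
    have h1 : HasDerivAt (fun s => (starRingEnd ℂ) (deriv^[1] γ s)) ((starRingEnd ℂ) (deriv^[2] γ s)) s :=
      (hd_all h 1 s).star
    exact (h1.mul (hd_all h 2 s)).congr_deriv (hk s)
  set a := (starRingEnd ℂ) (deriv^[1] γ 0) * deriv^[2] γ 0 with had
  have hac : ∀ s, (starRingEnd ℂ) (deriv^[1] γ s) * deriv^[2] γ s = a := fun s =>
    is_const_of_deriv_eq_zero (fun s => (ha s).differentiableAt) (fun s => (ha s).deriv) s 0
  have h2 : ∀ s, deriv^[2] γ s = a * deriv^[1] γ s := by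
    intro s
    rw [← hac s]
    linear_combination (-deriv^[2] γ s) * hone s
  -- `γ' - a γ` is constant
  have hb : ∀ s, HasDerivAt (fun s => deriv^[1] γ s - a * γ s) 0 s := by
    intro s
    have h3 := (hd_all h 1 s).sub ((hd_all h 0 s).const_mul a)
    refine h3.congr_deriv ?_
    rw [h2]; simp
  set b := deriv^[1] γ 0 - a * γ 0 with hbd
  have hbc : ∀ s, deriv^[1] γ s - a * γ s = b := fun s =>
    is_const_of_deriv_eq_zero (fun s => (hb s).differentiableAt) (fun s => (hb s).deriv) s 0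
  have hnorm : ∀ s, ‖deriv^[1] γ s‖ = 1 := h.unit_speed
  have ha0 : a ≠ 0 := by
    intro h0
    have h3 : ∀ s, deriv^[1] γ s = b := by
      intro s; have := hbc s; rw [h0, zero_mul, sub_zero] at this; exact this
    have h4 : ∀ s, HasDerivAt (fun s : ℝ => γ s - s * b) 0 s := by
      intro s
      have h5 : HasDerivAt (fun s : ℝ => (s : ℂ) * b) (1 * b) s :=
        (Complex.ofRealCLM.hasDerivAt (x := s)).mul_const b
      refine ((hd_all h 0 s).sub h5).congr_deriv ?_
      have := h3 s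
      simp only [zero_add]
      rw [this]; ring
    have h5 : ∀ s, γ s - s * b = γ 0 - (0 : ℝ) * b := fun s =>
      is_const_of_deriv_eq_zero (fun s => (h4 s).differentiableAt) (fun s => (h4 s).deriv) s 0
    have h6 := h5 L
    have h7 : γ L = γ 0 := by have := h.periodic 0; rwa [zero_add] at this
    rw [h7] at h6
    have h8 : (L : ℂ) * b = 0 := by
      rw [Complex.ofReal_zero, zero_mul, sub_zero] at h6
      linear_combination -h6
    rcases mul_eq_zero.1 h8 with h9 | h9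
    · exact h.length_pos.ne' (by exact_mod_cast h9)
    · have := hnorm 0
      rw [h3 0, h9, norm_zero] at this
      exact zero_ne_one this
  refine ⟨-b / a, 1 / ‖a‖, by positivity, fun s => ?_⟩
  have h3 : γ s - -b / a = deriv^[1] γ s / a := by
    rw [← hbc s]; field_simp; ring
  rw [h3, norm_div, hnorm]

end Pool.Agent.R188.Coin
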