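import Pool.Agent.R188.Coin

set_option autoImplicit false

/-!
# Leaves near the boundary of the phase cylinder
-/

namespace Pool.Agent.R188.Coin

open Pool.Agent.H738R2.Cyl Pool.Agent.W714.Coin Complex Set Topology Filter

variable {γ : ℝ → ℂ} {L : ℝ}

/-- Some leaf is contained in `{α < η}`. -/
lemma exists_low_leaf (hL : 0 < L) (F : Set (Set (PhaseCylinder L)))
    (T : PhaseCylinder L → PhaseCylinder L)
    (hpart : ∀ z, ∃! Γ, Γ ∈ F ∧ z ∈ Γ) (hric : ∀ Γ ∈ F, IsRotationalInvariantCurve T Γ)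
    (htube : ∀ Γ ∈ F, ∃ φ : AddCircle (1 : ℝ) × ℝ → PhaseCylinder L, IsOpenEmbedding φ ∧
      (Set.range fun u => φ (u, 0)) = Γ ∧ ∀ t, (Set.range fun u => φ (u, t)) ∈ F)
    {η : ℝ} (hη : 0 < η) : ∃ Γ ∈ F, ∀ z ∈ Γ, ((z.2 : ℝ)) < η := by
  have : Fact (0 < L) := ⟨hL⟩
  set η' : ℝ := min η 1 with hη'
  have hη0 : 0 < η' := lt_min hη one_pos
  have hη1 : η' < Real.pi := (min_le_right _ _).trans_lt (by linarith [Real.pi_gt_three])
  set S : Set (PhaseCylinder L) := range fun w : AddCircle L => (w, (⟨η', hη0, hη1⟩ : Ioo (0:ℝ) Real.pi)) with hS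
  have hSc : IsCompact S := isCompact_range (by fun_prop)
  have key : ∃ m > 0, ∀ Γ ∈ F, (Γ ∩ S).Nonempty → ∀ z ∈ Γ, m ≤ ((z.2 : ℝ)) := by
    refine hSc.induction_on (p := fun t => ∃ m > 0, ∀ Γ ∈ F, (Γ ∩ t).Nonempty → ∀ z ∈ Γ, m ≤ ((z.2 : ℝ)))
      ?_ ?_ ?_ ?_
    · exact ⟨1, one_pos, fun Γ _ h => by simp at h⟩
    · rintro s t hst ⟨m, hm, h⟩
      exact ⟨m, hm, fun Γ hΓ hne => h Γ hΓ (hne.mono (inter_subset_inter_right _ hst))⟩
    · rintro s t ⟨m, hm, h⟩ ⟨m', hm', h'⟩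
      refine ⟨min m m', lt_min hm hm', fun Γ hΓ hne z hz => ?_⟩
      rw [inter_union_distrib_left, union_nonempty] at hne
      rcases hne with hne | hne
      · exact (min_le_left _ _).trans (h Γ hΓ hne z hz)
      · exact (min_le_right _ _).trans (h' Γ hΓ hne z hz)
    · intro w _
      obtain ⟨Γ, ⟨hΓ, hw⟩, -⟩ := hpart w
      obtain ⟨φ, hφ, h0, hF⟩ := htube Γ hΓ
      -- the compact piece of the tube
      have hKc : IsCompact (φ '' ((univ : Set (AddCircle (1:ℝ))) ×ˢ Icc (-1:ℝ) 1)) :=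
        (isCompact_univ.prod isCompact_Icc).image hφ.continuous
      have hcont : ContinuousOn (fun z : PhaseCylinder L => ((z.2 : ℝ)))
          (φ '' ((univ : Set (AddCircle (1:ℝ))) ×ˢ Icc (-1:ℝ) 1)) := by fun_prop
      obtain ⟨z0, -, hz0⟩ := hKc.exists_isMinOn (f := fun z : PhaseCylinder L => ((z.2 : ℝ)))
        ⟨φ (0, 0), ⟨(0, 0), ⟨trivial, by norm_num⟩, rfl⟩⟩ hcont
      have hopen : IsOpen (φ '' ((univ : Set (AddCircle (1:ℝ))) ×ˢ Ioo (-1:ℝ) 1)) :=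
        hφ.isOpenMap _ (isOpen_univ.prod isOpen_Ioo)
      have hwm : w ∈ φ '' ((univ : Set (AddCircle (1:ℝ))) ×ˢ Ioo (-1:ℝ) 1) := by
        rw [← h0] at hw
        obtain ⟨u, hu⟩ := hw
        exact ⟨(u, 0), ⟨trivial, by norm_num⟩, hu⟩
      refine ⟨_, mem_nhdsWithin_of_mem_nhds (hopen.mem_nhds hwm), ((z0.2 : ℝ)), z0.2.2.1, ?_⟩
      rintro Γ' hΓ' ⟨z1, hz1, ⟨u, t⟩, ⟨-, ht⟩, rfl⟩ z hz
      have e1 : Γ' = range fun u => φ (u, t) := (hpart (φ (u, t))).unique ⟨hΓ', hz1⟩ ⟨hF t, ⟨u, rfl⟩⟩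
      rw [e1] at hz
      obtain ⟨v, rfl⟩ := hz
      exact hz0 ⟨(v, t), ⟨trivial, Ioo_subset_Icc_self ht⟩, rfl⟩
  obtain ⟨m, hm, hkey⟩ := key
  have hα0 : 0 < min m η' / 2 := by positivity
  have hα1 : min m η' / 2 < Real.pi := by linarith [min_le_right m η']
  obtain ⟨Γ, ⟨hΓ, hz0⟩, -⟩ := hpart (0, ⟨min m η' / 2, hα0, hα1⟩)
  refine ⟨Γ, hΓ, ?_⟩
  by_contra hcon
  push Not at hcon
  obtain ⟨z1, hz1, hz1η⟩ := hcon
  obtain ⟨c, -, -, hc, -⟩ := hric Γ hΓ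
  rw [← hc] at hz0 hz1
  obtain ⟨u0, hu0⟩ := hz0
  obtain ⟨u1, hu1⟩ := hz1
  have hcc : Continuous fun u => (((c u).2 : ℝ)) := by fun_prop
  obtain ⟨u, hu⟩ := mem_range_of_exists_le_of_exists_ge hcc (c := η')
    ⟨u0, by rw [hu0]; simp only; linarith [min_le_right m η']⟩
    ⟨u1, by rw [hu1]; exact (min_le_left _ _).trans hz1η⟩
  have h1 := hkey Γ hΓ ⟨c u, by rw [← hc]; exact ⟨u, rfl⟩, (c u).1, Prod.ext rfl (Subtype.ext hu.symm)⟩
    (c u0) (by rw [← hc]; exact ⟨u0, rfl⟩)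
  rw [hu0] at h1
  simp only at h1
  linarith [min_le_left m η']

lemma cot_anti {a b : ℝ} (ha : a ∈ Ioo 0 Real.pi) (hb : b ∈ Ioo 0 Real.pi) (hab : a ≤ b) :
    Real.cot b ≤ Real.cot a := by
  rw [Real.cot_eq_cos_div_sin, Real.cot_eq_cos_div_sin]
  have h1 := Real.sin_pos_of_pos_of_lt_pi ha.1 ha.2
  have h2 := Real.sin_pos_of_pos_of_lt_pi hb.1 hb.2
  rw [div_le_div_iff₀ h2 h1]
  have h3 : 0 ≤ Real.sin (b - a) :=
    Real.sin_nonneg_of_nonneg_of_le_pi (by linarith) (by linarith [hb.2, ha.1])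
  rw [Real.sin_sub] at h3
  linarith

/-- In the integrable case arbitrarily short chords with equal angles leave every point. -/
lemma equal_angles (h : StrictlyConvexCurve γ L) {d : ℝ} (hd : 0 < d)
    (hint : IsIntegrable (tmap h d)) (s : ℝ) {δ : ℝ} (hδ : 0 < δ) :
    ∃ x, 0 < x ∧ x < δ ∧ x ∈ Ioo 0 L ∧ angA h (s : AddCircle L) x = angB h (s : AddCircle L) x := by
  have hL := h.length_pos
  have : Fact (0 < L) := ⟨hL⟩
  obtain ⟨F, hpart, hric, htube⟩ := hint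
  -- a fixed leaf
  have hpi := Real.pi_pos
  have : ContractibleSpace (Ioo (0:ℝ) Real.pi) :=
    (convex_Ioo (0:ℝ) Real.pi).contractibleSpace ⟨Real.pi / 2, by linarith, by linarith⟩
  obtain ⟨Γ1, ⟨hΓ1, hz1⟩, -⟩ := hpart (0, ⟨Real.pi / 2, by linarith, by linarith⟩)
  obtain ⟨c1, -, -, hc1, -⟩ := hric Γ1 hΓ1
  obtain ⟨M, hM⟩ : ∃ M, ∀ z ∈ Γ1, disp h d z ≤ M := by
    have hcomp : IsCompact Γ1 := by rw [← hc1]; exact isCompact_range c1.continuous
    obtain ⟨M, hM⟩ := hcomp.bddAbove_image (continuous_disp h d).continuousOn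
    exact ⟨M, fun z hz => hM ⟨z, hz, rfl⟩⟩
  obtain ⟨η, hη, hη'⟩ := exists_small h hδ
  set η1 : ℝ := min η 1 with hη1
  have hη1m : η1 ∈ Ioo 0 Real.pi := ⟨lt_min hη one_pos, (min_le_right _ _).trans_lt (by linarith [Real.pi_gt_three])⟩
  obtain ⟨K, hK⟩ := exists_nat_gt (max (M / L) (d * Real.cot η1 / L + 1))
  have hK1 : M < K * L := by
    have := (le_max_left _ _).trans_lt hK
    rwa [div_lt_iff₀ hL] at this
  have hK2 : d * Real.cot η1 < (K - 1) * L := by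
    have h1 := (le_max_right _ _).trans_lt hK
    have h2 : d * Real.cot η1 / L < K - 1 := by linarith
    rwa [div_lt_iff₀ hL] at h2
  obtain ⟨η2, hη2, hη2'⟩ := exists_disp_large h hd (K * L)
  obtain ⟨Γ0, hΓ0, hlow⟩ := exists_low_leaf hL F (tmap h d) hpart hric htube hη2
  obtain ⟨Γ, hΓ, hfix⟩ := exists_fixed_leaf (L := L) (T := tmap h d) (D := disp h d) (K := (K : ℤ)) hL
    (continuous_tmap h d) (tmap_injective h d) (fun y : Ioo (0:ℝ) Real.pi => (y : ℝ))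
    continuous_subtype_val Subtype.val_injective (continuous_disp h d) (tmap_fst h d)
    (fun V hV hne => recurrent h d V hV hne) F hpart (fun Γ hΓ => hric Γ hΓ) htube
    ⟨Γ0, hΓ0, fun z hz => by
      have := hη2' z (hlow z hz)
      simpa using this⟩
    ⟨Γ1, hΓ1, fun z hz => by
      have := hM z hz
      simp only [Int.cast_natCast]
      linarith⟩
  -- the leaf has a point over `s`
  obtain ⟨φ, hφ, h0, hF⟩ := htube Γ hΓ
  obtain ⟨φ', X, G, hT, hr⟩ := exists_tube hL (tmap h d) (continuous_tmap h d) (tmap_injective h d)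
    (fun y : Ioo (0:ℝ) Real.pi => (y : ℝ)) continuous_subtype_val Subtype.val_injective
    (disp h d) (continuous_disp h d) (tmap_fst h d) φ hφ (fun t => hric _ (hF t)) (K : ℤ)
  obtain ⟨u, hu⟩ : ∃ u, X (u, 0) = s := by
    have hXc : Continuous fun u => X (u, (0:ℝ)) := by
      have := hT.contX
      fun_prop
    have hXn := add_int_of_add_one (fun u => X (u, (0:ℝ))) L (fun u => hT.perX u 0)
    obtain ⟨n, hn⟩ := exists_nat_gt ((s - X (0, 0)) / L)
    obtain ⟨m, hm⟩ := exists_nat_gt ((X (0, 0) - s) / L)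
    rw [div_lt_iff₀ hL] at hn hm
    have e1 := hXn n 0
    have e2 := hXn (-m) 0
    exact mem_range_of_exists_le_of_exists_ge hXc
      ⟨_, by rw [e2]; push_cast; linarith⟩ ⟨_, by rw [e1]; push_cast; linarith⟩
  set z := φ' ((u : AddCircle (1:ℝ)), 0) with hz
  have hzΓ : z ∈ Γ := by
    rw [← h0, ← hr]
    exact ⟨_, rfl⟩
  have hz1' : z.1 = (s : AddCircle L) := by rw [← hu]; exact (hT.coeX u 0).symm
  obtain ⟨hTz, hDz⟩ := hfix z hzΓ
  have hb : (bmap h z).2 = z.2 := by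
    rw [← tmap_snd h d z, hTz]
  have hlen := len_mem h z
  have hα : ((z.2 : ℝ)) < η := by
    by_contra hc
    push Not at hc
    have h1 : η1 ≤ (z.2 : ℝ) := (min_le_left _ _).trans hc
    have h2 := cot_anti hη1m z.2.2 h1
    rw [disp, hb] at hDz
    simp only [Int.cast_natCast] at hDz
    nlinarith [hlen.2]
  refine ⟨len h z, hlen.1, (hη' z hα).2, hlen, ?_⟩
  rw [← hz1', angA_len]
  exact (congrArg Subtype.val hb).symm

/-- **Rigidity**: the capped cylinder over a non-circular curve is never integrable. -/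
theorem circle_of_integrable (h : StrictlyConvexCurve γ L) {d : ℝ} (hd : 0 < d)
    (hint : IsIntegrable (tmap h d)) : ∃ (c : ℂ) (R : ℝ), 0 < R ∧ ∀ s, ‖γ s - c‖ = R :=
  circle_of h fun s => curv_zero h s fun _ hδ => equal_angles h hd hint s hδ

end Pool.Agent.R188.Coin
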