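import Pool.Agent.R188.Coin2

set_option autoImplicit false

/-!
# The circle
-/

namespace Pool.Agent.R188.Coin

open Pool.Agent.H738R2.Cyl Pool.Agent.W714.Coin Complex Set Topology Filter

variable {γ : ℝ → ℂ} {L : ℝ}

/-- On a circle, `γ' = ω (γ - c)` with a purely imaginary constant `ω`. -/
lemma circle_ode (h : StrictlyConvexCurve γ L) {c : ℂ} {R : ℝ} (hR : 0 < R)
    (hc : ∀ s, ‖γ s - c‖ = R) :
    ∃ t : ℝ, t ≠ 0 ∧ t ^ 2 = R ^ 2 ∧ ∀ s, deriv γ s = (γ s - c) / (I * t) := by
  have hone : ∀ x, (starRingEnd ℂ) (deriv γ x) * deriv γ x = 1 := fun x => conj_deriv_mul h x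
  have hsq : ∀ s, (starRingEnd ℂ) (γ s - c) * (γ s - c) = (R : ℂ) ^ 2 := by
    intro s
    rw [mul_comm, Complex.mul_conj, Complex.normSq_eq_norm_sq, hc]
    push_cast; ring
  -- the derivative of the square distance
  have hre : ∀ s, ((starRingEnd ℂ) (deriv γ s) * (γ s - c)).re = 0 := by
    intro s
    have h1 : HasDerivAt (fun s => γ s - c) (deriv γ s) s := (hasDerivAt h s).sub_const c
    have h2 : HasDerivAt (fun s => (starRingEnd ℂ) (γ s - c)) ((starRingEnd ℂ) (deriv γ s)) s := h1.star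
    have h3 := h2.mul h1
    have h4 : (fun s => (starRingEnd ℂ) (γ s - c)) * (fun s => γ s - c) = fun _ => (R : ℂ) ^ 2 := by
      funext s; exact hsq s
    rw [h4] at h3
    have h5 := h3.unique (hasDerivAt_const s ((R : ℂ) ^ 2))
    have h6 := congrArg Complex.re h5
    simp only [Complex.add_re, Complex.mul_re, Complex.conj_re, Complex.conj_im, Complex.zero_re] at h6
    simp only [Complex.mul_re, Complex.conj_re, Complex.conj_im]
    linarith
  set f : ℝ → ℝ := fun s => ((starRingEnd ℂ) (deriv γ s) * (γ s - c)).im with hf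
  have hfc : Continuous f := by
    have h1 := continuous_deriv' h
    have h2 := h.smooth.continuous
    fun_prop
  have hval : ∀ s, (starRingEnd ℂ) (deriv γ s) * (γ s - c) = I * (f s : ℂ) := by
    intro s
    apply Complex.ext
    · rw [hre]; simp
    · simp [hf]
  have hf2 : ∀ s, f s ^ 2 = R ^ 2 := by
    intro s
    have h1 : ‖(starRingEnd ℂ) (deriv γ s) * (γ s - c)‖ = R := by
      rw [norm_mul, Complex.norm_conj, h.unit_speed, one_mul, hc]
    rw [hval, norm_mul, Complex.norm_I, one_mul, Complex.norm_real, Real.norm_eq_abs] at h1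
    rw [← h1, sq_abs]
  have hfconst : ∀ s, f s = f 0 := by
    intro s
    by_contra hne
    have h1 : f s = - f 0 := by
      rcases sq_eq_sq_iff_eq_or_eq_neg.1 ((hf2 s).trans (hf2 0).symm) with h2 | h2
      · exact absurd h2 hne
      · exact h2
    obtain ⟨y, hy⟩ : ∃ y, f y = 0 := by
      rcases le_total 0 (f 0) with h0 | h0
      · exact mem_range_of_exists_le_of_exists_ge hfc ⟨s, by linarith⟩ ⟨0, h0⟩
      · exact mem_range_of_exists_le_of_exists_ge hfc ⟨0, h0⟩ ⟨s, by linarith⟩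
    have h3 := hf2 y
    rw [hy] at h3
    nlinarith
  have ht0 : f 0 ≠ 0 := by
    intro h0
    have := hf2 0
    rw [h0] at this
    nlinarith
  refine ⟨f 0, ht0, hf2 0, fun s => ?_⟩
  have h1 := hval s
  rw [hfconst] at h1
  have hI : I * (f 0 : ℂ) ≠ 0 := mul_ne_zero I_ne_zero (by exact_mod_cast ht0)
  rw [eq_div_iff hI, ← h1]
  linear_combination (γ s - c) * hone s

lemma circle_formula (h : StrictlyConvexCurve γ L) {c : ℂ} {t : ℝ} (_ht : t ≠ 0)
    (ho : ∀ s, deriv γ s = (γ s - c) / (I * t)) (s : ℝ) :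
    γ s - c = (γ 0 - c) * exp (s / (I * t)) := by
  have h1 : ∀ s : ℝ, HasDerivAt (fun s : ℝ => (γ s - c) * exp (-(s / (I * t)))) 0 s := by
    intro s
    have h2 : HasDerivAt (fun s => γ s - c) (deriv γ s) s := (hasDerivAt h s).sub_const c
    have h3 : HasDerivAt (fun s : ℝ => exp (-((s : ℂ) / (I * t))))
        (exp (-((s : ℂ) / (I * t))) * -(1 / (I * t))) s := by
      have h4 : HasDerivAt (fun s : ℝ => -((s : ℂ) / (I * t))) (-(1 / (I * t))) s :=
        ((Complex.ofRealCLM.hasDerivAt (x := s)).div_const _).neg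
      exact h4.cexp
    refine (h2.mul h3).congr_deriv ?_
    rw [ho]; ring
  have h5 : (γ s - c) * exp (-((s : ℂ) / (I * t))) = (γ 0 - c) * exp (-(((0 : ℝ) : ℂ) / (I * t))) :=
    is_const_of_deriv_eq_zero (fun s => (h1 s).differentiableAt) (fun s => (h1 s).deriv) s 0
  rw [Complex.ofReal_zero, zero_div, neg_zero, Complex.exp_zero, mul_one] at h5
  rw [← h5, mul_assoc, ← Complex.exp_add, neg_add_cancel, Complex.exp_zero, mul_one]

lemma circle_range (h : StrictlyConvexCurve γ L) {c : ℂ} {R : ℝ} (hR : 0 < R)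
    (hc : ∀ s, ‖γ s - c‖ = R) : range γ = Metric.sphere c R := by
  obtain ⟨t, ht, ht2, ho⟩ := circle_ode h hR hc
  ext w
  constructor
  · rintro ⟨s, rfl⟩
    rw [mem_sphere_iff_norm]; exact hc s
  · intro hw
    rw [mem_sphere_iff_norm] at hw
    have h0 : γ 0 - c ≠ 0 := by
      intro h0; have := hc 0; rw [h0, norm_zero] at this; linarith
    have h1 : ‖(w - c) / (γ 0 - c)‖ = 1 := by rw [norm_div, hw, hc, div_self hR.ne']
    have h2 := Complex.norm_mul_exp_arg_mul_I ((w - c) / (γ 0 - c))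
    rw [h1, Complex.ofReal_one, one_mul] at h2
    refine ⟨-(arg ((w - c) / (γ 0 - c)) * t), ?_⟩
    have h3 := circle_formula h ht ho (-(arg ((w - c) / (γ 0 - c)) * t))
    have h4 : ((-(arg ((w - c) / (γ 0 - c)) * t) : ℝ) : ℂ) / (I * t) = arg ((w - c) / (γ 0 - c)) * I := by
      have ht' : (t : ℂ) ≠ 0 := by exact_mod_cast ht
      push_cast
      field_simp
      rw [Complex.I_sq]
      ring
    rw [h4, h2, mul_div_cancel₀ _ h0] at h3
    linear_combination h3

/-- on a circle the angles at the two ends of a chord are equal, and depend on its length only -/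
lemma circle_ang (h : StrictlyConvexCurve γ L) {c : ℂ} {R : ℝ} (hR : 0 < R)
    (hc : ∀ s, ‖γ s - c‖ = R) (w : AddCircle L) (x : ℝ) :
    angB h w x = angA h w x ∧ angA h w x = angA h 0 x := by
  obtain ⟨t, ht, ht2, ho⟩ := circle_ode h hR hc
  obtain ⟨s, rfl⟩ := coe_surjL w
  have hI : I * (t : ℂ) ≠ 0 := mul_ne_zero I_ne_zero (by exact_mod_cast ht)
  have hcj : (starRingEnd ℂ) (I * (t : ℂ)) = -(I * t) := by simp
  have hsq : ∀ s, (starRingEnd ℂ) (γ s - c) * (γ s - c) = (R : ℂ) ^ 2 := by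
    intro s
    rw [mul_comm, Complex.mul_conj, Complex.normSq_eq_norm_sq, hc]
    push_cast; ring
  have hA : ∀ s : ℝ, ZA h (s : AddCircle L) x = ((R:ℂ) ^ 2 * exp (x / (I * t)) - (R : ℂ) ^ 2) / (-(I * t)) := by
    intro s
    have e1 := circle_formula h ht ho s
    have e2 := circle_formula h ht ho (s + x)
    have e3 : exp (((s + x : ℝ) : ℂ) / (I * t)) = exp (s / (I * t)) * exp (x / (I * t)) := by
      rw [← Complex.exp_add]; congr 1; push_cast; ring
    have e4 : γ (s + x) - c = (γ s - c) * exp (x / (I * t)) := by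
      rw [e2, e3, e1]; ring
    rw [ZA_coe, ho, map_div₀, hcj]
    have e5 : γ (s + x) - γ s = (γ s - c) * exp (x / (I * t)) - (γ s - c) := by
      rw [← e4]; ring
    rw [e5, div_mul_eq_mul_div]
    congr 1
    linear_combination (exp (x / (I * t)) - 1) * hsq s
  have hB : ZB h (s : AddCircle L) x = ZA h (s : AddCircle L) x := by
    rw [ZA_coe, ZB_coe, ho, ho, map_div₀, hcj, map_sub]
    have e1 := hsq s
    have e2 := hsq (s + x)
    have e3 : (starRingEnd ℂ) (γ (s + x)) - (starRingEnd ℂ) (γ s) =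
        (starRingEnd ℂ) (γ (s + x) - c) - (starRingEnd ℂ) (γ s - c) := by
      simp only [map_sub]; ring
    rw [e3, div_mul_eq_mul_div, mul_div_assoc', eq_div_iff (neg_ne_zero.2 hI),
      div_mul_eq_mul_div, div_eq_iff hI]
    linear_combination (-(I * t)) * e2 + (I * t) * e1
  constructor
  · unfold angA angB
    rw [hB]
  · unfold angA
    have h0 : ((0 : ℝ) : AddCircle L) = 0 := rfl
    rw [hA s, ← h0, hA 0]

end Pool.Agent.R188.Coin
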