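import Pool.Agent.R188.Coin3

set_option autoImplicit false

/-!
# The capped cylinder over a circle is integrable
-/

namespace Pool.Agent.R188.Coin

open Pool.Agent.H738R2.Cyl Pool.Agent.W714.Coin Complex Set Topology Filter

variable {γ : ℝ → ℂ} {L : ℝ}

/-- A homeomorphism of circles is not null-homotopic. -/
lemma not_null (hL : 0 < L) (f : C(AddCircle (1 : ℝ), AddCircle L))
    (hf : ∀ x : ℝ, f (x : AddCircle (1:ℝ)) = ((x * L : ℝ) : AddCircle L)) : ¬ f.Nullhomotopic := by
  rintro ⟨y, ⟨H⟩⟩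
  set H' : ℝ × ℝ → AddCircle L := fun p =>
    H (projIcc (0:ℝ) 1 zero_le_one p.1, (p.2 : AddCircle (1:ℝ))) with hH'
  have hHc : Continuous H' := by
    have h1 : Continuous ((↑) : ℝ → AddCircle (1:ℝ)) := continuous_coe
    have h2 : Continuous fun p : ℝ × ℝ => (projIcc (0:ℝ) 1 zero_le_one p.1, ((p.2 : ℝ) : AddCircle (1:ℝ))) :=
      (continuous_projIcc.comp continuous_fst).prodMk (h1.comp continuous_snd)
    exact H.continuous.comp h2
  obtain ⟨F, hFc, hF⟩ := exists_real_lift H' hHc
  -- the period of the lift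
  have hper : ∀ p q : ℝ × ℝ, F (p.1, p.2 + 1) - F (p.1, p.2) = F (q.1, q.2 + 1) - F (q.1, q.2) := by
    intro p q
    refine const_of_coe_const (p := L) (fun p : ℝ × ℝ => F (p.1, p.2 + 1) - F (p.1, p.2))
      (by fun_prop) 0 (fun p => ?_) p q
    rw [AddCircle.coe_sub, hF, hF, hH']
    simp only
    have h1 : ((p.2 + 1 : ℝ) : AddCircle (1:ℝ)) = ((p.2 : ℝ) : AddCircle (1:ℝ)) := by
      rw [AddCircle.coe_add, AddCircle.coe_period, add_zero]
    rw [h1, sub_self]
  have p0 : projIcc (0:ℝ) 1 zero_le_one 0 = 0 := projIcc_left _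
  have p1 : projIcc (0:ℝ) 1 zero_le_one 1 = 1 := projIcc_right _
  -- at time 1 the map is constant
  have hone : ∀ x y' : ℝ, F (1, x) = F (1, y') := by
    intro x y'
    refine const_of_coe_const (p := L) (fun x : ℝ => F (1, x)) (by fun_prop) y (fun x => ?_) x y'
    rw [hF, hH']
    simp only [p1]
    simp
  -- at time 0 the map is `x ↦ x L`
  have hzero : ∀ x y' : ℝ, F (0, x) - x * L = F (0, y') - y' * L := by
    intro x y'
    refine const_of_coe_const (p := L) (fun x : ℝ => F (0, x) - x * L) (by fun_prop) 0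
      (fun x => ?_) x y'
    rw [AddCircle.coe_sub, hF, hH']
    simp only [p0]
    simp [hf]
  have h1 := hper (0, 0) (1, 0)
  have h2 := hone (0 + 1) 0
  have h3 := hzero (0 + 1) 0
  simp only at h1
  linarith

/-- a homeomorphism of `ℝ` with the interval `(0, π)` with prescribed value at `0` -/
noncomputable def ht (a : Ioo (0:ℝ) Real.pi) : ℝ ≃ₜ Ioo (0:ℝ) Real.pi where
  toFun t := ⟨Real.pi / 2 + Real.arctan (t + Real.tan (a - Real.pi / 2)),
    by linarith [Real.neg_pi_div_two_lt_arctan (t + Real.tan (a - Real.pi / 2))],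
    by linarith [Real.arctan_lt_pi_div_two (t + Real.tan (a - Real.pi / 2))]⟩
  invFun y := Real.tan (y - Real.pi / 2) - Real.tan (a - Real.pi / 2)
  left_inv t := by
    simp only [add_sub_cancel_left, Real.tan_arctan, add_sub_cancel_right]
  right_inv y := by
    apply Subtype.ext
    simp only [sub_add_cancel]
    rw [Real.arctan_tan (by linarith [y.2.1]) (by linarith [y.2.2])]
    ring
  continuous_toFun := by
    apply Continuous.subtype_mk
    have := Real.continuous_arctan
    fun_prop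
  continuous_invFun := by
    apply Continuous.sub _ continuous_const
    rw [continuous_iff_continuousAt]
    intro y
    have h1 : ContinuousAt Real.tan ((y : ℝ) - Real.pi / 2) := by
      rw [Real.continuousAt_tan]
      exact (Real.cos_pos_of_mem_Ioo ⟨by linarith [y.2.1], by linarith [y.2.2]⟩).ne'
    exact ContinuousAt.comp (f := fun y : Ioo (0:ℝ) Real.pi => (y : ℝ) - Real.pi / 2) (x := y) h1
      (by fun_prop)

lemma ht_zero (a : Ioo (0:ℝ) Real.pi) : ht a 0 = a := by
  apply Subtype.ext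
  change Real.pi / 2 + Real.arctan (0 + Real.tan (a - Real.pi / 2)) = a
  rw [zero_add, Real.arctan_tan (by linarith [a.2.1]) (by linarith [a.2.2])]
  ring

theorem integrable_of_circle (h : StrictlyConvexCurve γ L) (d : ℝ) {c : ℂ} {R : ℝ} (hR : 0 < R)
    (hc : ∀ s, ‖γ s - c‖ = R) : IsIntegrable (tmap h d) := by
  have hL := h.length_pos
  have hang := circle_ang h hR hc
  -- the map on a horizontal circle
  have hb2 : ∀ z, (bmap h z).2 = z.2 := by
    intro z
    apply Subtype.ext
    change angB h z.1 (len h z) = z.2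
    rw [(hang z.1 _).1, angA_len]
  have hlen : ∀ (w : AddCircle L) (a : Ioo (0:ℝ) Real.pi), len h (w, a) = len h (0, a) := by
    intro w a
    refine len_eq h (len_mem h (0, a)) ?_
    rw [(hang w _).2]
    exact angA_len h (0, a)
  have hT : ∀ (w : AddCircle L) (a : Ioo (0:ℝ) Real.pi), tmap h d (w, a) =
      (w + ((len h (0, a) + d * Real.cot a : ℝ) : AddCircle L), a) := by
    intro w a
    refine Prod.ext ?_ ?_
    · rw [tmap_fst, disp, hb2, hlen]
    · rw [tmap_snd, hb2]
  -- the horizontal circles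
  let e : AddCircle (1:ℝ) ≃ₜ AddCircle L := AddCircle.homeomorphAddCircle (1:ℝ) L one_ne_zero hL.ne'
  have he : ∀ x : ℝ, e (x : AddCircle (1:ℝ)) = ((x * L : ℝ) : AddCircle L) := by
    intro x
    change AddCircle.homeomorphAddCircle (1:ℝ) L one_ne_zero hL.ne' (x : AddCircle (1:ℝ)) = _
    rw [AddCircle.homeomorphAddCircle_apply_mk]
    congr 1
    ring
  have hrange : ∀ a : Ioo (0:ℝ) Real.pi, (range fun u => (e u, a)) = {z : PhaseCylinder L | z.2 = a} := by
    intro a
    ext z
    constructor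
    · rintro ⟨u, rfl⟩; rfl
    · intro hz
      exact ⟨e.symm z.1, Prod.ext (e.apply_symm_apply _) (Eq.symm hz)⟩
  refine ⟨range fun a : Ioo (0:ℝ) Real.pi => {z : PhaseCylinder L | z.2 = a}, ?_, ?_, ?_⟩
  · intro z
    refine ⟨{z' | z'.2 = z.2}, ⟨⟨z.2, rfl⟩, rfl⟩, ?_⟩
    rintro Γ ⟨⟨a, rfl⟩, hz⟩
    have : z.2 = a := hz
    simp only [this]
  · rintro Γ ⟨a, rfl⟩
    refine ⟨⟨fun u => (e u, a), by fun_prop⟩, ?_, ?_, ?_, ?_⟩
    · intro u v huv
      exact e.injective (congrArg Prod.fst huv)
    · intro hn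
      refine not_null hL ⟨e, e.continuous⟩ he ?_
      have := hn.comp_right (⟨Prod.fst, continuous_fst⟩ : C(PhaseCylinder L, AddCircle L))
      exact this
    · exact hrange a
    · ext z
      constructor
      · rintro ⟨⟨w, b⟩, hb, rfl⟩
        have hb' : b = a := hb
        subst hb'
        rw [hT]
        rfl
      · intro hz
        obtain ⟨w, b⟩ := z
        have hb' : b = a := hz
        subst hb'
        refine ⟨(w - ((len h (0, b) + d * Real.cot b : ℝ) : AddCircle L), b), rfl, ?_⟩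
        rw [hT, sub_add_cancel]
  · rintro Γ ⟨a, rfl⟩
    refine ⟨fun p => (e p.1, ht a p.2), (e.prodCongr (ht a)).isOpenEmbedding, ?_, fun t => ?_⟩
    · simp only [ht_zero]
      exact hrange a
    · exact ⟨ht a t, (hrange _).symm⟩

theorem main (γ : ℝ → ℂ) (L d : ℝ) (T₁ : PhaseCylinder L → PhaseCylinder L)
    (h : StrictlyConvexCurve γ L) (hd : 0 < d) (hT : IsBilliardMap γ L T₁) :
    IsIntegrable (cylinderMap L d ∘ T₁) ↔
      ∃ (c : ℂ) (R : ℝ), 0 < R ∧ Set.range γ = Metric.sphere c R := by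
  rw [eq_bmap h hT]
  constructor
  · intro hint
    obtain ⟨c, R, hR, hc⟩ := circle_of_integrable h hd hint
    exact ⟨c, R, hR, circle_range h hR hc⟩
  · rintro ⟨c, R, hR, hr⟩
    refine integrable_of_circle h d hR (c := c) fun s => ?_
    have : γ s ∈ Metric.sphere c R := by rw [← hr]; exact ⟨s, rfl⟩
    rwa [mem_sphere_iff_norm] at this

end Pool.Agent.R188.Coin
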