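import Pool.Agent.R188.Gar5
import Pool.Agent.R188.Bes3

set_option autoImplicit false
open Set Filter Topology MeasureTheory

namespace Pool.Agent.R188.Gar
open H535R3 Osc Bes

/-- First order expansion of the period map in `ε`. -/
lemma first_order (r : ℤ) {a ε : ℝ} (ha : 0 ≤ a) (hε : 0 < ε) :
    |P r a ε (Real.pi / 2) - Real.pi / 2 - 2 * Real.pi * r + ε * J r a| ≤ (2 * Real.pi * ε) ^ 2 := by
  obtain ⟨s, hs0, rfl⟩ : ∃ s : ℝ, 0 ≤ s ∧ a = s ^ 2 := ⟨Real.sqrt a, Real.sqrt_nonneg a, (Real.sq_sqrt ha).symm⟩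
  have hpi := Real.two_pi_pos
  have hc := cont_ps r s ε
  have hP : Continuous (Ph r s) := by unfold Ph; fun_prop
  have h1 : P r (s ^ 2) ε (Real.pi / 2) - Real.pi / 2 - 2 * Real.pi * r = ps r s ε (2 * Real.pi) := by
    rw [ps, P, Ph, Real.sin_two_pi]; ring
  have hb : ∀ t ∈ Icc (0:ℝ) (2 * Real.pi), |ps r s ε t| ≤ 2 * Real.pi * ε := by
    intro t ht
    have h2 := Convex.norm_image_sub_le_of_norm_hasDerivWithin_le (f := ps r s ε) (s := univ) (x := 0) (y := t)
      (C := ε) (fun x _ => (hd_ps r s ε x).hasDerivWithinAt) (fun x _ => by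
        rw [Real.norm_eq_abs, abs_neg, abs_mul, abs_of_pos hε]
        have := Real.abs_cos_le_one (Ph r s x + ps r s ε x)
        nlinarith) convex_univ trivial trivial
    rw [ps_zero, sub_zero, sub_zero, Real.norm_eq_abs, Real.norm_eq_abs, abs_of_nonneg ht.1] at h2
    nlinarith [ht.2]
  have hI := intervalIntegral.integral_eq_sub_of_hasDerivAt (a := 0) (b := 2 * Real.pi)
    (fun t _ => hd_ps r s ε t) (Continuous.intervalIntegrable (by fun_prop) _ _)
  rw [ps_zero, sub_zero] at hI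
  have h2 : J r (s ^ 2) = ∫ t in (0:ℝ)..(2 * Real.pi), Real.cos (Ph r s t) := by
    rw [J]
    apply intervalIntegral.integral_congr
    intro t _
    simp only [Ph]
  have h3 : ps r s ε (2 * Real.pi) + ε * J r (s ^ 2) =
      ∫ t in (0:ℝ)..(2 * Real.pi), ε * (Real.cos (Ph r s t) - Real.cos (Ph r s t + ps r s ε t)) := by
    rw [← hI, h2, ← intervalIntegral.integral_const_mul, ← intervalIntegral.integral_add
      (Continuous.intervalIntegrable (by fun_prop) _ _) (Continuous.intervalIntegrable (by fun_prop) _ _)]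
    apply intervalIntegral.integral_congr
    intro t _
    simp only
    ring
  rw [h1, h3]
  have h4 := intervalIntegral.norm_integral_le_of_norm_le_const (a := 0) (b := 2 * Real.pi)
    (f := fun t => ε * (Real.cos (Ph r s t) - Real.cos (Ph r s t + ps r s ε t))) (C := ε * (2 * Real.pi * ε))
    (fun t ht => by
      rw [uIoc_of_le hpi.le] at ht
      rw [Real.norm_eq_abs, abs_mul, abs_of_pos hε]
      apply mul_le_mul_of_nonneg_left _ hε.le
      refine (Real.abs_cos_sub_cos_le _ _).trans ?_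
      rw [show Ph r s t - (Ph r s t + ps r s ε t) = -ps r s ε t by ring, abs_neg]
      exact hb t ⟨ht.1.le, ht.2⟩)
  rw [Real.norm_eq_abs, sub_zero, abs_of_pos hpi] at h4
  linarith

/-- Existence of an adjacency between a height where `J r` is negative and one where it is positive. -/
lemma exists_idt {l : ℕ} (hl : 1 ≤ l) {a₁ a₂ σ : ℝ} (h1 : (l:ℝ) < a₁) (h12 : a₁ < a₂) (hJ1 : σ * J l a₁ < 0)
    (hJ2 : 0 < σ * J l a₂) (hσ : |σ| = 1) : ∀ᶠ ε in 𝓝[>] (0:ℝ), ∃ a, a₁ < a ∧ a < a₂ ∧ Idt l ε a := by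
  have hpi := Real.two_pi_pos
  have c1 : ∀ᶠ ε in 𝓝[>] (0:ℝ), (2 * Real.pi) ^ 2 * ε < -(σ * J l a₁) := by
    have : Tendsto (fun ε : ℝ => (2 * Real.pi) ^ 2 * ε) (𝓝[>] 0) (𝓝 ((2 * Real.pi) ^ 2 * 0)) :=
      ((continuous_const.mul continuous_id).tendsto 0).mono_left nhdsWithin_le_nhds
    rw [mul_zero] at this
    exact this.eventually_lt_const (by linarith)
  have c2 : ∀ᶠ ε in 𝓝[>] (0:ℝ), (2 * Real.pi) ^ 2 * ε < σ * J l a₂ := by
    have : Tendsto (fun ε : ℝ => (2 * Real.pi) ^ 2 * ε) (𝓝[>] 0) (𝓝 ((2 * Real.pi) ^ 2 * 0)) :=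
      ((continuous_const.mul continuous_id).tendsto 0).mono_left nhdsWithin_le_nhds
    rw [mul_zero] at this
    exact this.eventually_lt_const hJ2
  have c3 : ∀ᶠ ε in 𝓝[>] (0:ℝ), (l:ℝ) + ε < a₁ := by
    have : Tendsto (fun ε : ℝ => (l:ℝ) + ε) (𝓝[>] 0) (𝓝 ((l:ℝ) + 0)) :=
      ((continuous_const.add continuous_id).tendsto 0).mono_left nhdsWithin_le_nhds
    rw [add_zero] at this
    exact this.eventually_lt_const h1
  filter_upwards [c1, c2, c3, self_mem_nhdsWithin] with ε e1 e2 e3 e4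
  have hε : 0 < ε := e4
  have hl0 : (0:ℝ) ≤ l := l.cast_nonneg
  obtain ⟨th, hth0, hth, h2, -⟩ := above l hε
  -- the threshold is at most `l + ε`
  have hth' : th ≤ l + ε ∨ True := Or.inr trivial
  set F : ℝ → ℝ := fun a => σ * (P l a ε (Real.pi / 2) - Real.pi / 2 - 2 * Real.pi * l) with hF
  have hFc : Continuous F := by
    have : Continuous fun a : ℝ => P l a ε (Real.pi / 2) :=
      continuous_P.comp (f := fun a : ℝ => ((l:ℝ), a, ε, Real.pi / 2)) (by fun_prop)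
    fun_prop
  have key : ∀ a, 0 ≤ a → |F a + ε * (σ * J l a)| ≤ ε * ((2 * Real.pi) ^ 2 * ε) := by
    intro a ha
    have h3 := first_order (l:ℤ) ha hε
    have e : F a + ε * (σ * J l a) = σ * (P l a ε (Real.pi / 2) - Real.pi / 2 - 2 * Real.pi * l + ε * J l a) := by
      rw [hF]; ring
    rw [e, abs_mul, hσ, one_mul]
    push_cast at h3
    refine h3.trans (le_of_eq ?_)
    ring
  have k1 := key a₁ (by linarith)
  have k2 := key a₂ (by linarith)
  rw [abs_le] at k1 k2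
  have s1 : 0 < F a₁ := by
    have := mul_lt_mul_of_pos_left e1 hε
    linarith [k1.1]
  have s2 : F a₂ < 0 := by
    have := mul_lt_mul_of_pos_left e2 hε
    linarith [k2.2]
  obtain ⟨a, ha, ha2⟩ := intermediate_value_Ioo' h12.le hFc.continuousOn (show (0:ℝ) ∈ Ioo _ _ from ⟨s2, s1⟩)
  refine ⟨a, ha.1, ha.2, ?_⟩
  have hσ0 : σ ≠ 0 := by rintro rfl; simp at hσ
  have h5 : P l a ε (Real.pi / 2) - Real.pi / 2 - 2 * Real.pi * l = 0 :=
    (mul_eq_zero.1 ha2).resolve_left hσ0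
  -- above the threshold
  obtain ⟨n, rfl⟩ : ∃ n, l = n + 1 := ⟨l - 1, by omega⟩
  have hM : 2 * MM n (ε / 2) ≤ n + 1 + ε := by
    have := MM_le n (δ := ε / 2) (by positivity)
    linarith
  by_contra hn
  have h6 : P (n + 1) a ε (Real.pi / 2) = Real.pi / 2 + 2 * Real.pi * (((n:ℤ) + 1 : ℤ) : ℝ) := by
    push_cast at h5 ⊢; linarith
  have h7 := Kx_sym h6
  have hn' : ¬ ∀ x, P (n + 1) a ε x = x + 2 * Real.pi * (((n:ℤ) + 1 : ℤ) : ℝ) := by
    intro hh
    apply hn
    intro x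
    have := hh x
    push_cast at this ⊢
    exact this
  have h8 := frontier_of_parabolic h6 h7 hn'
  have hapos : 0 < a := by linarith [ha.1]
  have h9 := simple_unique hε hapos (by have := MM_pos n (δ := ε / 2) (by positivity); positivity) (n := n)
    (a := a) (a' := 2 * MM n (ε / 2)) h8 (simple_MM n hε)
  push_cast at e3 h1
  linarith [ha.1]

/-- No adjacency of `L_2` at heights up to `41/8`. -/
lemma no_idt_two : ∀ᶠ ε in 𝓝[>] (0:ℝ), ∀ a, 0 < a → a ≤ 41 / 8 → ¬ Idt (2:ℕ) ε a := by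
  have hpi := Real.two_pi_pos
  obtain ⟨z, hz, hmin⟩ := (isCompact_Icc (a := (2:ℝ)) (b := 41 / 8)).exists_isMinOn
    ⟨2, ⟨le_rfl, by norm_num⟩⟩ (cont_J 2).continuousOn
  have hm : 0 < J 2 z := J2_pos z (by linarith [hz.1]) hz.2
  have c1 : ∀ᶠ ε in 𝓝[>] (0:ℝ), (2 * Real.pi) ^ 2 * ε < J 2 z := by
    have : Tendsto (fun ε : ℝ => (2 * Real.pi) ^ 2 * ε) (𝓝[>] 0) (𝓝 ((2 * Real.pi) ^ 2 * 0)) :=
      ((continuous_const.mul continuous_id).tendsto 0).mono_left nhdsWithin_le_nhds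
    rw [mul_zero] at this
    exact this.eventually_lt_const hm
  filter_upwards [c1, self_mem_nhdsWithin] with ε e1 e4
  have hε : 0 < ε := e4
  intro a ha hac hI
  have h1 : ∀ x, P ((1:ℕ) + 1) a ε x = x + 2 * Real.pi * (((1:ℕ) + 1 : ℤ) : ℝ) := by
    intro x
    have := hI x
    push_cast at this ⊢
    rw [show (1:ℝ) + 1 = 2 by norm_num]
    exact this
  have h2 := ident_height (n := 1) hε ha h1
  push_cast at h2
  have h3 : a ∈ Icc (2:ℝ) (41 / 8) := ⟨by linarith, hac⟩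
  have h4 : J 2 z ≤ J 2 a := hmin h3
  have h5 := first_order (2:ℤ) ha.le hε
  have h6 := hI (Real.pi / 2)
  push_cast at h5 h6
  rw [h6, abs_le] at h5
  have h7 := mul_lt_mul_of_pos_left e1 hε
  have h8 := mul_le_mul_of_nonneg_left h4 hε.le
  have h9 := h5.2
  have e : (2 * Real.pi * ε) ^ 2 = ε * ((2 * Real.pi) ^ 2 * ε) := by ring
  rw [e] at h9
  linarith

end Pool.Agent.R188.Gar
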