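import Mathlib

set_option autoImplicit false

open MeasureTheory ProbabilityTheory
open scoped ENNReal

namespace Pool.Agent.R188.FD

/-- The stabiliser of a configuration `x` on `ℤ^d`: the group of its periods. -/
def stab {d : ℕ} {A : Type} (x : (Fin d → ℤ) → A) : AddSubgroup (Fin d → ℤ) where
  carrier := {v | ∀ u, x (u + v) = x u}
  zero_mem' := by intro u; simp
  add_mem' := by
    intro a b ha hb u
    rw [← add_assoc, hb, ha]
  neg_mem' := by
    intro a ha u
    have := ha (u + -a)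
    simpa using this.symm

/-- A configuration is periodic if its stabiliser has finite index in `ℤ^d`. -/
def IsPeriodic {d : ℕ} {A : Type} (x : (Fin d → ℤ) → A) : Prop := (stab x).FiniteIndex

/-- Shift-invariance of a random field `X` on `ℤ^d` (in law). -/
def ShiftInvariant {d : ℕ} {Ω A : Type} [MeasurableSpace Ω] [MeasurableSpace A]
    (P : Measure Ω) (X : (Fin d → ℤ) → Ω → A) : Prop :=
  ∀ w : Fin d → ℤ, P.map (fun ω v => X (v + w) ω) = P.map (fun ω v => X v ω)

/-- `X` is `k`-dependent: its restrictions to sets at distance at least `k` (sup norm)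
are independent. -/
def DependentRange {d : ℕ} {Ω A : Type} [MeasurableSpace Ω] [MeasurableSpace A]
    (k : ℕ) (P : Measure Ω) (X : (Fin d → ℤ) → Ω → A) : Prop :=
  ∀ S T : Set (Fin d → ℤ), (∀ a ∈ S, ∀ b ∈ T, (k : ℝ) ≤ dist a b) →
    IndepFun (fun ω (v : S) => X v ω) (fun ω (v : T) => X v ω) P

/-- Finite dependence. -/
def FinitelyDependent {d : ℕ} {Ω A : Type} [MeasurableSpace Ω] [MeasurableSpace A]
    (P : Measure Ω) (X : (Fin d → ℤ) → Ω → A) : Prop :=
  ∃ k : ℕ, DependentRange k P X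

/-- The support of a random field. -/
def support {d : ℕ} {Ω A : Type} [MeasurableSpace Ω]
    (P : Measure Ω) (X : (Fin d → ℤ) → Ω → A) : Set ((Fin d → ℤ) → A) :=
  {x | ∀ B : Finset (Fin d → ℤ), 0 < P {ω | ∀ v ∈ B, X v ω = x v}}

/-! ### The construction -/

/-- representative in `[-1/2, 1/2)`. -/
noncomputable def r (y : UnitAddCircle) : ℝ := (AddCircle.measurableEquivIco (1 : ℝ) (-1/2) y : ℝ)

lemma measurable_r : Measurable r :=
  measurable_subtype_coe.comp (AddCircle.measurableEquivIco (1 : ℝ) (-1/2)).measurable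

lemma r_coe (y : UnitAddCircle) : ((r y : ℝ) : UnitAddCircle) = y :=
  AddCircle.coe_equivIco (p := (1 : ℝ)) (a := -1/2) (y := y)

lemma r_mem (y : UnitAddCircle) : -1/2 ≤ r y ∧ r y < 1/2 := by
  have h := (AddCircle.measurableEquivIco (1 : ℝ) (-1/2) y).2
  rw [Set.mem_Ico] at h
  unfold r
  refine ⟨h.1, ?_⟩
  have := h.2
  linarith

variable {n : ℕ}

/-- first and second basis vectors of `ℤ^(n+2)`. -/
def e0 : Fin (n + 2) → ℤ := Pi.single 0 1
def e1 : Fin (n + 2) → ℤ := Pi.single 1 1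

/-- horizontal and vertical currents. -/
noncomputable def Jh (v : Fin (n + 2) → ℤ) (ω : (Fin (n + 2) → ℤ) → UnitAddCircle) : ℝ :=
  r (ω (v + e0) - ω v - ((√2 * (v 1 : ℝ) : ℝ) : UnitAddCircle))
noncomputable def Jv (v : Fin (n + 2) → ℤ) (ω : (Fin (n + 2) → ℤ) → UnitAddCircle) : ℝ :=
  r (ω (v + e1) - ω v)

/-- the curl at the plaquette `v`. -/
noncomputable def curl (v : Fin (n + 2) → ℤ) (ω : (Fin (n + 2) → ℤ) → UnitAddCircle) : ℝ :=
  Jh v ω + Jv (v + e0) ω - Jh (v + e1) ω - Jv v ω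

/-- the integer field. -/
noncomputable def Z (v : Fin (n + 2) → ℤ) (ω : (Fin (n + 2) → ℤ) → UnitAddCircle) : ℤ :=
  ⌊curl v ω - √2 + 1/2⌋

lemma curl_coe (v : Fin (n + 2) → ℤ) (ω : (Fin (n + 2) → ℤ) → UnitAddCircle) :
    ((curl v ω : ℝ) : UnitAddCircle) = ((√2 : ℝ) : UnitAddCircle) := by
  unfold curl Jh Jv
  have h1 : (v + e1 : Fin (n + 2) → ℤ) 1 = v 1 + 1 := by simp [e1]
  have h2 : v + e0 + e1 = v + e1 + e0 := by abel
  rw [AddCircle.coe_sub, AddCircle.coe_sub, AddCircle.coe_add, r_coe, r_coe, r_coe, r_coe, h1, h2,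
    Int.cast_add, Int.cast_one, mul_add, mul_one, AddCircle.coe_add]
  abel

lemma Z_eq (v : Fin (n + 2) → ℤ) (ω : (Fin (n + 2) → ℤ) → UnitAddCircle) :
    (Z v ω : ℝ) = curl v ω - √2 := by
  have h : ((curl v ω - √2 : ℝ) : UnitAddCircle) = 0 := by
    rw [AddCircle.coe_sub, curl_coe, sub_self]
  rw [AddCircle.coe_eq_zero_iff] at h
  obtain ⟨m, hm⟩ := h
  simp only [zsmul_eq_mul, mul_one] at hm
  have : Z v ω = m := by
    unfold Z
    rw [← hm, Int.floor_eq_iff]
    constructor <;> linarith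
  rw [this, hm]

lemma Z_range (v : Fin (n + 2) → ℤ) (ω : (Fin (n + 2) → ℤ) → UnitAddCircle) :
    -3 ≤ Z v ω ∧ Z v ω ≤ 0 := by
  have h := Z_eq v ω
  have hc : -2 < curl v ω ∧ curl v ω < 2 := by
    unfold curl Jh Jv
    have a1 := r_mem (ω (v + e0) - ω v - ((√2 * (v 1 : ℝ) : ℝ) : UnitAddCircle))
    have a2 := r_mem (ω (v + e0 + e1) - ω (v + e0))
    have a3 := r_mem (ω (v + e1 + e0) - ω (v + e1) - ((√2 * ((v + e1 : Fin (n + 2) → ℤ) 1 : ℝ) : ℝ) : UnitAddCircle))
    have a4 := r_mem (ω (v + e1) - ω v)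
    constructor <;> linarith [a1.1, a1.2, a2.1, a2.2, a3.1, a3.2, a4.1, a4.2]
  have hs1 : (1 : ℝ) < √2 := by
    rw [Real.lt_sqrt] <;> norm_num
  have hs2 : √2 < (2 : ℝ) := by
    rw [Real.sqrt_lt'] <;> norm_num
  constructor
  · have : (-4 : ℝ) < Z v ω := by rw [h]; linarith [hc.1]
    have : (-4 : ℤ) < Z v ω := by exact_mod_cast this
    omega
  · have : (Z v ω : ℝ) < 1 := by rw [h]; linarith [hc.2]
    have : Z v ω < 1 := by exact_mod_cast this
    omega

/-- the field with values in `Fin 4`. -/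
noncomputable def X (v : Fin (n + 2) → ℤ) (ω : (Fin (n + 2) → ℤ) → UnitAddCircle) : Fin 4 :=
  Fin.ofNat 4 (Z v ω + 3).toNat

lemma X_val (v : Fin (n + 2) → ℤ) (ω : (Fin (n + 2) → ℤ) → UnitAddCircle) :
    ((X v ω : ℕ) : ℤ) = Z v ω + 3 := by
  have h := Z_range v ω
  unfold X
  simp only [Fin.ofNat_eq_cast, Fin.val_natCast]
  omega

/-- the base measure. -/
noncomputable def P : Measure ((Fin (n + 2) → ℤ) → UnitAddCircle) :=
  Measure.infinitePi (fun _ => (volume : Measure UnitAddCircle))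

instance : IsProbabilityMeasure (volume : Measure UnitAddCircle) := ⟨by
  simp [UnitAddCircle, AddCircle.measure_univ]⟩

instance : IsProbabilityMeasure (P (n := n)) := by unfold P; infer_instance

lemma measurable_Z (v : Fin (n + 2) → ℤ) : Measurable (Z v) := by
  unfold Z curl Jh Jv
  have := measurable_r
  refine Int.measurable_floor.comp ?_
  fun_prop

lemma measurable_X (v : Fin (n + 2) → ℤ) : Measurable (X v) := by
  unfold X
  exact (measurable_from_top (f := fun z : ℤ => Fin.ofNat 4 (z + 3).toNat)).comp (measurable_Z v)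

/-! shift invariance -/

/-- the magnetic translation -/
noncomputable def Tr (w : Fin (n + 2) → ℤ) (ω : (Fin (n + 2) → ℤ) → UnitAddCircle) :
    (Fin (n + 2) → ℤ) → UnitAddCircle :=
  fun v => ω (v + w) - ((√2 * (w 1 : ℝ) * (v 0 : ℝ) : ℝ) : UnitAddCircle)

lemma Jh_Tr (v w : Fin (n + 2) → ℤ) (ω : (Fin (n + 2) → ℤ) → UnitAddCircle) :
    Jh v (Tr w ω) = Jh (v + w) ω := by
  unfold Jh Tr
  congr 1
  have h1 : (v + e0 : Fin (n + 2) → ℤ) 0 = v 0 + 1 := by simp [e0]
  have h2 : (v + w) 1 = v 1 + w 1 := rfl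
  have h3 : v + e0 + w = v + w + e0 := by abel
  rw [h1, h2, h3]
  push_cast
  rw [mul_add, mul_add, mul_one, AddCircle.coe_add, AddCircle.coe_add]
  abel

lemma Jv_Tr (v w : Fin (n + 2) → ℤ) (ω : (Fin (n + 2) → ℤ) → UnitAddCircle) :
    Jv v (Tr w ω) = Jv (v + w) ω := by
  unfold Jv Tr
  congr 1
  have h1 : (v + e1 : Fin (n + 2) → ℤ) 0 = v 0 := by simp [e1]
  have h3 : v + e1 + w = v + w + e1 := by abel
  rw [h1, h3]
  abel

lemma X_Tr (v w : Fin (n + 2) → ℤ) (ω : (Fin (n + 2) → ℤ) → UnitAddCircle) :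
    X v (Tr w ω) = X (v + w) ω := by
  have h1 : v + e0 + w = v + w + e0 := by abel
  have h2 : v + e1 + w = v + w + e1 := by abel
  unfold X Z curl
  rw [Jh_Tr, Jv_Tr, Jh_Tr, Jv_Tr, h1, h2]

lemma measurable_Tr (w : Fin (n + 2) → ℤ) : Measurable (Tr w) := by
  unfold Tr
  fun_prop

lemma map_Tr (w : Fin (n + 2) → ℤ) : (P (n := n)).map (Tr w) = P := by
  classical
  unfold P
  refine Measure.eq_infinitePi _ ?_
  intro s t ht
  rw [Measure.map_apply (measurable_Tr w) (MeasurableSet.pi s.countable_toSet fun i _ => ht i)]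
  have hpre : Tr w ⁻¹' (Set.pi s t) = Set.pi (s.image (· + w) : Finset (Fin (n + 2) → ℤ))
      (fun u => (fun y : UnitAddCircle =>
        y - ((√2 * (w 1 : ℝ) * ((u - w) 0 : ℝ) : ℝ) : UnitAddCircle)) ⁻¹' t (u - w)) := by
    ext ω
    simp only [Set.mem_preimage, Set.mem_pi, Finset.mem_coe, Finset.mem_image, forall_exists_index,
      and_imp, forall_apply_eq_imp_iff₂, add_sub_cancel_right, Tr]
    refine forall₂_congr fun a _ => ?_
    have : a + w - w = a := add_sub_cancel_right a w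
    rw [this]
  rw [hpre, Measure.infinitePi_pi]
  · rw [Finset.prod_image (fun a _ b _ h => add_right_cancel h)]
    refine Finset.prod_congr rfl fun v _ => ?_
    rw [add_sub_cancel_right]
    have := (measurePreserving_sub_right (volume : Measure UnitAddCircle)
      ((√2 * (w 1 : ℝ) * ((v) 0 : ℝ) : ℝ) : UnitAddCircle)).measure_preimage
        (ht v).nullMeasurableSet
    exact this
  · intro u _
    exact (measurable_sub_const _) (ht _)

lemma shiftInvariant_X : ShiftInvariant (P (n := n)) X := by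
  intro w
  have hX : Measurable (fun (ω : (Fin (n + 2) → ℤ) → UnitAddCircle) (v : Fin (n + 2) → ℤ) =>
      X v ω) := measurable_pi_iff.2 fun v => measurable_X v
  have h : (fun (ω : (Fin (n + 2) → ℤ) → UnitAddCircle) (v : Fin (n + 2) → ℤ) => X (v + w) ω) =
      (fun ω v => X v ω) ∘ Tr w := by
    funext ω v
    simp only [Function.comp]
    rw [X_Tr]
  rw [h, ← Measure.map_map hX (measurable_Tr w), map_Tr]

/-! finite dependence -/

/-- the sites that `X v` looks at -/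
def nb (v : Fin (n + 2) → ℤ) : Set (Fin (n + 2) → ℤ) := {v, v + e0, v + e1, v + e0 + e1}

def nbs (S : Set (Fin (n + 2) → ℤ)) : Set (Fin (n + 2) → ℤ) := ⋃ v ∈ S, nb v

lemma mem_nbs {S : Set (Fin (n + 2) → ℤ)} {v : Fin (n + 2) → ℤ} (hv : v ∈ S)
    {u : Fin (n + 2) → ℤ} (hu : u ∈ nb v) : u ∈ nbs S := Set.mem_biUnion hv hu

lemma nb_range {u v : Fin (n + 2) → ℤ} (h : u ∈ nb v) (i : Fin (n + 2)) :
    0 ≤ u i - v i ∧ u i - v i ≤ 1 := by
  have he0 : (0 : ℤ) ≤ (e0 : Fin (n + 2) → ℤ) i ∧ (e0 : Fin (n + 2) → ℤ) i ≤ 1 := by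
    unfold e0
    by_cases hi : i = 0
    · subst hi; simp
    · simp [Pi.single_eq_of_ne hi]
  have he1 : (0 : ℤ) ≤ (e1 : Fin (n + 2) → ℤ) i ∧ (e1 : Fin (n + 2) → ℤ) i ≤ 1 := by
    unfold e1
    by_cases hi : i = 1
    · subst hi; simp
    · simp [Pi.single_eq_of_ne hi]
  have he2 : (e0 : Fin (n + 2) → ℤ) i + (e1 : Fin (n + 2) → ℤ) i ≤ 1 := by
    unfold e0 e1
    by_cases hi : i = 0
    · subst hi; simp
    · by_cases hi' : i = 1
      · subst hi'; simp
      · simp [Pi.single_eq_of_ne hi, Pi.single_eq_of_ne hi']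
  simp only [nb, Set.mem_insert_iff, Set.mem_singleton_iff] at h
  rcases h with rfl | rfl | rfl | rfl
  · omega
  · rw [Pi.add_apply]; omega
  · rw [Pi.add_apply]; omega
  · rw [Pi.add_apply, Pi.add_apply]; omega

lemma disjoint_nbs {S T : Set (Fin (n + 2) → ℤ)}
    (h : ∀ a ∈ S, ∀ b ∈ T, ((2 : ℕ) : ℝ) ≤ dist a b) : Disjoint (nbs S) (nbs T) := by
  rw [Set.disjoint_left]
  intro u hu hu'
  simp only [nbs, Set.mem_iUnion, exists_prop] at hu hu'
  obtain ⟨a, ha, hua⟩ := hu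
  obtain ⟨b, hb, hub⟩ := hu'
  have h2 := h a ha b hb
  have h1 : dist a b ≤ 1 := by
    rw [dist_pi_le_iff zero_le_one]
    intro i
    have ra := nb_range hua i
    have rb := nb_range hub i
    rw [Int.dist_eq]
    have : |a i - b i| ≤ 1 := by rw [abs_le]; omega
    exact_mod_cast this
  norm_num at h2
  linarith

lemma indep_restrict {S T : Set (Fin (n + 2) → ℤ)} (h : Disjoint S T) :
    IndepFun (fun (ω : (Fin (n + 2) → ℤ) → UnitAddCircle) (u : S) => ω u)
      (fun (ω : (Fin (n + 2) → ℤ) → UnitAddCircle) (u : T) => ω u) P := by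
  have hi : iIndepFun (fun (u : Fin (n + 2) → ℤ) (ω : (Fin (n + 2) → ℤ) → UnitAddCircle) => ω u)
      (P (n := n)) := iIndepFun_infinitePi (X := fun _ ω ↦ ω) (by fun_prop)
  have h1 := indep_iSup_of_disjoint (m := fun u : Fin (n + 2) → ℤ =>
      MeasurableSpace.comap (fun (ω : (Fin (n + 2) → ℤ) → UnitAddCircle) => ω u) inferInstance)
      (fun u => (measurable_pi_apply u).comap_le) hi h
  have key : ∀ S : Set (Fin (n + 2) → ℤ),
      MeasurableSpace.comap (fun (ω : (Fin (n + 2) → ℤ) → UnitAddCircle) (u : S) => ω u)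
        inferInstance = ⨆ u ∈ S, MeasurableSpace.comap
          (fun (ω : (Fin (n + 2) → ℤ) → UnitAddCircle) => ω u) inferInstance := by
    intro S
    show MeasurableSpace.comap _ MeasurableSpace.pi = _
    unfold MeasurableSpace.pi
    rw [MeasurableSpace.comap_iSup, iSup_subtype']
    refine iSup_congr fun u => ?_
    rw [MeasurableSpace.comap_comp]
    rfl
  rw [IndepFun_iff_Indep, key S, key T]
  exact h1

lemma dependentRange_X : DependentRange 2 (P (n := n)) X := by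
  intro S T hST
  have hd := disjoint_nbs hST
  have hi := indep_restrict hd
  have key : ∀ S : Set (Fin (n + 2) → ℤ), ∃ F : (nbs S → UnitAddCircle) → (S → Fin 4),
      Measurable F ∧ (fun ω (v : S) => X (v : Fin (n + 2) → ℤ) ω) =
        F ∘ (fun (ω : (Fin (n + 2) → ℤ) → UnitAddCircle) (u : nbs S) => ω u) := by
    intro S
    have m0 : ∀ v : S, (v : Fin (n + 2) → ℤ) ∈ nbs S := fun v => mem_nbs v.2 (by simp [nb])
    have m1 : ∀ v : S, (v : Fin (n + 2) → ℤ) + e0 ∈ nbs S := fun v => mem_nbs v.2 (by simp [nb])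
    have m2 : ∀ v : S, (v : Fin (n + 2) → ℤ) + e1 ∈ nbs S := fun v => mem_nbs v.2 (by simp [nb])
    have m3 : ∀ v : S, (v : Fin (n + 2) → ℤ) + e0 + e1 ∈ nbs S :=
      fun v => mem_nbs v.2 (by simp [nb])
    refine ⟨fun y v => Fin.ofNat 4 (⌊
      r (y ⟨_, m1 v⟩ - y ⟨_, m0 v⟩ - ((√2 * ((v : Fin (n + 2) → ℤ) 1 : ℝ) : ℝ) : UnitAddCircle)) +
      r (y ⟨_, m3 v⟩ - y ⟨_, m1 v⟩) -
      r (y ⟨_, m3 v⟩ - y ⟨_, m2 v⟩ -
        ((√2 * (((v : Fin (n + 2) → ℤ) + e1 : Fin (n + 2) → ℤ) 1 : ℝ) : ℝ) : UnitAddCircle)) -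
      r (y ⟨_, m2 v⟩ - y ⟨_, m0 v⟩) - √2 + 1/2⌋ + 3).toNat, ?_, ?_⟩
    · refine measurable_pi_iff.2 fun v => ?_
      refine (measurable_from_top (f := fun z : ℤ => Fin.ofNat 4 (z + 3).toNat)).comp ?_
      refine Int.measurable_floor.comp ?_
      have := measurable_r
      fun_prop
    · funext ω v
      have h3 : (v : Fin (n + 2) → ℤ) + e1 + e0 = (v : Fin (n + 2) → ℤ) + e0 + e1 := by abel
      simp only [Function.comp, X, Z, curl, Jh, Jv, h3]
  obtain ⟨F, hF, hF'⟩ := key S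
  obtain ⟨G, hG, hG'⟩ := key T
  rw [hF', hG']
  exact hi.comp hF hG

/-! the flux bound -/

/-- the point `(i,j,0,…,0)`. -/
def pt (i j : ℕ) : Fin (n + 2) → ℤ := (i : ℤ) • e0 + (j : ℤ) • e1

lemma pt_succ_left (i j : ℕ) : (pt (i + 1) j : Fin (n + 2) → ℤ) = pt i j + e0 := by
  unfold pt
  push_cast
  rw [add_smul, one_smul]
  abel

lemma pt_succ_right (i j : ℕ) : (pt i (j + 1) : Fin (n + 2) → ℤ) = pt i j + e1 := by
  unfold pt
  push_cast
  rw [add_smul, one_smul]
  abel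

lemma abs_r (y : UnitAddCircle) : |r y| ≤ 1/2 := by
  have := r_mem y
  rw [abs_le]
  constructor <;> linarith [this.1, this.2]

lemma flux (N M : ℕ) (ω : (Fin (n + 2) → ℤ) → UnitAddCircle) :
    |∑ i ∈ Finset.range N, ∑ j ∈ Finset.range M, curl (pt i j) ω| ≤ N + M := by
  have h : ∑ i ∈ Finset.range N, ∑ j ∈ Finset.range M, curl (pt i j) ω =
      (∑ i ∈ Finset.range N, (Jh (pt i 0) ω - Jh (pt i M) ω)) +
      ∑ j ∈ Finset.range M, (Jv (pt N j) ω - Jv (pt 0 j) ω) := by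
    have hc : ∀ i j : ℕ, curl (pt i j) ω =
        (Jh (pt i j) ω - Jh (pt i (j + 1)) ω) + (Jv (pt (i + 1) j) ω - Jv (pt i j) ω) := by
      intro i j
      rw [pt_succ_left, pt_succ_right]
      unfold curl
      ring
    simp_rw [hc, Finset.sum_add_distrib]
    congr 1
    · refine Finset.sum_congr rfl fun i _ => ?_
      rw [Finset.sum_range_sub' (fun j => Jh (pt i j) ω)]
    · rw [Finset.sum_comm]
      refine Finset.sum_congr rfl fun j _ => ?_
      rw [Finset.sum_range_sub (fun i => Jv (pt i j) ω)]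
  rw [h]
  have h1 : |∑ i ∈ Finset.range N, (Jh (pt i 0) ω - Jh (pt i M) ω)| ≤ N := by
    refine (Finset.abs_sum_le_sum_abs _ _).trans ?_
    refine (Finset.sum_le_sum (g := fun _ => (1 : ℝ)) fun i _ => ?_).trans (by simp)
    refine (abs_sub _ _).trans ?_
    have a := abs_r (ω (pt i 0 + e0) - ω (pt i 0) - ((√2 * ((pt i 0 : Fin (n + 2) → ℤ) 1 : ℝ) : ℝ) : UnitAddCircle))
    have b := abs_r (ω (pt i M + e0) - ω (pt i M) - ((√2 * ((pt i M : Fin (n + 2) → ℤ) 1 : ℝ) : ℝ) : UnitAddCircle))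
    unfold Jh
    linarith
  have h2 : |∑ j ∈ Finset.range M, (Jv (pt N j) ω - Jv (pt 0 j) ω)| ≤ M := by
    refine (Finset.abs_sum_le_sum_abs _ _).trans ?_
    refine (Finset.sum_le_sum (g := fun _ => (1 : ℝ)) fun i _ => ?_).trans (by simp)
    refine (abs_sub _ _).trans ?_
    have a := abs_r (ω (pt N i + e1) - ω (pt N i))
    have b := abs_r (ω (pt 0 i + e1) - ω (pt 0 i))
    unfold Jv
    linarith
  exact (abs_add_le _ _).trans (add_le_add h1 h2)

lemma sum_X (N : ℕ) (ω : (Fin (n + 2) → ℤ) → UnitAddCircle) :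
    |∑ i ∈ Finset.range N, ∑ j ∈ Finset.range N, (((X (pt i j) ω : ℕ) : ℝ) - 3 + √2)| ≤ 2 * N := by
  have h : ∀ i j : ℕ, (((X (pt i j) ω : ℕ) : ℝ) - 3 + √2) = curl (pt i j) ω := by
    intro i j
    have h1 : (((X (pt i j) ω : ℕ) : ℝ)) = (Z (pt i j) ω : ℝ) + 3 := by
      have := X_val (pt i j) ω
      exact_mod_cast this
    rw [h1, Z_eq]
    ring
  simp_rw [h]
  refine (flux N N ω).trans (by linarith)

/-- every configuration of the support satisfies the flux bound -/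
lemma sum_support {x : (Fin (n + 2) → ℤ) → Fin 4} (hx : x ∈ support P X) (N : ℕ) :
    |∑ i ∈ Finset.range N, ∑ j ∈ Finset.range N, (((x (pt i j) : ℕ) : ℝ) - 3 + √2)| ≤ 2 * N := by
  classical
  have h := hx ((Finset.range N ×ˢ Finset.range N).image fun q => pt q.1 q.2)
  obtain ⟨ω, hω⟩ := nonempty_of_measure_ne_zero h.ne'
  rw [Set.mem_ofPred_eq] at hω
  have h2 := sum_X N ω
  have h3 : ∑ i ∈ Finset.range N, ∑ j ∈ Finset.range N, (((x (pt i j) : ℕ) : ℝ) - 3 + √2) =
      ∑ i ∈ Finset.range N, ∑ j ∈ Finset.range N, (((X (pt i j) ω : ℕ) : ℝ) - 3 + √2) := by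
    refine Finset.sum_congr rfl fun i hi => Finset.sum_congr rfl fun j hj => ?_
    rw [hω (pt i j) (Finset.mem_image.2 ⟨(i, j), Finset.mem_product.2 ⟨hi, hj⟩, rfl⟩)]
  rw [h3]
  exact h2

lemma sum_periodic_range (f : ℕ → ℝ) (N : ℕ) (hf : ∀ i, f (i + N) = f i) (m : ℕ) :
    ∑ i ∈ Finset.range (m * N), f i = m * ∑ i ∈ Finset.range N, f i := by
  induction m with
  | zero => simp
  | succ m ih =>
    have hf' : ∀ m i, f (m * N + i) = f i := by
      intro m
      induction m with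
      | zero => intro i; simp
      | succ m ihm => intro i; rw [← ihm i, ← hf (m * N + i)]; congr 1; ring
    rw [add_mul, one_mul, Finset.sum_range_add, ih]
    simp_rw [hf']
    push_cast
    ring

lemma not_periodic {x : (Fin (n + 2) → ℤ) → Fin 4} (hx : x ∈ support P X) : ¬ IsPeriodic x := by
  intro hper
  have hper' : (stab x).FiniteIndex := hper
  obtain ⟨N, hN0, hN⟩ : ∃ N : ℕ, 0 < N ∧ ∀ v, N • v ∈ stab x :=
    ⟨(stab x).index, Nat.pos_of_ne_zero hper'.index_ne_zero,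
      fun v => AddSubgroup.nsmul_index_mem _ v⟩
  have p0 : ∀ i j, x (pt (i + N) j) = x (pt i j) := by
    intro i j
    have h := hN e0 (pt i j)
    have h' : (pt (i + N) j : Fin (n + 2) → ℤ) = pt i j + N • e0 := by
      unfold pt
      push_cast
      rw [add_smul, natCast_zsmul (e0 : Fin (n + 2) → ℤ) N]
      abel
    rw [h']
    exact h
  have p1 : ∀ i j, x (pt i (j + N)) = x (pt i j) := by
    intro i j
    have h := hN e1 (pt i j)
    have h' : (pt i (j + N) : Fin (n + 2) → ℤ) = pt i j + N • e1 := by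
      unfold pt
      push_cast
      rw [add_smul, natCast_zsmul (e1 : Fin (n + 2) → ℤ) N]
      abel
    rw [h']
    exact h
  -- the sum over a fundamental domain
  set s : ℝ := ∑ i ∈ Finset.range N, ∑ j ∈ Finset.range N, (((x (pt i j) : ℕ) : ℝ) - 3 + √2) with hs
  have hm : ∀ m : ℕ, |(m : ℝ) * ((m : ℝ) * s)| ≤ 2 * (m * N : ℕ) := by
    intro m
    have h1 := sum_support hx (m * N)
    rw [sum_periodic_range (fun i => ∑ j ∈ Finset.range (m * N), (((x (pt i j) : ℕ) : ℝ) - 3 + √2)) N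
      (fun i => by simp_rw [p0]) m] at h1
    simp_rw [fun i => sum_periodic_range (fun j => (((x (pt i j) : ℕ) : ℝ) - 3 + √2)) N
      (fun j => by simp_rw [p1]) m, ← Finset.mul_sum] at h1
    rw [← hs] at h1
    exact h1
  have hs0 : s = 0 := by
    by_contra hne
    have hpos : 0 < |s| := abs_pos.2 hne
    obtain ⟨m, hmm⟩ := exists_nat_gt (2 * (N : ℝ) / |s|)
    have hm0 : (0 : ℝ) < m := lt_of_le_of_lt (by positivity) hmm
    have h := hm m
    rw [abs_mul, abs_mul, abs_of_pos hm0] at h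
    push_cast at h
    rw [div_lt_iff₀ hpos] at hmm
    nlinarith
  -- s = a + √2 N^2
  have hsum : s = (∑ i ∈ Finset.range N, ∑ j ∈ Finset.range N, (((x (pt i j) : ℕ) : ℝ) - 3)) +
      √2 * (N * N : ℕ) := by
    rw [hs]
    simp only [Finset.sum_add_distrib, Finset.sum_const, Finset.card_range, nsmul_eq_mul]
    push_cast
    ring
  have hint : (∑ i ∈ Finset.range N, ∑ j ∈ Finset.range N, (((x (pt i j) : ℕ) : ℝ) - 3)) =
      ((∑ i ∈ Finset.range N, ∑ j ∈ Finset.range N, (((x (pt i j) : ℕ) : ℤ) - 3) : ℤ) : ℝ) := by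
    push_cast
    rfl
  have hirr : Irrational (√2 * ((N * N : ℕ) : ℝ)) :=
    irrational_sqrt_two.mul_natCast (by positivity)
  refine hirr ⟨((-(∑ i ∈ Finset.range N, ∑ j ∈ Finset.range N, (((x (pt i j) : ℕ) : ℤ) - 3)) : ℤ) : ℚ), ?_⟩
  rw [hs0, hint] at hsum
  push_cast at hsum ⊢
  linarith

/-! the support is nonempty -/
lemma support_nonempty : (support (P (n := n)) X).Nonempty := by
  classical
  -- a.e. point lies in the support
  have hae : ∀ᵐ ω ∂(P (n := n)), (fun v => X v ω) ∈ support P X := by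
    have hB : ∀ (B : Finset (Fin (n + 2) → ℤ)) , ∀ᵐ ω ∂(P (n := n)),
        0 < P {ω' : (Fin (n + 2) → ℤ) → UnitAddCircle | ∀ v ∈ B, X v ω' = X v ω} := by
      intro B
      rw [ae_iff]
      -- union over patterns
      have hsub : {ω : (Fin (n + 2) → ℤ) → UnitAddCircle |
          ¬ 0 < P {ω' : (Fin (n + 2) → ℤ) → UnitAddCircle | ∀ v ∈ B, X v ω' = X v ω}} ⊆
          ⋃ p ∈ {p : B → Fin 4 | P {ω' : (Fin (n + 2) → ℤ) → UnitAddCircle |
            ∀ v : B, X (v : Fin (n + 2) → ℤ) ω' = p v} = 0},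
            {ω' : (Fin (n + 2) → ℤ) → UnitAddCircle | ∀ v : B, X (v : Fin (n + 2) → ℤ) ω' = p v} := by
        intro ω hω
        rw [Set.mem_ofPred_eq, not_lt, nonpos_iff_eq_zero] at hω
        refine Set.mem_biUnion (x := fun v : B => X (v : Fin (n + 2) → ℤ) ω) ?_ (fun v => rfl)
        rw [Set.mem_ofPred_eq]
        refine le_antisymm ?_ bot_le
        rw [← hω]
        refine measure_mono fun ω' h v hv => h ⟨v, hv⟩
      refine measure_mono_null hsub ?_
      rw [measure_biUnion_null_iff (Set.to_countable _)]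
      intro p hp
      exact hp
    have := ae_all_iff.2 hB
    filter_upwards [this] with ω hω B
    exact hω B
  obtain ⟨ω, hω⟩ := hae.exists
  exact ⟨_, hω⟩

end Pool.Agent.R188.FD
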