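import Pool.Agent.H535R3.KC

set_option autoImplicit false
open Set Filter Topology

namespace Pool.Agent.R188.Jo
open H535R3

/-- Every singleton slice of `L_r` at a positive height lies on the axis `b = r`. -/
theorem axis_of_single {r : ℤ} {ε b a : ℝ} (hε : 0 < ε) (ha : 0 < a) (h : (b, a) ∈ Ls r ε)
    (hu : ∀ b', (b', a) ∈ Ls r ε → b' = b) : b = r := by
  rcases lt_trichotomy r 0 with hr | hr | hr
  · obtain ⟨n, hn⟩ : ∃ n : ℕ, -r = n := ⟨(-r).toNat, by omega⟩
    have h1 := Ls_neg h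
    have hu1 := single_neg hu
    rw [hn] at h1 hu1
    have h2 := single_ident h1 hu1
    have h3 := ident_axis (r := n) (by omega) hε ha (by exact_mod_cast h2)
    have h4 : ((-r : ℤ) : ℝ) = n := by rw [hn]; simp
    push_cast at h4
    linarith
  · subst hr
    have h1 := Ls_neg h
    rw [neg_zero] at h1
    have := hu _ h1
    push_cast
    linarith
  · obtain ⟨n, rfl⟩ : ∃ n : ℕ, r = n := ⟨r.toNat, by omega⟩
    have h2 := single_ident h hu
    have h3 := ident_axis (r := n) (by omega) hε ha (by exact_mod_cast h2)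
    exact_mod_cast h3

/-- The line `b = 0` is contained in `L_0`. -/
theorem zero_mem (a ε : ℝ) : ((0 : ℝ), a) ∈ Ls 0 ε := by
  obtain ⟨y, hy⟩ := zero_b a ε
  obtain ⟨z, hz⟩ : ∃ z, z ≤ P 0 a ε z := by
    by_contra hcon
    push Not at hcon
    set φ := fl 0 a ε 0 with hφd
    have hφ : Sol 0 a ε φ := fl_sol 0 a ε 0
    have h1 : φ (2 * Real.pi) < φ 0 := by
      have := hcon 0
      rw [P] at this
      rw [hφd, fl_zero]; exact this
    have h2 := hφ.shift.lt_of_lt hφ (s := 0) (by simpa using h1) Real.pi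
    have hψ : Sol 0 a ε (fun t => -(φ (t + Real.pi))) := by
      intro t
      have h1 := ((hφ (t + Real.pi)).comp_add_const t Real.pi).neg
      refine h1.congr_deriv ?_
      simp only [Real.sin_neg, Real.cos_add_pi]; ring
    have h3 := congrFun hψ.eq_fl (2 * Real.pi)
    simp only [zero_add] at h3
    have h4 := hcon (-(φ Real.pi))
    rw [P, ← h3, add_comm (2 * Real.pi)] at h4
    linarith
  have hc : Continuous fun x : ℝ => P 0 a ε x - x := (continuous_Px 0 a ε).sub continuous_id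
  obtain ⟨x, hx⟩ := mem_range_of_exists_le_of_exists_ge hc (c := 0) ⟨y, by linarith⟩ ⟨z, by linarith⟩
  refine ⟨x, ?_⟩
  simp only at hx ⊢
  push_cast
  linarith

/-- Along the axis, `L_r` is upward closed. -/
theorem axis_up {r : ℤ} {ε a a' : ℝ} (hε : 0 < ε) (ha : 0 ≤ a) (haa : a ≤ a')
    (h : ((r : ℝ), a) ∈ Ls r ε) : ((r : ℝ), a') ∈ Ls r ε := by
  have key : ∀ n : ℕ, ((n : ℝ) + 1, a) ∈ Ls ((n : ℤ) + 1) ε → ((n : ℝ) + 1, a') ∈ Ls ((n : ℤ) + 1) ε := by
    intro n h1
    rw [axis_iff n ha hε] at h1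
    rw [axis_iff n (ha.trans haa) hε]
    linarith
  rcases lt_trichotomy r 0 with hr | hr | hr
  · obtain ⟨n, hn⟩ : ∃ n : ℕ, r = -((n : ℤ) + 1) := ⟨(-r - 1).toNat, by omega⟩
    subst hn
    have h1 := Ls_neg h
    push_cast at h1 ⊢
    rw [neg_neg, neg_neg] at h1
    have h2 := Ls_neg (key n h1)
    exact h2
  · subst hr
    have := zero_mem a' ε
    push_cast
    exact this
  · obtain ⟨n, hn⟩ : ∃ n : ℕ, r = (n : ℤ) + 1 := ⟨(r - 1).toNat, by omega⟩
    subst hn
    push_cast at h ⊢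
    exact key n h

end Pool.Agent.R188.Jo
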