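import Pool.Agent.R188.Osc
import Pool.Agent.R188.Bes2
import Pool.Agent.R188.Jo

set_option autoImplicit false
open Set Filter Topology MeasureTheory

namespace Pool.Agent.R188.Gar
open H535R3 Osc Bes

noncomputable def ps (r : ℤ) (s ε t : ℝ) : ℝ := fl r (s ^ 2) ε (Real.pi / 2) t - Real.pi / 2 - Ph r s t

lemma hd_ps (r : ℤ) (s ε t : ℝ) :
    HasDerivAt (ps r s ε) (-(ε * Real.cos (Ph r s t + ps r s ε t))) t := by
  have h1 := (((fl_sol r (s ^ 2) ε (Real.pi / 2)) t).sub_const (Real.pi / 2)).sub (hdPh r s t)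
  refine h1.congr_deriv ?_
  have h2 : Real.cos (Ph r s t + ps r s ε t) = Real.sin (fl r (s ^ 2) ε (Real.pi / 2) t) := by
    rw [← Real.sin_pi_div_two_sub, ps, ← Real.sin_pi_sub]
    congr 1; ring
  rw [h2, X]; ring

lemma ps_zero (r : ℤ) (s ε : ℝ) : ps r s ε 0 = 0 := by
  rw [ps, fl_zero, Ph]; simp

lemma cont_ps (r : ℤ) (s ε : ℝ) : Continuous (ps r s ε) :=
  continuous_iff_continuousAt.2 fun t => (hd_ps r s ε t).continuousAt

lemma ps_int (r : ℤ) (s ε T : ℝ) : ps r s ε T =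
    -(ε * ((∫ t in (0:ℝ)..T, Real.cos (ps r s ε t) * Real.cos (Ph r s t + 0)) -
      ∫ t in (0:ℝ)..T, Real.sin (ps r s ε t) * Real.cos (Ph r s t + -(Real.pi / 2)))) := by
  have hc := cont_ps r s ε
  have hP : Continuous (Ph r s) := by unfold Ph; fun_prop
  have h1 := intervalIntegral.integral_eq_sub_of_hasDerivAt (a := 0) (b := T) (fun t _ => hd_ps r s ε t)
    (Continuous.intervalIntegrable (by fun_prop) _ _)
  rw [ps_zero, sub_zero] at h1
  rw [← h1, ← intervalIntegral.integral_sub (Continuous.intervalIntegrable (by fun_prop) _ _)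
    (Continuous.intervalIntegrable (by fun_prop) _ _), ← intervalIntegral.integral_const_mul,
    ← intervalIntegral.integral_neg]
  apply intervalIntegral.integral_congr
  intro t _
  simp only
  rw [Real.cos_add, add_zero, ← sub_eq_add_neg, Real.cos_sub_pi_div_two]
  ring

lemma cos_sub_one_le (x : ℝ) : |Real.cos x - 1| ≤ |x| := by
  have h := Real.abs_cos_sub_cos_le x 0
  simpa using h

lemma sin_le_abs (x : ℝ) : |Real.sin x| ≤ |x| := by
  have h := Real.abs_sin_sub_sin_le x 0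
  simpa using h

theorem asym (r : ℤ) {ε η : ℝ} (hε : 0 < ε) (hη : 0 < η) : ∃ s₀, 1 ≤ s₀ ∧ ∀ s, s₀ ≤ s →
    |P r (s ^ 2) ε (Real.pi / 2) - Real.pi / 2 - 2 * Real.pi * r + ε * J r (s ^ 2)| ≤ η / s := by
  set C0 : ℝ := 2 + 2 * (2 * Real.pi * (3 + 2 * (r:ℝ) ^ 2)) with hC0
  have hC0p : 0 < C0 := by positivity
  set η1 := min 1 (η / (4 * ε ^ 2)) with hη1
  have hη1p : 0 < η1 := by positivity
  obtain ⟨s1, hs1, hW⟩ := int_w (r : ℝ) hη1p
  set C2 := ε * (2 * C0 + 2 * ε) with hC2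
  have hC2p : 0 < C2 := by positivity
  refine ⟨max s1 (4 * ε * C2 * C0 / η), hs1.trans (le_max_left _ _), fun s hs => ?_⟩
  have hs2 : s1 ≤ s := (le_max_left _ _).trans hs
  have hs3 : 4 * ε * C2 * C0 / η ≤ s := (le_max_right _ _).trans hs
  have hs4 : 1 ≤ s := hs1.trans hs2
  have hs0 : 0 < s := by linarith
  have hW1 := hW s hs2
  set W := ∫ t in (0:ℝ)..(2 * Real.pi), |w r s t| with hWd
  have hW2 : W ≤ 1 / s := hW1.trans (div_le_div_of_nonneg_right (min_le_left _ _) hs0.le)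
  have hW3 : 4 * ε ^ 2 * W ≤ η / s := by
    have h1 : W ≤ η / (4 * ε ^ 2) / s := hW1.trans (div_le_div_of_nonneg_right (min_le_right _ _) hs0.le)
    calc 4 * ε ^ 2 * W ≤ 4 * ε ^ 2 * (η / (4 * ε ^ 2) / s) := mul_le_mul_of_nonneg_left h1 (by positivity)
      _ = η / s := by field_simp
  have hc := cont_ps r s ε
  have hP : Continuous (Ph r s) := by unfold Ph; fun_prop
  have hdc : ∀ t, HasDerivAt (fun t => Real.cos (ps r s ε t))
      (-Real.sin (ps r s ε t) * (-(ε * Real.cos (Ph r s t + ps r s ε t)))) t := fun t => (hd_ps r s ε t).cos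
  have hdc1 : ∀ t, HasDerivAt (fun t => Real.cos (ps r s ε t) - 1)
      (-Real.sin (ps r s ε t) * (-(ε * Real.cos (Ph r s t + ps r s ε t)))) t := fun t => (hdc t).sub_const 1
  have hds : ∀ t, HasDerivAt (fun t => Real.sin (ps r s ε t))
      (Real.cos (ps r s ε t) * (-(ε * Real.cos (Ph r s t + ps r s ε t)))) t := fun t => (hd_ps r s ε t).sin
  have bc : ∀ t, |-Real.sin (ps r s ε t) * (-(ε * Real.cos (Ph r s t + ps r s ε t)))| ≤ ε := by
    intro t
    rw [abs_mul, abs_neg, abs_neg, abs_mul, abs_of_pos hε]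
    have h1 := Real.abs_sin_le_one (ps r s ε t)
    have h2 := Real.abs_cos_le_one (Ph r s t + ps r s ε t)
    calc _ ≤ 1 * (ε * 1) := mul_le_mul h1 (mul_le_mul_of_nonneg_left h2 hε.le) (by positivity) (by norm_num)
      _ = ε := by ring
  have bs : ∀ t, |Real.cos (ps r s ε t) * (-(ε * Real.cos (Ph r s t + ps r s ε t)))| ≤ ε := by
    intro t
    rw [abs_mul, abs_neg, abs_mul, abs_of_pos hε]
    have h1 := Real.abs_cos_le_one (ps r s ε t)
    have h2 := Real.abs_cos_le_one (Ph r s t + ps r s ε t)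
    calc _ ≤ 1 * (ε * 1) := mul_le_mul h1 (mul_le_mul_of_nonneg_left h2 hε.le) (by positivity) (by norm_num)
      _ = ε := by ring
  -- first bound
  have step1 : ∀ T ∈ Icc (0:ℝ) (2 * Real.pi), |ps r s ε T| ≤ C2 / s := by
    intro T hT
    have e1 := main_est (r := (r:ℝ)) hs4 hdc (by fun_prop) (G := 1) (G' := ε) 0 hT.1 hT.2
      (fun t _ => Real.abs_cos_le_one _) (fun t _ => bc t)
    have e2 := main_est (r := (r:ℝ)) hs4 hds (by fun_prop) (G := 1) (G' := ε) (-(Real.pi / 2)) hT.1 hT.2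
      (fun t _ => Real.abs_sin_le_one _) (fun t _ => bs t)
    rw [ps_int, abs_neg, abs_mul, abs_of_pos hε]
    have e3 : |(∫ t in (0:ℝ)..T, Real.cos (ps r s ε t) * Real.cos (Ph r s t + 0)) -
      ∫ t in (0:ℝ)..T, Real.sin (ps r s ε t) * Real.cos (Ph r s t + -(Real.pi / 2))| ≤ (2 * C0 + 2 * ε) / s := by
      refine (abs_sub _ _).trans ((add_le_add e1 e2).trans ?_)
      have h1 : ε * W ≤ ε / s := by
        calc ε * W ≤ ε * (1 / s) := mul_le_mul_of_nonneg_left hW2 hε.le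
          _ = ε / s := by ring
      calc _ = (2 * C0) / s + 2 * (ε * W) := by simp only [hC0, hWd]; ring
        _ ≤ (2 * C0) / s + 2 * (ε / s) := by linarith
        _ = _ := by ring
    calc _ ≤ ε * ((2 * C0 + 2 * ε) / s) := mul_le_mul_of_nonneg_left e3 hε.le
      _ = C2 / s := by rw [hC2]; ring
  -- second bound
  have hpp : (0:ℝ) ≤ 2 * Real.pi := by positivity
  have f1 := main_est (r := (r:ℝ)) hs4 hdc1 (by fun_prop) (G := C2 / s) (G' := ε) 0 hpp le_rfl
    (fun t ht => (cos_sub_one_le _).trans (step1 t ht)) (fun t _ => bc t)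
  have f2 := main_est (r := (r:ℝ)) hs4 hds (by fun_prop) (G := C2 / s) (G' := ε) (-(Real.pi / 2)) hpp le_rfl
    (fun t ht => (sin_le_abs _).trans (step1 t ht)) (fun t _ => bs t)
  have h1 : P r (s ^ 2) ε (Real.pi / 2) - Real.pi / 2 - 2 * Real.pi * r = ps r s ε (2 * Real.pi) := by
    rw [ps, P, Ph, Real.sin_two_pi]; ring
  have h2 : J r (s ^ 2) = ∫ t in (0:ℝ)..(2 * Real.pi), Real.cos (Ph r s t + 0) := by
    rw [J]
    apply intervalIntegral.integral_congr
    intro t _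
    simp only [add_zero, Ph]
  have h3 : ps r s ε (2 * Real.pi) + ε * J r (s ^ 2) =
      -(ε * ((∫ t in (0:ℝ)..(2 * Real.pi), (Real.cos (ps r s ε t) - 1) * Real.cos (Ph r s t + 0)) -
      ∫ t in (0:ℝ)..(2 * Real.pi), Real.sin (ps r s ε t) * Real.cos (Ph r s t + -(Real.pi / 2)))) := by
    rw [ps_int, h2]
    have : ∫ t in (0:ℝ)..(2 * Real.pi), (Real.cos (ps r s ε t) - 1) * Real.cos (Ph r s t + 0) =
        (∫ t in (0:ℝ)..(2 * Real.pi), Real.cos (ps r s ε t) * Real.cos (Ph r s t + 0)) -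
        ∫ t in (0:ℝ)..(2 * Real.pi), Real.cos (Ph r s t + 0) := by
      rw [← intervalIntegral.integral_sub (Continuous.intervalIntegrable (by fun_prop) _ _)
        (Continuous.intervalIntegrable (by fun_prop) _ _)]
      apply intervalIntegral.integral_congr
      intro t _
      simp only
      ring
    rw [this]; ring
  rw [h1, h3, abs_neg, abs_mul, abs_of_pos hε]
  refine (mul_le_mul_of_nonneg_left ((abs_sub _ _).trans (add_le_add f1 f2)) hε.le).trans ?_
  have h4 : ε * (C2 / s * C0 / s + ε * W + (C2 / s * C0 / s + ε * W)) =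
      (2 * ε * C2 * C0 / s) / s + 2 * ε ^ 2 * W := by ring
  have h5 : (2 * ε * C2 * C0 / s) ≤ η / 2 := by
    rw [div_le_iff₀ hη] at hs3
    rw [div_le_iff₀ hs0]; linarith
  have h6 : (2 * ε * C2 * C0 / s) / s ≤ η / 2 / s := div_le_div_of_nonneg_right h5 hs0.le
  calc _ = ε * (C2 / s * C0 / s + ε * W + (C2 / s * C0 / s + ε * W)) := by simp only [hC0, hWd]
    _ = (2 * ε * C2 * C0 / s) / s + 2 * ε ^ 2 * W := h4
    _ ≤ η / 2 / s + η / s / 2 := by linarith
    _ = η / s := by ring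

/-- The monodromy of the symmetric solution takes both signs at arbitrarily large heights. -/
theorem both_signs (r : ℤ) {ε : ℝ} (hε : 0 < ε) (A₀ : ℝ) :
    (∃ a, A₀ ≤ a ∧ 0 < a ∧ P r a ε (Real.pi / 2) < Real.pi / 2 + 2 * Real.pi * r) ∧
    (∃ a, A₀ ≤ a ∧ 0 < a ∧ Real.pi / 2 + 2 * Real.pi * r < P r a ε (Real.pi / 2)) := by
  obtain ⟨c, hc, h⟩ := osc r
  obtain ⟨s0, hs0, hs⟩ := asym r hε (show 0 < ε * c / 2 by positivity)
  obtain ⟨⟨a, ha1, ha2, ha3⟩, ⟨a', ha1', ha2', ha3'⟩⟩ := h (max A₀ (s0 ^ 2))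
  have key : ∀ a : ℝ, max A₀ (s0 ^ 2) ≤ a → 1 ≤ a →
      |Real.sqrt a * (P r a ε (Real.pi / 2) - Real.pi / 2 - 2 * Real.pi * r) + ε * (Real.sqrt a * J r a)| ≤
        ε * c / 2 := by
    intro a h1 h2
    have h3 : s0 ≤ Real.sqrt a := Real.le_sqrt_of_sq_le ((le_max_right _ _).trans h1)
    have h4 := hs _ h3
    rw [Real.sq_sqrt (by linarith)] at h4
    have h5 : 0 < Real.sqrt a := by linarith
    rw [le_div_iff₀ h5] at h4
    calc _ = |(P r a ε (Real.pi / 2) - Real.pi / 2 - 2 * Real.pi * r + ε * J r a) * Real.sqrt a| := by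
          congr 1; ring
      _ = |P r a ε (Real.pi / 2) - Real.pi / 2 - 2 * Real.pi * r + ε * J r a| * Real.sqrt a := by
          rw [abs_mul, abs_of_pos h5]
      _ ≤ _ := h4
  constructor
  · refine ⟨a, (le_max_left _ _).trans ha1, by linarith, ?_⟩
    have h1 := key a ha1 ha2
    rw [abs_le] at h1
    have h2 : ε * c ≤ ε * (Real.sqrt a * J r a) := mul_le_mul_of_nonneg_left ha3 hε.le
    have h3 : Real.sqrt a * (P r a ε (Real.pi / 2) - Real.pi / 2 - 2 * Real.pi * r) < 0 := by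
      have : 0 < ε * c := by positivity
      linarith [h1.2]
    have h5 : 0 < Real.sqrt a := Real.sqrt_pos.2 (by linarith)
    have h6 : P r a ε (Real.pi / 2) - Real.pi / 2 - 2 * Real.pi * r < 0 := by
      by_contra hcon
      push Not at hcon
      have := mul_nonneg h5.le hcon
      linarith
    linarith
  · refine ⟨a', (le_max_left _ _).trans ha1', by linarith, ?_⟩
    have h1 := key a' ha1' ha2'
    rw [abs_le] at h1
    have h2 : ε * (Real.sqrt a' * J r a') ≤ ε * (-c) := mul_le_mul_of_nonneg_left ha3' hε.le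
    have h3 : 0 < Real.sqrt a' * (P r a' ε (Real.pi / 2) - Real.pi / 2 - 2 * Real.pi * r) := by
      have : 0 < ε * c := by positivity
      linarith [h1.1]
    have h5 : 0 < Real.sqrt a' := Real.sqrt_pos.2 (by linarith)
    have h6 := (mul_pos_iff_of_pos_left h5).1 h3
    linarith

end Pool.Agent.R188.Gar
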