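import Pool.Agent.R188.Gar1
import Pool.Agent.H535R3.KL

set_option autoImplicit false
open Set Filter Topology MeasureTheory

namespace Pool.Agent.R188.Gar
open H535R3

/-- Identity monodromy on the axis `b = r`. -/
def Idt (r : ℤ) (ε a : ℝ) : Prop := ∀ x, P r a ε x = x + 2 * Real.pi * r

lemma isolated {l : ℕ} {a ε : ℝ} (ha : 0 < a) (hε : 0 < ε) (h : Idt l ε a) :
    ∀ᶠ a' in 𝓝[≠] a, ¬ Idt l ε a' := by
  have hall : ∀ x, P l a ε x = x + 2 * Real.pi * l := fun x => by
    have := h x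
    push_cast at this
    exact this
  have hC := Cc_per (m := (l:ℤ)) (by push_cast; exact hall (Real.pi / 2))
  have hI : ∫ t in (0:ℝ)..(2 * Real.pi), Real.cos t * Real.exp (ε * Cc (fl l a ε (Real.pi / 2)) t) ≠ 0 := by
    rw [← shift_int (fun t => by rw [Real.cos_add_two_pi, hC.2])]
    obtain ⟨μ, hμ⟩ : ∃ μ, a = 2 * μ := ⟨a / 2, by ring⟩
    obtain ⟨e, he⟩ : ∃ e, ε = 2 * e := ⟨ε / 2, by ring⟩
    subst hμ he
    rcases Nat.eq_zero_or_pos l with h0 | h0
    · subst h0
      have h1 := Ic_ne0 (μ := μ) (e := e) (by linarith) (by linarith) (fun x => by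
        have := hall x
        push_cast at this
        rw [mul_zero, add_zero] at this
        exact this)
      simpa using h1
    · obtain ⟨n, rfl⟩ : ∃ n, l = n + 1 := ⟨l - 1, by omega⟩
      have h1 := Ic_ne (n := n) (μ := μ) (e := e) (by linarith) (by linarith) (fun x => by
        have := hall x
        push_cast at this ⊢
        exact this)
      push_cast
      exact h1
  have hne : ∀ σ : ℝ, (∀ᶠ s in 𝓝[>] (0:ℝ), P l (a + σ * s) ε (Real.pi / 2) ≠ Real.pi / 2 + 2 * Real.pi * l) →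
      ∀ᶠ s in 𝓝[>] (0:ℝ), ¬ Idt l ε (a + σ * s) := by
    intro σ h1
    filter_upwards [h1] with s hs hI
    exact hs (by have := hI (Real.pi / 2); push_cast at this; exact this)
  have hE : ∀ σ : ℝ, σ ≠ 0 → ∀ᶠ s in 𝓝[>] (0:ℝ),
      P l (a + σ * s) ε (Real.pi / 2) ≠ Real.pi / 2 + 2 * Real.pi * l := by
    intro σ hσ
    have e1 : ∫ u in (0:ℝ)..(2 * Real.pi), (0 + σ * Real.cos u) * Real.exp (ε * Cc (fl l a ε (Real.pi / 2)) u) =
        σ * ∫ t in (0:ℝ)..(2 * Real.pi), Real.cos t * Real.exp (ε * Cc (fl l a ε (Real.pi / 2)) t) := by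
      rw [← intervalIntegral.integral_const_mul]
      apply intervalIntegral.integral_congr
      intro t _
      simp only
      ring
    have h2 : σ * (∫ t in (0:ℝ)..(2 * Real.pi), Real.cos t * Real.exp (ε * Cc (fl l a ε (Real.pi / 2)) t)) ≠ 0 :=
      mul_ne_zero hσ hI
    rw [← e1] at h2
    rcases lt_or_gt_of_ne h2 with h3 | h3
    · filter_upwards [push_down hC.1 h3] with s hs
      rw [zero_mul, add_zero, hall] at hs
      exact hs.ne
    · filter_upwards [push_up hC.1 h3] with s hs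
      rw [zero_mul, add_zero, hall] at hs
      exact hs.ne'
  rw [← nhdsLT_sup_nhdsGT, eventually_sup]
  constructor
  · have h1 := hne (-1) (hE (-1) (by norm_num))
    have h2 : Tendsto (fun x : ℝ => a - x) (𝓝[<] a) (𝓝[>] 0) := by
      apply tendsto_nhdsWithin_iff.2
      constructor
      · have : Tendsto (fun x : ℝ => a - x) (𝓝 a) (𝓝 (a - a)) := (continuous_const.sub continuous_id).tendsto a
        rw [sub_self] at this
        exact this.mono_left nhdsWithin_le_nhds
      · filter_upwards [self_mem_nhdsWithin] with x hx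
        have hx' : x < a := hx
        exact mem_Ioi.2 (by linarith)
    filter_upwards [h2.eventually h1] with x hx
    rwa [show a + -1 * (a - x) = x by ring] at hx
  · have h1 := hne 1 (hE 1 (by norm_num))
    have h2 : Tendsto (fun x : ℝ => x - a) (𝓝[>] a) (𝓝[>] 0) := by
      apply tendsto_nhdsWithin_iff.2
      constructor
      · have : Tendsto (fun x : ℝ => x - a) (𝓝 a) (𝓝 (a - a)) := (continuous_id.sub continuous_const).tendsto a
        rw [sub_self] at this
        exact this.mono_left nhdsWithin_le_nhds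
      · filter_upwards [self_mem_nhdsWithin] with x hx
        have hx' : a < x := hx
        exact mem_Ioi.2 (by linarith)
    filter_upwards [h2.eventually h1] with x hx
    rwa [show a + 1 * (x - a) = x by ring] at hx

lemma closed_idt (r : ℤ) (ε : ℝ) : IsClosed {a : ℝ | Idt r ε a} := by
  have : {a : ℝ | Idt r ε a} = ⋂ x : ℝ, {a : ℝ | P r a ε x = x + 2 * Real.pi * r} := by
    ext a; simp [Idt]
  rw [this]
  refine isClosed_iInter fun x => isClosed_eq ?_ continuous_const
  exact continuous_P.comp (f := fun a : ℝ => ((r:ℝ), a, ε, x)) (by fun_prop)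

lemma not_idt_zero {l : ℕ} {ε : ℝ} (hε : 0 < ε) : ¬ Idt l ε 0 := by
  intro h
  rcases Nat.eq_zero_or_pos l with h0 | h0
  · subst h0
    have h1 := trap (b := 0) (a := 0) (ε := ε) le_rfl (by linarith)
    have h2 := h (Real.pi / 2)
    push_cast at h2
    rw [h2] at h1
    linarith
  · obtain ⟨n, rfl⟩ : ∃ n, l = n + 1 := ⟨l - 1, by omega⟩
    refine zero_a (n := n) hε ⟨0, ?_⟩
    have := h 0
    push_cast at this ⊢
    exact this

/-- Above a threshold the symmetric solution detects identity monodromy; moreover the axis is in the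
interior of the phase-lock area off the identity points. -/
lemma above (l : ℕ) {ε : ℝ} (hε : 0 < ε) : ∃ th : ℝ, 0 ≤ th ∧
    (∀ a, 0 < a → Idt l ε a → th < a) ∧
    (∀ a, th < a → P l a ε (Real.pi / 2) = Real.pi / 2 + 2 * Real.pi * l → Idt l ε a) ∧
    (∀ a, th < a → ¬ Idt l ε a → ((l:ℝ), a) ∈ interior (Ls l ε)) := by
  rcases Nat.eq_zero_or_pos l with h0 | h0
  · subst h0
    have key : ∀ a, 0 < a → ¬ Idt (0:ℕ) ε a → (((0:ℕ):ℝ), a) ∈ interior (Ls (0:ℕ) ε) := by
      intro a ha hn
      by_contra hcon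
      apply hn
      have hmem : ((0:ℝ), a) ∈ Ls 0 ε := Jo.zero_mem a ε
      have hs : ∀ b', (b', a) ∈ Ls 0 ε → b' = 0 := by
        have hd : (∀ x, x + 2 * Real.pi * (0:ℤ) ≤ P 0 a ε x) ∨ (∀ x, P 0 a ε x ≤ x + 2 * Real.pi * (0:ℤ)) := by
          by_contra hcon2
          push Not at hcon2
          obtain ⟨⟨u, hu⟩, ⟨v, hv⟩⟩ := hcon2
          apply hcon
          have := mem_interior_Ls (r := 0) (q := ((0:ℝ), a)) (u := v) (v := u) hv hu
          simpa using this
        intro b' hb'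
        rcases hd with hd | hd
        · by_contra hne
          rcases lt_or_gt_of_ne hne with h3 | h3
          · have h4 := Ls_neg hb'
            rw [neg_zero] at h4
            exact not_mem_of_lt (show (0:ℝ) < -b' by linarith) hd h4
          · exact not_mem_of_lt h3 hd hb'
        · by_contra hne
          rcases lt_or_gt_of_ne hne with h3 | h3
          · exact not_mem_of_gt h3 hd hb'
          · have h4 := Ls_neg hb'
            rw [neg_zero] at h4
            exact not_mem_of_gt (show -b' < (0:ℝ) by linarith) hd h4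
      intro x
      have := single_ident hmem hs x
      push_cast at this ⊢
      exact this
    refine ⟨0, le_rfl, fun a ha _ => ha, ?_, key⟩
    intro a ha h1
    by_contra hn
    have h2 : P (0:ℝ) a ε (Real.pi / 2) = Real.pi / 2 + 2 * Real.pi * (0:ℤ) := by
      push_cast at h1 ⊢; exact h1
    have h3 := Kx_sym h2
    have h4 := frontier_of_parabolic h2 h3 (fun h => hn (fun x => by have := h x; push_cast at this ⊢; exact this))
    have h5 := key a ha hn
    push_cast at h5
    exact h4.1.2 h5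
  · obtain ⟨n, rfl⟩ : ∃ n, l = n + 1 := ⟨l - 1, by omega⟩
    have hM := MM_pos n (δ := ε / 2) (by positivity)
    have hcast : (((n + 1 : ℕ) : ℤ) : ℝ) = (n:ℝ) + 1 := by push_cast; ring
    have hcast2 : ((n + 1 : ℕ) : ℝ) = (n:ℝ) + 1 := by push_cast; ring
    have idt_iff : ∀ a, Idt (n + 1 : ℕ) ε a ↔ ∀ x, P (n + 1) a ε x = x + 2 * Real.pi * (((n:ℤ) + 1 : ℤ) : ℝ) := by
      intro a
      unfold Idt
      push_cast
      exact Iff.rfl
    refine ⟨2 * MM n (ε / 2), by positivity, ?_, ?_, ?_⟩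
    · intro a ha h
      rw [idt_iff] at h
      have h1 : ((n:ℝ) + 1, a) ∈ Ls ((n:ℤ) + 1) ε := ⟨0, h 0⟩
      rw [axis_iff n ha.le hε] at h1
      refine lt_of_le_of_ne h1 fun heq => ?_
      refine not_ident_MM (n := n) (μ := a / 2) (e := ε / 2) (by positivity) ?_ (by rw [← heq]; ring)
      intro x
      rw [show 2 * (a / 2) = a by ring, show 2 * (ε / 2) = ε by ring]
      exact_mod_cast h x
    · intro a ha h
      rw [idt_iff]
      by_contra hn
      rw [hcast2] at h
      have h2 : P (n + 1) a ε (Real.pi / 2) = Real.pi / 2 + 2 * Real.pi * (((n:ℤ) + 1 : ℤ) : ℝ) := by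
        push_cast; exact h
      have h3 := Kx_sym h2
      have h4 := frontier_of_parabolic h2 h3 hn
      have h5 := simple_unique hε (by linarith) (by positivity) (n := n) (a := a) (a' := 2 * MM n (ε / 2)) h4
        (simple_MM n hε)
      linarith
    · intro a ha hn
      rw [idt_iff] at hn
      rw [hcast2]
      have hmem : ((n:ℝ) + 1, a) ∈ Ls ((n:ℤ) + 1) ε := (axis_iff n (by linarith) hε).2 ha.le
      by_contra hcon
      have hfr : ((n:ℝ) + 1, a) ∈ frontier (Ls ((n:ℤ) + 1) ε) := by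
        rw [(isClosed_Ls _ _).frontier_eq]
        exact ⟨hmem, by exact_mod_cast hcon⟩
      have hsl : {q : ℝ × ℝ | q ∈ Ls ((n:ℤ) + 1) ε ∧ q.2 = a} ≠ {((n:ℝ) + 1, a)} := by
        intro heq
        apply hn
        apply single_ident hmem
        intro b' hb'
        have : ((b', a) : ℝ × ℝ) ∈ {q : ℝ × ℝ | q ∈ Ls ((n:ℤ) + 1) ε ∧ q.2 = a} := ⟨hb', rfl⟩
        rw [heq] at this
        exact congrArg Prod.fst this
      have h5 := simple_unique hε (by linarith) (by positivity) (n := n) (a := a) (a' := 2 * MM n (ε / 2))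
        ⟨hfr, hsl⟩ (simple_MM n hε)
      linarith

/-- A locally finite unbounded set of positive numbers is the range of an increasing sequence. -/
lemma enum {T : Set ℝ} (hfin : ∀ R, (T ∩ Iic R).Finite) (hunb : ∀ R, ∃ t ∈ T, R < t) :
    ∃ a : ℕ → ℝ, StrictMono a ∧ range a = T ∧ Tendsto a atTop atTop := by
  have hne : ∀ R, ∃ m, m ∈ T ∧ R < m ∧ ∀ t ∈ T, R < t → m ≤ t := by
    intro R
    obtain ⟨t, ht, hRt⟩ := hunb R
    have h1 : (T ∩ Ioc R t).Finite := (hfin t).subset fun x hx => ⟨hx.1, hx.2.2⟩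
    obtain ⟨m, hm1, hm2⟩ := h1.exists_minimal ⟨t, ht, hRt, le_rfl⟩
    refine ⟨m, hm1.1, hm1.2.1, fun x hx hRx => ?_⟩
    rcases le_or_gt x t with h2 | h2
    · rcases le_total m x with h3 | h3
      · exact h3
      · exact hm2 ⟨hx, hRx, h2⟩ h3
    · exact hm1.2.2.trans h2.le
  choose nx hn1 hn2 hn3 using hne
  -- a starting value below everything
  obtain ⟨R0, hR0⟩ : ∃ R0, ∀ t ∈ T, R0 < t := by
    obtain ⟨t, ht, _⟩ := hunb 0
    obtain ⟨b, hb⟩ := (hfin t).bddBelow
    refine ⟨min b t - 1, fun x hx => ?_⟩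
    rcases le_total x t with h2 | h2
    · have := hb ⟨hx, h2⟩
      linarith [min_le_left b t]
    · linarith [min_le_right b t]
  let a : ℕ → ℝ := fun n => Nat.rec (nx R0) (fun _ x => nx x) n
  have ha0 : a 0 = nx R0 := rfl
  have hasucc : ∀ n, a (n + 1) = nx (a n) := fun n => rfl
  have hmono : StrictMono a := strictMono_nat_of_lt_succ fun n => by rw [hasucc]; exact hn2 _
  have hT : ∀ n, a n ∈ T := by
    intro n
    cases n with
    | zero => exact hn1 _
    | succ n => exact hn1 _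
  have htend : Tendsto a atTop atTop := by
    apply tendsto_atTop_atTop_of_monotone hmono.monotone
    intro R
    by_contra hcon
    push Not at hcon
    have h1 : range a ⊆ T ∩ Iic R := by
      rintro _ ⟨n, rfl⟩
      exact ⟨hT n, (hcon n).le⟩
    exact (infinite_range_of_injective hmono.injective) ((hfin R).subset h1)
  refine ⟨a, hmono, ?_, htend⟩
  apply Subset.antisymm
  · rintro _ ⟨n, rfl⟩; exact hT n
  · intro t ht
    classical
    obtain ⟨N, hN⟩ := (htend.eventually_ge_atTop t).exists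
    have hex : ∃ n, t ≤ a n := ⟨N, hN⟩
    obtain ⟨k, h1, hmin⟩ : ∃ k, t ≤ a k ∧ ∀ j < k, ¬ t ≤ a j := by
      obtain ⟨k, hk1, hk2⟩ := Nat.lt_wfRel.wf.has_min {n : ℕ | t ≤ a n} ⟨N, hN⟩
      exact ⟨k, hk1, fun j hj hjt => hk2 j hjt hj⟩
    refine ⟨k, le_antisymm ?_ h1⟩
    rcases Nat.eq_zero_or_pos k with h0 | h0
    · rw [h0, ha0]
      exact hn3 _ t ht (hR0 t ht)
    · obtain ⟨j, hj⟩ : ∃ j, k = j + 1 := ⟨k - 1, by omega⟩
      have h2 : ¬ t ≤ a j := hmin j (by omega)
      push Not at h2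
      rw [hj, hasucc]
      exact hn3 _ t ht h2

lemma idt_fin {l : ℕ} {ε : ℝ} (hε : 0 < ε) (R : ℝ) : ({a : ℝ | 0 < a ∧ Idt l ε a} ∩ Iic R).Finite := by
  by_contra hinf
  have hsub : {a : ℝ | 0 < a ∧ Idt l ε a} ∩ Iic R ⊆ Icc 0 R := fun x hx => ⟨hx.1.1.le, hx.2⟩
  obtain ⟨x, hx, hacc⟩ := Set.Infinite.exists_accPt_of_subset_isCompact hinf isCompact_Icc hsub
  have hclos : x ∈ {a : ℝ | Idt l ε a} := by
    have h1 : x ∈ closure ({a : ℝ | 0 < a ∧ Idt l ε a} ∩ Iic R) := by
      rw [mem_closure_iff_clusterPt]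
      exact hacc.clusterPt
    have h2 : closure ({a : ℝ | 0 < a ∧ Idt l ε a} ∩ Iic R) ⊆ {a : ℝ | Idt l ε a} :=
      (closed_idt l ε).closure_subset_iff.2 fun y hy => hy.1.2
    exact h2 h1
  have hx0 : 0 < x := by
    rcases hx.1.lt_or_eq with h | h
    · exact h
    · exfalso; rw [← h] at hclos; exact not_idt_zero hε hclos
  have h3 := isolated hx0 hε hclos
  rw [accPt_iff_frequently] at hacc
  rw [eventually_nhdsWithin_iff] at h3
  obtain ⟨y, ⟨hy1, hy2⟩, hy3⟩ := (hacc.and_eventually h3).exists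
  exact hy3 hy1 hy2.1.2

theorem idt_enum (l : ℕ) {ε : ℝ} (hε : 0 < ε) : ∃ a : ℕ → ℝ, StrictMono a ∧
    range a = {a : ℝ | 0 < a ∧ Idt l ε a} ∧ Tendsto a atTop atTop := by
  apply enum (fun R => idt_fin hε R)
  intro R
  obtain ⟨th, hth0, -, h2, -⟩ := above l hε
  obtain ⟨⟨a1, h11, h12, h13⟩, ⟨a2, h21, h22, h23⟩⟩ := both_signs (l:ℤ) hε (max R th + 1)
  have hc : Continuous fun a : ℝ => P l a ε (Real.pi / 2) :=
    continuous_P.comp (f := fun a : ℝ => ((l:ℝ), a, ε, Real.pi / 2)) (by fun_prop)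
  push_cast at h13 h23
  obtain ⟨a, ha, ha2⟩ := intermediate_value_uIcc (a := a1) (b := a2) (f := fun a : ℝ => P l a ε (Real.pi / 2))
    hc.continuousOn (show Real.pi / 2 + 2 * Real.pi * l ∈ uIcc _ _ from by
      rw [mem_uIcc]; left; exact ⟨h13.le, h23.le⟩)
  have ha3 : max R th + 1 ≤ a := by
    rw [mem_uIcc] at ha
    rcases ha with ha | ha
    · exact h11.trans ha.1
    · exact h21.trans ha.1
  have h4 : R < a := by linarith [le_max_left R th]
  have h5 : th < a := by linarith [le_max_right R th]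
  exact ⟨a, ⟨by linarith, h2 a h5 ha2⟩, h4⟩

end Pool.Agent.R188.Gar
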