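import Mathlib

set_option autoImplicit false
open Set Filter Topology

namespace Pool.Agent.R188.GarT

/-- The region between two graphs in the upper half plane. -/
def Rg (gm gp : ℝ → ℝ) : Set (ℝ × ℝ) := {p | 0 ≤ p.2 ∧ gm p.2 ≤ p.1 ∧ p.1 ≤ gp p.2}

variable {gm gp : ℝ → ℝ}

/-- parametrization of the slices -/
noncomputable def gam (gm gp : ℝ → ℝ) (q : ℝ × ℝ) : ℝ × ℝ := (gm q.2 + q.1 * (gp q.2 - gm q.2), q.2)

lemma cont_gam (hm : Continuous gm) (hp : Continuous gp) : Continuous (gam gm gp) := by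
  unfold gam; fun_prop

lemma gam_mem (hle : ∀ A, gm A ≤ gp A) {q : ℝ × ℝ} (h0 : 0 ≤ q.1) (h1 : q.1 ≤ 1) (hA : 0 ≤ q.2) :
    gam gm gp q ∈ Rg gm gp := by
  have := hle q.2
  refine ⟨hA, ?_, ?_⟩ <;> simp only [gam] <;> nlinarith

lemma exists_gam {q : ℝ × ℝ} (h : q ∈ Rg gm gp) : ∃ s : ℝ, 0 ≤ s ∧ s ≤ 1 ∧ q = gam gm gp (s, q.2) := by
  obtain ⟨h0, h1, h2⟩ := h
  rcases (h1.trans h2).lt_or_eq with h | h
  · have h3 : 0 < gp q.2 - gm q.2 := by linarith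
    refine ⟨(q.1 - gm q.2) / (gp q.2 - gm q.2), div_nonneg (by linarith) h3.le,
      (div_le_one h3).2 (by linarith), Prod.ext ?_ rfl⟩
    simp only [gam]
    field_simp
    ring
  · refine ⟨0, le_rfl, zero_le_one, Prod.ext ?_ rfl⟩
    simp only [gam]
    linarith

/-- parts of the region over order-connected sets are preconnected -/
lemma part_preconn (hm : Continuous gm) (hp : Continuous gp) (hle : ∀ A, gm A ≤ gp A) {I : Set ℝ}
    (hI : I.OrdConnected) (hI0 : ∀ A ∈ I, 0 ≤ A) : IsPreconnected {p ∈ Rg gm gp | p.2 ∈ I} := by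
  have h1 : {p ∈ Rg gm gp | p.2 ∈ I} = gam gm gp '' (Icc (0:ℝ) 1 ×ˢ I) := by
    ext p
    constructor
    · rintro ⟨h, hA⟩
      obtain ⟨s, hs0, hs1, hs⟩ := exists_gam h
      exact ⟨(s, p.2), ⟨⟨hs0, hs1⟩, hA⟩, hs.symm⟩
    · rintro ⟨q, ⟨⟨h0, h1⟩, hA⟩, rfl⟩
      exact ⟨gam_mem hle h0 h1 (hI0 _ hA), hA⟩
  rw [h1]
  exact (isPreconnected_Icc.prod hI.isPreconnected).image _ (cont_gam hm hp).continuousOn

/-- every point of the region is a limit of points of the region along a curve transverse to the slices -/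
lemma mem_clos (hm : Continuous gm) (hp : Continuous gp) (hle : ∀ A, gm A ≤ gp A) {I : Set ℝ}
    (hI0 : ∀ A ∈ I, 0 ≤ A) {p : ℝ × ℝ} (h : p ∈ Rg gm gp) (hA : p.2 ∈ closure I) :
    p ∈ closure {p ∈ Rg gm gp | p.2 ∈ I} := by
  obtain ⟨s, hs0, hs1, hs⟩ := exists_gam h
  have hc : Continuous fun A : ℝ => gam gm gp (s, A) := (cont_gam hm hp).comp (by fun_prop)
  have h2 := map_mem_closure hc hA (t := {p ∈ Rg gm gp | p.2 ∈ I}) (fun A hA' =>
    ⟨gam_mem hle hs0 hs1 (hI0 _ hA'), hA'⟩)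
  rw [hs]
  exact h2

lemma closed_Rg (hm : Continuous gm) (hp : Continuous gp) : IsClosed (Rg gm gp) := by
  exact (isClosed_le continuous_const continuous_snd).inter
    ((isClosed_le (hm.comp continuous_snd) continuous_fst).inter
      (isClosed_le continuous_fst (hp.comp continuous_snd)))

/-- Cut points of the region off the axis. -/
theorem cut_iff (hm : Continuous gm) (hp : Continuous gp) (hle : ∀ A, gm A ≤ gp A) {p : ℝ × ℝ}
    (h : p ∈ Rg gm gp) (hA : 0 < p.2) : ¬ IsPreconnected (Rg gm gp \ {p}) ↔ gm p.2 = gp p.2 := by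
  constructor
  · intro hnot
    by_contra hne
    apply hnot
    have hlt : gm p.2 < gp p.2 := lt_of_le_of_ne (hle _) hne
    obtain ⟨B, hB1, hB2, hB3⟩ : ∃ B, gm p.2 ≤ B ∧ B ≤ gp p.2 ∧ B ≠ p.1 := by
      by_cases h1 : gm p.2 = p.1
      · exact ⟨gp p.2, hlt.le, le_rfl, by rw [← h1]; exact hlt.ne'⟩
      · exact ⟨gm p.2, le_rfl, hlt.le, h1⟩
    have hU : IsPreconnected {q ∈ Rg gm gp | q.2 ∈ Ioi p.2} :=
      part_preconn hm hp hle ordConnected_Ioi (fun A hA' => by have : p.2 < A := hA'; linarith)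
    have hD : IsPreconnected {q ∈ Rg gm gp | q.2 ∈ Ico 0 p.2} :=
      part_preconn hm hp hle ordConnected_Ico (fun A hA' => hA'.1)
    have hU' : IsPreconnected {q ∈ Rg gm gp \ {p} | p.2 ≤ q.2} := by
      refine hU.subset_closure ?_ ?_
      · rintro q ⟨hq1, hq2⟩
        have hq3 : p.2 < q.2 := hq2
        exact ⟨⟨hq1, fun h' => by rw [mem_singleton_iff.1 h'] at hq3; exact lt_irrefl _ hq3⟩, hq3.le⟩
      · rintro q ⟨⟨hq1, -⟩, hq2⟩
        apply mem_clos hm hp hle (fun A hA' => by have : p.2 < A := hA'; linarith) hq1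
        rw [closure_Ioi]
        exact hq2
    have hD' : IsPreconnected {q ∈ Rg gm gp \ {p} | q.2 ≤ p.2} := by
      refine hD.subset_closure ?_ ?_
      · rintro q ⟨hq1, hq2⟩
        have hq3 : q.2 < p.2 := hq2.2
        exact ⟨⟨hq1, fun h' => by rw [mem_singleton_iff.1 h'] at hq3; exact lt_irrefl _ hq3⟩, hq3.le⟩
      · rintro q ⟨⟨hq1, -⟩, hq2⟩
        apply mem_clos hm hp hle (fun A hA' => hA'.1) hq1
        rw [closure_Ico hA.ne]
        exact ⟨hq1.1, hq2⟩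
    have hq : ((B, p.2) : ℝ × ℝ) ∈ Rg gm gp \ {p} := ⟨⟨h.1, hB1, hB2⟩, fun h' => hB3 (congrArg Prod.fst (mem_singleton_iff.1 h'))⟩
    have hun := IsPreconnected.union (B, p.2) (s := {q ∈ Rg gm gp \ {p} | p.2 ≤ q.2})
      (t := {q ∈ Rg gm gp \ {p} | q.2 ≤ p.2}) ⟨hq, le_rfl⟩ ⟨hq, le_rfl⟩ hU' hD'
    convert hun using 1
    ext q
    constructor
    · intro h'
      rcases le_total p.2 q.2 with h1 | h1
      · exact Or.inl ⟨h', h1⟩
      · exact Or.inr ⟨h', h1⟩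
    · rintro (h' | h') <;> exact h'.1
  · intro heq hpre
    have h1 : (Prod.snd '' (Rg gm gp \ {p}) : Set ℝ).OrdConnected :=
      (hpre.image _ continuous_snd.continuousOn).ordConnected
    have hlo : (p.2 / 2) ∈ Prod.snd '' (Rg gm gp \ {p}) :=
      ⟨(gm (p.2 / 2), p.2 / 2), ⟨⟨by simp only; linarith, le_rfl, hle _⟩, fun h' => by
        have := congrArg Prod.snd (mem_singleton_iff.1 h')
        simp only at this
        linarith⟩, rfl⟩
    have hhi : (p.2 + 1) ∈ Prod.snd '' (Rg gm gp \ {p}) :=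
      ⟨(gm (p.2 + 1), p.2 + 1), ⟨⟨by simp only; linarith, le_rfl, hle _⟩, fun h' => by
        have := congrArg Prod.snd (mem_singleton_iff.1 h')
        simp only at this
        linarith⟩, rfl⟩
    obtain ⟨q, ⟨hq1, hq2⟩, hq3⟩ := h1.out hlo hhi
      (show p.2 ∈ Icc (p.2 / 2) (p.2 + 1) from ⟨by linarith, by linarith⟩)
    apply hq2
    rw [mem_singleton_iff]
    have h2 := hq1.2
    have h3 := h.2
    rw [hq3, ← heq] at h2
    rw [← heq] at h3
    exact Prod.ext (by linarith [h2.1, h2.2, h3.1, h3.2]) hq3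

/-- The `k`-th piece. -/
def Cp (gm gp : ℝ → ℝ) (a : ℕ → ℝ) (k : ℕ) : Set (ℝ × ℝ) :=
  {p ∈ Rg gm gp | (∀ j < k, a j < p.2) ∧ p.2 < a k}

lemma Cp_zero (a : ℕ → ℝ) : Cp gm gp a 0 = {p ∈ Rg gm gp | p.2 ∈ Ico 0 (a 0)} := by
  ext p
  simp only [Cp, mem_ofPred_eq, mem_Ico]
  constructor
  · rintro ⟨h1, -, h2⟩; exact ⟨h1, h1.1, h2⟩
  · rintro ⟨h1, -, h2⟩; exact ⟨h1, by simp, h2⟩

lemma Cp_succ {a : ℕ → ℝ} (ha : StrictMono a) (k : ℕ) :
    Cp gm gp a (k + 1) = {p ∈ Rg gm gp | p.2 ∈ Ioo (a k) (a (k + 1))} := by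
  ext p
  simp only [Cp, mem_ofPred_eq, mem_Ioo]
  constructor
  · rintro ⟨h1, h3, h2⟩; exact ⟨h1, h3 k (Nat.lt_succ_self k), h2⟩
  · rintro ⟨h1, h3, h2⟩
    exact ⟨h1, fun j hj => lt_of_le_of_lt (ha.monotone (Nat.lt_succ_iff.1 hj)) h3, h2⟩

/-- Structure of each piece. -/
theorem pieces (hm : Continuous gm) (hp : Continuous gp) (hle : ∀ A, gm A ≤ gp A) {a : ℕ → ℝ}
    (ha : StrictMono a) (ha0 : 0 < a 0) (hdeg : ∀ A, 0 < A → (gm A = gp A ↔ ∃ k, A = a k)) (k : ℕ) :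
    IsConnected (Cp gm gp a k) ∧ Bornology.IsBounded (Cp gm gp a k) ∧
    IsConnected (interior (Cp gm gp a k)) ∧ Cp gm gp a k ⊆ closure (interior (Cp gm gp a k)) := by
  have hpos : ∀ k, 0 < a k := fun k => lt_of_lt_of_le ha0 (ha.monotone (Nat.zero_le k))
  obtain ⟨lo, hi, I, hlo0, hlohi, hI, hIoc, hIlo, hIhi, hC, hJ⟩ : ∃ (lo hi : ℝ) (I : Set ℝ), 0 ≤ lo ∧ lo < hi ∧
      Ioo lo hi ⊆ I ∧ I.OrdConnected ∧ I ⊆ Icc lo hi ∧ (∀ A ∈ I, 0 ≤ A) ∧
      Cp gm gp a k = {p ∈ Rg gm gp | p.2 ∈ I} ∧ ∀ A ∈ Ioo lo hi, ∀ j, A ≠ a j := by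
    rcases k with _ | k
    · refine ⟨0, a 0, Ico 0 (a 0), le_rfl, ha0, Ioo_subset_Ico_self, ordConnected_Ico, Ico_subset_Icc_self,
        fun A hA => hA.1, Cp_zero a, ?_⟩
      rintro A ⟨-, hA⟩ j rfl
      exact absurd (ha.monotone (Nat.zero_le j)) (not_le.2 hA)
    · refine ⟨a k, a (k + 1), Ioo (a k) (a (k + 1)), (hpos k).le, ha (Nat.lt_succ_self k), le_rfl,
        ordConnected_Ioo, Ioo_subset_Icc_self, fun A hA => (hpos k).le.trans hA.1.le, Cp_succ ha k, ?_⟩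
      rintro A ⟨hA1, hA2⟩ j rfl
      have h1 := ha.lt_iff_lt.1 hA1
      have h2 := ha.lt_iff_lt.1 hA2
      omega
  rw [hC]
  set O : Set (ℝ × ℝ) := {p | lo < p.2 ∧ p.2 < hi ∧ gm p.2 < p.1 ∧ p.1 < gp p.2} with hO
  have hOo : IsOpen O := by
    exact (isOpen_lt continuous_const continuous_snd).inter ((isOpen_lt continuous_snd continuous_const).inter
      ((isOpen_lt (hm.comp continuous_snd) continuous_fst).inter
      (isOpen_lt continuous_fst (hp.comp continuous_snd))))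
  have hlt : ∀ A ∈ Ioo lo hi, gm A < gp A := by
    intro A hA
    refine lt_of_le_of_ne (hle A) fun h => ?_
    obtain ⟨j, hj⟩ := (hdeg A (lt_of_le_of_lt hlo0 hA.1)).1 h
    exact hJ A hA j hj
  have hOC : O ⊆ {p ∈ Rg gm gp | p.2 ∈ I} := by
    rintro p ⟨h1, h2, h3, h4⟩
    exact ⟨⟨hlo0.trans h1.le, h3.le, h4.le⟩, hI ⟨h1, h2⟩⟩
  have hOim : O = gam gm gp '' (Ioo (0:ℝ) 1 ×ˢ Ioo lo hi) := by
    ext p
    constructor
    · rintro ⟨h1, h2, h3, h4⟩
      have h5 : 0 < gp p.2 - gm p.2 := by linarith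
      refine ⟨((p.1 - gm p.2) / (gp p.2 - gm p.2), p.2), ⟨⟨div_pos (by linarith) h5,
        (div_lt_one h5).2 (by linarith)⟩, h1, h2⟩, Prod.ext ?_ rfl⟩
      simp only [gam]
      field_simp
      ring
    · rintro ⟨q, ⟨⟨h0, h1⟩, hA⟩, rfl⟩
      have h5 := hlt _ hA
      refine ⟨hA.1, hA.2, ?_, ?_⟩ <;> simp only [gam] <;> nlinarith
  have hOcon : IsConnected O := by
    rw [hOim]
    refine IsConnected.image ?_ _ (cont_gam hm hp).continuousOn
    exact (isConnected_Ioo one_pos).prod (isConnected_Ioo hlohi)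
  have hclO : {p ∈ Rg gm gp | p.2 ∈ I} ⊆ closure O := by
    rintro p ⟨h1, h2⟩
    obtain ⟨s, hs0, hs1, hs⟩ := exists_gam h1
    have h3 : ((s, p.2) : ℝ × ℝ) ∈ closure (Ioo (0:ℝ) 1 ×ˢ Ioo lo hi) := by
      rw [closure_prod_eq, closure_Ioo one_ne_zero.symm, closure_Ioo hlohi.ne]
      exact ⟨⟨hs0, hs1⟩, hIlo h2⟩
    have h4 := map_mem_closure (cont_gam hm hp) h3 (t := O) (fun q hq => by
      rw [hOim]; exact ⟨q, hq, rfl⟩)
    rw [hs]; exact h4
  have hOint : O ⊆ interior {p ∈ Rg gm gp | p.2 ∈ I} := interior_maximal hOC hOo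
  refine ⟨?_, ?_, ?_, ?_⟩
  · exact ⟨hOcon.nonempty.mono hOC, part_preconn hm hp hle hIoc hIhi⟩
  · have h1 : {p ∈ Rg gm gp | p.2 ∈ I} ⊆ gam gm gp '' (Icc (0:ℝ) 1 ×ˢ Icc lo hi) := by
      rintro p ⟨h1, h2⟩
      obtain ⟨s, hs0, hs1, hs⟩ := exists_gam h1
      exact ⟨(s, p.2), ⟨⟨hs0, hs1⟩, hIlo h2⟩, hs.symm⟩
    exact ((isCompact_Icc.prod isCompact_Icc).image (cont_gam hm hp)).isBounded.subset h1
  · exact ⟨hOcon.nonempty.mono hOint, hOcon.2.subset_closure hOint (interior_subset.trans hclO)⟩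
  · exact hclO.trans (closure_mono hOint)

/-- The pieces are the connected components after removal of the points at the heights `a k`. -/
theorem comps (hm : Continuous gm) (hp : Continuous gp) (hle : ∀ A, gm A ≤ gp A) {a : ℕ → ℝ}
    (ha : StrictMono a) (ha0 : 0 < a 0) (hinf : Tendsto a atTop atTop)
    (hdeg : ∀ A, 0 < A → (gm A = gp A ↔ ∃ k, A = a k)) :
    {p ∈ Rg gm gp | ∀ j, p.2 ≠ a j} = ⋃ k, Cp gm gp a k ∧
    ∀ k, ∀ p ∈ Cp gm gp a k,
      connectedComponentIn {p ∈ Rg gm gp | ∀ j, p.2 ≠ a j} p = Cp gm gp a k := by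
  have hsub : ∀ k, Cp gm gp a k ⊆ {p ∈ Rg gm gp | ∀ j, p.2 ≠ a j} := by
    rintro k p ⟨h1, h2, h3⟩
    refine ⟨h1, fun j hj => ?_⟩
    rcases lt_or_ge j k with h | h
    · exact absurd hj (h2 j h).ne'
    · exact absurd (ha.monotone h) (not_le.2 (hj ▸ h3))
  have h1 : {p ∈ Rg gm gp | ∀ j, p.2 ≠ a j} = ⋃ k, Cp gm gp a k := by
    apply Subset.antisymm
    · rintro p ⟨h1, h2⟩
      obtain ⟨N, hN⟩ := (hinf.eventually_gt_atTop p.2).exists
      obtain ⟨k, hk1, hk2⟩ := Nat.lt_wfRel.wf.has_min {n : ℕ | p.2 < a n} ⟨N, hN⟩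
      refine mem_iUnion.2 ⟨k, h1, fun j hj => ?_, hk1⟩
      have h3 : ¬ p.2 < a j := fun h => hk2 j h hj
      exact lt_of_le_of_ne (not_lt.1 h3) (Ne.symm (h2 j))
    · exact iUnion_subset hsub
  refine ⟨h1, fun k p hpk => ?_⟩
  apply Subset.antisymm
  · intro q hq
    have hpF := hsub k hpk
    have hqF : q ∈ {p ∈ Rg gm gp | ∀ j, p.2 ≠ a j} := connectedComponentIn_subset _ _ hq
    have hoc : (Prod.snd '' (connectedComponentIn {p ∈ Rg gm gp | ∀ j, p.2 ≠ a j} p) : Set ℝ).OrdConnected :=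
      (isPreconnected_connectedComponentIn.image _ continuous_snd.continuousOn).ordConnected
    have hp' : p.2 ∈ Prod.snd '' (connectedComponentIn {p ∈ Rg gm gp | ∀ j, p.2 ≠ a j} p) :=
      ⟨p, mem_connectedComponentIn hpF, rfl⟩
    have hq' : q.2 ∈ Prod.snd '' (connectedComponentIn {p ∈ Rg gm gp | ∀ j, p.2 ≠ a j} p) := ⟨q, hq, rfl⟩
    have hno : ∀ j, a j ∉ Prod.snd '' (connectedComponentIn {p ∈ Rg gm gp | ∀ j, p.2 ≠ a j} p) := by
      rintro j ⟨x, hx, hxj⟩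
      exact (connectedComponentIn_subset _ _ hx).2 j hxj
    refine ⟨hqF.1, fun j hj => ?_, ?_⟩
    · by_contra hcon
      exact hno j (hoc.out hq' hp' ⟨not_lt.1 hcon, (hpk.2.1 j hj).le⟩)
    · by_contra hcon
      exact hno k (hoc.out hp' hq' ⟨hpk.2.2.le, not_lt.1 hcon⟩)
  · exact (pieces hm hp hle ha ha0 hdeg k).1.2.subset_connectedComponentIn hpk (hsub k)

/-- Consecutive pieces touch at one point. -/
theorem touch (hm : Continuous gm) (hp : Continuous gp) (hle : ∀ A, gm A ≤ gp A) {a : ℕ → ℝ}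
    (ha : StrictMono a) (ha0 : 0 < a 0) {c : ℝ} (hc : ∀ k, gm (a k) = c ∧ gp (a k) = c) (k : ℕ) :
    closure (Cp gm gp a k) ∩ closure (Cp gm gp a (k + 1)) = {(c, a k)} := by
  have hpos : ∀ k, 0 < a k := fun k => lt_of_lt_of_le ha0 (ha.monotone (Nat.zero_le k))
  have hmem : ((c, a k) : ℝ × ℝ) ∈ Rg gm gp := ⟨(hpos k).le, (hc k).1.le, (hc k).2.ge⟩
  apply Subset.antisymm
  · rintro p ⟨h1, h2⟩
    have h3 : p ∈ {p ∈ Rg gm gp | p.2 ≤ a k} := by
      have hcl : IsClosed {p ∈ Rg gm gp | p.2 ≤ a k} :=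
        (closed_Rg hm hp).inter (isClosed_le continuous_snd continuous_const)
      exact hcl.closure_subset_iff.2 (fun q hq => ⟨hq.1, hq.2.2.le⟩) h1
    have h4 : p ∈ {p ∈ Rg gm gp | a k ≤ p.2} := by
      have hcl : IsClosed {p ∈ Rg gm gp | a k ≤ p.2} :=
        (closed_Rg hm hp).inter (isClosed_le continuous_const continuous_snd)
      exact hcl.closure_subset_iff.2 (fun q hq => ⟨hq.1, (hq.2.1 k (Nat.lt_succ_self k)).le⟩) h2
    have h5 : p.2 = a k := le_antisymm h3.2 h4.2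
    have h6 := h3.1.2
    rw [h5, (hc k).1, (hc k).2] at h6
    rw [mem_singleton_iff]
    exact Prod.ext (le_antisymm h6.2 h6.1) h5
  · rw [singleton_subset_iff]
    constructor
    · rcases k with _ | k
      · rw [Cp_zero]
        apply mem_clos hm hp hle (fun A hA => hA.1) hmem
        rw [closure_Ico ha0.ne]
        exact ⟨ha0.le, le_rfl⟩
      · rw [Cp_succ ha]
        apply mem_clos hm hp hle (fun A hA => (hpos k).le.trans hA.1.le) hmem
        rw [closure_Ioo (ha (Nat.lt_succ_self k)).ne]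
        exact ⟨(ha (Nat.lt_succ_self k)).le, le_rfl⟩
    · rw [Cp_succ ha]
      apply mem_clos hm hp hle (fun A hA => (hpos k).le.trans hA.1.le) hmem
      rw [closure_Ioo (ha (Nat.lt_succ_self k)).ne]
      exact ⟨le_rfl, (ha (Nat.lt_succ_self k)).le⟩

end Pool.Agent.R188.GarT
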