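import Pool.Agent.R188.Gar2
import Pool.Agent.R188.Gar3
import Pool.Agent.H535R3.KI

set_option autoImplicit false
open Set Filter Topology

namespace Pool.Agent.R188.Gar
open H535R3

/-! ### Slices -/

lemma slice_nonempty (r : ℤ) {ε : ℝ} (hε : 0 < ε) (a : ℝ) :
    ∃ b, (b, a) ∈ Ls r ε ∧ (r:ℝ) - ε ≤ b ∧ b ≤ r + ε := by
  have hc : Continuous fun b : ℝ => P b a ε 0 :=
    continuous_P.comp (f := fun b : ℝ => (b, a, ε, (0:ℝ))) (by fun_prop)
  have hpi := Real.pi_pos
  have bd : ∀ b : ℝ, |P b a ε 0 - 2 * Real.pi * b| ≤ 2 * Real.pi * ε := by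
    intro b
    have hs := fl_sol b a ε 0
    have hd : ∀ t : ℝ, HasDerivAt (fun t => fl b a ε 0 t - b * t - a * Real.sin t)
        (-(ε * Real.sin (fl b a ε 0 t))) t := by
      intro t
      refine (((hs t).sub ((hasDerivAt_id t).const_mul b)).sub ((Real.hasDerivAt_sin t).const_mul a)).congr_deriv ?_
      ring
    have h1 := Convex.norm_image_sub_le_of_norm_hasDerivWithin_le
      (f := fun t => fl b a ε 0 t - b * t - a * Real.sin t) (s := univ) (x := 0) (y := 2 * Real.pi) (C := ε)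
      (fun x _ => (hd x).hasDerivWithinAt) (fun x _ => by
        rw [Real.norm_eq_abs, abs_neg, abs_mul, abs_of_pos hε]
        have := Real.abs_sin_le_one (fl b a ε 0 x)
        nlinarith) convex_univ trivial trivial
    rw [Real.norm_eq_abs, Real.norm_eq_abs, Real.sin_two_pi, Real.sin_zero, fl_zero, sub_zero,
      abs_of_pos (show 0 < 2 * Real.pi by positivity)] at h1
    rw [P]
    have e : fl b a ε 0 (2 * Real.pi) - 2 * Real.pi * b =
      fl b a ε 0 (2 * Real.pi) - b * (2 * Real.pi) - a * 0 - (0 - b * 0 - a * 0) := by ring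
    rw [e]
    linarith
  have h1 := bd (r - ε)
  have h2 := bd (r + ε)
  rw [abs_le] at h1 h2
  obtain ⟨b, hb, hb2⟩ := intermediate_value_Icc (a := (r:ℝ) - ε) (b := r + ε) (by linarith)
    (f := fun b : ℝ => P b a ε 0) hc.continuousOn (show 2 * Real.pi * r ∈ Icc _ _ from
      ⟨by linarith [h1.2], by linarith [h2.1]⟩)
  exact ⟨b, ⟨0, by simp only at hb2 ⊢; linarith⟩, hb.1, hb.2⟩

lemma slice_conv {r : ℤ} {ε a b1 b2 b : ℝ} (h1 : (b1, a) ∈ Ls r ε) (h2 : (b2, a) ∈ Ls r ε)
    (hb1 : b1 ≤ b) (hb2 : b ≤ b2) : (b, a) ∈ Ls r ε := by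
  obtain ⟨x1, hx1⟩ := h1
  obtain ⟨x2, hx2⟩ := h2
  have h3 := P_le_of_b (a := a) (ε := ε) (x := x1) hb1
  have h4 := P_le_of_b (a := a) (ε := ε) (x := x2) hb2
  simp only at hx1 hx2
  exact mem_Ls_of (u := x1) (v := x2) (by simp only; linarith) (by simp only; linarith)

/-- The boundary functions of a phase-lock area exist and are continuous. -/
theorem bdry (r : ℤ) {ε : ℝ} (hε : 0 < ε) : ∃ gm gp : ℝ → ℝ, Continuous gm ∧ Continuous gp ∧
    (∀ a, gm a ≤ gp a) ∧ ∀ b a, (b, a) ∈ Ls r ε ↔ gm a ≤ b ∧ b ≤ gp a := by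
  have hcl : ∀ a, IsClosed {b : ℝ | (b, a) ∈ Ls r ε} := fun a =>
    (isClosed_Ls r ε).preimage (by fun_prop : Continuous fun b : ℝ => (b, a))
  have hbd : ∀ b a, (b, a) ∈ Ls r ε → (r:ℝ) - ε ≤ b ∧ b ≤ r + ε := by
    rintro b a ⟨x, hx⟩
    have hs := fl_sol b a ε x
    have hd : ∀ t : ℝ, HasDerivAt (fun t => fl b a ε x t - b * t - a * Real.sin t)
        (-(ε * Real.sin (fl b a ε x t))) t := by
      intro t
      refine (((hs t).sub ((hasDerivAt_id t).const_mul b)).sub ((Real.hasDerivAt_sin t).const_mul a)).congr_deriv ?_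
      ring
    have h1 := Convex.norm_image_sub_le_of_norm_hasDerivWithin_le
      (f := fun t => fl b a ε x t - b * t - a * Real.sin t) (s := univ) (x := 0) (y := 2 * Real.pi) (C := ε)
      (fun x _ => (hd x).hasDerivWithinAt) (fun y _ => by
        rw [Real.norm_eq_abs, abs_neg, abs_mul, abs_of_pos hε]
        have := Real.abs_sin_le_one (fl b a ε x y)
        nlinarith) convex_univ trivial trivial
    rw [Real.norm_eq_abs, Real.norm_eq_abs, Real.sin_two_pi, Real.sin_zero, fl_zero, sub_zero,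
      abs_of_pos (show 0 < 2 * Real.pi by positivity)] at h1
    simp only [P] at hx
    rw [hx, abs_le] at h1
    have hpi := Real.pi_pos
    constructor <;> nlinarith [h1.1, h1.2]
  choose b0 hb0 _ _ using fun a => slice_nonempty r hε a
  have hb : ∀ a, BddBelow {b : ℝ | (b, a) ∈ Ls r ε} := fun a => ⟨r - ε, fun b hb => (hbd b a hb).1⟩
  have hb' : ∀ a, BddAbove {b : ℝ | (b, a) ∈ Ls r ε} := fun a => ⟨r + ε, fun b hb => (hbd b a hb).2⟩
  have hne : ∀ a, {b : ℝ | (b, a) ∈ Ls r ε}.Nonempty := fun a => ⟨b0 a, hb0 a⟩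
  set gm : ℝ → ℝ := fun a => sInf {b : ℝ | (b, a) ∈ Ls r ε} with hgm
  set gp : ℝ → ℝ := fun a => sSup {b : ℝ | (b, a) ∈ Ls r ε} with hgp
  have m1 : ∀ a, (gm a, a) ∈ Ls r ε := fun a => (hcl a).csInf_mem (hne a) (hb a)
  have m2 : ∀ a, (gp a, a) ∈ Ls r ε := fun a => (hcl a).csSup_mem (hne a) (hb' a)
  have i1 : ∀ b a, (b, a) ∈ Ls r ε → gm a ≤ b := fun b a h => csInf_le (hb a) h
  have i2 : ∀ b a, (b, a) ∈ Ls r ε → b ≤ gp a := fun b a h => le_csSup (hb' a) h
  have iff' : ∀ b a, (b, a) ∈ Ls r ε ↔ gm a ≤ b ∧ b ≤ gp a := fun b a =>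
    ⟨fun h => ⟨i1 b a h, i2 b a h⟩, fun h => slice_conv (m1 a) (m2 a) h.1 h.2⟩
  -- Lipschitz bounds
  have cb : ∀ a x, Continuous fun b : ℝ => P b a ε x := fun a x =>
    continuous_P.comp (f := fun b : ℝ => (b, a, ε, x)) (by fun_prop)
  have upper : ∀ a x, x + 2 * Real.pi * r ≤ P (gp a) a ε x := by
    intro a x
    refine ge_of_tendsto ((cb a x).continuousAt.tendsto.mono_left (nhdsWithin_le_nhds (s := Ioi (gp a)))) ?_
    filter_upwards [self_mem_nhdsWithin] with b hb
    have hb' : gp a < b := hb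
    exact (right_of (m2 a) hb' (fun h => absurd (i2 b a h) (not_le.2 hb')) x).le
  have lower : ∀ a x, P (gm a) a ε x ≤ x + 2 * Real.pi * r := by
    intro a x
    refine le_of_tendsto ((cb a x).continuousAt.tendsto.mono_left (nhdsWithin_le_nhds (s := Iio (gm a)))) ?_
    filter_upwards [self_mem_nhdsWithin] with b hb
    have hb' : b < gm a := hb
    exact (left_of (m1 a) hb' (fun h => absurd (i1 b a h) (not_le.2 hb')) x).le
  have l2 : ∀ a' a, gp a' ≤ gp a + dist a' a := by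
    intro a' a
    by_contra hcon
    push Not at hcon
    obtain ⟨x, hx⟩ := m2 a'
    simp only at hx
    have h1 := P_le_of_force (b := gp a) (b' := gp a + dist a' a) (a := a') (a' := a) (ε := ε) (x := x)
      (by rw [Real.dist_eq, abs_sub_comm])
    have h2 := P_lt_of_b (a := a') (ε := ε) (x := x) hcon
    linarith [upper a x]
  have l1 : ∀ a' a, gm a' ≤ gm a + dist a' a := by
    intro a' a
    by_contra hcon
    push Not at hcon
    obtain ⟨x, hx⟩ := m1 a
    simp only at hx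
    have h1 := P_le_of_force (b := gm a) (b' := gm a + dist a' a) (a := a') (a' := a) (ε := ε) (x := x)
      (by rw [Real.dist_eq, abs_sub_comm])
    have h2 := P_lt_of_b (a := a') (ε := ε) (x := x) hcon
    linarith [lower a' x]
  exact ⟨gm, gp, (LipschitzWith.of_le_add l1).continuous, (LipschitzWith.of_le_add l2).continuous,
    fun a => i1 _ _ (m2 a), iff'⟩

/-! ### Heights with one-point slices -/

/-- The slice of the phase-lock area at height `a` is one point. -/
def Sing (r : ℤ) (ε a : ℝ) : Prop := ∃ b, ∀ b', (b', a) ∈ Ls r ε ↔ b' = b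

lemma sing_neg {r : ℤ} {ε a : ℝ} (h : Sing r ε a) : Sing (-r) ε a := by
  obtain ⟨b, hb⟩ := h
  refine ⟨-b, fun b' => ⟨fun h => ?_, fun h => ?_⟩⟩
  · have h1 := Ls_neg h
    rw [neg_neg] at h1
    linarith [(hb _).1 h1]
  · rw [h]
    exact Ls_neg ((hb b).2 rfl)

lemma sing_iff_idt (l : ℕ) {ε a : ℝ} (hε : 0 < ε) (ha : 0 < a) : Sing l ε a ↔ Idt l ε a := by
  constructor
  · rintro ⟨b, hb⟩
    have h1 := (hb b).2 rfl
    have h2 := Jo.axis_of_single hε ha h1 (fun b' h => (hb b').1 h)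
    have h3 := single_ident h1 (fun b' h => (hb b').1 h)
    intro x
    have := h3 x
    rwa [h2] at this
  · intro h
    refine ⟨((l:ℤ):ℝ), fun b' => ⟨fun h1 => ?_, fun h1 => ?_⟩⟩
    · by_contra hbb
      rcases lt_or_gt_of_ne hbb with h3 | h3
      · exact not_mem_of_gt h3 (fun x => (h x).le) h1
      · exact not_mem_of_lt h3 (fun x => (h x).ge) h1
    · rw [h1]; exact ⟨0, h 0⟩

theorem sing_enum (r : ℤ) {ε : ℝ} (hε : 0 < ε) : ∃ a : ℕ → ℝ, StrictMono a ∧
    range a = {a : ℝ | 0 < a ∧ Sing r ε a} ∧ Tendsto a atTop atTop := by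
  have key : ∀ l : ℕ, ∃ a : ℕ → ℝ, StrictMono a ∧
      range a = {a : ℝ | 0 < a ∧ Sing l ε a} ∧ Tendsto a atTop atTop := by
    intro l
    obtain ⟨a, h1, h2, h3⟩ := idt_enum l hε
    refine ⟨a, h1, ?_, h3⟩
    rw [h2]
    ext x
    exact and_congr_right fun hx => (sing_iff_idt l hε hx).symm
  rcases le_total 0 r with h | h
  · obtain ⟨l, rfl⟩ : ∃ l : ℕ, r = l := ⟨r.toNat, by omega⟩
    exact key l
  · obtain ⟨l, hl⟩ : ∃ l : ℕ, -r = l := ⟨(-r).toNat, by omega⟩
    obtain ⟨a, h1, h2, h3⟩ := key l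
    refine ⟨a, h1, ?_, h3⟩
    rw [h2, ← hl]
    ext x
    refine and_congr_right fun hx => ⟨fun h => ?_, fun h => sing_neg h⟩
    have := sing_neg h
    rwa [neg_neg] at this

/-- Above the first one-point slice the axis lies in the interior, except at the one-point slices. -/
theorem axis_interior (r : ℤ) {ε : ℝ} (hε : 0 < ε) {a₀ a : ℝ} (ha₀ : 0 < a₀) (h : Sing r ε a₀) (haa : a₀ < a)
    (hn : ¬ Sing r ε a) : ((r:ℝ), a) ∈ interior (Ls r ε) := by
  have key : ∀ l : ℕ, Sing l ε a₀ → ¬ Sing l ε a → ((l:ℝ), a) ∈ interior (Ls l ε) := by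
    intro l h hn
    rw [sing_iff_idt l hε ha₀] at h
    rw [sing_iff_idt l hε (ha₀.trans haa)] at hn
    obtain ⟨th, -, h1, -, h3⟩ := above l hε
    exact h3 a ((h1 a₀ ha₀ h).trans haa) hn
  rcases le_total 0 r with hr | hr
  · obtain ⟨l, rfl⟩ : ∃ l : ℕ, r = l := ⟨r.toNat, by omega⟩
    exact_mod_cast key l h hn
  · obtain ⟨l, hl⟩ : ∃ l : ℕ, -r = l := ⟨(-r).toNat, by omega⟩
    have h1 := key l (hl ▸ sing_neg h) (fun h' => hn (by
      rw [← hl] at h'
      have := sing_neg h'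
      rwa [neg_neg] at this))
    rw [mem_interior_iff_mem_nhds] at h1 ⊢
    have hc : Continuous fun p : ℝ × ℝ => (-p.1, p.2) := by fun_prop
    have h2 : ((fun p : ℝ × ℝ => (-p.1, p.2)) ((r:ℝ), a)) = ((l:ℝ), a) := by
      have : ((-r : ℤ) : ℝ) = ((l:ℤ):ℝ) := by rw [hl]
      push_cast at this
      simp [this]
    have h3 := hc.continuousAt.preimage_mem_nhds (x := ((r:ℝ), a)) (t := Ls l ε) (by
      change Ls l ε ∈ 𝓝 ((fun p : ℝ × ℝ => (-p.1, p.2)) ((r:ℝ), a))
      rw [h2]; exact h1)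
    refine Filter.mem_of_superset h3 ?_
    intro p hp
    have h4 := Ls_neg (r := l) (b := -p.1) (a := p.2) hp
    rw [neg_neg, ← hl, neg_neg] at h4
    exact h4

/-! ### Discrete-time rotation number -/

lemma fixed_of_disc {r : ℤ} {b a ε : ℝ} {φ : ℝ → ℝ} (hφ : Sol b a ε φ)
    (hlim : Tendsto (fun k : ℕ => φ (2 * Real.pi * k) / (2 * Real.pi * k)) atTop (𝓝 (r:ℝ))) :
    ∃ x, P b a ε x = x + 2 * Real.pi * r := by
  by_contra hno
  push Not at hno
  have hc : Continuous fun x => P b a ε x - x - 2 * Real.pi * r :=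
    ((continuous_Px b a ε).sub continuous_id).sub continuous_const
  have hper : ∀ x (m : ℤ), P b a ε (x + 2 * Real.pi * m) - (x + 2 * Real.pi * m) - 2 * Real.pi * r
      = P b a ε x - x - 2 * Real.pi * r := by
    intro x m; rw [P_add]; ring
  have hsign : (∀ x, 0 < P b a ε x - x - 2 * Real.pi * r) ∨
      (∀ x, 0 < -(P b a ε x - x - 2 * Real.pi * r)) := by
    by_contra hcon
    push Not at hcon
    obtain ⟨⟨u, hu⟩, ⟨v, hv⟩⟩ := hcon
    obtain ⟨w, hw⟩ := mem_range_of_exists_le_of_exists_ge hc (c := 0) ⟨u, hu⟩ ⟨v, by linarith⟩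
    exact hno w (by simp only at hw; linarith)
  have hpi := Real.two_pi_pos
  have h0 : Tendsto (fun k : ℕ => φ 0 / (2 * Real.pi * k)) atTop (𝓝 0) := by
    apply tendsto_const_nhds.div_atTop
    exact tendsto_natCast_atTop_atTop.const_mul_atTop hpi
  have hlim2 := hlim.sub h0
  rw [sub_zero] at hlim2
  rcases hsign with hs | hs
  · obtain ⟨c, hc0, hcl⟩ := exists_pos_lower hc hs hper (fl_sol b a ε 0)
    have hge : ∀ n : ℕ, φ 0 + (n : ℝ) * (2 * Real.pi * r + c) ≤ φ (2 * Real.pi * n) := by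
      intro n
      induction n with
      | zero => simp
      | succ n ih =>
        have h1 := hφ.iter n
        have h2 := hcl (φ (2 * Real.pi * n))
        push_cast
        rw [h1]
        linarith
    have h3 : (r : ℝ) + c / (2 * Real.pi) ≤ r := by
      refine ge_of_tendsto hlim2 ?_
      filter_upwards [eventually_gt_atTop 0] with n hn
      have hn' : (0:ℝ) < n := by exact_mod_cast hn
      rw [← sub_div, le_div_iff₀ (by positivity)]
      have e : ((r:ℝ) + c / (2 * Real.pi)) * (2 * Real.pi * n) = n * (2 * Real.pi * r + c) := by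
        field_simp
      rw [e]
      linarith [hge n]
    have : 0 < c / (2 * Real.pi) := by positivity
    linarith
  · obtain ⟨c, hc0, hcl⟩ := exists_pos_lower hc.neg hs (fun x m => by rw [Pi.neg_apply, Pi.neg_apply, hper]) (fl_sol b a ε 0)
    have hge : ∀ n : ℕ, φ (2 * Real.pi * n) ≤ φ 0 + (n : ℝ) * (2 * Real.pi * r - c) := by
      intro n
      induction n with
      | zero => simp
      | succ n ih =>
        have h1 := hφ.iter n
        have h2 := hcl (φ (2 * Real.pi * n))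
        rw [Pi.neg_apply] at h2
        push_cast
        rw [h1]
        linarith
    have h3 : (r : ℝ) ≤ r - c / (2 * Real.pi) := by
      refine le_of_tendsto hlim2 ?_
      filter_upwards [eventually_gt_atTop 0] with n hn
      have hn' : (0:ℝ) < n := by exact_mod_cast hn
      rw [← sub_div, div_le_iff₀ (by positivity)]
      have e : ((r:ℝ) - c / (2 * Real.pi)) * (2 * Real.pi * n) = n * (2 * Real.pi * r - c) := by
        field_simp
      rw [e]
      linarith [hge n]
    have : 0 < c / (2 * Real.pi) := by positivity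
    linarith

/-- The phase-lock area defined through one solution, observed at the times `2πk`. -/
lemma mem_disc {ω : ℝ} (hω : 0 < ω) (r : ℤ) (B A : ℝ) :
    (∃ φ : ℝ → ℝ, (∀ τ : ℝ, HasDerivAt φ (1 / ω * (-Real.sin (φ τ) + B + A * Real.cos τ)) τ) ∧
      Tendsto (fun k : ℕ => φ (2 * Real.pi * k) / (2 * Real.pi * k)) atTop (𝓝 (r:ℝ))) ↔
      (B / ω, A / ω) ∈ Ls r (1 / ω) := by
  constructor
  · rintro ⟨φ, h1, h2⟩
    have hS : Sol (B / ω) (A / ω) (1 / ω) φ := by
      intro τ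
      refine (h1 τ).congr_deriv ?_
      field_simp; ring
    exact fixed_of_disc hS h2
  · intro h
    obtain ⟨φ, h1, h2⟩ := (mem_torus hω r B A).2 h
    refine ⟨φ, h1, ?_⟩
    have : Tendsto (fun k : ℕ => 2 * Real.pi * (k:ℝ)) atTop atTop :=
      tendsto_natCast_atTop_atTop.const_mul_atTop Real.two_pi_pos
    exact h2.comp this

end Pool.Agent.R188.Gar
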