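import Pool.Agent.R188.Gar4

set_option autoImplicit false
open Set Filter Topology

namespace Pool.Agent.R188.Gar
open H535R3 GarT

/-- Phase-lock areas in the original coordinates, through fixed points of the period map. -/
def Lr (ω : ℝ) (r : ℤ) : Set (ℝ × ℝ) := {p | (p.1 / ω, p.2 / ω) ∈ Ls r (1 / ω)}

theorem package {ω : ℝ} (hω : 0 < ω) (r : ℤ) : ∃ (gm gp : ℝ → ℝ) (a : ℕ → ℝ), Continuous gm ∧
    Continuous gp ∧ (∀ A, gm A ≤ gp A) ∧ (∀ p : ℝ × ℝ, p ∈ Lr ω r ↔ gm p.2 ≤ p.1 ∧ p.1 ≤ gp p.2) ∧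
    StrictMono a ∧ 0 < a 0 ∧ Tendsto a atTop atTop ∧ (∀ A, 0 < A → (gm A = gp A ↔ ∃ k, A = a k)) ∧
    (∀ k, gm (a k) = r * ω ∧ gp (a k) = r * ω) ∧
    (∀ A, a 0 < A → (∀ k, A ≠ a k) → ((r : ℝ) * ω, A) ∈ interior (Lr ω r)) := by
  have hε : 0 < 1 / ω := by positivity
  obtain ⟨gm, gp, c1, c2, hle, hiff⟩ := bdry r hε
  obtain ⟨a, ha1, ha2, ha3⟩ := sing_enum r hε
  have hmem : ∀ k, 0 < a k ∧ Sing r (1 / ω) (a k) := fun k => by
    have : a k ∈ {a : ℝ | 0 < a ∧ Sing r (1 / ω) a} := by rw [← ha2]; exact ⟨k, rfl⟩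
    exact this
  have hsing : ∀ x, Sing r (1 / ω) x ↔ gm x = gp x := by
    intro x
    constructor
    · rintro ⟨b, hb⟩
      have h1 := (hb _).1 ((hiff (gm x) x).2 ⟨le_rfl, hle x⟩)
      have h2 := (hb _).1 ((hiff (gp x) x).2 ⟨hle x, le_rfl⟩)
      rw [h1, h2]
    · intro h
      refine ⟨gm x, fun b' => ?_⟩
      rw [hiff, ← h]
      exact ⟨fun h' => le_antisymm h'.2 h'.1, fun h' => h' ▸ ⟨le_rfl, le_rfl⟩⟩
  have hax : ∀ k, gm (a k) = r := by
    intro k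
    have h1 := (hsing _).1 (hmem k).2
    refine Jo.axis_of_single hε (hmem k).1 ((hiff _ _).2 ⟨le_rfl, hle _⟩) (fun b' hb' => ?_)
    have h2 := (hiff _ _).1 hb'
    rw [← h1] at h2
    exact le_antisymm h2.2 h2.1
  refine ⟨fun A => ω * gm (A / ω), fun A => ω * gp (A / ω), fun k => ω * a k, by fun_prop, by fun_prop,
    fun A => mul_le_mul_of_nonneg_left (hle _) hω.le, ?_, ?_, mul_pos hω (hmem 0).1, ha3.const_mul_atTop hω,
    ?_, ?_, ?_⟩
  · intro p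
    change (p.1 / ω, p.2 / ω) ∈ Ls r (1 / ω) ↔ _
    simp only
    rw [hiff, le_div_iff₀ hω, div_le_iff₀ hω, mul_comm ω, mul_comm ω]
  · intro i j hij
    exact mul_lt_mul_of_pos_left (ha1 hij) hω
  · intro A hA
    constructor
    · intro h
      have h1 : gm (A / ω) = gp (A / ω) := mul_left_cancel₀ hω.ne' h
      have h2 : A / ω ∈ range a := by
        rw [ha2]
        exact ⟨by positivity, (hsing _).2 h1⟩
      obtain ⟨k, hk⟩ := h2
      exact ⟨k, by simp only; rw [hk]; field_simp⟩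
    · rintro ⟨k, rfl⟩
      simp only [mul_div_cancel_left₀ _ hω.ne']
      rw [(hsing _).1 (hmem k).2]
  · intro k
    simp only [mul_div_cancel_left₀ _ hω.ne']
    rw [← (hsing _).1 (hmem k).2, hax k, mul_comm]
    exact ⟨rfl, rfl⟩
  · intro A hA hn
    have h0 : a 0 < A / ω := by rw [lt_div_iff₀ hω, mul_comm]; exact hA
    have h1 : ((r:ℝ), A / ω) ∈ interior (Ls r (1 / ω)) := by
      refine axis_interior r hε (hmem 0).1 (hmem 0).2 h0 fun hs => ?_
      have h2 : A / ω ∈ range a := by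
        rw [ha2]
        exact ⟨(hmem 0).1.trans h0, hs⟩
      obtain ⟨k, hk⟩ := h2
      exact hn k (by simp only; rw [hk]; field_simp)
    rw [mem_interior_iff_mem_nhds] at h1 ⊢
    have hc : Continuous fun p : ℝ × ℝ => (p.1 / ω, p.2 / ω) := by fun_prop
    have h3 := hc.continuousAt.preimage_mem_nhds (x := ((r:ℝ) * ω, A)) (t := Ls r (1 / ω)) (by
      change Ls r (1 / ω) ∈ 𝓝 (((r:ℝ) * ω / ω, A / ω))
      rw [mul_div_cancel_right₀ _ hω.ne']; exact h1)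
    exact h3

end Pool.Agent.R188.Gar
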