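import Mathlib

set_option autoImplicit false
open Set Filter Topology MeasureTheory

namespace Pool.Agent.R188.Osc

/-- phase derivative -/
noncomputable def X (r s t : ℝ) : ℝ := r + s ^ 2 * Real.cos t
noncomputable def D (r s t : ℝ) : ℝ := X r s t ^ 2 + s ^ 2
noncomputable def w (r s t : ℝ) : ℝ := X r s t / D r s t
noncomputable def Ph (r s t : ℝ) : ℝ := r * t + s ^ 2 * Real.sin t

lemma D_pos {r s : ℝ} (hs : 0 < s) (t : ℝ) : 0 < D r s t := by rw [D]; positivity

lemma cont_X (r s : ℝ) : Continuous (X r s) := by unfold X; fun_prop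
lemma cont_D (r s : ℝ) : Continuous (D r s) := by
  have := cont_X r s
  unfold D; fun_prop
lemma cont_invD {r s : ℝ} (hs : 0 < s) : Continuous fun t => 1 / D r s t :=
  continuous_const.div (cont_D r s) fun t => (D_pos hs t).ne'
lemma cont_w {r s : ℝ} (hs : 0 < s) : Continuous (w r s) :=
  (cont_X r s).div (cont_D r s) fun t => (D_pos hs t).ne'

lemma w_le {r s : ℝ} (hs : 0 < s) (t : ℝ) : |w r s t| ≤ 1 / s := by
  rw [w, abs_div, abs_of_pos (D_pos hs t), div_le_div_iff₀ (D_pos hs t) hs, D]
  nlinarith [sq_abs (X r s t), abs_nonneg (X r s t), sq_nonneg (|X r s t| - s)]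

lemma hdX (r s t : ℝ) : HasDerivAt (X r s) (-(s ^ 2 * Real.sin t)) t := by
  exact (((Real.hasDerivAt_cos t).const_mul (s ^ 2)).const_add r).congr_deriv (by ring)

lemma hdPh (r s t : ℝ) : HasDerivAt (Ph r s) (X r s t) t := by
  exact (((hasDerivAt_id t).const_mul r).add ((Real.hasDerivAt_sin t).const_mul (s ^ 2))).congr_deriv
    (by rw [X]; simp)

lemma hdD (r s t : ℝ) : HasDerivAt (D r s) (2 * X r s t * (-(s ^ 2 * Real.sin t))) t := by
  exact (((hdX r s t).pow 2).add_const (s ^ 2)).congr_deriv (by simp)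

noncomputable def w' (r s t : ℝ) : ℝ := -(s ^ 2 * Real.sin t) * (s ^ 2 - X r s t ^ 2) / D r s t ^ 2

lemma hdw {r s : ℝ} (hs : 0 < s) (t : ℝ) : HasDerivAt (w r s) (w' r s t) t := by
  have hD := (D_pos (r := r) hs t).ne'
  refine ((hdX r s t).div (hdD r s t) hD).congr_deriv ?_
  rw [w']
  congr 1
  rw [D]; ring

lemma cont_w' {r s : ℝ} (hs : 0 < s) : Continuous (w' r s) := by
  have h1 := cont_X r s
  have h2 := cont_D r s
  unfold w'
  refine Continuous.div (by fun_prop) (by fun_prop) fun t => ?_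
  have := D_pos (r := r) hs t
  positivity

lemma w'_le {r s : ℝ} (hs : 0 < s) (t : ℝ) : |w' r s t| ≤ s ^ 2 * (1 / D r s t) := by
  have hD := D_pos (r := r) hs t
  rw [w', abs_div, abs_of_pos (show 0 < D r s t ^ 2 by positivity), div_le_iff₀ (by positivity), abs_mul,
    abs_neg, abs_mul, abs_of_pos (show 0 < s ^ 2 by positivity)]
  have h1 := Real.abs_sin_le_one t
  have h2 : |s ^ 2 - X r s t ^ 2| ≤ D r s t := by
    rw [D, abs_le]; constructor <;> nlinarith [sq_nonneg s, sq_nonneg (X r s t)]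
  have h3 : s ^ 2 * (1 / D r s t) * D r s t ^ 2 = s ^ 2 * D r s t := by field_simp
  rw [h3]
  have h4 : s ^ 2 * |Real.sin t| ≤ s ^ 2 := by nlinarith [sq_nonneg s]
  exact mul_le_mul h4 h2 (abs_nonneg _) (by positivity)

lemma hd_atan {r s : ℝ} (hs : 0 < s) (t : ℝ) :
    HasDerivAt (fun t => -Real.arctan (X r s t / s) / s ^ 3) (Real.sin t / D r s t) t := by
  have h1 := (((hdX r s t).div_const s).arctan.neg).div_const (s ^ 3)
  refine h1.congr_deriv ?_
  have hD := D_pos (r := r) hs t
  rw [D] at hD ⊢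
  field_simp
  ring

lemma atan_diff (x y : ℝ) : |Real.arctan x - Real.arctan y| ≤ Real.pi := by
  have h1 := Real.arctan_lt_pi_div_two x
  have h2 := Real.neg_pi_div_two_lt_arctan x
  have h3 := Real.arctan_lt_pi_div_two y
  have h4 := Real.neg_pi_div_two_lt_arctan y
  rw [abs_le]; constructor <;> linarith

lemma int_sin {r s : ℝ} (hs : 0 < s) : ∫ t in (0:ℝ)..(2 * Real.pi), |Real.sin t| / D r s t ≤
    2 * Real.pi / s ^ 3 := by
  have hc : Continuous fun t => |Real.sin t| / D r s t :=
    (by fun_prop : Continuous fun t => |Real.sin t|).div (cont_D r s) fun t => (D_pos hs t).ne'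
  have hc2 : Continuous fun t => Real.sin t / D r s t :=
    Real.continuous_sin.div (cont_D r s) fun t => (D_pos hs t).ne'
  rw [← intervalIntegral.integral_add_adjacent_intervals (b := Real.pi) (hc.intervalIntegrable _ _)
    (hc.intervalIntegrable _ _)]
  have h1 : ∫ t in (0:ℝ)..Real.pi, |Real.sin t| / D r s t =
      ∫ t in (0:ℝ)..Real.pi, Real.sin t / D r s t := by
    apply intervalIntegral.integral_congr
    intro t ht
    rw [uIcc_of_le Real.pi_pos.le] at ht
    simp only
    rw [abs_of_nonneg (Real.sin_nonneg_of_mem_Icc ht)]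
  have h2 : ∫ t in Real.pi..(2 * Real.pi), |Real.sin t| / D r s t =
      -∫ t in Real.pi..(2 * Real.pi), Real.sin t / D r s t := by
    rw [← intervalIntegral.integral_neg]
    apply intervalIntegral.integral_congr
    intro t ht
    rw [uIcc_of_le (by linarith [Real.pi_pos])] at ht
    simp only
    rw [abs_of_nonpos]
    · ring
    · have : 0 ≤ Real.sin (t - Real.pi) := Real.sin_nonneg_of_mem_Icc ⟨by linarith [ht.1], by linarith [ht.2]⟩
      rw [Real.sin_sub_pi] at this
      linarith
  rw [h1, h2, intervalIntegral.integral_eq_sub_of_hasDerivAt (fun t _ => hd_atan hs t)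
    (hc2.intervalIntegrable _ _), intervalIntegral.integral_eq_sub_of_hasDerivAt (fun t _ => hd_atan hs t)
    (hc2.intervalIntegrable _ _)]
  have h3 := atan_diff (X r s 0 / s) (X r s Real.pi / s)
  have h4 := atan_diff (X r s (2 * Real.pi) / s) (X r s Real.pi / s)
  rw [abs_le] at h3 h4
  rw [le_div_iff₀ (by positivity)]
  have e : (-Real.arctan (X r s Real.pi / s) / s ^ 3 - -Real.arctan (X r s 0 / s) / s ^ 3 +
      -(-Real.arctan (X r s (2 * Real.pi) / s) / s ^ 3 - -Real.arctan (X r s Real.pi / s) / s ^ 3)) * s ^ 3 =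
      (Real.arctan (X r s 0 / s) - Real.arctan (X r s Real.pi / s)) +
      (Real.arctan (X r s (2 * Real.pi) / s) - Real.arctan (X r s Real.pi / s)) := by
    field_simp
    ring
  rw [e]
  linarith [h3.2, h4.2]

lemma int_D {r s : ℝ} (hs : 1 ≤ s) : ∫ t in (0:ℝ)..(2 * Real.pi), 1 / D r s t ≤
    2 * Real.pi * (3 + 2 * r ^ 2) / s ^ 3 := by
  have hs0 : 0 < s := by linarith
  have hc : Continuous fun t => |Real.sin t| / D r s t :=
    (by fun_prop : Continuous fun t => |Real.sin t|).div (cont_D r s) fun t => (D_pos hs0 t).ne'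
  have hle : ∀ t, 1 / D r s t ≤ |Real.sin t| / D r s t + 2 * (1 + r ^ 2) / s ^ 3 := by
    intro t
    have hD := D_pos (r := r) hs0 t
    have h1 : (1:ℝ) ≤ |Real.sin t| + Real.cos t ^ 2 := by
      have h2 := Real.abs_sin_le_one t
      have h3 := Real.sin_sq_add_cos_sq t
      nlinarith [sq_abs (Real.sin t), abs_nonneg (Real.sin t)]
    have h2 : Real.cos t ^ 2 / D r s t ≤ 2 * (1 + r ^ 2) / s ^ 3 := by
      rw [div_le_div_iff₀ hD (by positivity)]
      have h3 : (s ^ 2 * Real.cos t) ^ 2 ≤ 2 * (X r s t ^ 2 + r ^ 2) := by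
        have : s ^ 2 * Real.cos t = X r s t - r := by rw [X]; ring
        rw [this]; nlinarith [sq_nonneg (X r s t + r)]
      have h4 : X r s t ^ 2 + r ^ 2 ≤ (1 + r ^ 2) * D r s t := by
        rw [D]
        have : 1 ≤ s ^ 2 := by nlinarith
        nlinarith [sq_nonneg (X r s t), sq_nonneg r, mul_nonneg (sq_nonneg r) (sq_nonneg (X r s t))]
      have h5 : Real.cos t ^ 2 * s ^ 3 ≤ (s ^ 2 * Real.cos t) ^ 2 := by
        have : s ^ 3 ≤ s ^ 4 := by
          have : 0 < s ^ 3 := by positivity
          nlinarith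
        nlinarith [sq_nonneg (Real.cos t)]
      linarith
    calc 1 / D r s t ≤ (|Real.sin t| + Real.cos t ^ 2) / D r s t := div_le_div_of_nonneg_right h1 hD.le
      _ = |Real.sin t| / D r s t + Real.cos t ^ 2 / D r s t := add_div _ _ _
      _ ≤ _ := by linarith
  have h1 := intervalIntegral.integral_mono (a := 0) (b := 2 * Real.pi) (μ := volume)
    (f := fun t => 1 / D r s t) (g := fun t => |Real.sin t| / D r s t + 2 * (1 + r ^ 2) / s ^ 3)
    (by positivity) ((cont_invD hs0).intervalIntegrable _ _)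
    ((hc.add continuous_const).intervalIntegrable _ _) hle
  refine h1.trans ?_
  rw [intervalIntegral.integral_add (hc.intervalIntegrable _ _) (continuous_const.intervalIntegrable _ _),
    intervalIntegral.integral_const]
  have h2 := int_sin (r := r) hs0
  rw [smul_eq_mul, sub_zero]
  have : 2 * Real.pi * (3 + 2 * r ^ 2) / s ^ 3 = 2 * Real.pi / s ^ 3 +
      2 * Real.pi * (2 * (1 + r ^ 2) / s ^ 3) := by ring
  rw [this]
  linarith

/-- The mean of `|w|` is `o(1/s)`. -/
lemma int_w (r : ℝ) {η : ℝ} (hη : 0 < η) : ∃ s₀, 1 ≤ s₀ ∧ ∀ s, s₀ ≤ s →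
    ∫ t in (0:ℝ)..(2 * Real.pi), |w r s t| ≤ η / s := by
  set C := 2 * Real.pi * (3 + 2 * r ^ 2) with hC
  have hC0 : 0 < C := by positivity
  set l := η / 8 with hl
  have hl0 : 0 < l := by positivity
  refine ⟨max 1 (C / (l * η)), le_max_left _ _, fun s hs => ?_⟩
  have hs1 : 1 ≤ s := (le_max_left _ _).trans hs
  have hs0 : 0 < s := by linarith
  have hs2 : C / (l * η) ≤ s := (le_max_right _ _).trans hs
  have hle : ∀ t, |w r s t| ≤ l / (2 * s) + s / (2 * l) * (1 / D r s t) := by
    intro t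
    have hD := D_pos (r := r) hs0 t
    have h1 : |w r s t| ^ 2 ≤ 1 / D r s t := by
      rw [sq_abs, w, div_pow, div_le_div_iff₀ (by positivity) hD, D]
      nlinarith [sq_nonneg (X r s t), sq_nonneg s, mul_nonneg (sq_nonneg (X r s t)) (sq_nonneg s)]
    have h2 : |w r s t| ≤ l / (2 * s) + s / (2 * l) * |w r s t| ^ 2 := by
      have : l / (2 * s) + s / (2 * l) * |w r s t| ^ 2 - |w r s t| = s / (2 * l) * (|w r s t| - l / s) ^ 2 := by
        field_simp
        ring
      have h3 : 0 ≤ s / (2 * l) * (|w r s t| - l / s) ^ 2 := by positivity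
      linarith
    have h3 : s / (2 * l) * |w r s t| ^ 2 ≤ s / (2 * l) * (1 / D r s t) :=
      mul_le_mul_of_nonneg_left h1 (by positivity)
    linarith
  have h1 := intervalIntegral.integral_mono (a := 0) (b := 2 * Real.pi) (μ := volume)
    (f := fun t => |w r s t|) (g := fun t => l / (2 * s) + s / (2 * l) * (1 / D r s t))
    (by positivity) ((cont_w hs0).abs.intervalIntegrable _ _)
    ((continuous_const.add (continuous_const.mul (cont_invD hs0))).intervalIntegrable _ _) hle
  refine h1.trans ?_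
  have hDc := cont_invD (r := r) hs0
  rw [intervalIntegral.integral_add (Continuous.intervalIntegrable (by fun_prop) _ _)
    (Continuous.intervalIntegrable (by fun_prop) _ _),
    intervalIntegral.integral_const, intervalIntegral.integral_const_mul, smul_eq_mul, sub_zero]
  have h2 := int_D (r := r) hs1
  have h3 : s / (2 * l) * ∫ t in (0:ℝ)..(2 * Real.pi), 1 / D r s t ≤ s / (2 * l) * (C / s ^ 3) :=
    mul_le_mul_of_nonneg_left h2 (by positivity)
  have h4 : s / (2 * l) * (C / s ^ 3) ≤ (η / 2) / s := by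
    rw [div_le_iff₀ (by positivity)] at hs2
    rw [show s / (2 * l) * (C / s ^ 3) = C / (2 * l * s ^ 2) by field_simp, div_le_div_iff₀ (by positivity) hs0]
    nlinarith
  have h5 : 2 * Real.pi * (l / (2 * s)) ≤ (η / 2) / s := by
    rw [show 2 * Real.pi * (l / (2 * s)) = (Real.pi * l) / s by field_simp]
    apply div_le_div_of_nonneg_right _ hs0.le
    rw [hl]
    nlinarith [Real.pi_le_four]
  calc _ ≤ (η / 2) / s + (η / 2) / s := by linarith
    _ = η / s := by ring

/-- Integration by parts estimate. -/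
theorem main_est {r s : ℝ} (hs : 1 ≤ s) {g g' : ℝ → ℝ} (hg : ∀ t, HasDerivAt g (g' t) t)
    (hg'c : Continuous g') {G G' : ℝ} (c : ℝ) {T : ℝ} (hT0 : 0 ≤ T) (hT : T ≤ 2 * Real.pi)
    (hG : ∀ t ∈ Icc 0 T, |g t| ≤ G) (hG' : ∀ t ∈ Icc 0 T, |g' t| ≤ G') :
    |∫ t in (0:ℝ)..T, g t * Real.cos (Ph r s t + c)| ≤
      G * (2 + 2 * (2 * Real.pi * (3 + 2 * r ^ 2))) / s + G' * ∫ t in (0:ℝ)..(2 * Real.pi), |w r s t| := by
  have hs0 : 0 < s := by linarith
  set C := 2 * Real.pi * (3 + 2 * r ^ 2) with hC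
  have hC0 : 0 < C := by positivity
  have hgc : Continuous g := continuous_iff_continuousAt.2 fun t => (hg t).continuousAt
  have hPc : Continuous (Ph r s) := by unfold Ph; fun_prop
  have hwc := cont_w (r := r) hs0
  have hw'c := cont_w' (r := r) hs0
  have hDc := cont_invD (r := r) hs0
  have hG0 : 0 ≤ G := (abs_nonneg _).trans (hG 0 (left_mem_Icc.2 hT0))
  have hG'0 : 0 ≤ G' := (abs_nonneg _).trans (hG' 0 (left_mem_Icc.2 hT0))
  have hh : ∀ t, HasDerivAt (fun t => g t * w r s t * Real.sin (Ph r s t + c))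
      ((g' t * w r s t + g t * w' r s t) * Real.sin (Ph r s t + c) +
        (g t * Real.cos (Ph r s t + c) - s ^ 2 * (1 / D r s t) * (g t * Real.cos (Ph r s t + c)))) t := by
    intro t
    have h1 := ((hg t).mul (hdw (r := r) hs0 t)).mul ((hdPh r s t).add_const c).sin
    refine h1.congr_deriv ?_
    have hD := D_pos (r := r) hs0 t
    have h2 : w r s t * X r s t = 1 - s ^ 2 * (1 / D r s t) := by
      rw [w]; rw [D] at hD ⊢; field_simp; ring
    simp only [Pi.mul_apply]
    linear_combination (g t * Real.cos (Ph r s t + c)) * h2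
  have hI := intervalIntegral.integral_eq_sub_of_hasDerivAt (a := 0) (b := T) (fun t _ => hh t)
    (Continuous.intervalIntegrable (by fun_prop) _ _)
  rw [intervalIntegral.integral_add (Continuous.intervalIntegrable (by fun_prop) _ _)
    (Continuous.intervalIntegrable (by fun_prop) _ _),
    intervalIntegral.integral_sub (Continuous.intervalIntegrable (by fun_prop) _ _)
    (Continuous.intervalIntegrable (by fun_prop) _ _)] at hI
  have b1 : ∀ t ∈ Icc 0 T, |g t * w r s t * Real.sin (Ph r s t + c)| ≤ G / s := by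
    intro t ht
    rw [abs_mul, abs_mul]
    have h1 := hG t ht
    have h2 := w_le (r := r) hs0 t
    have h3 := Real.abs_sin_le_one (Ph r s t + c)
    calc |g t| * |w r s t| * |Real.sin (Ph r s t + c)| ≤ (G * (1 / s)) * 1 :=
          mul_le_mul (mul_le_mul h1 h2 (abs_nonneg _) hG0) h3 (abs_nonneg _) (by positivity)
      _ = G / s := by ring
  have mono : ∀ f : ℝ → ℝ, Continuous f → (∀ t, 0 ≤ f t) →
      ∫ t in (0:ℝ)..T, f t ≤ ∫ t in (0:ℝ)..(2 * Real.pi), f t := by
    intro f hf hf0
    exact intervalIntegral.integral_mono_interval le_rfl hT0 hT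
      (Eventually.of_forall fun t => hf0 t) (hf.intervalIntegrable _ _)
  have iD : ∫ t in (0:ℝ)..T, 1 / D r s t ≤ C / s ^ 3 :=
    (mono _ hDc fun t => by have := D_pos (r := r) hs0 t; positivity).trans (int_D hs)
  have b2 : |∫ t in (0:ℝ)..T, (g' t * w r s t + g t * w' r s t) * Real.sin (Ph r s t + c)| ≤
      G' * (∫ t in (0:ℝ)..(2 * Real.pi), |w r s t|) + G * C / s := by
    have h1 : ∫ t in (0:ℝ)..T, (G' * |w r s t| + G * (s ^ 2 * (1 / D r s t))) ≤
        G' * (∫ t in (0:ℝ)..(2 * Real.pi), |w r s t|) + G * C / s := by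
      rw [intervalIntegral.integral_add (Continuous.intervalIntegrable (by fun_prop) _ _)
        (Continuous.intervalIntegrable (by fun_prop) _ _), intervalIntegral.integral_const_mul,
        intervalIntegral.integral_const_mul, intervalIntegral.integral_const_mul]
      have h2 := mono _ hwc.abs fun t => abs_nonneg _
      have h3 : s ^ 2 * (∫ t in (0:ℝ)..T, 1 / D r s t) ≤ C / s := by
        calc _ ≤ s ^ 2 * (C / s ^ 3) := mul_le_mul_of_nonneg_left iD (by positivity)
          _ = C / s := by field_simp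
      have h4 := mul_le_mul_of_nonneg_left h2 hG'0
      have h5 := mul_le_mul_of_nonneg_left h3 hG0
      calc _ ≤ G' * (∫ t in (0:ℝ)..(2 * Real.pi), |w r s t|) + G * (C / s) := by
            linarith
        _ = _ := by ring
    refine le_trans ?_ h1
    have h2 := intervalIntegral.norm_integral_le_of_norm_le (a := 0) (b := T) (μ := volume)
      (f := fun t => (g' t * w r s t + g t * w' r s t) * Real.sin (Ph r s t + c))
      (g := fun t => G' * |w r s t| + G * (s ^ 2 * (1 / D r s t))) hT0 (Eventually.of_forall fun t ht => by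
        have ht' : t ∈ Icc 0 T := ⟨ht.1.le, ht.2⟩
        rw [Real.norm_eq_abs, abs_mul]
        have h1 := hG t ht'
        have h1' := hG' t ht'
        have h2 := w'_le (r := r) hs0 t
        have h3 := Real.abs_sin_le_one (Ph r s t + c)
        have h4 : |g' t * w r s t + g t * w' r s t| ≤ G' * |w r s t| + G * (s ^ 2 * (1 / D r s t)) := by
          refine (abs_add_le _ _).trans ?_
          rw [abs_mul, abs_mul]
          exact add_le_add (mul_le_mul_of_nonneg_right h1' (abs_nonneg _))
            (mul_le_mul h1 h2 (abs_nonneg _) hG0)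
        calc _ ≤ |g' t * w r s t + g t * w' r s t| * 1 := mul_le_mul_of_nonneg_left h3 (abs_nonneg _)
          _ ≤ _ := by rw [mul_one]; exact h4)
      (Continuous.intervalIntegrable (by fun_prop) _ _)
    rwa [Real.norm_eq_abs] at h2
  have b3 : |∫ t in (0:ℝ)..T, s ^ 2 * (1 / D r s t) * (g t * Real.cos (Ph r s t + c))| ≤ G * C / s := by
    have h1 : ∫ t in (0:ℝ)..T, (s ^ 2 * (1 / D r s t)) * G ≤ G * C / s := by
      rw [intervalIntegral.integral_mul_const, intervalIntegral.integral_const_mul]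
      have h3 : s ^ 2 * (∫ t in (0:ℝ)..T, 1 / D r s t) ≤ C / s := by
        calc _ ≤ s ^ 2 * (C / s ^ 3) := mul_le_mul_of_nonneg_left iD (by positivity)
          _ = C / s := by field_simp
      have h5 := mul_le_mul_of_nonneg_right h3 hG0
      calc _ ≤ C / s * G := h5
        _ = _ := by ring
    refine le_trans ?_ h1
    have h2 := intervalIntegral.norm_integral_le_of_norm_le (a := 0) (b := T) (μ := volume)
      (f := fun t => s ^ 2 * (1 / D r s t) * (g t * Real.cos (Ph r s t + c)))
      (g := fun t => (s ^ 2 * (1 / D r s t)) * G) hT0 (Eventually.of_forall fun t ht => by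
        have ht' : t ∈ Icc 0 T := ⟨ht.1.le, ht.2⟩
        have hD := D_pos (r := r) hs0 t
        rw [Real.norm_eq_abs, abs_mul (s ^ 2 * (1 / D r s t)), abs_mul (g t), abs_of_pos (show 0 < s ^ 2 * (1 / D r s t) by positivity)]
        have h1 := hG t ht'
        have h3 := Real.abs_cos_le_one (Ph r s t + c)
        apply mul_le_mul_of_nonneg_left _ (by positivity)
        nlinarith [abs_nonneg (g t), abs_nonneg (Real.cos (Ph r s t + c))])
      (Continuous.intervalIntegrable (by fun_prop) _ _)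
    rwa [Real.norm_eq_abs] at h2
  have h0 := b1 0 (left_mem_Icc.2 hT0)
  have h1 := b1 T (right_mem_Icc.2 hT0)
  have e : ∫ t in (0:ℝ)..T, g t * Real.cos (Ph r s t + c) =
      (g T * w r s T * Real.sin (Ph r s T + c) - g 0 * w r s 0 * Real.sin (Ph r s 0 + c)) -
      (∫ t in (0:ℝ)..T, (g' t * w r s t + g t * w' r s t) * Real.sin (Ph r s t + c)) +
      ∫ t in (0:ℝ)..T, s ^ 2 * (1 / D r s t) * (g t * Real.cos (Ph r s t + c)) := by linarith
  rw [e]
  rw [abs_le] at h0 h1 b2 b3 ⊢
  have e2 : G * (2 + 2 * C) / s = G / s + G / s + G * C / s + G * C / s := by ring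
  rw [e2]
  constructor <;> linarith [h0.1, h0.2, h1.1, h1.2, b2.1, b2.2, b3.1, b3.2]

end Pool.Agent.R188.Osc
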