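import Pool.Agent.H800R2.Front

set_option autoImplicit false

open Set Filter Topology

namespace Pool.Agent.R188.Penrose

open Pool.Agent.H800R2
open scoped RealInnerProductSpace ContDiff

variable {n : ℕ}

/-- The squared distance of `x` from the axis `ℝ e`. -/
noncomputable def rho (e x : Euc n) : ℝ := ‖x‖ ^ 2 - ⟪e, x⟫ ^ 2

/-- The ellipsoid is `G < 0`. -/
noncomputable def G (e x : Euc n) : ℝ := rho e x / 5 + ⟪e, x⟫ ^ 2 / 4 - 1

/-- The obstacle is `F ≤ 0`. -/
noncomputable def F (e x : Euc n) : ℝ := (rho e x - 1) ^ 2 + 16 * ⟪e, x⟫ * (⟪e, x⟫ + 1)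

/-- The room: an oblate ellipsoid of revolution minus a solid of revolution. -/
def Room (e : Euc n) : Set (Euc n) := {x | G e x < 0 ∧ 0 < F e x}

/-- The conserved quantity of the ellipsoid. -/
noncomputable def J (e x v : Euc n) : ℝ :=
  ⟪e, v⟫ ^ 2 * (rho e x - 1) - 2 * ⟪e, x⟫ * ⟪e, v⟫ * (⟪x, v⟫ - ⟪e, x⟫ * ⟪e, v⟫) +
    ⟪e, x⟫ ^ 2 * (‖v‖ ^ 2 - ⟪e, v⟫ ^ 2)

theorem rho_nonneg {e : Euc n} (he : ‖e‖ = 1) (x : Euc n) : 0 ≤ rho e x := by
  have h := abs_real_inner_le_norm e x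
  rw [he, one_mul] at h
  have h2 : ⟪e, x⟫ ^ 2 ≤ ‖x‖ ^ 2 := sq_le_sq' (by linarith [neg_abs_le ⟪e, x⟫]) ((le_abs_self _).trans h)
  unfold rho
  linarith

theorem z_line (e p v : Euc n) (s : ℝ) : ⟪e, p + s • v⟫ = ⟪e, p⟫ + s * ⟪e, v⟫ := by
  rw [inner_add_right, real_inner_smul_right]

theorem norm_line (p v : Euc n) (s : ℝ) :
    ‖p + s • v‖ ^ 2 = ‖p‖ ^ 2 + 2 * s * ⟪p, v⟫ + s ^ 2 * ‖v‖ ^ 2 := by
  rw [norm_add_sq_real, real_inner_smul_right, norm_smul, mul_pow, Real.norm_eq_abs, sq_abs]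
  ring

theorem inner_line (p v : Euc n) (s : ℝ) : ⟪p + s • v, v⟫ = ⟪p, v⟫ + s * ‖v‖ ^ 2 := by
  rw [inner_add_left, real_inner_smul_left, real_inner_self_eq_norm_sq]

theorem J_line (e p v : Euc n) (s : ℝ) : J e (p + s • v) v = J e p v := by
  unfold J rho
  rw [z_line, norm_line, inner_line]
  ring

theorem continuous_rho (e : Euc n) : Continuous (rho e) := by unfold rho; fun_prop
theorem continuous_G (e : Euc n) : Continuous (G e) := by
  unfold G; have := continuous_rho e; fun_prop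
theorem continuous_F (e : Euc n) : Continuous (F e) := by
  unfold F; have := continuous_rho e; fun_prop

theorem contDiff_rho (e : Euc n) : ContDiff ℝ ∞ (rho e) := by
  unfold rho
  exact (contDiff_norm_sq ℝ).sub ((contDiff_const.inner ℝ contDiff_id).pow 2)
theorem contDiff_G (e : Euc n) : ContDiff ℝ ∞ (G e) := by
  unfold G
  exact (((contDiff_rho e).div_const 5).add
    (((contDiff_const.inner ℝ contDiff_id).pow 2).div_const 4)).sub contDiff_const
theorem contDiff_F (e : Euc n) : ContDiff ℝ ∞ (F e) := by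
  unfold F
  exact (((contDiff_rho e).sub contDiff_const).pow 2).add
    ((contDiff_const.mul (contDiff_const.inner ℝ contDiff_id)).mul
      ((contDiff_const.inner ℝ contDiff_id).add contDiff_const))

theorem fderiv_rho (e x : Euc n) :
    HasFDerivAt (rho e) ((2 : ℝ) • innerSL ℝ x - (2 * ⟪e, x⟫) • innerSL ℝ e) x := by
  have h1 := (hasStrictFDerivAt_norm_sq x).hasFDerivAt
  have h2 : HasFDerivAt (fun y : Euc n => ⟪e, y⟫) (innerSL ℝ e) x := (innerSL ℝ e).hasFDerivAt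
  have h3 := h1.sub (h2.pow 2)
  refine h3.congr_fderiv ?_
  ext w
  simp

theorem gradient_G {e : Euc n} (x : Euc n) :
    gradient (G e) x = (2 / 5 : ℝ) • (x - ⟪e, x⟫ • e) + (⟪e, x⟫ / 2) • e := by
  refine HasGradientAt.gradient ?_
  rw [hasGradientAt_iff_hasFDerivAt]
  have h2 : HasFDerivAt (fun y : Euc n => ⟪e, y⟫) (innerSL ℝ e) x := (innerSL ℝ e).hasFDerivAt
  have h3 := (((fderiv_rho e x).mul_const (1 / 5)).add ((h2.pow 2).mul_const (1 / 4))).sub_const 1
  have h4 : HasFDerivAt (G e) _ x := h3.congr_of_eventuallyEq (Eventually.of_forall fun y => by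
    simp only [G, Pi.add_apply]; ring)
  refine h4.congr_fderiv ?_
  ext w
  simp [inner_add_left, inner_sub_left, real_inner_smul_left]
  ring

theorem gradient_F {e : Euc n} (x : Euc n) :
    gradient (fun y => -F e y) x =
      -((4 * (rho e x - 1)) • (x - ⟪e, x⟫ • e) + (16 * (2 * ⟪e, x⟫ + 1)) • e) := by
  refine HasGradientAt.gradient ?_
  rw [hasGradientAt_iff_hasFDerivAt]
  have h2 : HasFDerivAt (fun y : Euc n => ⟪e, y⟫) (innerSL ℝ e) x := (innerSL ℝ e).hasFDerivAt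
  have h3 := ((((fderiv_rho e x).sub_const 1).pow 2).add ((h2.mul (h2.add_const 1)).mul_const 16)).neg
  have h4 : HasFDerivAt (fun y => -F e y) _ x :=
    h3.congr_of_eventuallyEq (Eventually.of_forall fun y => by
      simp only [F, Pi.add_apply, Pi.neg_apply, Pi.mul_apply]; ring)
  refine h4.congr_fderiv ?_
  ext w
  simp [inner_add_left, inner_sub_left, real_inner_smul_left]
  ring

theorem isOpen_Room (e : Euc n) : IsOpen (Room e) :=
  (isOpen_lt (continuous_G e) continuous_const).inter (isOpen_lt continuous_const (continuous_F e))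

theorem closure_Room {e x : Euc n} (hx : x ∈ frontier (Room e)) : G e x ≤ 0 ∧ 0 ≤ F e x := by
  have h : x ∈ closure (Room e) := frontier_subset_closure hx
  have h1 : closure (Room e) ⊆ {x | G e x ≤ 0 ∧ 0 ≤ F e x} := by
    refine closure_minimal (fun y hy => ⟨hy.1.le, hy.2.le⟩) ?_
    exact (isClosed_le (continuous_G e) continuous_const).inter
      (isClosed_le continuous_const (continuous_F e))
  exact h1 h

theorem not_mem_Room {e x : Euc n} (hx : x ∈ frontier (Room e)) : x ∉ Room e := by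
  rw [(isOpen_Room e).frontier_eq] at hx
  exact hx.2

/-- the obstacle is inside the ellipsoid -/
theorem G_neg_of_F {e x : Euc n} (hF : F e x ≤ 0) : G e x < 0 := by
  unfold F at hF
  unfold G
  nlinarith [sq_nonneg (rho e x - 1), sq_nonneg (⟪e, x⟫ + 1 / 2), sq_nonneg (rho e x - 3),
    sq_nonneg (⟪e, x⟫)]

theorem frontier_cases {e x : Euc n} (hx : x ∈ frontier (Room e)) :
    (G e x = 0 ∧ 0 < F e x) ∨ (F e x = 0 ∧ G e x < 0) := by
  obtain ⟨h1, h2⟩ := closure_Room hx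
  have h3 := not_mem_Room hx
  rcases h2.lt_or_eq with h4 | h4
  · left
    refine ⟨le_antisymm h1 ?_, h4⟩
    by_contra hc
    exact h3 ⟨not_le.1 hc, h4⟩
  · exact Or.inr ⟨h4.symm, G_neg_of_F h4.symm.le⟩

theorem isDefFun_G {e x : Euc n} (hG : G e x = 0) (hF : 0 < F e x) : IsDefFun (Room e) x (G e) := by
  refine ⟨contDiff_G e, ?_, ?_⟩
  · rw [gradient_G]
    intro h
    have h1 : ⟪x, (2 / 5 : ℝ) • (x - ⟪e, x⟫ • e) + (⟪e, x⟫ / 2) • e⟫ = 0 := by rw [h, inner_zero_right]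
    rw [inner_add_right, real_inner_smul_right, inner_sub_right, real_inner_smul_right,
      real_inner_smul_right, real_inner_self_eq_norm_sq, real_inner_comm e x] at h1
    unfold G rho at hG
    nlinarith
  · filter_upwards [(continuous_F e).continuousAt.eventually (lt_mem_nhds hF)] with y hy
    exact ⟨fun h => h.1, fun h => ⟨h, hy⟩⟩

theorem isDefFun_F {e x : Euc n} (he : ‖e‖ = 1) (hF : F e x = 0) (hG : G e x < 0) :
    IsDefFun (Room e) x (fun y => -F e y) := by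
  refine ⟨(contDiff_F e).neg, ?_, ?_⟩
  · rw [gradient_F]
    intro h
    have hee : ⟪e, e⟫ = 1 := by rw [real_inner_self_eq_norm_sq, he]; norm_num
    have h1 : ⟪e, -((4 * (rho e x - 1)) • (x - ⟪e, x⟫ • e) + (16 * (2 * ⟪e, x⟫ + 1)) • e)⟫ = 0 := by
      rw [h, inner_zero_right]
    have h2 : ⟪x, -((4 * (rho e x - 1)) • (x - ⟪e, x⟫ • e) + (16 * (2 * ⟪e, x⟫ + 1)) • e)⟫ = 0 := by
      rw [h, inner_zero_right]
    rw [inner_neg_right, inner_add_right, real_inner_smul_right, inner_sub_right,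
      real_inner_smul_right, real_inner_smul_right, hee] at h1
    rw [inner_neg_right, inner_add_right, real_inner_smul_right, inner_sub_right,
      real_inner_smul_right, real_inner_smul_right, real_inner_self_eq_norm_sq, real_inner_comm e x] at h2
    have h3 : ⟪e, x⟫ = -1 / 2 := by linarith
    have h4 : (rho e x - 1) * rho e x = 0 := by
      have hr : ‖x‖ ^ 2 = rho e x + 1 / 4 := by unfold rho; rw [h3]; norm_num
      rw [h3, hr] at h2
      linarith
    unfold F at hF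
    rw [h3] at hF
    nlinarith
  · filter_upwards [(continuous_G e).continuousAt.eventually (gt_mem_nhds hG)] with y hy
    exact ⟨fun h => by linarith [h.2], fun h => ⟨hy, by linarith⟩⟩

/-- Reflection in the ellipsoid preserves `J`. -/
theorem J_reflect {e x v : Euc n} (he : ‖e‖ = 1) (hG : G e x = 0) {N : Euc n}
    (hN : N = gradient (G e) x) (hN0 : N ≠ 0) :
    J e x (v - (2 * ⟪v, ‖N‖⁻¹ • N⟫) • (‖N‖⁻¹ • N)) = J e x v := by
  have hee : ⟪e, e⟫ = 1 := by rw [real_inner_self_eq_norm_sq, he]; norm_num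
  have hn : 0 < ‖N‖ := norm_pos_iff.2 hN0
  rw [gradient_G] at hN
  set lam : ℝ := 2 * ⟪v, N⟫ / ‖N‖ ^ 2 with hlam
  have e1 : v - (2 * ⟪v, ‖N‖⁻¹ • N⟫) • (‖N‖⁻¹ • N) = v - lam • N := by
    rw [real_inner_smul_right, smul_smul]
    congr 2
    rw [hlam]
    field_simp
  have e2 : lam * ‖N‖ ^ 2 = 2 * ⟪v, N⟫ := by rw [hlam]; field_simp
  rw [e1]
  have a1 : ⟪e, N⟫ = ⟪e, x⟫ / 2 := by
    rw [hN, inner_add_right, real_inner_smul_right, inner_sub_right, real_inner_smul_right,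
      real_inner_smul_right, hee]
    ring
  have a2 : ⟪x, N⟫ = 2 / 5 * rho e x + ⟪e, x⟫ ^ 2 / 2 := by
    rw [hN, inner_add_right, real_inner_smul_right, inner_sub_right, real_inner_smul_right,
      real_inner_smul_right, real_inner_self_eq_norm_sq, real_inner_comm e x]
    unfold rho
    ring
  have a3 : ⟪v, N⟫ = 2 / 5 * (⟪x, v⟫ - ⟪e, x⟫ * ⟪e, v⟫) + ⟪e, x⟫ * ⟪e, v⟫ / 2 := by
    rw [hN, inner_add_right, real_inner_smul_right, inner_sub_right, real_inner_smul_right,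
      real_inner_smul_right, real_inner_comm e v, real_inner_comm x v]
    ring
  have a4 : ‖N‖ ^ 2 = 4 / 25 * rho e x + ⟪e, x⟫ ^ 2 / 4 := by
    rw [← real_inner_self_eq_norm_sq]
    nth_rewrite 2 [hN]
    rw [inner_add_right, real_inner_smul_right, inner_sub_right, real_inner_smul_right,
      real_inner_smul_right, real_inner_comm e N, real_inner_comm x N, a1, a2]
    ring
  have b1 : ⟪e, v - lam • N⟫ = ⟪e, v⟫ - lam * (⟪e, x⟫ / 2) := by
    rw [inner_sub_right, real_inner_smul_right, a1]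
  have b2 : ⟪x, v - lam • N⟫ = ⟪x, v⟫ - lam * (2 / 5 * rho e x + ⟪e, x⟫ ^ 2 / 2) := by
    rw [inner_sub_right, real_inner_smul_right, a2]
  have b3 : ‖v - lam • N‖ ^ 2 = ‖v‖ ^ 2 := by
    rw [norm_sub_sq_real, real_inner_smul_right, norm_smul, mul_pow, Real.norm_eq_abs, sq_abs]
    have : lam ^ 2 * ‖N‖ ^ 2 = lam * (2 * ⟪v, N⟫) := by rw [← e2]; ring
    rw [this]; ring
  have c1 : rho e x = 5 - 5 / 4 * ⟪e, x⟫ ^ 2 := by unfold G at hG; linarith
  have c2 : lam * (4 / 25 * rho e x + ⟪e, x⟫ ^ 2 / 4) =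
      2 * (2 / 5 * (⟪x, v⟫ - ⟪e, x⟫ * ⟪e, v⟫) + ⟪e, x⟫ * ⟪e, v⟫ / 2) := by
    rw [← a4, ← a3]; exact e2
  unfold J
  rw [b1, b2, b3]
  rw [c1] at c2 ⊢
  set z := ⟪e, x⟫
  set w := ⟪e, v⟫
  set y := ⟪x, v⟫
  have key : y = 5 / 4 * (lam * (4 / 25 * (5 - 5 / 4 * z ^ 2) + z ^ 2 / 4)) - z * w / 4 := by
    rw [c2]; ring
  rw [key]
  ring

end Pool.Agent.R188.Penrose
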