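import Pool.Agent.R188.Penrose

set_option autoImplicit false

open Set Filter Topology

namespace Pool.Agent.R188.Penrose

open Pool.Agent.H800R2
open scoped RealInnerProductSpace ContDiff

variable {n : ℕ}

/-- The closed notch of the obstacle. -/
def InN (e x : Euc n) : Prop := rho e x < 1 ∧ -(1 / 2) < ⟪e, x⟫ ∧ ⟪e, x⟫ ≤ 0 ∧ 0 ≤ F e x

/-- A photon in the notch, or above the plane on a line through the open focal disk. -/
def Good (e p v : Euc n) : Prop := InN e p ∨ (0 < ⟪e, p⟫ ∧ J e p v < 0)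

theorem J_zero {e p v : Euc n} (h : ⟪e, p⟫ = 0) : J e p v = ⟪e, v⟫ ^ 2 * (rho e p - 1) := by
  unfold J; rw [h]; ring

theorem stay {e p v : Euc n} (he : ‖e‖ = 1) {s : ℝ} (hs : 0 ≤ s) (hp : InN e p)
    (hF : ∀ r ∈ Ioc 0 s, 0 < F e (p + r • v)) (hz : ∀ r ∈ Icc 0 s, ⟪e, p + r • v⟫ ≤ 0) :
    InN e (p + s • v) := by
  set m : ℝ → ℝ := fun r => min (1 - rho e (p + r • v)) (⟪e, p + r • v⟫ + 1 / 2) with hm
  have hline : Continuous fun r : ℝ => p + r • v := by fun_prop
  have hmc : Continuous m :=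
    (continuous_const.sub ((continuous_rho e).comp hline)).min
      ((continuous_const.inner hline).add continuous_const)
  have h0 : 0 < m 0 := by
    simp only [hm, zero_smul, add_zero]
    exact lt_min (by linarith [hp.1]) (by linarith [hp.2.1])
  have hms : 0 < m s := by
    by_contra hc
    push Not at hc
    obtain ⟨r, hr, hr0⟩ := intermediate_value_Icc' hs hmc.continuousOn ⟨hc, h0.le⟩
    have hr1 : 0 < r := by
      rcases hr.1.lt_or_eq with h | h
      · exact h
      · rw [← h] at hr0; linarith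
    have h1 := hF r ⟨hr1, hr.2⟩
    have h2 := hz r hr
    have h3 := rho_nonneg he (p + r • v)
    simp only [hm] at hr0
    unfold F at h1
    rcases min_choice (1 - rho e (p + r • v)) (⟪e, p + r • v⟫ + 1 / 2) with h4 | h4
    · have h5 := min_le_right (1 - rho e (p + r • v)) (⟪e, p + r • v⟫ + 1 / 2)
      rw [hr0] at h4 h5
      have h6 : rho e (p + r • v) = 1 := by linarith
      rw [h6] at h1
      nlinarith
    · have h5 := min_le_left (1 - rho e (p + r • v)) (⟪e, p + r • v⟫ + 1 / 2)
      rw [hr0] at h4 h5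
      have h6 : ⟪e, p + r • v⟫ = -1 / 2 := by linarith
      rw [h6] at h1
      nlinarith
  have h1 : 0 < 1 - rho e (p + s • v) := hms.trans_le (min_le_left _ _)
  have h2 : 0 < ⟪e, p + s • v⟫ + 1 / 2 := hms.trans_le (min_le_right _ _)
  refine ⟨by linarith, by linarith, hz s ⟨hs, le_rfl⟩, ?_⟩
  rcases hs.lt_or_eq with h | h
  · exact (hF s ⟨h, le_rfl⟩).le
  · rw [← h, zero_smul, add_zero]; exact hp.2.2.2

theorem fly {e p v : Euc n} (he : ‖e‖ = 1) {s : ℝ} (hs : 0 < s) (hp : Good e p v)
    (hin : ∀ r ∈ Ioc 0 s, p + r • v ∈ Room e) : Good e (p + s • v) v := by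
  have hzl : ∀ r : ℝ, ⟪e, p + r • v⟫ = ⟪e, p⟫ + r * ⟪e, v⟫ := z_line e p v
  rcases lt_or_ge 0 ⟪e, p + s • v⟫ with hzs | hzs
  · refine Or.inr ⟨hzs, ?_⟩
    rw [J_line]
    rcases hp with hp | hp
    · have hz0 := hp.2.2.1
      rw [hzl] at hzs
      have hw : 0 < ⟪e, v⟫ := by
        by_contra hc
        push Not at hc
        nlinarith
      set r0 := -⟪e, p⟫ / ⟪e, v⟫ with hr0
      have hr1 : 0 ≤ r0 := div_nonneg (by linarith) hw.le
      have hr2 : ⟪e, p⟫ + r0 * ⟪e, v⟫ = 0 := by rw [hr0]; field_simp; ring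
      have hr3 : r0 < s := by
        by_contra hc
        push Not at hc
        nlinarith
      have h1 := stay he hr1 hp (fun r hr => (hin r ⟨hr.1, hr.2.trans hr3.le⟩).2) (fun r hr => by
        rw [hzl]; nlinarith [hr.2])
      have h2 := J_line e p v r0
      rw [J_zero (by rw [hzl]; exact hr2)] at h2
      rw [← h2]
      have := h1.1
      have h4 : 0 < ⟪e, v⟫ ^ 2 := by positivity
      nlinarith
    · exact hp.2
  · left
    rcases hp with hp | hp
    · refine stay he hs.le hp (fun r hr => (hin r hr).2) (fun r hr => ?_)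
      have hz0 := hp.2.2.1
      rw [hzl] at hzs ⊢
      rcases le_total 0 ⟪e, v⟫ with h | h
      · nlinarith [hr.2]
      · nlinarith [hr.1]
    · rw [hzl] at hzs
      have hw : ⟪e, v⟫ < 0 := by
        by_contra hc
        push Not at hc
        have := mul_nonneg hs.le hc
        linarith [hp.1]
      set r0 := -⟪e, p⟫ / ⟪e, v⟫ with hr0
      have hr1 : 0 < r0 := div_pos_of_neg_of_neg (by linarith [hp.1]) hw
      have hr2 : ⟪e, p⟫ + r0 * ⟪e, v⟫ = 0 := by
        rw [hr0, div_mul_cancel₀ _ hw.ne]; ring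
      have hr3 : r0 ≤ s := by
        by_contra hc
        push Not at hc
        nlinarith
      have hzr : ⟪e, p + r0 • v⟫ = 0 := by rw [hzl]; exact hr2
      have h2 := J_line e p v r0
      rw [J_zero hzr] at h2
      have h3 : rho e (p + r0 • v) < 1 := by
        by_contra hc
        push Not at hc
        have : 0 ≤ ⟪e, v⟫ ^ 2 * (rho e (p + r0 • v) - 1) := mul_nonneg (sq_nonneg _) (by linarith)
        linarith [hp.2]
      have h4 : InN e (p + r0 • v) := by
        refine ⟨h3, by rw [hzr]; norm_num, hzr.le, ?_⟩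
        unfold F
        rw [hzr]
        nlinarith [sq_nonneg (rho e (p + r0 • v) - 1)]
      have e1 : ∀ r : ℝ, p + r0 • v + r • v = p + (r0 + r) • v := by
        intro r; rw [add_smul, add_assoc]
      have h5 := stay (v := v) (s := s - r0) he (by linarith) h4
        (fun r hr => by rw [e1]; exact (hin _ ⟨by linarith [hr.1], by linarith [hr.2]⟩).2)
        (fun r hr => by rw [e1, hzl]; nlinarith [hr.1])
      rw [e1] at h5
      simpa using h5

theorem bounce {e p v ν : Euc n} (he : ‖e‖ = 1) {τ : ℝ} (hτ : 0 < τ) (hp : Good e p v)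
    (hin : ∀ r ∈ Ioo 0 τ, p + r • v ∈ Room e) (hq : p + τ • v ∈ frontier (Room e))
    (hν : IsOuterNormal (Room e) (p + τ • v) ν) (hv : 0 < ⟪v, ν⟫) :
    Good e (p + τ • v) (v - (2 * ⟪v, ν⟫) • ν) := by
  have hzl : ∀ r : ℝ, ⟪e, p + r • v⟫ = ⟪e, p⟫ + r * ⟪e, v⟫ := z_line e p v
  have hgood : ∀ s ∈ Ioo 0 τ, Good e (p + s • v) v := fun s hs =>
    fly he hs.1 hp fun r hr => hin r ⟨hr.1, hr.2.trans_lt hs.2⟩
  have hline : Continuous fun r : ℝ => p + r • v := by fun_prop
  have hzc : Continuous fun r : ℝ => ⟪e, p + r • v⟫ := continuous_const.inner hline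
  have hIoo : ∀ᶠ s in 𝓝[<] τ, s ∈ Ioo 0 τ := Ioo_mem_nhdsLT hτ
  obtain ⟨H, hH, hνe⟩ := hν
  rcases lt_or_ge 0 ⟪e, p + τ • v⟫ with hz | hz
  · -- reflection in the ellipsoid
    have h1 : ∀ᶠ s in 𝓝[<] τ, 0 < ⟪e, p + s • v⟫ :=
      (hzc.continuousAt.tendsto.mono_left nhdsWithin_le_nhds).eventually (lt_mem_nhds hz)
    obtain ⟨s, hs1, hs2⟩ := (h1.and hIoo).exists
    have hJ : J e p v < 0 := by
      rcases hgood s hs2 with h | h
      · linarith [h.2.2.1]
      · rw [← J_line e p v s]; exact h.2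
    have hFpos : 0 < F e (p + τ • v) := by
      unfold F
      nlinarith [sq_nonneg (rho e (p + τ • v) - 1)]
    have hG0 : G e (p + τ • v) = 0 := by
      rcases frontier_cases hq with h | h
      · exact h.1
      · linarith [h.1]
    have hdef := isDefFun_G hG0 hFpos
    rw [hH.normal_unique hdef (isOpen_Room e) hq] at hνe
    refine Or.inr ⟨hz, ?_⟩
    rw [hνe, J_reflect he hG0 rfl hdef.2.1, J_line]
    exact hJ
  · left
    by_cases hcase : ⟪e, p + τ • v⟫ = 0 ∧ ⟪e, v⟫ < 0
    · exfalso
      obtain ⟨hz0, hw⟩ := hcase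
      obtain ⟨s, hs⟩ := hIoo.exists
      have hzs : 0 < ⟪e, p + s • v⟫ := by
        rw [hzl] at hz0 ⊢
        nlinarith [hs.2]
      have hJ : J e p v < 0 := by
        rcases hgood s hs with h | h
        · linarith [h.2.2.1]
        · rw [← J_line e p v s]; exact h.2
      rw [← J_line e p v τ, J_zero hz0] at hJ
      have h3 : rho e (p + τ • v) < 1 := by
        by_contra hc
        push Not at hc
        have : 0 ≤ ⟪e, v⟫ ^ 2 * (rho e (p + τ • v) - 1) := mul_nonneg (sq_nonneg _) (by linarith)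
        linarith
      refine not_mem_Room hq ⟨?_, ?_⟩
      · unfold G; rw [hz0]; linarith
      · unfold F; rw [hz0]
        have : 0 < (1 - rho e (p + τ • v)) ^ 2 := by
          have : 0 < 1 - rho e (p + τ • v) := by linarith
          positivity
        nlinarith
    · have hev : ∀ᶠ s in 𝓝[<] τ, ⟪e, p + s • v⟫ ≤ 0 := by
        rcases hz.lt_or_eq with h | h
        · have h1 : ∀ᶠ s in 𝓝[<] τ, ⟪e, p + s • v⟫ < 0 :=
            (hzc.continuousAt.tendsto.mono_left nhdsWithin_le_nhds).eventually (gt_mem_nhds h)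
          exact h1.mono fun s hs => hs.le
        · have hw : 0 ≤ ⟪e, v⟫ := by
            by_contra hc
            exact hcase ⟨h, not_le.1 hc⟩
          filter_upwards [hIoo] with s hs
          rw [hzl] at h ⊢
          nlinarith [hs.2]
      have hN : ∀ᶠ s in 𝓝[<] τ, InN e (p + s • v) := by
        filter_upwards [hev, hIoo] with s h1 h2
        rcases hgood s h2 with h | h
        · exact h
        · linarith [h.1]
      have hrho : rho e (p + τ • v) ≤ 1 :=
        le_of_tendsto ((((continuous_rho e).comp hline).continuousAt.tendsto).mono_left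
          nhdsWithin_le_nhds) (hN.mono fun s hs => hs.1.le)
      have hzz : -(1 / 2) ≤ ⟪e, p + τ • v⟫ :=
        ge_of_tendsto (hzc.continuousAt.tendsto.mono_left nhdsWithin_le_nhds)
          (hN.mono fun s hs => hs.2.1.le)
      have hF0 := (closure_Room hq).2
      have hr0 := rho_nonneg he (p + τ • v)
      have hzne : ⟪e, p + τ • v⟫ ≠ -(1 / 2) := by
        intro hc
        unfold F at hF0
        rw [hc] at hF0
        nlinarith
      have hrne : rho e (p + τ • v) ≠ 1 := by
        intro hc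
        have hz0 : ⟪e, p + τ • v⟫ = 0 := by
          unfold F at hF0
          rw [hc] at hF0
          have h1 : -(1 / 2) < ⟪e, p + τ • v⟫ := lt_of_le_of_ne hzz (Ne.symm hzne)
          nlinarith
        have hw : 0 ≤ ⟪e, v⟫ := by
          by_contra hc2
          exact hcase ⟨hz0, not_le.1 hc2⟩
        have hFz : F e (p + τ • v) = 0 := by unfold F; rw [hc, hz0]; ring
        have hdef := isDefFun_F he hFz (G_neg_of_F hFz.le)
        rw [hH.normal_unique hdef (isOpen_Room e) hq, gradient_F, hc, hz0] at hνe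
        rw [hνe, real_inner_smul_right, inner_neg_right, inner_add_right, real_inner_smul_right,
          real_inner_smul_right, real_inner_comm e v] at hv
        have hp1 : 0 ≤ ‖-((4 * ((1:ℝ) - 1)) • (p + τ • v - (0:ℝ) • e) + (16 * (2 * (0:ℝ) + 1)) • e)‖⁻¹ := by
          positivity
        have h7 := mul_nonneg hp1 hw
        nlinarith
      exact ⟨lt_of_le_of_ne hrho hrne, lt_of_le_of_ne hzz (Ne.symm hzne), hz, hF0⟩

theorem photon {e p v q : Euc n} {t : ℝ} (he : ‖e‖ = 1) (h : Photon (Room e) p v t q)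
    (hp : Good e p v) : InN e q ∨ 0 < ⟪e, q⟫ := by
  induction h with
  | fly p v t ht hin =>
    rcases ht.lt_or_eq with h | h
    · rcases fly he h hp hin with h1 | h1
      · exact Or.inl h1
      · exact Or.inr h1.1
    · rw [← h, zero_smul, add_zero]
      rcases hp with h1 | h1
      · exact Or.inl h1
      · exact Or.inr h1.1
  | bounce p v ν q τ t hτ hin hb hν hv _ ih =>
    exact ih (bounce he hτ hp hin hb hν hv)

end Pool.Agent.R188.Penrose
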