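import Pool.Agent.R188.Penrose2

set_option autoImplicit false

open Set Filter Topology

namespace Pool.Agent.R188.Penrose

open Pool.Agent.H800R2
open scoped RealInnerProductSpace ContDiff

variable {n : ℕ}

theorem rho_vert {e : Euc n} (he : ‖e‖ = 1) (x : Euc n) (h : ℝ) : rho e (x + h • e) = rho e x := by
  have hee : ⟪e, e⟫ = 1 := by rw [real_inner_self_eq_norm_sq, he]; norm_num
  unfold rho
  rw [norm_line, z_line, hee, he, real_inner_comm e x]
  ring

theorem z_vert {e : Euc n} (he : ‖e‖ = 1) (x : Euc n) (h : ℝ) : ⟪e, x + h • e⟫ = ⟪e, x⟫ + h := by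
  have hee : ⟪e, e⟫ = 1 := by rw [real_inner_self_eq_norm_sq, he]; norm_num
  rw [z_line, hee, mul_one]

/-- The ellipsoid is convex. -/
theorem G_convex (e x y : Euc n) {a b : ℝ} (ha : 0 ≤ a) (hb : 0 ≤ b) (hab : a + b = 1)
    (hx : G e x < 0) (hy : G e y < 0) : G e (a • x + b • y) < 0 := by
  have h1 : ‖a • x + b • y‖ ^ 2 = a ^ 2 * ‖x‖ ^ 2 + 2 * (a * b) * ⟪x, y⟫ + b ^ 2 * ‖y‖ ^ 2 := by
    rw [norm_add_sq_real, real_inner_smul_left, real_inner_smul_right, norm_smul, norm_smul,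
      mul_pow, mul_pow, Real.norm_eq_abs, Real.norm_eq_abs, sq_abs, sq_abs]
    ring
  have h2 : ⟪e, a • x + b • y⟫ = a * ⟪e, x⟫ + b * ⟪e, y⟫ := by
    rw [inner_add_right, real_inner_smul_right, real_inner_smul_right]
  have h3 : 0 ≤ ‖x - y‖ ^ 2 := by positivity
  rw [norm_sub_sq_real] at h3
  have hb' : b = 1 - a := by linarith
  subst hb'
  unfold G rho at hx hy ⊢
  rw [h1, h2]
  have h4 : 0 ≤ a * (1 - a) * (‖x‖ ^ 2 - 2 * ⟪x, y⟫ + ‖y‖ ^ 2) := mul_nonneg (mul_nonneg ha hb) h3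
  have h5 : 0 ≤ a * (1 - a) * (⟪e, x⟫ - ⟪e, y⟫) ^ 2 := mul_nonneg (mul_nonneg ha hb) (sq_nonneg _)
  have h6 : a * ((‖x‖ ^ 2 - ⟪e, x⟫ ^ 2) / 5 + ⟪e, x⟫ ^ 2 / 4 - 1) +
      (1 - a) * ((‖y‖ ^ 2 - ⟪e, y⟫ ^ 2) / 5 + ⟪e, y⟫ ^ 2 / 4 - 1) < 0 := by
    rcases ha.lt_or_eq with h | h
    · have := mul_neg_of_pos_of_neg h hx
      have := mul_nonneg hb (le_of_lt (neg_pos.2 hy))
      linarith
    · rw [← h]; linarith
  nlinarith

theorem joined_top {e x y : Euc n} (hx : G e x < 0) (hy : G e y < 0) (hx0 : 0 < ⟪e, x⟫)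
    (hy0 : 0 < ⟪e, y⟫) : JoinedIn (Room e) x y := by
  refine JoinedIn.of_segment_subset ?_
  rintro z ⟨a, b, ha, hb, hab, rfl⟩
  refine ⟨G_convex e x y ha hb hab hx hy, ?_⟩
  have h2 : ⟪e, a • x + b • y⟫ = a * ⟪e, x⟫ + b * ⟪e, y⟫ := by
    rw [inner_add_right, real_inner_smul_right, real_inner_smul_right]
  have h3 : 0 < ⟪e, a • x + b • y⟫ := by
    rw [h2]
    rcases ha.lt_or_eq with h | h
    · have := mul_pos h hx0
      have := mul_nonneg hb hy0.le
      linarith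
    · rw [← h] at hab ⊢
      rw [zero_add] at hab
      rw [hab]; linarith
  unfold F
  nlinarith [sq_nonneg (rho e (a • x + b • y) - 1)]

theorem joined_bottom {e x y : Euc n} (hx : G e x < 0) (hy : G e y < 0) (hx0 : ⟪e, x⟫ ≤ -(11 / 10))
    (hy0 : ⟪e, y⟫ ≤ -(11 / 10)) : JoinedIn (Room e) x y := by
  refine JoinedIn.of_segment_subset ?_
  rintro z ⟨a, b, ha, hb, hab, rfl⟩
  refine ⟨G_convex e x y ha hb hab hx hy, ?_⟩
  have h2 : ⟪e, a • x + b • y⟫ = a * ⟪e, x⟫ + b * ⟪e, y⟫ := by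
    rw [inner_add_right, real_inner_smul_right, real_inner_smul_right]
  have h3 : ⟪e, a • x + b • y⟫ ≤ -(11 / 10) := by
    rw [h2]
    nlinarith
  unfold F
  nlinarith [sq_nonneg (rho e (a • x + b • y) - 1)]

/-- A vertical segment. -/
theorem joined_vert {e x : Euc n} {h : ℝ}
    (hin : ∀ s ∈ uIcc 0 h, x + s • e ∈ Room e) : JoinedIn (Room e) x (x + h • e) := by
  refine JoinedIn.of_segment_subset ?_
  rintro z ⟨a, b, ha, hb, hab, rfl⟩
  have e1 : a • x + b • (x + h • e) = x + (b * h) • e := by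
    rw [smul_add, smul_smul, ← add_assoc, ← add_smul, hab, one_smul]
  rw [e1]
  refine hin _ ?_
  rcases le_total 0 h with hh | hh
  · rw [uIcc_of_le hh]
    exact ⟨mul_nonneg hb hh, by nlinarith⟩
  · rw [uIcc_of_ge hh]
    exact ⟨by nlinarith, mul_nonpos_of_nonneg_of_nonpos hb hh⟩

theorem joined_up {e x : Euc n} (he : ‖e‖ = 1) (hx : x ∈ Room e)
    (hc : -(1 / 2) ≤ ⟪e, x⟫ ∨ 3 < rho e x) : JoinedIn (Room e) x ((1 : ℝ) • e) := by
  have hee : ⟪e, e⟫ = 1 := by rw [real_inner_self_eq_norm_sq, he]; norm_num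
  have hge : G e ((1 : ℝ) • e) < 0 := by
    unfold G rho
    rw [one_smul, hee, he]; norm_num
  have hze : 0 < ⟪e, (1 : ℝ) • e⟫ := by rw [one_smul, hee]; norm_num
  have hr := rho_nonneg he x
  rcases lt_or_ge 0 ⟪e, x⟫ with h0 | h0
  · exact joined_top hx.1 hge h0 hze
  · have hG := hx.1
    unfold G at hG
    have h5 : rho e x < 5 := by nlinarith [sq_nonneg ⟪e, x⟫]
    obtain ⟨z1, hz1, hz2⟩ : ∃ z1 : ℝ, 0 < z1 ∧ z1 ^ 2 / 4 < 1 - rho e x / 5 := by
      set d := 1 - rho e x / 5 with hd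
      have hd0 : 0 < d := by linarith
      have hd1 : d ≤ 1 := by linarith
      exact ⟨d, hd0, by nlinarith⟩
    have hin : ∀ s ∈ uIcc 0 (z1 - ⟪e, x⟫), x + s • e ∈ Room e := by
      intro s hs
      rw [uIcc_of_le (by linarith)] at hs
      have hs1 := hs.1
      have hs2 := hs.2
      constructor
      · unfold G
        rw [rho_vert he, z_vert he]
        rcases le_total (⟪e, x⟫ + s) 0 with h | h
        · have : (⟪e, x⟫ + s) ^ 2 ≤ ⟪e, x⟫ ^ 2 := by nlinarith
          linarith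
        · have : (⟪e, x⟫ + s) ^ 2 ≤ z1 ^ 2 := by nlinarith
          linarith
      · have hF := hx.2
        unfold F at hF ⊢
        rw [rho_vert he, z_vert he]
        rcases hc with h | h
        · have : 0 ≤ s * (2 * ⟪e, x⟫ + s + 1) := mul_nonneg hs1 (by linarith)
          nlinarith
        · nlinarith [sq_nonneg (⟪e, x⟫ + s + 1 / 2)]
    refine (joined_vert hin).trans (joined_top (hin _ right_mem_uIcc).1 hge ?_ hze)
    rw [z_vert he]; linarith

theorem joined_all {e e' x : Euc n} (he : ‖e‖ = 1) (he' : ‖e'‖ = 1) (hee' : ⟪e, e'⟫ = 0)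
    (hx : x ∈ Room e) : JoinedIn (Room e) x ((1 : ℝ) • e) := by
  have hee : ⟪e, e⟫ = 1 := by rw [real_inner_self_eq_norm_sq, he]; norm_num
  by_cases hc : -(1 / 2) ≤ ⟪e, x⟫ ∨ 3 < rho e x
  · exact joined_up he hx hc
  · push Not at hc
    obtain ⟨h1, h2⟩ := hc
    have hr := rho_nonneg he x
    -- a point of the bottom part with `rho = 16 / 5`
    set b0 : Euc n := (Real.sqrt (16 / 5)) • e' + (-(11 / 10) : ℝ) • e with hb0
    have hsq : Real.sqrt (16 / 5) ^ 2 = 16 / 5 := Real.sq_sqrt (by norm_num)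
    have hzb : ⟪e, b0⟫ = -(11 / 10) := by
      rw [hb0, z_vert he, real_inner_smul_right, hee', mul_zero, zero_add]
    have hrb : rho e b0 = 16 / 5 := by
      rw [hb0, rho_vert he]
      unfold rho
      rw [real_inner_smul_right, hee', mul_zero, norm_smul, he', mul_one, Real.norm_eq_abs, sq_abs, hsq]
      norm_num
    have hGb : G e b0 < 0 := by unfold G; rw [hzb, hrb]; norm_num
    have hbR : b0 ∈ Room e := ⟨hGb, by unfold F; rw [hzb, hrb]; norm_num⟩
    have hb1 := joined_up he hbR (Or.inr (by rw [hrb]; norm_num))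
    rcases le_or_gt ⟪e, x⟫ (-(11 / 10)) with h3 | h3
    · exact (joined_bottom hx.1 hGb h3 hzb.le).trans hb1
    · have hin : ∀ s ∈ uIcc 0 (-(11 / 10) - ⟪e, x⟫), x + s • e ∈ Room e := by
        intro s hs
        rw [uIcc_of_ge (by linarith)] at hs
        have hs1 := hs.1
        have hs2 := hs.2
        constructor
        · unfold G
          rw [rho_vert he, z_vert he]
          have : (⟪e, x⟫ + s) ^ 2 ≤ (11 / 10) ^ 2 := by nlinarith
          linarith
        · have hF := hx.2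
          unfold F at hF ⊢
          rw [rho_vert he, z_vert he]
          have : 0 ≤ s * (2 * ⟪e, x⟫ + s + 1) := by nlinarith
          nlinarith
      have h4 := joined_vert hin
      refine h4.trans ((joined_bottom (hin _ right_mem_uIcc).1 hGb ?_ hzb.le).trans hb1)
      rw [z_vert he]; linarith

theorem isSmoothDomain {e e' : Euc n} (he : ‖e‖ = 1) (he' : ‖e'‖ = 1) (hee' : ⟪e, e'⟫ = 0) :
    IsSmoothDomain (Room e) where
  isOpen := isOpen_Room e
  isConnected := by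
    have hee : ⟪e, e⟫ = 1 := by rw [real_inner_self_eq_norm_sq, he]; norm_num
    refine IsPathConnected.isConnected ⟨(1 : ℝ) • e, ⟨?_, ?_⟩, fun _ hy => (joined_all he he' hee' hy).symm⟩
    · unfold G rho
      rw [one_smul, hee, he]; norm_num
    · unfold F rho
      rw [one_smul, hee, he]; norm_num
  isBounded := by
    refine (Metric.isBounded_ball (x := (0 : Euc n)) (r := 3)).subset fun x hx => ?_
    rw [mem_ball_zero_iff]
    have h := hx.1
    unfold G rho at h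
    have h2 : ‖x‖ ^ 2 < 3 ^ 2 := by nlinarith [sq_nonneg ⟪e, x⟫]
    exact lt_of_pow_lt_pow_left₀ 2 (by norm_num) h2
  smooth := by
    intro x hx
    rcases frontier_cases hx with h | h
    · exact ⟨_, isDefFun_G h.1 h.2⟩
    · exact ⟨_, isDefFun_F he h.1 h.2⟩

end Pool.Agent.R188.Penrose
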