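import Mathlib

set_option autoImplicit false

/-!
# Periodic billiard orbits in the regular tetrahedron have an even number of bounces
-/

namespace Pool.Agent.R188.Tetra

open scoped RealInnerProductSpace Matrix

/-- Euclidean space `ℝ³`. -/
abbrev E3 : Type := EuclideanSpace ℝ (Fin 3)

/-- The four points `A 0, …, A 3` are the vertices of a regular tetrahedron: all six distances
between them are equal (and positive). -/
def IsRegular (A : Fin 4 → E3) : Prop := ∃ l : ℝ, 0 < l ∧ ∀ i j, i ≠ j → dist (A i) (A j) = l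

/-- The centre of the tetrahedron. -/
noncomputable def centre (A : Fin 4 → E3) : E3 := (1 / 4 : ℝ) • ∑ j, A j

/-- `x` is an interior point of the solid tetrahedron with vertices `A j`: it has positive
barycentric coordinates `w j`. -/
def InInterior (A : Fin 4 → E3) (x : E3) : Prop :=
  ∃ w : Fin 4 → ℝ, (∀ j, 0 < w j) ∧ ∑ j, w j = 1 ∧ x = ∑ j, w j • A j

/-- `x` is in the relative interior of the face opposite to the vertex `A k`. -/
def InFace (A : Fin 4 → E3) (k : Fin 4) (x : E3) : Prop :=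
  ∃ w : Fin 4 → ℝ, w k = 0 ∧ (∀ j, j ≠ k → 0 < w j) ∧ ∑ j, w j = 1 ∧ x = ∑ j, w j • A j

/-- The specular reflection `v ↦ v - 2 ⟪v, ν⟫ ν` of the velocity at the face opposite to `A k`. The
unit normal `ν` of this face is the normalised vector from the centre to `A k`. -/
noncomputable def mirror (A : Fin 4 → E3) (k : Fin 4) (v : E3) : E3 :=
  v - (2 * ⟪v, A k - centre A⟫ / ‖A k - centre A‖ ^ 2) • (A k - centre A)

/-- `p` and `v` describe a periodic billiard orbit in the tetrahedron which returns to its initial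
position and velocity after `n` bounces: `p i` is the `i`-th point of reflection, in the relative
interior of a face, and `v i` is the unit velocity after the `i`-th bounce; between two bounces the
point moves on a straight segment in the interior. -/
structure PeriodicOrbit (A : Fin 4 → E3) (n : ℕ) (p v : ℕ → E3) : Prop where
  pos : 0 < n
  unit : ∀ i, ‖v i‖ = 1
  fly : ∀ i, ∃ t : ℝ, 0 < t ∧ p (i + 1) = p i + t • v i ∧
    ∀ s ∈ Set.Ioo 0 t, InInterior A (p i + s • v i)
  bounce : ∀ i, ∃ k, InFace A k (p (i + 1)) ∧ v (i + 1) = mirror A k (v i)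
  closed : ∀ i, p (i + n) = p i ∧ v (i + n) = v i

/-! ### Orthogonal 3 × 3 matrices -/

lemma adj3 (M : Matrix (Fin 3) (Fin 3) ℝ) :
    M * M - M.trace • M + ((M.trace ^ 2 - (M * M).trace) / 2) • (1 : Matrix (Fin 3) (Fin 3) ℝ) =
      M.adjugate := by
  have hM : M = !![M 0 0, M 0 1, M 0 2; M 1 0, M 1 1, M 1 2; M 2 0, M 2 1, M 2 2] := by
    ext i j; fin_cases i <;> fin_cases j <;> rfl
  rw [hM, Matrix.adjugate_fin_three_of]
  ext i j
  fin_cases i <;> fin_cases j <;>
    simp [Matrix.trace, Fin.sum_univ_three] <;> ring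

/-- An orthogonal matrix of determinant `-1` with a fixed vector is an involution. -/
lemma sq_eq_one {M : Matrix (Fin 3) (Fin 3) ℝ} (ho : Mᵀ * M = 1) (hd : M.det = -1)
    {v : Fin 3 → ℝ} (hv : v ≠ 0) (hfix : M *ᵥ v = v) : M * M = 1 := by
  have ho' : M * Mᵀ = 1 := mul_eq_one_comm.1 ho
  have hadj : M.adjugate = -Mᵀ := by
    have h1 : M.adjugate * M = M.det • (1 : Matrix (Fin 3) (Fin 3) ℝ) := Matrix.adjugate_mul M
    have h2 : M.adjugate * M * Mᵀ = M.adjugate := by rw [mul_assoc, ho', mul_one]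
    rw [← h2, h1, hd]; simp
  have h1 := adj3 M
  rw [hadj] at h1
  set s := M.trace with hs
  set c := (s ^ 2 - (M * M).trace) / 2 with hc
  -- the trace of the identity
  have h2 := congrArg Matrix.trace h1
  rw [Matrix.trace_add, Matrix.trace_sub, Matrix.trace_smul, Matrix.trace_smul, Matrix.trace_neg,
    Matrix.trace_transpose, Matrix.trace_one, ← hs] at h2
  simp only [smul_eq_mul, Fintype.card_fin, Nat.cast_ofNat] at h2
  have hcs : c = -s := by
    have : (M * M).trace = s ^ 2 - 2 * c := by rw [hc]; ring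
    rw [this] at h2
    linarith
  -- the fixed vector
  have hfixT : Mᵀ *ᵥ v = v := by
    nth_rewrite 1 [← hfix]
    rw [Matrix.mulVec_mulVec, ho, Matrix.one_mulVec]
  have h3 := congrArg (fun N : Matrix (Fin 3) (Fin 3) ℝ => N *ᵥ v) h1
  simp only [Matrix.add_mulVec, Matrix.sub_mulVec, Matrix.smul_mulVec, Matrix.neg_mulVec,
    ← Matrix.mulVec_mulVec, hfix, hfixT, Matrix.one_mulVec] at h3
  have h4 : (2 * (1 - s)) • v = 0 := by
    have : (2 * (1 - s)) • v = (v - s • v + c • v) + v := by rw [hcs]; module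
    rw [this, h3]; simp
  have hs1 : s = 1 := by
    rcases smul_eq_zero.1 h4 with h5 | h5
    · linarith
    · exact absurd h5 hv
  rw [hcs, hs1] at h1
  -- `A = M² - 1` satisfies `M A = A`
  have h5 : M * M - M - 1 + Mᵀ = 0 := by
    have : M * M - M - 1 + Mᵀ = (M * M - (1:ℝ) • M + (-1 : ℝ) • (1 : Matrix (Fin 3) (Fin 3) ℝ)) + Mᵀ := by
      module
    rw [this, h1]; simp
  have h6 : M * (M * M - 1) = M * M - 1 := by
    have h7 : M * (M * M - M - 1 + Mᵀ) = 0 := by rw [h5, mul_zero]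
    have h8 : M * (M * M - M - 1 + Mᵀ) = M * (M * M - 1) - (M * M - M * Mᵀ) := by
      noncomm_ring
    rw [h8, ho'] at h7
    exact sub_eq_zero.1 h7
  have h9 : Mᵀ * (M * M - 1) = M * M - 1 := by
    nth_rewrite 1 [← h6]
    rw [← mul_assoc, ho, one_mul]
  have h10 : (M * M - 1)ᵀ * (M * M - 1) = 0 := by
    rw [Matrix.transpose_sub, Matrix.transpose_mul, Matrix.transpose_one, sub_mul, one_mul, mul_assoc,
      h9, h9, sub_self]
  have h11 : M * M - 1 = 0 := by
    have := Matrix.conjTranspose_mul_self_eq_zero (A := M * M - 1)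
    rw [Matrix.conjTranspose_eq_transpose_of_trivial] at this
    exact this.1 h10
  exact sub_eq_zero.1 h11

/-! ### The geometry of the tetrahedron -/

variable {A : Fin 4 → E3}

lemma sum_sub (A : Fin 4 → E3) : ∑ j, (A j - centre A) = 0 := by
  rw [Finset.sum_sub_distrib, Finset.sum_const, Finset.card_univ, Fintype.card_fin, centre]
  module

lemma inner_values {l : ℝ} (hl : ∀ i j, i ≠ j → dist (A i) (A j) = l) (i j : Fin 4) :
    ⟪A i - centre A, A j - centre A⟫ = if i = j then 3 * l ^ 2 / 8 else -(l ^ 2) / 8 := by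
  have hs := sum_sub A
  set u : Fin 4 → E3 := fun i => A i - centre A with hu
  have hdist : ∀ i j, i ≠ j → ⟪u i, u i⟫ + ⟪u j, u j⟫ - 2 * ⟪u i, u j⟫ = l ^ 2 := by
    intro i j hij
    have h1 : ‖u i - u j‖ = l := by
      rw [hu]; simp only [sub_sub_sub_cancel_right]
      rw [← dist_eq_norm]; exact hl i j hij
    rw [← h1, norm_sub_sq_real, real_inner_self_eq_norm_sq, real_inner_self_eq_norm_sq]
    ring
  have hsum : ∀ i, ⟪u i, u 0⟫ + ⟪u i, u 1⟫ + ⟪u i, u 2⟫ + ⟪u i, u 3⟫ = 0 := by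
    intro i
    have h1 : ⟪u i, ∑ j, u j⟫ = 0 := by rw [hs, inner_zero_right]
    rw [inner_sum, Fin.sum_univ_four] at h1
    exact h1
  have c01 := real_inner_comm (u 0) (u 1)
  have c02 := real_inner_comm (u 0) (u 2)
  have c03 := real_inner_comm (u 0) (u 3)
  have c12 := real_inner_comm (u 1) (u 2)
  have c13 := real_inner_comm (u 1) (u 3)
  have c23 := real_inner_comm (u 2) (u 3)
  have d01 := hdist 0 1 (by decide)
  have d02 := hdist 0 2 (by decide)
  have d03 := hdist 0 3 (by decide)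
  have d12 := hdist 1 2 (by decide)
  have d13 := hdist 1 3 (by decide)
  have d23 := hdist 2 3 (by decide)
  have s0 := hsum 0
  have s1 := hsum 1
  have s2 := hsum 2
  have s3 := hsum 3
  change ⟪u i, u j⟫ = _
  fin_cases i <;> fin_cases j <;>
    simp only [Fin.zero_eta, Fin.mk_one, Fin.reduceFinMk, Fin.isValue, if_true, Fin.reduceEq, if_false,
      reduceIte, zero_ne_one, one_ne_zero] <;> linarith

/-- the height over the face opposite to `A k` -/
lemma height {l : ℝ} (hl : ∀ i j, i ≠ j → dist (A i) (A j) = l) {w : Fin 4 → ℝ} (hw : ∑ j, w j = 1)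
    (k : Fin 4) : ⟪∑ j, w j • A j, A k - centre A⟫ =
      ⟪centre A, A k - centre A⟫ - l ^ 2 / 8 + w k * l ^ 2 / 2 := by
  have h1 : ∑ j, w j • A j = centre A + ∑ j, w j • (A j - centre A) := by
    simp only [smul_sub, Finset.sum_sub_distrib, ← Finset.sum_smul, hw, one_smul]
    abel
  rw [h1, inner_add_left, sum_inner]
  simp only [real_inner_smul_left, inner_values hl]
  have h2 : ∑ j, w j * (if j = k then 3 * l ^ 2 / 8 else -(l ^ 2) / 8) =
      ∑ j, (w j * (-(l ^ 2) / 8) + if j = k then w j * (l ^ 2 / 2) else 0) := by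
    refine Finset.sum_congr rfl fun j _ => ?_
    split_ifs <;> ring
  rw [h2, Finset.sum_add_distrib, ← Finset.sum_mul, hw, Finset.sum_ite_eq' Finset.univ k]
  simp only [Finset.mem_univ, if_true]
  ring

lemma face_unique {l : ℝ} (hl0 : 0 < l) (hl : ∀ i j, i ≠ j → dist (A i) (A j) = l) {k k' : Fin 4}
    {x : E3} (h : InFace A k x) (h' : InFace A k' x) : k = k' := by
  obtain ⟨w, hw0, -, hw1, rfl⟩ := h
  obtain ⟨w', -, hw', hw1', hx⟩ := h'
  by_contra hne
  have h1 := height hl hw1 k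
  have h2 := height hl hw1' k
  rw [hx, h2, hw0] at h1
  have := hw' k hne
  have : 0 < w' k * l ^ 2 := by positivity
  linarith

lemma face_ne {l : ℝ} (hl0 : 0 < l) (hl : ∀ i j, i ≠ j → dist (A i) (A j) = l) {k k' : Fin 4}
    {x v : E3} {t : ℝ} (ht : 0 < t) (h : InFace A k x) (h' : InFace A k' (x + t • v))
    (hin : ∀ s ∈ Set.Ioo 0 t, InInterior A (x + s • v)) : k ≠ k' := by
  rintro rfl
  obtain ⟨w, hw0, -, hw1, hx⟩ := h
  obtain ⟨w', hw0', -, hw1', hx'⟩ := h'
  obtain ⟨w2, hw2, hw21, hx2⟩ := hin (t / 2) ⟨by linarith, by linarith⟩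
  have h1 := height hl hw1 k
  have h2 := height hl hw1' k
  have h3 := height hl hw21 k
  rw [← hx, hw0] at h1
  rw [← hx', hw0', inner_add_left, real_inner_smul_left] at h2
  rw [← hx2, inner_add_left, real_inner_smul_left] at h3
  have := hw2 k
  have : 0 < w2 k * l ^ 2 := by positivity
  linarith

/-! ### Divisibility by three -/

/-- the integer coordinates -/
noncomputable def cc (A : Fin 4 → E3) (l : ℝ) (j : Fin 4) (v : E3) : ℝ := ⟪v, A j - centre A⟫ * 8 / l ^ 2

lemma cc_vertex {l : ℝ} (hl0 : 0 < l) (hl : ∀ i j, i ≠ j → dist (A i) (A j) = l) (i j : Fin 4) :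
    cc A l j (A i - centre A) = if i = j then 3 else -1 := by
  unfold cc
  rw [inner_values hl]
  have := hl0.ne'
  split_ifs <;> field_simp

lemma cc_mirror {l : ℝ} (hl0 : 0 < l) (hl : ∀ i j, i ≠ j → dist (A i) (A j) = l) (k j : Fin 4) (v : E3) :
    cc A l j (mirror A k v) = if k = j then -cc A l j v else cc A l j v + 2 / 3 * cc A l k v := by
  have h1 := inner_values hl k k
  rw [real_inner_self_eq_norm_sq, if_pos rfl] at h1
  unfold cc mirror
  rw [inner_sub_left, real_inner_smul_left, h1, inner_values hl]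
  have := hl0.ne'
  split_ifs with h
  · subst h; field_simp; ring
  · field_simp; ring

/-- the main divisibility statement -/
lemma not_dvd {l : ℝ} (hl0 : 0 < l) (hl : ∀ i j, i ≠ j → dist (A i) (A j) = l) (κ : ℕ → Fin 4)
    (hκ : ∀ i, κ i ≠ κ (i + 1)) (x : ℕ → E3) (hx : ∀ i, x (i + 1) = mirror A (κ i) (x i))
    (a : Fin 4 → ℤ) (ha : ∀ j, cc A l j (x 0) = a j) (ha0 : ¬ (3 : ℤ) ∣ a (κ 0)) (m : ℕ) :
    ∃ (b : Fin 4 → ℤ) (e : ℤ), ¬ (3 : ℤ) ∣ e ∧ (∀ j, 3 ^ (m + 1) * cc A l j (x (m + 1)) = b j) ∧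
      (3 : ℤ) ∣ b (κ m) ∧ ∀ j, j ≠ κ m → (3 : ℤ) ∣ b j - e := by
  induction m with
  | zero =>
    refine ⟨fun j => if κ 0 = j then -3 * a j else 3 * a j + 2 * a (κ 0), 2 * a (κ 0), by omega, ?_, ?_, ?_⟩
    · intro j
      rw [hx, cc_mirror hl0 hl]
      by_cases h : κ 0 = j
      · simp only [if_pos h]; rw [ha]; push_cast; ring
      · simp only [if_neg h]; rw [ha, ha]; push_cast; ring
    · simp
    · intro j hj
      simp only [if_neg (Ne.symm hj)]
      omega
  | succ m ih =>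
    obtain ⟨b, e, he, hb, hb0, hb1⟩ := ih
    have hK := hb1 (κ (m + 1)) (Ne.symm (hκ m))
    refine ⟨fun j => if κ (m + 1) = j then -3 * b j else 3 * b j + 2 * b (κ (m + 1)), 2 * b (κ (m + 1)),
      by omega, ?_, ?_, ?_⟩
    · intro j
      have h1 := hb j
      have h2 := hb (κ (m + 1))
      rw [hx, cc_mirror hl0 hl]
      by_cases h : κ (m + 1) = j
      · simp only [if_pos h]
        push_cast
        rw [← h1]; ring
      · simp only [if_neg h]
        push_cast
        rw [← h1, ← h2]; ring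
    · simp
    · intro j hj
      simp only [if_neg (Ne.symm hj)]
      omega

/-! ### Matrices of the reflections -/

/-- the matrix of a reflection -/
noncomputable def RM (u : Fin 3 → ℝ) : Matrix (Fin 3) (Fin 3) ℝ :=
  1 - (2 / (u ⬝ᵥ u)) • Matrix.vecMulVec u u

lemma RM_eq (u : Fin 3 → ℝ) : RM u = !![1 - 2 / (u ⬝ᵥ u) * (u 0 * u 0), - (2 / (u ⬝ᵥ u) * (u 0 * u 1)), - (2 / (u ⬝ᵥ u) * (u 0 * u 2));
    - (2 / (u ⬝ᵥ u) * (u 1 * u 0)), 1 - 2 / (u ⬝ᵥ u) * (u 1 * u 1), - (2 / (u ⬝ᵥ u) * (u 1 * u 2));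
    - (2 / (u ⬝ᵥ u) * (u 2 * u 0)), - (2 / (u ⬝ᵥ u) * (u 2 * u 1)), 1 - 2 / (u ⬝ᵥ u) * (u 2 * u 2)] := by
  ext i j
  fin_cases i <;> fin_cases j <;> simp [RM, Matrix.vecMulVec_apply]

lemma RM_det {u : Fin 3 → ℝ} (hu : u ⬝ᵥ u ≠ 0) : (RM u).det = -1 := by
  rw [RM_eq, Matrix.det_fin_three]
  have h1 : u ⬝ᵥ u = u 0 * u 0 + u 1 * u 1 + u 2 * u 2 := by
    simp [dotProduct, Fin.sum_univ_three]
  set q := 2 / (u ⬝ᵥ u) with hq
  have h2 : q * (u 0 * u 0 + u 1 * u 1 + u 2 * u 2) = 2 := by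
    rw [← h1, hq]; field_simp
  simp only [Matrix.of_apply, Matrix.cons_val', Matrix.cons_val_zero, Matrix.cons_val_one,
    Matrix.cons_val_fin_one, Matrix.cons_val]
  linear_combination (-1) * h2

lemma RM_orth {u : Fin 3 → ℝ} (hu : u ⬝ᵥ u ≠ 0) : (RM u)ᵀ * RM u = 1 := by
  have h0 : (RM u)ᵀ = RM u := by
    unfold RM
    rw [Matrix.transpose_sub, Matrix.transpose_one, Matrix.transpose_smul, Matrix.transpose_vecMulVec]
  have h1 : Matrix.vecMulVec u u * Matrix.vecMulVec u u = (u ⬝ᵥ u) • Matrix.vecMulVec u u := by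
    rw [Matrix.vecMulVec_mul_vecMulVec]
    ext i j
    simp [Matrix.vecMulVec_apply]
    ring
  rw [h0]
  unfold RM
  simp only [sub_mul, mul_sub, one_mul, mul_one, Matrix.smul_mul, Matrix.mul_smul, h1, smul_smul]
  have h2 : 2 / (u ⬝ᵥ u) * (2 / (u ⬝ᵥ u) * (u ⬝ᵥ u)) = 2 * (2 / (u ⬝ᵥ u)) := by field_simp
  rw [h2]
  module

lemma mirror_eq (k : Fin 4) (v : E3) :
    (mirror A k v).ofLp = RM (A k - centre A).ofLp *ᵥ v.ofLp := by
  have h1 : ∀ x y : E3, ⟪x, y⟫ = x.ofLp ⬝ᵥ y.ofLp := by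
    intro x y
    rw [EuclideanSpace.inner_eq_star_dotProduct, dotProduct_comm]
    simp
  unfold mirror RM
  rw [Matrix.sub_mulVec, Matrix.one_mulVec, Matrix.smul_mulVec, Matrix.vecMulVec_mulVec,
    ← real_inner_self_eq_norm_sq, h1, h1]
  ext i
  simp only [PiLp.sub_apply, PiLp.smul_apply, smul_eq_mul, Pi.sub_apply, Pi.smul_apply,
    MulOpposite.smul_eq_mul_unop, MulOpposite.unop_op]
  rw [dotProduct_comm v.ofLp]
  ring

/-- products of the matrices -/
noncomputable def MM (A : Fin 4 → E3) (κ : ℕ → Fin 4) : ℕ → Matrix (Fin 3) (Fin 3) ℝ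
  | 0 => 1
  | m + 1 => RM (A (κ m) - centre A).ofLp * MM A κ m

lemma norm_pos' {l : ℝ} (hl0 : 0 < l) (hl : ∀ i j, i ≠ j → dist (A i) (A j) = l) (k : Fin 4) :
    (A k - centre A).ofLp ⬝ᵥ (A k - centre A).ofLp ≠ 0 := by
  have h1 := inner_values hl k k
  rw [if_pos rfl, EuclideanSpace.inner_eq_star_dotProduct] at h1
  simp only [star_trivial] at h1
  rw [h1]
  positivity

lemma MM_orth {l : ℝ} (hl0 : 0 < l) (hl : ∀ i j, i ≠ j → dist (A i) (A j) = l) (κ : ℕ → Fin 4)
    (m : ℕ) : (MM A κ m)ᵀ * MM A κ m = 1 ∧ (MM A κ m).det = (-1) ^ m := by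
  induction m with
  | zero => simp [MM]
  | succ m ih =>
    have h0 := norm_pos' hl0 hl (κ m)
    constructor
    · rw [MM, Matrix.transpose_mul, mul_assoc, ← mul_assoc _ _ (MM A κ m), RM_orth h0, one_mul, ih.1]
    · rw [MM, Matrix.det_mul, RM_det h0, ih.2]; ring

lemma MM_add (κ : ℕ → Fin 4) {n : ℕ} (hκ : ∀ i, κ (i + n) = κ i) (m : ℕ) :
    MM A κ (m + n) = MM A κ m * MM A κ n := by
  induction m with
  | zero => simp [MM]
  | succ m ih =>
    rw [show m + 1 + n = (m + n) + 1 by ring, MM, MM, ih, hκ, mul_assoc]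

lemma MM_apply (κ : ℕ → Fin 4) (x : ℕ → E3) (hx : ∀ i, x (i + 1) = mirror A (κ i) (x i)) (m : ℕ) :
    (x m).ofLp = MM A κ m *ᵥ (x 0).ofLp := by
  induction m with
  | zero => simp [MM]
  | succ m ih => rw [hx, mirror_eq, ih, MM, Matrix.mulVec_mulVec]

theorem even_bounces {A : Fin 4 → E3} (hA : IsRegular A) {n : ℕ} {p v : ℕ → E3}
    (h : PeriodicOrbit A n p v) : Even n := by
  obtain ⟨l, hl0, hl⟩ := hA
  by_contra hodd
  rw [Nat.not_even_iff_odd] at hodd
  choose κ hface hmir using h.bounce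
  have hκ : ∀ i, κ i ≠ κ (i + 1) := by
    intro i
    obtain ⟨t, ht, hp, hin⟩ := h.fly (i + 1)
    have h1 := hface (i + 1)
    rw [hp] at h1
    exact face_ne hl0 hl ht (hface i) h1 hin
  have hper : ∀ i, κ (i + n) = κ i := by
    intro i
    have h1 := hface (i + n)
    rw [show i + n + 1 = (i + 1) + n by ring, (h.closed (i + 1)).1] at h1
    exact face_unique hl0 hl h1 (hface i)
  -- the product of the reflections is an involution
  have hfix : MM A κ n *ᵥ (v 0).ofLp = (v 0).ofLp := by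
    rw [← MM_apply κ v hmir n]
    have := (h.closed 0).2
    rw [zero_add] at this
    rw [this]
  have hv0 : (v 0).ofLp ≠ 0 := by
    intro h0
    have h1 := h.unit 0
    have h2 : v 0 = 0 := by ext i; rw [h0]; rfl
    rw [h2, norm_zero] at h1
    exact zero_ne_one h1
  obtain ⟨ho, hd⟩ := MM_orth hl0 hl κ n
  rw [hodd.neg_one_pow] at hd
  have hsq := sq_eq_one ho hd hv0 hfix
  -- apply the reflections to a normal vector
  obtain ⟨j, hj⟩ : ∃ j : Fin 4, j ≠ κ 0 := exists_ne _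
  set x : ℕ → E3 := fun m => Nat.rec (A j - centre A) (fun i y => mirror A (κ i) y) m with hx
  have hx1 : ∀ i, x (i + 1) = mirror A (κ i) (x i) := fun i => rfl
  have hx2n : x (n + n) = x 0 := by
    have h1 := MM_apply κ x hx1 (n + n)
    rw [MM_add κ hper, hsq, Matrix.one_mulVec] at h1
    ext i
    rw [h1]
  have ha : ∀ i, cc A l i (x 0) = ((if j = i then 3 else -1 : ℤ) : ℝ) := by
    intro i
    rw [show x 0 = A j - centre A from rfl, cc_vertex hl0 hl]
    split_ifs <;> simp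
  obtain ⟨m, hm⟩ : ∃ m, n + n = m + 1 := ⟨n + n - 1, by have := h.pos; omega⟩
  obtain ⟨b, e, he, hb, -, hb1⟩ := not_dvd hl0 hl κ hκ x hx1 (fun i => if j = i then 3 else -1) ha
    (by simp only [if_neg hj]; decide) m
  obtain ⟨i, hi⟩ : ∃ i : Fin 4, i ≠ κ m := exists_ne _
  have h1 := hb i
  rw [← hm, hx2n, ha, hm] at h1
  have h2 : (3 : ℤ) ^ (m + 1) * (if j = i then 3 else -1) = b i := by exact_mod_cast h1
  have h3 : (3 : ℤ) ∣ b i := by
    rw [← h2, pow_succ]
    exact Dvd.dvd.mul_right (Dvd.intro_left _ rfl) _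
  have h4 := hb1 i hi
  exact he (by omega)

end Pool.Agent.R188.Tetra
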